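import Pool.Agent.TH.Comp

/-!
# Hamiltonian graphs: 2-connected, and `c(V \ S) ≤ |S|` for every nonempty `S`
-/

set_option autoImplicit false
set_option linter.unusedSectionVars false

namespace Pool.Agent.TH

open Finset
open scoped Classical

variable {α : Type*} [DecidableEq α] [Fintype α] {G : SimpleGraph α}

/-- a cyclic order along edges -/
structure CycOrd (G : SimpleGraph α) (nx : α → α) : Prop where
  adj : ∀ x, G.Adj x (nx x)
  inj : Function.Injective nx
  trans : ∀ C : Finset α, C.Nonempty → (∀ x ∈ C, nx x ∈ C) → C = univ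

theorem exists_cycOrd (h : ∃ v : α, ∃ p : G.Walk v v, p.IsHamiltonianCycle) :
    3 ≤ Fintype.card α ∧ ∃ nx : α → α, CycOrd G nx := by
  obtain ⟨v, p, hp⟩ := h
  have hlen : p.length = Fintype.card α := hp.length_eq
  refine ⟨hlen ▸ hp.isCycle.three_le_length, ?_⟩
  set n := p.length with hn
  have hn3 : 3 ≤ n := hp.isCycle.three_le_length
  have h0 : p.getVert 0 = p.getVert n := by
    rw [SimpleGraph.Walk.getVert_zero, hn, SimpleGraph.Walk.getVert_length]
  have hex : ∀ x : α, ∃ i, i < n ∧ p.getVert i = x := by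
    intro x
    obtain ⟨i, hi, hil⟩ := SimpleGraph.Walk.mem_support_iff_exists_getVert.1 (hp.mem_support x)
    rcases Nat.lt_or_ge i n with h | h
    · exact ⟨i, h, hi⟩
    · have : i = n := le_antisymm hil h
      exact ⟨0, by omega, by rw [h0, ← this, hi]⟩
  have hinj : ∀ i j, 1 ≤ i → i ≤ n → 1 ≤ j → j ≤ n → p.getVert i = p.getVert j → i = j := by
    intro i j hi hi' hj hj' h
    exact hp.isCycle.getVert_injOn (by simp; omega) (by simp; omega) h
  have hinj0 : ∀ i j, i < n → j < n → p.getVert i = p.getVert j → i = j := by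
    intro i j hi hj h
    exact hp.isCycle.getVert_injOn' (by simp; omega) (by simp; omega) h
  choose idx hidx hget using hex
  refine ⟨fun x => p.getVert (idx x + 1), ?_, ?_, ?_⟩
  · intro x
    have := p.adj_getVert_succ (hidx x)
    rwa [hget x] at this
  · intro x y hxy
    have hx := hidx x
    have hy := hidx y
    have : idx x + 1 = idx y + 1 :=
      hinj _ _ (by omega) (by omega) (by omega) (by omega) hxy
    have h2 : idx x = idx y := by omega
    rw [← hget x, ← hget y, h2]
  · intro C hC hcl
    have hstep : ∀ j, j < n → p.getVert j ∈ C → p.getVert (j + 1) ∈ C := by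
      intro j hj hjC
      have h1 := hcl _ hjC
      have h2 : idx (p.getVert j) = j := hinj0 _ _ (hidx _) hj (hget _)
      rwa [h2] at h1
    have hfwd : ∀ i, p.getVert i ∈ C → ∀ k, i + k ≤ n → p.getVert (i + k) ∈ C := by
      intro i hi k
      induction k with
      | zero => intro _; exact hi
      | succ k ih =>
        intro hk
        exact hstep (i + k) (by omega) (ih (by omega))
    obtain ⟨x, hx⟩ := hC
    have hx' : p.getVert (idx x) ∈ C := by rw [hget x]; exact hx
    have hxn := hidx x
    have hnC : p.getVert n ∈ C := by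
      have := hfwd _ hx' (n - idx x) (by omega)
      rwa [show idx x + (n - idx x) = n by omega] at this
    rw [← h0] at hnC
    ext y
    refine ⟨fun _ => mem_univ _, fun _ => ?_⟩
    have := hfwd 0 hnC (idx y) (by have := hidx y; omega)
    rw [zero_add, hget y] at this
    exact this

theorem CycOrd.cc_le {nx : α → α} (h : CycOrd G nx) {S : Finset α} (hS : S.Nonempty) :
    cc G (univ \ S) ≤ S.card := by
  have key : ∀ C ∈ comps G (univ \ S), ∃ s ∈ S, ∃ x ∈ C, nx x = s := by
    intro C hC
    by_contra hcon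
    push Not at hcon
    have hcl : ∀ x ∈ C, nx x ∈ C := by
      intro x hx
      have h1 : nx x ∉ S := fun h2 => hcon _ h2 x hx rfl
      exact (mem_comps.1 hC).2.2 x hx (nx x) (mem_sdiff.2 ⟨mem_univ _, h1⟩) (h.adj x)
    have h2 := h.trans C (mem_comps.1 hC).2.1.1 hcl
    obtain ⟨s, hs⟩ := hS
    have h3 : s ∈ C := by rw [h2]; exact mem_univ _
    exact (mem_sdiff.1 ((mem_comps.1 hC).1 h3)).2 hs
  obtain ⟨s0, hs0⟩ := hS
  have : Inhabited α := ⟨s0⟩
  choose! f hf x hx hfx using key
  unfold cc
  apply Finset.card_le_card_of_injOn f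
  · intro C hC
    exact hf C hC
  · intro C hC D hD hCD
    have h1 : x C = x D := h.inj (by rw [hfx C hC, hfx D hD, hCD])
    exact comp_unique hC hD (hx C hC) (h1 ▸ hx D hD)

theorem CycOrd.twoC {nx : α → α} (h : CycOrd G nx) (h3 : 3 ≤ Fintype.card α) : TwoC G univ := by
  refine ⟨by rw [card_univ]; omega, ?_, ?_⟩
  · rw [← cc_eq_one_iff]
    have hne : (univ : Finset α).Nonempty := by
      rw [← Finset.card_pos, card_univ]; omega
    apply le_antisymm _ (cc_pos hne)
    unfold cc
    rw [Finset.card_le_one]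
    have key : ∀ C ∈ comps G (univ : Finset α), C = univ := by
      intro C hC
      apply h.trans C (mem_comps.1 hC).2.1.1
      intro x hx
      exact (mem_comps.1 hC).2.2 x hx (nx x) (mem_univ _) (h.adj x)
    intro C hC D hD
    rw [key C hC, key D hD]
  · intro x _
    rw [← cc_eq_one_iff]
    have h1 := h.cc_le (singleton_nonempty x)
    rw [card_singleton, ← Finset.erase_eq] at h1
    have hne : ((univ : Finset α).erase x).Nonempty := by
      rw [← Finset.card_pos, card_erase_of_mem (mem_univ _), card_univ]; omega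
    exact le_antisymm h1 (cc_pos hne)

/-- Hamiltonian graphs have no violating sets -/
theorem ham_bad (h : ∃ v : α, ∃ p : G.Walk v v, p.IsHamiltonianCycle) {S : Finset α}
    (hS : S.Nonempty) : Bad G univ ∅ S ↔ ¬ Stb G S := by
  obtain ⟨_, nx, hnx⟩ := exists_cycOrd h
  have h1 := hnx.cc_le hS
  unfold Bad
  constructor
  · rintro (h2 | h2 | h2)
    · exact h2
    · omega
    · simp at h2
  · intro h2; exact Or.inl h2

theorem ham_twoC (h : ∃ v : α, ∃ p : G.Walk v v, p.IsHamiltonianCycle) : TwoC G univ := by
  obtain ⟨h3, nx, hnx⟩ := exists_cycOrd h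
  exact hnx.twoC h3

theorem ham_card (h : ∃ v : α, ∃ p : G.Walk v v, p.IsHamiltonianCycle) :
    3 ≤ Fintype.card α := (exists_cycOrd h).1

end Pool.Agent.TH
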