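import Pool.Agent.TH.RR

/-!
# Link with the Whitney sum
-/

set_option autoImplicit false

namespace Pool.Agent.TH

open Finset
open scoped Classical

variable {α : Type} [Fintype α] [DecidableEq α]

/-- at natural numbers both count proper colourings -/
theorem wt_ker_eq (G : SimpleGraph α)
    (h : ∀ S : Finset α, S.Nonempty → Stb G S → cc G (univ \ S) ≤ S.card) (q : ℕ)
    (f : α → Fin q) :
    Wt univ (Gd G univ ∅) (Setoid.ker f) = HamChrom.eG G (fun v => (f v : ℕ)) := by
  by_cases hp : HamChrom.Proper G (fun v => (f v : ℕ))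
  · rw [HamChrom.eG_pos hp]
    apply Wt_pos
    intro S _ hne hm T hT hTne hbad
    have hst : Stb G T := by
      intro x hx y hy hxy
      have h1 : f x = f y := hm x (hT hx) y (hT hy)
      exact hp x y hxy (congrArg (fun z : Fin q => (z : ℕ)) h1)
    rcases hbad with hb | hb | hb
    · exact hb hst
    · exact absurd (h T hTne hst) (not_le.2 hb)
    · simp at hb
  · rw [HamChrom.eG_neg hp]
    apply Wt_neg
    intro H
    apply hp
    intro i j hij e
    have he : f i = f j := Fin.ext e
    have h1 := H {i, j} (subset_univ _) ⟨i, mem_insert_self _ _⟩ (by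
      intro a ha b hb
      show f a = f b
      rw [mem_insert, mem_singleton] at ha hb
      rcases ha with rfl | rfl <;> rcases hb with rfl | rfl <;> simp [he])
    refine h1 {i, j} (Subset.refl _) ⟨i, mem_insert_self _ _⟩ (Or.inl ?_)
    intro hst
    exact hst i (by simp) j (by simp) hij

theorem I_wt_eq_whitney (G : SimpleGraph α) [DecidableRel G.Adj]
    (h : ∀ S : Finset α, S.Nonempty → Stb G S → cc G (univ \ S) ≤ S.card) (x : ℝ) :
    I x (Wt univ (Gd G univ ∅)) = HamChrom.whitney G x := by
  refine HamChrom.IsPoly.eq_of_nat (f := fun x => I x (Wt univ (Gd G univ ∅)))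
    (g := HamChrom.whitney G) (I_isPoly _) (HamChrom.whitney_isPoly G) ?_ x
  intro q
  show I (q : ℝ) _ = _
  rw [I_nat, HamChrom.whitney_nat]
  exact Finset.sum_congr rfl (fun f _ => wt_ker_eq G h q f)

/-- `RR G univ ∅` is the normalised chromatic polynomial if no stable set is violating -/
theorem link_whitney (G : SimpleGraph α) [DecidableRel G.Adj]
    (h : ∀ S : Finset α, S.Nonempty → Stb G S → cc G (univ \ S) ≤ S.card) {x : ℝ} (hx : x ≠ 0) :
    RR G univ ∅ x = (-1) ^ Fintype.card α * HamChrom.whitney G x / (x * (x - 1)) := by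
  unfold RR Rc
  rw [I_wt_eq_whitney G h x, Finset.card_univ]
  congr 2
  field_simp

/-- positivity of the signed Whitney sum from the lower bound for `RR` -/
theorem whitney_pos_of (G : SimpleGraph α) [DecidableRel G.Adj]
    (h : ∀ S : Finset α, S.Nonempty → Stb G S → cc G (univ \ S) ≤ S.card) {x : ℝ} (h1 : 1 < x)
    (hpos : 0 < RR G univ ∅ x) :
    0 < (-1) ^ Fintype.card α * HamChrom.whitney G x := by
  have hx0 : 0 < x := by linarith
  rw [link_whitney G h hx0.ne'] at hpos
  have h2 : 0 < x * (x - 1) := mul_pos hx0 (by linarith)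
  exact (div_pos_iff_of_pos_right h2).1 hpos

end Pool.Agent.TH
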