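import Pool.Agent.TH.Defs

set_option autoImplicit false
set_option linter.unusedSectionVars false
set_option linter.unusedVariables false

namespace Pool.Agent.TH

open Finset
open scoped Classical

variable {α : Type*} [DecidableEq α]

/-! ## A. Component calculus -/

section A
variable {G : SimpleGraph α} {W W' A B C D S T V K : Finset α} {x y z p q : α}

theorem Rch.refl (hx : x ∈ W) : Rch G W x x := ⟨hx, hx, Relation.ReflTransGen.refl⟩

theorem Rch.symm (h : Rch G W x y) : Rch G W y x := by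
  obtain ⟨hx, hy, hr⟩ := h
  refine ⟨hy, hx, ?_⟩
  clear hy
  induction hr with
  | refl => exact Relation.ReflTransGen.refl
  | tail _ hbc ih => exact Relation.ReflTransGen.head ⟨hbc.1.symm, hbc.2.2, hbc.2.1⟩ ih

theorem Rch.trans (h : Rch G W x y) (h' : Rch G W y z) : Rch G W x z :=
  ⟨h.1, h'.2.1, h.2.2.trans h'.2.2⟩

theorem Rch.mono (hW : W ⊆ W') (h : Rch G W x y) : Rch G W' x y := by
  obtain ⟨hx, hy, hr⟩ := h
  refine ⟨hW hx, hW hy, ?_⟩
  clear hy
  induction hr with
  | refl => exact Relation.ReflTransGen.refl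
  | tail _ hbc ih => exact Relation.ReflTransGen.tail ih ⟨hbc.1, hW hbc.2.1, hW hbc.2.2⟩

theorem Rch.of_adj (hx : x ∈ W) (hy : y ∈ W) (h : G.Adj x y) : Rch G W x y :=
  ⟨hx, hy, Relation.ReflTransGen.single ⟨h, hx, hy⟩⟩

/-- a set closed under adjacency inside `W` is closed under `Rch` -/
theorem Rch.mem_of_closed (h : Rch G W x y) (hx : x ∈ C)
    (hcl : ∀ a ∈ C, ∀ b ∈ W, G.Adj a b → b ∈ C) : y ∈ C := by
  obtain ⟨hxW, hyW, hr⟩ := h
  clear hyW
  induction hr with
  | refl => exact hx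
  | tail _ hbc ih => exact hcl _ ih _ hbc.2.2 hbc.1

/-- reachability stays inside a set closed under adjacency -/
theorem Rch.restrict (h : Rch G W x y) (hx : x ∈ C) (hC : C ⊆ W)
    (hcl : ∀ a ∈ C, ∀ b ∈ W, G.Adj a b → b ∈ C) : Rch G C x y := by
  obtain ⟨hxW, hyW, hr⟩ := h
  clear hyW
  induction hr with
  | refl => exact Rch.refl hx
  | tail _ hbc ih =>
    exact ih.trans (Rch.of_adj ih.2.1 (hcl _ ih.2.1 _ hbc.2.2 hbc.1) hbc.1)

theorem rchset_closed (a : α) (ha : a ∈ W.filter (fun y => Rch G W x y)) (b : α) (hb : b ∈ W)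
    (hab : G.Adj a b) : b ∈ W.filter (fun y => Rch G W x y) := by
  rw [Finset.mem_filter] at ha ⊢
  exact ⟨hb, ha.2.trans (Rch.of_adj ha.1 hb hab)⟩

theorem mem_comps : C ∈ comps G W ↔ C ⊆ W ∧ Conn G C ∧ ∀ x ∈ C, ∀ y ∈ W, G.Adj x y → y ∈ C := by
  unfold comps
  constructor
  · intro h
    obtain ⟨x, hx, rfl⟩ := Finset.mem_image.1 h
    have hxx : x ∈ W.filter (fun y => Rch G W x y) := Finset.mem_filter.2 ⟨hx, Rch.refl hx⟩
    have hcl := fun a ha b hb hab => rchset_closed (G := G) (W := W) (x := x) a ha b hb hab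
    refine ⟨Finset.filter_subset _ _, ⟨⟨x, hxx⟩, ?_⟩, hcl⟩
    intro a ha b hb
    have h1 : Rch G (W.filter (fun y => Rch G W x y)) x a :=
      Rch.restrict (Finset.mem_filter.1 ha).2 hxx (Finset.filter_subset _ _) hcl
    have h2 : Rch G (W.filter (fun y => Rch G W x y)) x b :=
      Rch.restrict (Finset.mem_filter.1 hb).2 hxx (Finset.filter_subset _ _) hcl
    exact h1.symm.trans h2
  · rintro ⟨hCW, ⟨⟨x, hx⟩, hconn⟩, hcl⟩
    refine Finset.mem_image.2 ⟨x, hCW hx, ?_⟩
    ext y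
    rw [Finset.mem_filter]
    constructor
    · intro h
      exact Rch.mem_of_closed h.2 hx hcl
    · intro hy
      exact ⟨hCW hy, Rch.mono hCW (hconn x hx y hy)⟩

theorem comps_sub (hC : C ∈ comps G W) : C ⊆ W := (mem_comps.1 hC).1

theorem comps_conn (hC : C ∈ comps G W) : Conn G C := (mem_comps.1 hC).2.1

theorem comps_nonempty (hC : C ∈ comps G W) : C.Nonempty := (comps_conn hC).1

theorem comps_closed (hC : C ∈ comps G W) (hx : x ∈ C) (hy : y ∈ W) (h : G.Adj x y) : y ∈ C :=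
  (mem_comps.1 hC).2.2 x hx y hy h

theorem exists_comp (hx : x ∈ W) : ∃ C ∈ comps G W, x ∈ C := by
  refine ⟨W.filter (fun y => Rch G W x y), Finset.mem_image.2 ⟨x, hx, rfl⟩, ?_⟩
  exact Finset.mem_filter.2 ⟨hx, Rch.refl hx⟩

theorem comps_mem_of_rch (hC : C ∈ comps G W) (hx : x ∈ C) (h : Rch G W x y) : y ∈ C :=
  Rch.mem_of_closed h hx (fun _ ha _ hb hab => comps_closed hC ha hb hab)

theorem comp_unique (hC : C ∈ comps G W) (hD : D ∈ comps G W) (hx : x ∈ C) (hx' : x ∈ D) :
    C = D := by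
  apply Finset.Subset.antisymm
  · intro y hy
    exact comps_mem_of_rch hD hx' (Rch.mono (comps_sub hC) ((comps_conn hC).2 x hx y hy))
  · intro y hy
    exact comps_mem_of_rch hC hx (Rch.mono (comps_sub hD) ((comps_conn hD).2 x hx' y hy))

theorem comps_disjoint (hC : C ∈ comps G W) (hD : D ∈ comps G W) (h : C ≠ D) : Disjoint C D := by
  rw [Finset.disjoint_left]
  intro x hx hx'
  exact h (comp_unique hC hD hx hx')

theorem rch_iff_comp : Rch G W x y ↔ ∃ C ∈ comps G W, x ∈ C ∧ y ∈ C := by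
  constructor
  · intro h
    obtain ⟨C, hC, hx⟩ := exists_comp (G := G) h.1
    exact ⟨C, hC, hx, comps_mem_of_rch hC hx h⟩
  · rintro ⟨C, hC, hx, hy⟩
    exact Rch.mono (comps_sub hC) ((comps_conn hC).2 x hx y hy)

/-- connectivity by cuts -/
theorem conn_iff_cut : Conn G A ↔ A.Nonempty ∧ ∀ X ⊆ A, X.Nonempty → X ≠ A → Tch G X (A \ X) := by
  constructor
  · rintro ⟨hne, hconn⟩
    refine ⟨hne, ?_⟩
    intro X hXA hXn hXne
    by_contra hT
    obtain ⟨x, hx⟩ := hXn
    apply hXne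
    apply Finset.Subset.antisymm hXA
    intro y hy
    refine Rch.mem_of_closed (hconn x (hXA hx) y hy) hx ?_
    intro a ha b hb hab
    by_contra hbX
    exact hT ⟨a, ha, b, Finset.mem_sdiff.2 ⟨hb, hbX⟩, hab⟩
  · rintro ⟨hne, hcut⟩
    refine ⟨hne, ?_⟩
    intro x hx y hy
    obtain ⟨C, hC, hxC⟩ := exists_comp (G := G) hx
    have hCA : C = A := by
      by_contra h
      obtain ⟨a, ha, b, hb, hab⟩ := hcut C (comps_sub hC) ⟨x, hxC⟩ h
      rw [Finset.mem_sdiff] at hb
      exact hb.2 (comps_closed hC ha hb.1 hab)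
    rw [← hCA]
    rw [← hCA] at hy
    exact (comps_conn hC).2 x hxC y hy

theorem comps_of_conn (h : Conn G W) : comps G W = {W} := by
  ext C
  rw [Finset.mem_singleton]
  constructor
  · intro hC
    obtain ⟨x, hx⟩ := comps_nonempty hC
    apply Finset.Subset.antisymm (comps_sub hC)
    intro y hy
    exact comps_mem_of_rch hC hx (h.2 x (comps_sub hC hx) y hy)
  · rintro rfl
    exact mem_comps.2 ⟨Finset.Subset.refl _, h, fun _ _ y hy _ => hy⟩

theorem cc_eq_one_iff : cc G W = 1 ↔ Conn G W := by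
  constructor
  · intro h
    unfold cc at h
    obtain ⟨C, hC⟩ := Finset.card_eq_one.1 h
    have hCm : C ∈ comps G W := by rw [hC]; exact Finset.mem_singleton_self C
    have hCW : C = W := by
      apply Finset.Subset.antisymm (comps_sub hCm)
      intro y hy
      obtain ⟨D, hD, hyD⟩ := exists_comp (G := G) hy
      rw [hC, Finset.mem_singleton] at hD
      rw [← hD]
      exact hyD
    rw [← hCW]
    exact comps_conn hCm
  · intro h
    unfold cc
    rw [comps_of_conn h, Finset.card_singleton]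

theorem cc_pos (h : W.Nonempty) : 1 ≤ cc G W := by
  obtain ⟨x, hx⟩ := h
  obtain ⟨C, hC, _⟩ := exists_comp (G := G) hx
  exact Finset.card_pos.2 ⟨C, hC⟩

theorem cc_empty : cc G (∅ : Finset α) = 0 := by
  unfold cc comps
  simp

theorem comp_up (hC : C ∈ comps G W) (hW : W ⊆ W') (hn : ¬ Tch G C (W' \ W)) :
    C ∈ comps G W' := by
  refine mem_comps.2 ⟨(comps_sub hC).trans hW, comps_conn hC, ?_⟩
  intro x hx y hy hxy
  by_cases hyW : y ∈ W
  · exact comps_closed hC hx hyW hxy
  · exact absurd ⟨x, hx, y, Finset.mem_sdiff.2 ⟨hy, hyW⟩, hxy⟩ hn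

theorem comp_down (hC : C ∈ comps G W') (hW : W ⊆ W') (hCW : C ⊆ W) : C ∈ comps G W :=
  mem_comps.2 ⟨hCW, comps_conn hC, fun _ hx _ hy hxy => comps_closed hC hx (hW hy) hxy⟩

theorem tch_symm (h : Tch G A B) : Tch G B A := by
  obtain ⟨x, hx, y, hy, hxy⟩ := h
  exact ⟨y, hy, x, hx, hxy.symm⟩

theorem tch_mono (h : Tch G A B) (hA : A ⊆ C) (hB : B ⊆ D) : Tch G C D := by
  obtain ⟨x, hx, y, hy, hxy⟩ := h
  exact ⟨x, hA hx, y, hB hy, hxy⟩

theorem comps_union (h : Disjoint W W') (hn : ¬ Tch G W W') :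
    comps G (W ∪ W') = comps G W ∪ comps G W' := by
  have hn' : ¬ Tch G W' W := fun h' => hn (tch_symm h')
  ext C
  rw [Finset.mem_union]
  constructor
  · intro hC
    obtain ⟨x, hx⟩ := comps_nonempty hC
    rcases Finset.mem_union.1 (comps_sub hC hx) with hxW | hxW
    · left
      refine comp_down hC Finset.subset_union_left ?_
      intro y hy
      refine Rch.mem_of_closed (C := W) ((comps_conn hC).2 x hx y hy) hxW ?_
      intro a ha b hb hab
      rcases Finset.mem_union.1 (comps_sub hC hb) with hbW | hbW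
      · exact hbW
      · exact absurd ⟨a, ha, b, hbW, hab⟩ hn
    · right
      refine comp_down hC Finset.subset_union_right ?_
      intro y hy
      refine Rch.mem_of_closed (C := W') ((comps_conn hC).2 x hx y hy) hxW ?_
      intro a ha b hb hab
      rcases Finset.mem_union.1 (comps_sub hC hb) with hbW | hbW
      · exact absurd ⟨a, ha, b, hbW, hab⟩ hn'
      · exact hbW
  · rintro (hC | hC)
    · refine comp_up hC Finset.subset_union_left ?_
      rintro ⟨x, hx, y, hy, hxy⟩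
      rw [Finset.mem_sdiff, Finset.mem_union] at hy
      exact hn ⟨x, comps_sub hC hx, y, hy.1.resolve_left hy.2, hxy⟩
    · refine comp_up hC Finset.subset_union_right ?_
      rintro ⟨x, hx, y, hy, hxy⟩
      rw [Finset.mem_sdiff, Finset.mem_union] at hy
      exact hn' ⟨x, comps_sub hC hx, y, hy.1.resolve_right hy.2, hxy⟩

theorem cc_union (h : Disjoint W W') (hn : ¬ Tch G W W') :
    cc G (W ∪ W') = cc G W + cc G W' := by
  unfold cc
  rw [comps_union h hn, Finset.card_union_of_disjoint]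
  rw [Finset.disjoint_left]
  intro C hC hC'
  obtain ⟨x, hx⟩ := comps_nonempty hC
  exact (Finset.disjoint_left.1 h) (comps_sub hC hx) (comps_sub hC' hx)

theorem conn_union (hA : Conn G A) (hB : Conn G B) (h : Tch G A B ∨ (A ∩ B).Nonempty) :
    Conn G (A ∪ B) := by
  have key : ∃ a ∈ A, ∃ b ∈ B, Rch G (A ∪ B) a b := by
    rcases h with ⟨a, ha, b, hb, hab⟩ | ⟨a, ha⟩
    · exact ⟨a, ha, b, hb, Rch.of_adj (Finset.mem_union_left _ ha) (Finset.mem_union_right _ hb) hab⟩
    · rw [Finset.mem_inter] at ha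
      exact ⟨a, ha.1, a, ha.2, Rch.refl (Finset.mem_union_left _ ha.1)⟩
  obtain ⟨a, ha, b, hb, hab⟩ := key
  have h1 : ∀ x ∈ A ∪ B, Rch G (A ∪ B) a x := by
    intro x hx
    rcases Finset.mem_union.1 hx with hx | hx
    · exact Rch.mono Finset.subset_union_left (hA.2 a ha x hx)
    · exact hab.trans (Rch.mono Finset.subset_union_right (hB.2 b hb x hx))
  refine ⟨⟨a, Finset.mem_union_left _ ha⟩, ?_⟩
  intro x hx y hy
  exact (h1 x hx).symm.trans (h1 y hy)

theorem conn_sub_comp (hA : Conn G A) (hAW : A ⊆ W) : ∃ C ∈ comps G W, A ⊆ C := by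
  obtain ⟨⟨x, hx⟩, hc⟩ := hA
  obtain ⟨C, hC, hxC⟩ := exists_comp (G := G) (hAW hx)
  refine ⟨C, hC, ?_⟩
  intro y hy
  exact comps_mem_of_rch hC hxC (Rch.mono hAW (hc x hx y hy))

theorem two_le_cc_iff : 2 ≤ cc G W ↔ ∃ x ∈ W, ∃ y ∈ W, ¬ Rch G W x y := by
  constructor
  · intro h
    by_contra hcon
    push Not at hcon
    have hne : W.Nonempty := by
      rw [Finset.nonempty_iff_ne_empty]
      rintro rfl
      rw [cc_empty] at h
      omega
    have := (cc_eq_one_iff (G := G) (W := W)).2 ⟨hne, hcon⟩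
    omega
  · rintro ⟨x, hx, y, hy, hxy⟩
    by_contra hcon
    have h1 := cc_pos (G := G) ⟨x, hx⟩
    have h2 : cc G W = 1 := by omega
    exact hxy ((cc_eq_one_iff.1 h2).2 x hx y hy)

theorem comp_nb (hV : Conn G V) (hS : S ⊆ V) (hSn : S.Nonempty) (hC : C ∈ comps G (V \ S)) :
    Tch G C S := by
  have hCV : C ⊆ V := (comps_sub hC).trans Finset.sdiff_subset
  have hne : C ≠ V := by
    rintro rfl
    obtain ⟨s, hs⟩ := hSn
    exact (Finset.mem_sdiff.1 (comps_sub hC (hS hs))).2 hs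
  obtain ⟨x, hx, y, hy, hxy⟩ := (conn_iff_cut.1 hV).2 C hCV (comps_nonempty hC) hne
  rw [Finset.mem_sdiff] at hy
  refine ⟨x, hx, y, ?_, hxy⟩
  by_contra hyS
  exact hy.2 (comps_closed hC hx (Finset.mem_sdiff.2 ⟨hy.1, hyS⟩) hxy)

theorem ThreeC.twoC (h : ThreeC G V) : TwoC G V := by
  have hcard := h.card
  have herase : ∀ x ∈ V, Conn G (V.erase x) := by
    intro x hx
    have := h.conn x hx x hx
    rwa [show V \ {x, x} = V.erase x by
      ext z
      simp only [Finset.mem_sdiff, Finset.mem_insert, Finset.mem_singleton, Finset.mem_erase]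
      tauto] at this
  refine ⟨by omega, ?_, herase⟩
  obtain ⟨x, hx, y, hy, hxy⟩ := Finset.one_lt_card.1 (by omega : 1 < V.card)
  have hne : (V \ {x, y}).Nonempty := (h.conn x hx y hy).1
  obtain ⟨z, hz⟩ := hne
  have hu : V = V.erase x ∪ V.erase y := by
    ext w
    simp only [Finset.mem_union, Finset.mem_erase]
    constructor
    · intro hw
      by_cases hwx : w = x
      · right
        exact ⟨by rw [hwx]; exact hxy, hw⟩
      · left
        exact ⟨hwx, hw⟩
    · rintro (h | h) <;> exact h.2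
  rw [hu]
  apply conn_union (herase x hx) (herase y hy)
  right
  refine ⟨z, ?_⟩
  simp only [Finset.mem_sdiff, Finset.mem_insert, Finset.mem_singleton, not_or] at hz
  simp only [Finset.mem_inter, Finset.mem_erase]
  exact ⟨⟨hz.2.1, hz.1⟩, ⟨hz.2.2, hz.1⟩⟩

/-- a nonempty set with at most 2 neighbours leaves no other vertex -/
theorem ThreeC.nb (h : ThreeC G V) (hC : C ⊆ V) (hne : C.Nonempty) (hp : p ∈ V) (hq : q ∈ V)
    (hn : ∀ c ∈ C, ∀ y ∈ V, G.Adj c y → y ∈ C ∨ y = p ∨ y = q) (hpC : p ∉ C) (hqC : q ∉ C) :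
    V ⊆ C ∪ {p, q} := by
  have hconn := h.conn p hp q hq
  obtain ⟨c, hc⟩ := hne
  intro y hy
  by_cases hypq : y = p ∨ y = q
  · rw [Finset.mem_union, Finset.mem_insert, Finset.mem_singleton]
    right
    exact hypq
  · rw [Finset.mem_union]
    left
    have hc' : c ∈ V \ {p, q} := by
      rw [Finset.mem_sdiff, Finset.mem_insert, Finset.mem_singleton]
      refine ⟨hC hc, ?_⟩
      rintro (rfl | rfl)
      · exact hpC hc
      · exact hqC hc
    have hy' : y ∈ V \ {p, q} := by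
      rw [Finset.mem_sdiff, Finset.mem_insert, Finset.mem_singleton]
      exact ⟨hy, hypq⟩
    refine Rch.mem_of_closed (hconn.2 c hc' y hy') hc ?_
    intro a ha b hb hab
    rw [Finset.mem_sdiff, Finset.mem_insert, Finset.mem_singleton] at hb
    rcases hn a ha b hb.1 hab with h1 | h1
    · exact h1
    · exact absurd h1 hb.2

theorem TwoC.nb (h : TwoC G V) (hC : C ⊆ V) (hne : C.Nonempty) (hp : p ∈ V)
    (hn : ∀ c ∈ C, ∀ y ∈ V, G.Adj c y → y ∈ C ∨ y = p) (hpC : p ∉ C) : V ⊆ insert p C := by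
  have hconn := h.erase p hp
  obtain ⟨c, hc⟩ := hne
  intro y hy
  rw [Finset.mem_insert]
  by_cases hyp : y = p
  · left
    exact hyp
  · right
    have hc' : c ∈ V.erase p := by
      rw [Finset.mem_erase]
      refine ⟨?_, hC hc⟩
      rintro rfl
      exact hpC hc
    have hy' : y ∈ V.erase p := Finset.mem_erase.2 ⟨hyp, hy⟩
    refine Rch.mem_of_closed (hconn.2 c hc' y hy') hc ?_
    intro a ha b hb hab
    rw [Finset.mem_erase] at hb
    rcases hn a ha b hb.2 hab with h1 | h1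
    · exact h1
    · exact absurd h1 hb.1

end A

end Pool.Agent.TH
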