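import Pool.Agent.TH.RR
import Pool.Agent.TH.Comp

/-! # The base cases: two and three vertices -/

set_option autoImplicit false

namespace Pool.Agent.TH

open Finset
open scoped Classical

variable {α : Type*} [DecidableEq α]

section K
variable {G : SimpleGraph α} {V : Finset α} {F : Finset (Finset α)} {u v : α}

private theorem base_adj (h : Conn G {u, v}) (hne : u ≠ v) : G.Adj u v := by
  obtain ⟨a, ha, b, hb, hab⟩ := (conn_iff_cut.1 h).2 {u} (by simp) ⟨u, by simp⟩ (by
    intro h'
    have : v ∈ ({u} : Finset α) := by rw [h']; simp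
    exact hne (mem_singleton.1 this).symm)
  rw [mem_singleton.1 ha] at hab
  simp only [mem_sdiff, mem_insert, mem_singleton] at hb
  rcases hb with ⟨rfl | rfl, h⟩
  · exact absurd rfl h
  · exact hab

private theorem base_gd (h2 : TwoC G V) (hF : NCF G V F)
    (hcl : ∀ x ∈ V, ∀ y ∈ V, x ≠ y → G.Adj x y) :
    ∀ S ⊆ V, S.Nonempty → (Gd G V F S ↔ S.card = 1) := by
  intro S hS hne
  constructor
  · intro h
    have h1 : 1 ≤ S.card := hne.card_pos
    by_contra hc
    obtain ⟨a, ha, b, hb, hab⟩ := Finset.one_lt_card.1 (by omega : 1 < S.card)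
    exact h {a, b} (by
        intro z hz
        rcases mem_insert.1 hz with rfl | hz
        · exact ha
        · rw [mem_singleton.1 hz]; exact hb)
      ⟨a, by simp⟩ (Or.inl (fun hst => hst a (by simp) b (by simp) (hcl a (hS ha) b (hS hb) hab)))
  · intro h T hT hTne hbad
    obtain ⟨a, rfl⟩ := Finset.card_eq_one.1 h
    have hTa : T = {a} := by
      rcases Finset.subset_singleton_iff.1 hT with h' | h'
      · rw [h'] at hTne; exact absurd hTne (by simp)
      · exact h'
    subst hTa
    have haV : a ∈ V := hS (mem_singleton_self a)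
    rcases hbad with hb | hb | hb
    · apply hb
      intro x hx y hy
      rw [mem_singleton.1 hx, mem_singleton.1 hy]
      exact G.loopless.irrefl a
    · have e : V \ {a} = V.erase a := (Finset.erase_eq V a).symm
      rw [e, cc_eq_one_iff.2 (h2.erase a haV), card_singleton] at hb
      omega
    · have := (hF.tgt _ hb).card
      rw [card_singleton] at this
      omega

variable [Fintype α]

theorem RR_two (h2 : TwoC G V) (hF : NCF G V F) (hV : V.card = 2) {x : ℝ} (hx : 1 < x) :
    RR G V F x = 1 := by
  have hcl : ∀ x ∈ V, ∀ y ∈ V, x ≠ y → G.Adj x y := by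
    intro x hx y hy hne
    have : ({x, y} : Finset α) = V := by
      apply Finset.eq_of_subset_of_card_le
      · intro z hz
        rcases mem_insert.1 hz with rfl | hz
        · exact hx
        · rw [mem_singleton.1 hz]; exact hy
      · rw [hV, card_pair hne]
    exact base_adj (by rw [this]; exact h2.conn) hne
  have hgd := base_gd h2 hF hcl
  obtain ⟨u, v, huv, hVe⟩ := Finset.card_eq_two.1 hV
  have hx0 : x ≠ 0 := by linarith
  have hx1 : x ≠ 1 := by linarith
  unfold RR
  have hu : u ∈ V := by rw [hVe]; simp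
  have hv : v ∈ V := by rw [hVe]; simp
  have key := Rc_edge x hx0 hx1 u v huv (Gd G V F)
    (by
      rw [hgd {u, v} (by rw [hVe]) ⟨u, by simp⟩, card_pair huv]
      omega)
    (by rw [hgd {u} (by simpa using hu) ⟨u, by simp⟩]; simp)
    (by rw [hgd {v} (by simpa using hv) ⟨v, by simp⟩]; simp)
  rw [← hVe] at key
  exact key

theorem RR_three (h2 : TwoC G V) (hF : NCF G V F) (hV : V.card = 3) {x : ℝ} (hx : 1 < x) :
    RR G V F x = 2 - x := by
  have hcl : ∀ x ∈ V, ∀ y ∈ V, x ≠ y → G.Adj x y := by
    intro x hx y hy hne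
    have h1 : ({x, y} : Finset α) ⊆ V := by
      intro z hz
      rcases mem_insert.1 hz with rfl | hz
      · exact hx
      · rw [mem_singleton.1 hz]; exact hy
    have h3 : (V \ {x, y}).card = 1 := by
      rw [Finset.card_sdiff_of_subset h1, hV, card_pair hne]
    obtain ⟨z, hz⟩ := Finset.card_eq_one.1 h3
    have hzV : z ∈ V \ {x, y} := by rw [hz]; simp
    have hzV1 := (mem_sdiff.1 hzV).1
    have hzV2 := (mem_sdiff.1 hzV).2
    have : ({x, y} : Finset α) = V.erase z := by
      apply Finset.eq_of_subset_of_card_le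
      · intro w hw
        refine mem_erase.2 ⟨?_, h1 hw⟩
        rintro rfl
        exact hzV2 hw
      · rw [card_erase_of_mem hzV1, hV, card_pair hne]
    exact base_adj (by rw [this]; exact h2.erase z hzV1) hne
  have hgd := base_gd h2 hF hcl
  obtain ⟨u, v, w, huv, huw, hvw, hVe⟩ := Finset.card_eq_three.1 hV
  have hx0 : x ≠ 0 := by linarith
  have hx1 : x ≠ 1 := by linarith
  unfold RR
  have key := Rc_triangle x hx0 hx1 u v w huv huw hvw (Gd G V F) (by rw [← hVe]; exact hgd)
  rw [← hVe] at key
  exact key

end K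

end Pool.Agent.TH
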