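import Pool.Agent.TH.Comp

set_option autoImplicit false
set_option linter.unusedVariables false
set_option linter.unusedSectionVars false

namespace Pool.Agent.TH

open Finset
open scoped Classical

variable {α : Type*} [DecidableEq α]

/-! ## B. Crossing -/

section B
variable {G : SimpleGraph α} {V S T K L B C W X : Finset α} {x y : α}

/-- components are nonempty -/
private theorem comp_nonempty (hC : C ∈ comps G W) : C.Nonempty := (mem_comps.1 hC).2.1.1

private theorem comp_sub (hC : C ∈ comps G W) : C ⊆ W := (mem_comps.1 hC).1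

private theorem comp_conn (hC : C ∈ comps G W) : Conn G C := (mem_comps.1 hC).2.1

private theorem comp_closed (hC : C ∈ comps G W) {x y : α} (hx : x ∈ C) (hy : y ∈ W) (h : G.Adj x y) :
    y ∈ C := (mem_comps.1 hC).2.2 x hx y hy h

/-- an inner component of `K \ T` is a component of `V \ T'` for each `T'` between `K ∩ T` and `T` -/
theorem inner_comp (hK : K ∈ comps G (V \ S)) (hC : C ∈ comps G (K \ T)) (hn : ¬ Tch G C S)
    {T' : Finset α} (h1 : K ∩ T ⊆ T') (h2 : T' ⊆ T) : C ∈ comps G (V \ T') := by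
  have hKV : K ⊆ V \ S := comp_sub hK
  have hCK : C ⊆ K \ T := comp_sub hC
  refine mem_comps.2 ⟨?_, comp_conn hC, ?_⟩
  · intro x hx
    have h3 := hCK hx
    rw [mem_sdiff] at h3
    have h4 := hKV h3.1
    rw [mem_sdiff] at h4
    exact mem_sdiff.2 ⟨h4.1, fun h => h3.2 (h2 h)⟩
  · intro x hx y hy hxy
    rw [mem_sdiff] at hy
    have hyS : y ∉ S := fun h => hn ⟨x, hx, y, h, hxy⟩
    have h3 := hCK hx
    rw [mem_sdiff] at h3
    have hyK : y ∈ K := comp_closed hK h3.1 (mem_sdiff.2 ⟨hy.1, hyS⟩) hxy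
    have hyT : y ∉ T := fun h => hy.2 (h1 (mem_inter.2 ⟨hyK, h⟩))
    exact comp_closed hC hx (mem_sdiff.2 ⟨hyK, hyT⟩) hxy

/-- the crossing count -/
theorem cc_cross (hV : Conn G V) (hS : S ⊆ V) (hT : T ⊆ V) (hd : Disjoint S T) (hSn : S.Nonempty) :
    cc G (V \ T) = ((comps G (V \ T)).filter (fun L => (L ∩ S).Nonempty)).card
      + ∑ K ∈ (comps G (V \ S)).filter (fun K => (K ∩ T).Nonempty), inn G S T K := by
  have h1 : (comps G (V \ T)).filter (fun L => ¬ (L ∩ S).Nonempty) =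
      ((comps G (V \ S)).filter (fun K => (K ∩ T).Nonempty)).biUnion
        (fun K => (comps G (K \ T)).filter (fun C => ¬ Tch G C S)) := by
    ext C
    rw [mem_filter, mem_biUnion]
    constructor
    · rintro ⟨hC, hCS⟩
      have hCd : Disjoint C S := by
        rw [Finset.not_nonempty_iff_eq_empty] at hCS
        exact disjoint_iff_inter_eq_empty.2 hCS
      have hCV : C ⊆ V \ T := comp_sub hC
      have hCVS : C ⊆ V \ S := by
        intro x hx
        exact mem_sdiff.2 ⟨(mem_sdiff.1 (hCV hx)).1, disjoint_left.1 hCd hx⟩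
      obtain ⟨K, hK, hCK⟩ := conn_sub_comp (comp_conn hC) hCVS
      have hCKT : C ⊆ K \ T := fun x hx => mem_sdiff.2 ⟨hCK hx, (mem_sdiff.1 (hCV hx)).2⟩
      have hKT : K \ T ⊆ V \ T :=
        sdiff_subset_sdiff ((comp_sub hK).trans sdiff_subset) (Finset.Subset.refl _)
      have hC2 : C ∈ comps G (K \ T) := comp_down hC hKT hCKT
      have hnt : ¬ Tch G C S := by
        rintro ⟨x, hx, y, hy, hxy⟩
        have : y ∈ C := comp_closed hC hx (mem_sdiff.2 ⟨hS hy, disjoint_left.1 hd hy⟩) hxy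
        exact disjoint_left.1 hCd this hy
      refine ⟨K, mem_filter.2 ⟨hK, ?_⟩, mem_filter.2 ⟨hC2, hnt⟩⟩
      by_contra hKTn
      have hKT0 : K \ T = K := by
        rw [_root_.sdiff_eq_self_iff_disjoint, disjoint_comm]
        rw [Finset.not_nonempty_iff_eq_empty] at hKTn
        exact disjoint_iff_inter_eq_empty.2 hKTn
      rw [hKT0, comps_of_conn (comp_conn hK), mem_singleton] at hC2
      rw [hC2] at hnt
      exact hnt (comp_nb hV hS hSn hK)
    · rintro ⟨K, hK, hC⟩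
      rw [mem_filter] at hK hC
      refine ⟨inner_comp hK.1 hC.1 hC.2 inter_subset_right (Finset.Subset.refl _), ?_⟩
      rintro ⟨x, hx⟩
      rw [mem_inter] at hx
      have h3 := comp_sub hC.1 hx.1
      have h4 := comp_sub hK.1 (mem_sdiff.1 h3).1
      exact (mem_sdiff.1 h4).2 hx.2
  have h2 : ((comps G (V \ T)).filter (fun L => ¬ (L ∩ S).Nonempty)).card =
      ∑ K ∈ (comps G (V \ S)).filter (fun K => (K ∩ T).Nonempty), inn G S T K := by
    rw [h1, card_biUnion]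
    · rfl
    · intro K hK K' hK' hne
      rw [Function.onFun, disjoint_left]
      intro C hC hC'
      rw [mem_filter] at hC hC'
      obtain ⟨x, hx⟩ := comp_nonempty hC.1
      have h3 := (mem_sdiff.1 (comp_sub hC.1 hx)).1
      have h4 := (mem_sdiff.1 (comp_sub hC'.1 hx)).1
      exact hne (comp_unique (mem_filter.1 hK).1 (mem_filter.1 hK').1 h3 h4)
  rw [← h2]
  unfold cc
  exact (card_filter_add_card_filter_not (s := comps G (V \ T)) (fun L => (L ∩ S).Nonempty)).symm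

theorem inn_add_one_le (hV : Conn G V) (hS : S ⊆ V) (hSn : S.Nonempty) (hT : T ⊆ V)
    (hd : Disjoint S T) (hK : K ∈ comps G (V \ S)) :
    inn G S T K + 1 ≤ cc G (V \ (K ∩ T)) := by
  obtain ⟨s, hs⟩ := hSn
  have hsV : s ∈ V \ (K ∩ T) :=
    mem_sdiff.2 ⟨hS hs, fun h => disjoint_left.1 hd hs (mem_inter.1 h).2⟩
  obtain ⟨D, hD, hsD⟩ := exists_comp (G := G) hsV
  have h1 : insert D ((comps G (K \ T)).filter (fun C => ¬ Tch G C S)) ⊆
      comps G (V \ (K ∩ T)) := by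
    intro C hC
    rw [mem_insert] at hC
    rcases hC with rfl | hC
    · exact hD
    · rw [mem_filter] at hC
      exact inner_comp hK hC.1 hC.2 (Finset.Subset.refl _) inter_subset_right
  have h2 : D ∉ (comps G (K \ T)).filter (fun C => ¬ Tch G C S) := by
    intro h
    rw [mem_filter] at h
    have h3 := (mem_sdiff.1 (comp_sub h.1 hsD)).1
    exact (mem_sdiff.1 (comp_sub hK h3)).2 hs
  have h3 := card_le_card h1
  rw [card_insert_of_notMem h2] at h3
  exact h3

/-- the parts of a set -/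
theorem sum_parts (hT : T ⊆ W) :
    ∑ K ∈ (comps G W).filter (fun K => (K ∩ T).Nonempty), (K ∩ T).card = T.card := by
  have h1 : T = ((comps G W).filter (fun K => (K ∩ T).Nonempty)).biUnion (fun K => K ∩ T) := by
    ext x
    rw [mem_biUnion]
    constructor
    · intro hx
      obtain ⟨C, hC, hxC⟩ := exists_comp (G := G) (hT hx)
      exact ⟨C, mem_filter.2 ⟨hC, ⟨x, mem_inter.2 ⟨hxC, hx⟩⟩⟩, mem_inter.2 ⟨hxC, hx⟩⟩
    · rintro ⟨K, _, hx⟩
      exact (mem_inter.1 hx).2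
  conv_rhs => rw [h1]
  rw [card_biUnion]
  intro K hK K' hK' hne
  rw [Function.onFun, disjoint_left]
  intro x hx hx'
  exact hne (comp_unique (mem_filter.1 hK).1 (mem_filter.1 hK').1 (mem_inter.1 hx).1
    (mem_inter.1 hx').1)

/-- one inequality of the crossing lemma, for an admissible set `T` -/
theorem cross_le (hV : Conn G V) (hS : S ⊆ V) (hSn : S.Nonempty) (hT : T ⊆ V) (hTa : Adm G V T)
    (hd : Disjoint S T) :
    cc G (V \ T) + ((comps G (V \ S)).filter (fun K => (K ∩ T).Nonempty)).card ≤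
      ((comps G (V \ T)).filter (fun L => (L ∩ S).Nonempty)).card + T.card := by
  rw [cc_cross hV hS hT hd hSn]
  have hTW : T ⊆ V \ S := fun x hx => mem_sdiff.2 ⟨hT hx, disjoint_right.1 hd hx⟩
  have h1 : ∑ K ∈ (comps G (V \ S)).filter (fun K => (K ∩ T).Nonempty), (inn G S T K + 1) ≤
      ∑ K ∈ (comps G (V \ S)).filter (fun K => (K ∩ T).Nonempty), (K ∩ T).card := by
    apply sum_le_sum
    intro K hK
    rw [mem_filter] at hK
    exact (inn_add_one_le hV hS hSn hT hd hK.1).trans (hTa.2 _ inter_subset_right hK.2)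
  rw [sum_parts hTW, sum_add_distrib, sum_const, smul_eq_mul, mul_one] at h1
  omega

private theorem Tgt.nonempty (h : Tgt G V S) : S.Nonempty := card_pos.1 (by have := h.card; omega)

theorem card_parts_eq (hV : Conn G V) (hS : Tgt G V S) (hT : Tgt G V T) (hd : Disjoint S T) :
    ((comps G (V \ S)).filter (fun K => (K ∩ T).Nonempty)).card =
      ((comps G (V \ T)).filter (fun L => (L ∩ S).Nonempty)).card := by
  have h1 := cross_le hV hS.sub hS.nonempty hT.sub hT.adm hd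
  have h2 := cross_le hV hT.sub hT.nonempty hS.sub hS.adm hd.symm
  have h3 := hS.eq
  have h4 := hT.eq
  omega

/-- numbers of parts agree, all values are 0 -/
theorem cross_parts (hV : Conn G V) (hS : Tgt G V S) (hT : Tgt G V T) (hd : Disjoint S T) :
    ((comps G (V \ S)).filter (fun K => (K ∩ T).Nonempty)).card =
      ((comps G (V \ T)).filter (fun L => (L ∩ S).Nonempty)).card ∧
    ∀ K ∈ comps G (V \ S), (K ∩ T).Nonempty →
      inn G S T K + 1 = (K ∩ T).card ∧ cc G (V \ (K ∩ T)) = (K ∩ T).card := by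
  have h0 := card_parts_eq hV hS hT hd
  refine ⟨h0, ?_⟩
  have hTW : T ⊆ V \ S := fun x hx => mem_sdiff.2 ⟨hT.sub hx, disjoint_right.1 hd hx⟩
  have h1 : ∀ K ∈ (comps G (V \ S)).filter (fun K => (K ∩ T).Nonempty),
      inn G S T K + 1 ≤ (K ∩ T).card := by
    intro K hK
    rw [mem_filter] at hK
    exact (inn_add_one_le hV hS.sub hS.nonempty hT.sub hd hK.1).trans
      (hT.adm.2 _ inter_subset_right hK.2)
  have h2 : ∑ K ∈ (comps G (V \ S)).filter (fun K => (K ∩ T).Nonempty), (inn G S T K + 1) =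
      ∑ K ∈ (comps G (V \ S)).filter (fun K => (K ∩ T).Nonempty), (K ∩ T).card := by
    rw [sum_parts hTW, sum_add_distrib, sum_const, smul_eq_mul, mul_one]
    have h3 := cc_cross hV hS.sub hT.sub hd hS.nonempty
    have h4 := hT.eq
    omega
  have h3 := (sum_eq_sum_iff_of_le h1).1 h2
  intro K hK hKT
  have h4 := h3 K (mem_filter.2 ⟨hK, hKT⟩)
  refine ⟨h4, ?_⟩
  have h5 := inn_add_one_le hV hS.sub hS.nonempty hT.sub hd hK
  have h6 := hT.adm.2 _ (inter_subset_right (s₁ := K) (s₂ := T)) hKT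
  omega

theorem cross_out (hV : Conn G V) (hS : Tgt G V S) (hT : Tgt G V T) (hd : Disjoint S T)
    (hK : K ∈ comps G (V \ S)) (hKT : (K ∩ T).Nonempty) :
    ∀ x ∈ V \ K, ∀ y ∈ V \ K, Rch G (V \ (K ∩ T)) x y := by
  obtain ⟨h1, h2⟩ := (cross_parts hV hS hT hd).2 K hK hKT
  have hsub : (comps G (K \ T)).filter (fun C => ¬ Tch G C S) ⊆ comps G (V \ (K ∩ T)) := by
    intro C hC
    rw [mem_filter] at hC
    exact inner_comp hK hC.1 hC.2 (Finset.Subset.refl _) inter_subset_right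
  have hcard : (comps G (V \ (K ∩ T)) \ (comps G (K \ T)).filter (fun C => ¬ Tch G C S)).card
      = 1 := by
    rw [card_sdiff_of_subset hsub]
    have : inn G S T K = ((comps G (K \ T)).filter (fun C => ¬ Tch G C S)).card := rfl
    have h3 : cc G (V \ (K ∩ T)) = (comps G (V \ (K ∩ T))).card := rfl
    omega
  obtain ⟨D, hD⟩ := card_eq_one.1 hcard
  have key : ∀ x ∈ V \ K, ∃ C ∈ comps G (V \ (K ∩ T)), x ∈ C ∧ C = D := by
    intro x hx
    rw [mem_sdiff] at hx
    have hx' : x ∈ V \ (K ∩ T) := mem_sdiff.2 ⟨hx.1, fun h => hx.2 (mem_inter.1 h).1⟩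
    obtain ⟨C, hC, hxC⟩ := exists_comp (G := G) hx'
    refine ⟨C, hC, hxC, ?_⟩
    rw [← mem_singleton, ← hD, mem_sdiff]
    refine ⟨hC, fun h => ?_⟩
    rw [mem_filter] at h
    exact hx.2 (mem_sdiff.1 (comp_sub h.1 hxC)).1
  intro x hx y hy
  obtain ⟨C, hC, hxC, hCD⟩ := key x hx
  obtain ⟨C', hC', hyC', hCD'⟩ := key y hy
  refine rch_iff_comp.2 ⟨C, hC, hxC, ?_⟩
  rw [hCD, ← hCD']
  exact hyC'

private theorem Adm.mono (h : Adm G V T) (hST : S ⊆ T) : Adm G V S :=
  ⟨fun x hx y hy => h.1 x (hST hx) y (hST hy), fun X hX hn => h.2 X (hX.trans hST) hn⟩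

theorem cross_tgt (hV : Conn G V) (hS : Tgt G V S) (hT : Tgt G V T) (hd : Disjoint S T)
    (hK : K ∈ comps G (V \ S)) (h2 : 2 ≤ (K ∩ T).card) : Tgt G V (K ∩ T) :=
  ⟨inter_subset_right.trans hT.sub, hT.adm.mono inter_subset_right, h2,
    ((cross_parts hV hS hT hd).2 K hK (card_pos.1 (by omega))).2⟩

/-- a set without edges to the rest of the connected set `V` -/
theorem conn_no_cut (hV : Conn G V) (hX : X ⊆ V) (hXn : X.Nonempty) (hX' : (V \ X).Nonempty) :
    Tch G X (V \ X) := by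
  refine (conn_iff_cut.1 hV).2 X hX hXn ?_
  rintro rfl
  rw [sdiff_self] at hX'
  exact (Finset.not_nonempty_empty hX').elim

private theorem Tch.symm (h : Tch G S T) : Tch G T S := by
  obtain ⟨x, hx, y, hy, hxy⟩ := h
  exact ⟨y, hy, x, hx, hxy.symm⟩

theorem conn_compl_aux (hV : Conn G V) (hB : Tgt G V B) (hK : K ∈ comps G (V \ B))
    (hX : X ⊆ V \ K) (hXn : (X ∩ B).Nonempty) (hX'n : (((V \ K) \ X) ∩ B).Nonempty)
    (hn : ¬ Tch G X ((V \ K) \ X)) : cc G (X \ B) + 1 ≤ (X ∩ B).card := by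
  have h1 : cc G (V \ (X ∩ B)) ≤ (X ∩ B).card := hB.adm.2 _ inter_subset_right hXn
  obtain ⟨b, hb⟩ := hX'n
  rw [mem_inter, mem_sdiff, mem_sdiff] at hb
  have hbV : b ∈ V \ (X ∩ B) := mem_sdiff.2 ⟨hb.1.1.1, fun h => hb.1.2 (mem_inter.1 h).1⟩
  obtain ⟨D, hD, hbD⟩ := exists_comp (G := G) hbV
  have h2 : comps G (X \ B) ⊆ comps G (V \ (X ∩ B)) := by
    intro C hC
    have hCX := comp_sub hC
    refine mem_comps.2 ⟨?_, comp_conn hC, ?_⟩
    · intro x hx
      have h3 := mem_sdiff.1 (hCX hx)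
      exact mem_sdiff.2 ⟨(mem_sdiff.1 (hX h3.1)).1, fun h => h3.2 (mem_inter.1 h).2⟩
    · intro x hx y hy hxy
      have h3 := mem_sdiff.1 (hCX hx)
      rw [mem_sdiff] at hy
      have hyK : y ∉ K := by
        intro hyK
        have hxK : x ∈ K := comp_closed hK hyK
          (mem_sdiff.2 ⟨(mem_sdiff.1 (hX h3.1)).1, h3.2⟩) hxy.symm
        exact (mem_sdiff.1 (hX h3.1)).2 hxK
      have hyX : y ∈ X := by
        by_contra hyX
        exact hn ⟨x, h3.1, y, mem_sdiff.2 ⟨mem_sdiff.2 ⟨hy.1, hyK⟩, hyX⟩, hxy⟩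
      exact comp_closed hC hx (mem_sdiff.2 ⟨hyX, fun h => hy.2 (mem_inter.2 ⟨hyX, h⟩)⟩) hxy
  have h3 : D ∉ comps G (X \ B) := fun h => hb.1.2 (mem_sdiff.1 (comp_sub h hbD)).1
  have h4 : insert D (comps G (X \ B)) ⊆ comps G (V \ (X ∩ B)) := by
    intro C hC
    rcases mem_insert.1 hC with rfl | hC
    · exact hD
    · exact h2 hC
  have h5 := card_le_card h4
  rw [card_insert_of_notMem h3] at h5
  unfold cc at h1 ⊢
  omega

theorem conn_compl (hV : Conn G V) (hB : Tgt G V B) (hK : K ∈ comps G (V \ B)) :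
    Conn G (V \ K) := by
  have hKB : Disjoint K B := by
    rw [disjoint_left]
    intro x hx
    exact (mem_sdiff.1 (comp_sub hK hx)).2
  have hBK : B ⊆ V \ K := fun x hx => mem_sdiff.2 ⟨hB.sub hx, disjoint_right.1 hKB hx⟩
  refine conn_iff_cut.2 ⟨hB.nonempty.mono hBK, ?_⟩
  intro X hX hXn hXne
  by_contra hn
  set X' := (V \ K) \ X with hX'
  have hX'n : X'.Nonempty := by
    rw [Finset.nonempty_iff_ne_empty]
    intro h
    rw [hX', sdiff_eq_empty_iff_subset] at h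
    exact hXne (Finset.Subset.antisymm hX h)
  have hX'K : X' ⊆ V \ K := sdiff_subset
  have hXX' : (V \ K) \ X' = X := by
    rw [hX', Finset.sdiff_sdiff_eq_self hX]
  have hn' : ¬ Tch G X' ((V \ K) \ X') := by
    rw [hXX']
    exact fun h => hn h.symm
  -- both sides meet `B`
  have key : ∀ Z ⊆ V \ K, Z.Nonempty → ((V \ K) \ Z).Nonempty → ¬ Tch G Z ((V \ K) \ Z) →
      (Z ∩ B).Nonempty := by
    intro Z hZ hZn hZ'n hZt
    by_contra h0
    rw [Finset.not_nonempty_iff_eq_empty] at h0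
    have hZd : Disjoint Z B := disjoint_iff_inter_eq_empty.2 h0
    have hZV : Z ⊆ V := hZ.trans sdiff_subset
    obtain ⟨w, hw⟩ := hZ'n
    rw [mem_sdiff, mem_sdiff] at hw
    obtain ⟨x, hx, y, hy, hxy⟩ := conn_no_cut hV hZV hZn ⟨w, mem_sdiff.2 ⟨hw.1.1, hw.2⟩⟩
    rw [mem_sdiff] at hy
    by_cases hyK : y ∈ K
    · have : x ∈ K := comp_closed hK hyK
        (mem_sdiff.2 ⟨hZV hx, disjoint_left.1 hZd hx⟩) hxy.symm
      exact (mem_sdiff.1 (hZ hx)).2 this
    · exact hZt ⟨x, hx, y, mem_sdiff.2 ⟨mem_sdiff.2 ⟨hy.1, hyK⟩, hy.2⟩, hxy⟩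
  have hXB := key X hX hXn hX'n hn
  have hX'B := key X' hX'K hX'n (by rw [hXX']; exact hXn) hn'
  have h1 := conn_compl_aux hV hB hK hX hXB hX'B hn
  have h2 := conn_compl_aux hV hB hK hX'K hX'B (by rw [hXX']; exact hXB) hn'
  -- the union
  have h3 : V \ B = (K ∪ (X \ B)) ∪ (X' \ B) := by
    ext x
    simp only [mem_sdiff, mem_union, hX']
    constructor
    · rintro ⟨hxV, hxB⟩
      by_cases hxK : x ∈ K
      · exact Or.inl (Or.inl hxK)
      · by_cases hxX : x ∈ X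
        · exact Or.inl (Or.inr ⟨hxX, hxB⟩)
        · exact Or.inr ⟨⟨⟨hxV, hxK⟩, hxX⟩, hxB⟩
    · rintro ((hxK | ⟨hxX, hxB⟩) | ⟨⟨⟨hxV, hxK⟩, hxX⟩, hxB⟩)
      · exact mem_sdiff.1 (comp_sub hK hxK)
      · exact ⟨(mem_sdiff.1 (hX hxX)).1, hxB⟩
      · exact ⟨hxV, hxB⟩
  have hKX : ∀ Z ⊆ V \ K, ¬ Tch G K (Z \ B) := by
    rintro Z hZ ⟨x, hx, y, hy, hxy⟩
    rw [mem_sdiff] at hy
    have h4 := mem_sdiff.1 (hZ hy.1)
    exact h4.2 (comp_closed hK hx (mem_sdiff.2 ⟨h4.1, hy.2⟩) hxy)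
  have hd1 : Disjoint K (X \ B) := by
    rw [disjoint_left]
    intro x hx hx'
    exact (mem_sdiff.1 (hX (mem_sdiff.1 hx').1)).2 hx
  have hd2 : Disjoint (K ∪ (X \ B)) (X' \ B) := by
    rw [disjoint_left]
    intro x hx hx'
    rw [mem_sdiff, hX', mem_sdiff, mem_sdiff] at hx'
    rcases mem_union.1 hx with h | h
    · exact hx'.1.1.2 h
    · exact hx'.1.2 (mem_sdiff.1 h).1
  have hn2 : ¬ Tch G (K ∪ (X \ B)) (X' \ B) := by
    rintro ⟨x, hx, y, hy, hxy⟩
    rcases mem_union.1 hx with h | h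
    · exact hKX X' hX'K ⟨x, h, y, hy, hxy⟩
    · exact hn ⟨x, (mem_sdiff.1 h).1, y, (mem_sdiff.1 hy).1, hxy⟩
  have h4 : cc G (V \ B) = 1 + cc G (X \ B) + cc G (X' \ B) := by
    rw [h3, cc_union hd2 hn2, cc_union hd1 (hKX X hX), cc_eq_one_iff.2 (comp_conn hK)]
  have h5 : (X ∩ B).card + (X' ∩ B).card = B.card := by
    rw [← card_union_of_disjoint]
    · congr 1
      ext x
      simp only [mem_union, mem_inter, hX', mem_sdiff]
      constructor
      · rintro (h | h)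
        · exact h.2
        · exact h.2
      · intro hx
        have := mem_sdiff.1 (hBK hx)
        by_cases hxX : x ∈ X
        · exact Or.inl ⟨hxX, hx⟩
        · exact Or.inr ⟨⟨this, hxX⟩, hx⟩
    · rw [disjoint_left]
      intro x hx hx'
      rw [hX', mem_inter, mem_sdiff] at hx'
      exact hx'.1.2 (mem_inter.1 hx).1
  have h6 := hB.eq
  omega

theorem not_crs_iff (hT : T ⊆ V) (hTn : T.Nonempty) (hd : Disjoint S T) :
    ¬ Crs G V S T ↔ ∃ K ∈ comps G (V \ S), T ⊆ K := by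
  have hTV : T ⊆ V \ S := fun x hx => mem_sdiff.2 ⟨hT hx, disjoint_right.1 hd hx⟩
  constructor
  · intro h
    obtain ⟨t, ht⟩ := hTn
    obtain ⟨K, hK, htK⟩ := exists_comp (G := G) (hTV ht)
    refine ⟨K, hK, fun y hy => ?_⟩
    by_contra hyK
    refine h ⟨hd, t, ht, y, hy, fun hr => ?_⟩
    obtain ⟨C, hC, htC, hyC⟩ := rch_iff_comp.1 hr
    rw [comp_unique hC hK htC htK] at hyC
    exact hyK hyC
  · rintro ⟨K, hK, hTK⟩ ⟨_, x, hx, y, hy, hr⟩
    exact hr (rch_iff_comp.2 ⟨K, hK, hTK hx, hTK hy⟩)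

/-- crossing means at least two parts -/
theorem crs_iff_two (hT : T ⊆ V) (hTn : T.Nonempty) (hd : Disjoint S T) :
    Crs G V S T ↔ 2 ≤ ((comps G (V \ S)).filter (fun K => (K ∩ T).Nonempty)).card := by
  have hTV : T ⊆ V \ S := fun x hx => mem_sdiff.2 ⟨hT hx, disjoint_right.1 hd hx⟩
  constructor
  · rintro ⟨_, x, hx, y, hy, hr⟩
    obtain ⟨K, hK, hxK⟩ := exists_comp (G := G) (hTV hx)
    obtain ⟨K', hK', hyK'⟩ := exists_comp (G := G) (hTV hy)
    refine one_lt_card.2 ⟨K, mem_filter.2 ⟨hK, ⟨x, mem_inter.2 ⟨hxK, hx⟩⟩⟩, K',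
      mem_filter.2 ⟨hK', ⟨y, mem_inter.2 ⟨hyK', hy⟩⟩⟩, ?_⟩
    rintro rfl
    exact hr (rch_iff_comp.2 ⟨K, hK, hxK, hyK'⟩)
  · intro h
    obtain ⟨K, hK, K', hK', hne⟩ := one_lt_card.1 h
    rw [mem_filter] at hK hK'
    obtain ⟨x, hx⟩ := hK.2
    obtain ⟨y, hy⟩ := hK'.2
    rw [mem_inter] at hx hy
    refine ⟨hd, x, hx.2, y, hy.2, fun hr => ?_⟩
    obtain ⟨C, hC, hxC, hyC⟩ := rch_iff_comp.1 hr
    exact hne ((comp_unique hK.1 hC hx.1 hxC).trans (comp_unique hC hK'.1 hyC hy.1))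

theorem Crs.symm (hV : Conn G V) (hS : Tgt G V S) (hT : Tgt G V T) (h : Crs G V S T) :
    Crs G V T S := by
  have hd := h.1
  have h1 := (crs_iff_two hT.sub hT.nonempty hd).1 h
  rw [card_parts_eq hV hS hT hd] at h1
  exact (crs_iff_two hS.sub hS.nonempty hd.symm).2 h1

/-- a minimal tight set is cut into single vertices, and a set crossing it meets all components -/
theorem MinT.cross (hV : Conn G V) (hS : MinT G V S) (hT : Tgt G V T) (h : Crs G V S T) :
    (∀ L ∈ comps G (V \ T), (L ∩ S).card ≤ 1) ∧ (∀ K ∈ comps G (V \ S), (K ∩ T).Nonempty) := by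
  have hd := h.1
  have h1 : ∀ L ∈ comps G (V \ T), (L ∩ S).card ≤ 1 := by
    intro L hL
    by_contra h2
    have h3 := cross_tgt hV hT hS.tgt hd.symm hL (by omega)
    have h4 := hS.min _ inter_subset_right h3
    have h5 : S ⊆ L := by
      rw [← h4]
      exact inter_subset_left
    exact (not_crs_iff hS.tgt.sub hS.tgt.nonempty hd.symm).2 ⟨L, hL, h5⟩
      (Crs.symm hV hS.tgt hT h)
  refine ⟨h1, ?_⟩
  have hSW : S ⊆ V \ T := fun x hx => mem_sdiff.2 ⟨hS.tgt.sub hx, disjoint_left.1 hd hx⟩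
  have h2 : ((comps G (V \ T)).filter (fun L => (L ∩ S).Nonempty)).card = S.card := by
    rw [← sum_parts (G := G) hSW, card_eq_sum_ones]
    apply sum_congr rfl
    intro L hL
    rw [mem_filter] at hL
    have := h1 L hL.1
    have := card_pos.2 hL.2
    omega
  have h3 := card_parts_eq hV hS.tgt hT hd
  have h4 := hS.tgt.eq
  have h5 : (comps G (V \ S)).filter (fun K => (K ∩ T).Nonempty) = comps G (V \ S) := by
    apply eq_of_subset_of_card_le (filter_subset _ _)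
    unfold cc at h4
    omega
  intro K hK
  rw [← h5, mem_filter] at hK
  exact hK.2

end B

end Pool.Agent.TH
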