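import Pool.Agent.TH.Defs

/-! # Leaves of the 2-cut decomposition -/

set_option autoImplicit false

namespace Pool.Agent.TH

open Finset
open scoped Classical

variable {α : Type*} [DecidableEq α]

/-- `J = G[K0 + {r, s}] + rs` is 3-connected; `V = K0 + {r, s}` is allowed if `rs` is an edge. -/
structure Leaf (G : SimpleGraph α) (V : Finset α) (r s : α) (K0 : Finset α) : Prop where
  hr : r ∈ V
  hs : s ∈ V
  ne : r ≠ s
  comp : K0 ∈ comps G (V \ {r, s})
  tc : ThreeC (addE G r s) (K0 ∪ {r, s})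
  sl : G.Adj r s ∨ V ≠ K0 ∪ {r, s}

end Pool.Agent.TH
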