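import Pool.Agent.TH.Comp
import Pool.Agent.TH.Cross

set_option autoImplicit false
set_option linter.unusedSectionVars false
set_option linter.unusedVariables false

namespace Pool.Agent.TH

open Finset
open scoped Classical

variable {α : Type*} [DecidableEq α]

namespace LY

variable {G : SimpleGraph α} {V L M M' K1 W C D A B : Finset α} {x y : α}

theorem sub (h : C ∈ comps G W) : C ⊆ W := (mem_comps.1 h).1
theorem conn (h : C ∈ comps G W) : Conn G C := (mem_comps.1 h).2.1
theorem ne (h : C ∈ comps G W) : C.Nonempty := (conn h).1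
theorem clo (h : C ∈ comps G W) (hx : x ∈ C) (hy : y ∈ W) (ha : G.Adj x y) : y ∈ C :=
  (mem_comps.1 h).2.2 x hx y hy ha

/-- a connected subset of `W` meeting the component `C` is inside `C` -/
theorem csub (h : C ∈ comps G W) (hA : Conn G A) (hAW : A ⊆ W) (hx : x ∈ A) (hxC : x ∈ C) :
    A ⊆ C := by
  obtain ⟨D, hD, hAD⟩ := conn_sub_comp hA hAW
  have := comp_unique hD h (hAD hx) hxC
  rw [← this]
  exact hAD

/-- components which miss a point -/
theorem card_lt (X : Finset (Finset α)) (hX : X ⊆ comps G W) (hx : x ∈ W)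
    (hn : ∀ C ∈ X, x ∉ C) : X.card + 1 ≤ cc G W := by
  obtain ⟨K, hK, hxK⟩ := exists_comp (G := G) hx
  have h1 : K ∉ X := fun h => hn K h hxK
  rw [← Finset.card_insert_of_notMem h1]
  apply Finset.card_le_card
  intro C hC
  rcases Finset.mem_insert.1 hC with rfl | hC
  · exact hK
  · exact hX hC

/-- the core inequality of Lemma Y -/
theorem core {A0 : Finset α} (hLV : L ⊆ V) (hLn : L.Nonempty)
    (hK1 : K1 ∈ comps G (V \ L)) (hBK : B ⊆ K1) (hBn : B.Nonempty)
    (hM'V : M' ⊆ V) (hadm : Adm G V M') (hd : Disjoint M' B)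
    (hN : ∀ l ∈ L, ∀ l' ∈ L, Rch G ((K1 ∪ L) \ B) l l' → l = l')
    (hA0 : A0 ∈ comps G (V \ B)) (hA0K : V \ K1 ⊆ A0) :
    inn G B M' A0 + 1 ≤ cc G (V \ (M' \ K1)) + (A0 ∩ M' ∩ K1).card := by
  -- basic facts
  have hK1V : K1 ⊆ V \ L := sub hK1
  have hK1V' : K1 ⊆ V := hK1V.trans sdiff_subset
  have hLK : ∀ l ∈ L, l ∉ K1 := fun l hl hl' => (mem_sdiff.1 (hK1V hl')).2 hl
  have hLB : ∀ l ∈ L, l ∉ B := fun l hl hl' => hLK l hl (hBK hl')
  have hA0V : A0 ⊆ V \ B := sub hA0
  have hLA0 : L ⊆ A0 := fun l hl => hA0K (mem_sdiff.2 ⟨hLV hl, hLK l hl⟩)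
  have hBM' : ∀ b ∈ B, b ∉ M' := fun b hb hb' => (Finset.disjoint_left.1 hd) hb' hb
  -- vertices adjacent to `K1`
  have hadj : ∀ k ∈ K1, ∀ y ∈ V, G.Adj k y → y ∈ K1 ∨ y ∈ L := by
    intro k hk y hy hky
    by_cases hyL : y ∈ L
    · exact Or.inr hyL
    · exact Or.inl (clo hK1 hk (mem_sdiff.2 ⟨hy, hyL⟩) hky)
  set U := M' \ K1 with hU
  set D0 := A0 ∩ M' ∩ K1 with hD0
  set P := (K1 ∪ L) \ B with hP
  set X := (comps G (A0 \ M')).filter (fun C => ¬ Tch G C B) with hX
  have hinn : inn G B M' A0 = X.card := rfl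
  have hPV : P ⊆ V \ B := by
    intro p hp
    obtain ⟨hp1, hp2⟩ := mem_sdiff.1 hp
    refine mem_sdiff.2 ⟨?_, hp2⟩
    rcases mem_union.1 hp1 with h | h
    · exact hK1V' h
    · exact hLV h
  -- the component of `V \ U` containing `K1`
  have hK1U : K1 ⊆ V \ U := by
    intro k hk
    refine mem_sdiff.2 ⟨hK1V' hk, ?_⟩
    intro h
    exact (mem_sdiff.1 h).2 hk
  obtain ⟨Ks, hKs, hK1Ks⟩ := conn_sub_comp (conn hK1) hK1U
  -- a vertex outside `K1`, `U` is in `A0 \ M'`
  have hout : ∀ y ∈ V \ U, y ∉ K1 → y ∈ A0 \ M' := by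
    intro y hy hyK
    obtain ⟨hyV, hyU⟩ := mem_sdiff.1 hy
    refine mem_sdiff.2 ⟨hA0K (mem_sdiff.2 ⟨hyV, hyK⟩), ?_⟩
    intro h
    exact hyU (mem_sdiff.2 ⟨h, hyK⟩)
  -- facts on members of `X`
  have hXs : ∀ C ∈ X, C ∈ comps G (A0 \ M') ∧ ¬ Tch G C B := fun C hC => mem_filter.1 hC
  have hXU : ∀ C ∈ X, C ⊆ V \ U := by
    intro C hC c hc
    have h1 := sub (hXs C hC).1 hc
    obtain ⟨h2, h3⟩ := mem_sdiff.1 h1
    refine mem_sdiff.2 ⟨(mem_sdiff.1 (hA0V h2)).1, ?_⟩
    intro h
    exact h3 (mem_sdiff.1 h).1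
  -- a member of `X` missing `K1` and without neighbours in `K1` is a component of `V \ U`
  have hXc : ∀ C ∈ X, (∀ c ∈ C, ∀ y ∈ V \ U, G.Adj c y → y ∉ K1) → C ∈ comps G (V \ U) := by
    intro C hC h
    refine mem_comps.2 ⟨hXU C hC, conn (hXs C hC).1, ?_⟩
    intro c hc y hy hcy
    exact clo (hXs C hC).1 hc (hout y hy (h c hc y hy hcy)) hcy
  -- split
  set X0 := X.filter (fun C => ¬ C ⊆ Ks) with hX0
  set X1 := X.filter (fun C => C ⊆ Ks) with hX1
  have hsplit : X.card = X1.card + X0.card := by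
    rw [hX0, hX1]
    exact (Finset.card_filter_add_card_filter_not _).symm
  obtain ⟨k0, hk0⟩ := ne hK1
  have hX0c : X0.card + 1 ≤ cc G (V \ U) := by
    refine card_lt X0 ?_ (hK1U hk0) ?_
    · intro C hC
      obtain ⟨hC1, hC2⟩ := mem_filter.1 hC
      apply hXc C hC1
      intro c hc y hy hcy hyK
      apply hC2
      have hcKs : c ∈ Ks := clo hKs (hK1Ks hyK) (hXU C hC1 hc) hcy.symm
      exact csub hKs (conn (hXs C hC1).1) (hXU C hC1) hc hcKs
    · intro C hC hk
      obtain ⟨hC1, hC2⟩ := mem_filter.1 hC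
      exact hC2 (csub hKs (conn (hXs C hC1).1) (hXU C hC1) hk (hK1Ks hk0))
  -- the sets `N l`
  set N : α → Finset α := fun l => P.filter (fun y => Rch G P l y) with hNdef
  have hLP : ∀ l ∈ L, l ∈ P := fun l hl => mem_sdiff.2 ⟨mem_union_right _ hl, hLB l hl⟩
  have hNc : ∀ l ∈ L, N l ∈ comps G P := by
    intro l hl
    obtain ⟨K, hK, hlK⟩ := exists_comp (G := G) (hLP l hl)
    have : N l = K := by
      ext y
      rw [hNdef]
      simp only [mem_filter]
      constructor
      · rintro ⟨-, h⟩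
        obtain ⟨K', hK', h1, h2⟩ := rch_iff_comp.1 h
        rw [comp_unique hK hK' hlK h1]
        exact h2
      · intro hy
        exact ⟨sub hK hy, rch_iff_comp.2 ⟨K, hK, hlK, hy⟩⟩
    rw [this]
    exact hK
  have hlN : ∀ l ∈ L, l ∈ N l := fun l hl => mem_filter.2 ⟨hLP l hl, Rch.refl (hLP l hl)⟩
  have hNl : ∀ l ∈ L, ∀ l' ∈ L, l' ∈ N l → l = l' := by
    intro l hl l' hl' h
    exact hN l hl l' hl' (mem_filter.1 h).2
  have hNA0 : ∀ l ∈ L, N l ⊆ A0 := by
    intro l hl
    exact csub hA0 (conn (hNc l hl)) ((sub (hNc l hl)).trans hPV) (hlN l hl) (hLA0 hl)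
  -- every component of `K1 \ B` reaches `B` and some `l`
  set Dl : α → Finset α := fun l => D0 ∩ N l with hDl
  -- relation
  have hrel : ∀ C ∈ X1, ∃ l ∈ L, (C ⊆ N l ∧ l ∉ C) ∨ (l ∈ C ∧ (Dl l).Nonempty) := by
    intro C hC
    obtain ⟨hC1, hCK⟩ := mem_filter.1 hC
    obtain ⟨hCc, hCB⟩ := hXs C hC1
    by_cases hCL : ∃ l ∈ L, l ∈ C
    · -- case (b)
      by_contra hcon
      push Not at hcon
      have hDe : ∀ l ∈ L, l ∈ C → ¬ (Dl l).Nonempty := by
        intro l hl hlC
        have := (hcon l hl).2 hlC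
        rw [this]
        exact Finset.not_nonempty_empty
      -- no `l ∈ C` has a neighbour in `K1`
      have hno : ∀ l ∈ L, l ∈ C → ∀ z ∈ K1, ¬ G.Adj l z := by
        intro l hl hlC z hz hlz
        by_cases hzB : z ∈ B
        · exact hCB ⟨l, hlC, z, hzB, hlz⟩
        have hzP : z ∈ P := mem_sdiff.2 ⟨mem_union_left _ hz, hzB⟩
        have hzN : z ∈ N l := clo (hNc l hl) (hlN l hl) hzP hlz
        have hzKB : z ∈ K1 \ B := mem_sdiff.2 ⟨hz, hzB⟩
        obtain ⟨Q, hQ, hzQ⟩ := exists_comp (G := G) hzKB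
        have hQP : Q ⊆ P := by
          intro q hq
          obtain ⟨h1, h2⟩ := mem_sdiff.1 (sub hQ hq)
          exact mem_sdiff.2 ⟨mem_union_left _ h1, h2⟩
        have hQN : Q ⊆ N l := csub (hNc l hl) (conn hQ) hQP hzQ hzN
        have hQA : Q ⊆ A0 \ M' := by
          intro q hq
          refine mem_sdiff.2 ⟨hNA0 l hl (hQN hq), ?_⟩
          intro hqM
          apply hDe l hl hlC
          refine ⟨q, mem_inter.2 ⟨mem_inter.2 ⟨mem_inter.2 ⟨hNA0 l hl (hQN hq), hqM⟩, ?_⟩, hQN hq⟩⟩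
          exact (mem_sdiff.1 (sub hQ hq)).1
        have hzC : z ∈ C := clo hCc hlC (hQA hzQ) hlz
        have hQC : Q ⊆ C := csub hCc (conn hQ) hQA hzQ hzC
        obtain ⟨q, hq, b, hb, hqb⟩ := comp_nb (conn hK1) hBK hBn hQ
        exact hCB ⟨q, hQC hq, b, hb, hqb⟩
      -- `C` misses `K1`
      obtain ⟨l0, hl0, hl0C⟩ := hCL
      have hCK1 : ∀ c ∈ C, c ∉ K1 := by
        intro c hc hcK
        have h1 := (conn_iff_cut.1 (conn hCc)).2 (C ∩ K1) inter_subset_left
          ⟨c, mem_inter.2 ⟨hc, hcK⟩⟩ (by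
            intro h
            have : l0 ∈ C ∩ K1 := by rw [h]; exact hl0C
            exact hLK l0 hl0 (mem_inter.1 this).2)
        obtain ⟨a, ha, b, hb, hab⟩ := h1
        obtain ⟨haC, haK⟩ := mem_inter.1 ha
        obtain ⟨hbC, hbK⟩ := mem_sdiff.1 hb
        have hbV : b ∈ V := (mem_sdiff.1 (hXU C hC1 hbC)).1
        rcases hadj a haK b hbV hab with h | h
        · exact hbK (mem_inter.2 ⟨hbC, h⟩)
        · exact hno b h hbC a haK hab.symm
      have hCc' : C ∈ comps G (V \ U) := by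
        apply hXc C hC1
        intro c hc y hy hcy hyK
        have hcV : c ∈ V := (mem_sdiff.1 (hXU C hC1 hc)).1
        rcases hadj y hyK c hcV hcy.symm with h | h
        · exact hCK1 c hc h
        · exact hno c h hc y hyK hcy
      have : C = Ks := comp_unique hCc' hKs hl0C (hCK hl0C)
      exact hCK1 k0 (by rw [this]; exact hK1Ks hk0) hk0
    · -- case (a)
      push Not at hCL
      have hCVL : C ⊆ V \ L := by
        intro c hc
        refine mem_sdiff.2 ⟨(mem_sdiff.1 (hXU C hC1 hc)).1, fun h => hCL c h hc⟩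
      -- `C` meets `K1`
      have hmeet : ∃ c ∈ C, c ∈ K1 := by
        by_contra hcon
        push Not at hcon
        have hCc' : C ∈ comps G (V \ U) := by
          apply hXc C hC1
          intro c hc y hy hcy hyK
          have hcV : c ∈ V := (mem_sdiff.1 (hXU C hC1 hc)).1
          rcases hadj y hyK c hcV hcy.symm with h | h
          · exact hcon c hc h
          · exact hCL c h hc
        obtain ⟨c, hc⟩ := ne hCc
        have : C = Ks := comp_unique hCc' hKs hc (hCK hc)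
        exact hcon k0 (by rw [this]; exact hK1Ks hk0) hk0
      obtain ⟨c, hc, hcK⟩ := hmeet
      have hCK1 : C ⊆ K1 := csub hK1 (conn hCc) hCVL hc hcK
      have hCP : C ⊆ P := by
        intro z hz
        refine mem_sdiff.2 ⟨mem_union_left _ (hCK1 hz), ?_⟩
        have := (mem_sdiff.1 (sub hCc hz)).1
        exact (mem_sdiff.1 (hA0V this)).2
      obtain ⟨Q, hQ, hcQ⟩ := exists_comp (G := G) (hCP hc)
      have hCQ : C ⊆ Q := csub hQ (conn hCc) hCP hc hcQ
      have hl : ∃ l ∈ L, l ∈ Q := by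
        by_contra hcon
        push Not at hcon
        have hQc : Q ∈ comps G (V \ B) := by
          refine mem_comps.2 ⟨(sub hQ).trans hPV, conn hQ, ?_⟩
          intro q hq y hy hqy
          obtain ⟨hyV, hyB⟩ := mem_sdiff.1 hy
          have hqK : q ∈ K1 := by
            rcases mem_union.1 (mem_sdiff.1 (sub hQ hq)).1 with h | h
            · exact h
            · exact absurd hq (hcon q h)
          rcases hadj q hqK y hyV hqy with h | h
          · exact clo hQ hq (mem_sdiff.2 ⟨mem_union_left _ h, hyB⟩) hqy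
          · exact clo hQ hq (mem_sdiff.2 ⟨mem_union_right _ h, hyB⟩) hqy
        have : Q = A0 := comp_unique hQc hA0 hcQ (mem_sdiff.1 (sub hCc hc)).1
        obtain ⟨l, hl⟩ := hLn
        exact hcon l hl (by rw [this]; exact hLA0 hl)
      obtain ⟨l, hl, hlQ⟩ := hl
      have : Q = N l := comp_unique hQ (hNc l hl) hlQ (hlN l hl)
      exact ⟨l, hl, Or.inl ⟨by rw [← this]; exact hCQ, fun h => hCL l hl h⟩⟩
  -- the count for one `l`
  set Xl : α → Finset (Finset α) :=
    fun l => X1.filter (fun C => (C ⊆ N l ∧ l ∉ C) ∨ (l ∈ C ∧ (Dl l).Nonempty)) with hXl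
  obtain ⟨b0, hb0⟩ := hBn
  have hb0V : b0 ∈ V := hK1V' (hBK hb0)
  have hCb0 : ∀ C ∈ X, b0 ∉ C := by
    intro C hC h
    have := (mem_sdiff.1 (sub (hXs C hC).1 h)).1
    exact (mem_sdiff.1 (hA0V this)).2 hb0
  have hDlM : ∀ l, Dl l ⊆ M' := by
    intro l z hz
    exact (mem_inter.1 (mem_inter.1 (mem_inter.1 hz).1).1).2
  -- type (a) sets are components
  have htypa : ∀ l ∈ L, ∀ C ∈ X, C ⊆ N l → l ∉ C → ∀ E : Finset α, E ⊆ M' →
      Dl l ⊆ E → (∀ e ∈ E, e ∈ Dl l ∨ e = l) → (l ∈ M' → l ∈ E) → C ∈ comps G (V \ E) := by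
    intro l hl C hC hCN hlC E hEM hDE hE hlE
    obtain ⟨hCc, hCB⟩ := hXs C hC
    refine mem_comps.2 ⟨?_, conn hCc, ?_⟩
    · intro c hc
      refine mem_sdiff.2 ⟨(mem_sdiff.1 (hXU C hC hc)).1, fun h => ?_⟩
      exact (mem_sdiff.1 (sub hCc hc)).2 (hEM h)
    · intro c hc y hy hcy
      obtain ⟨hyV, hyE⟩ := mem_sdiff.1 hy
      have hcP : c ∈ P := sub (hNc l hl) (hCN hc)
      have hcK : c ∈ K1 := by
        rcases mem_union.1 (mem_sdiff.1 hcP).1 with h | h
        · exact h
        · have := hNl l hl c h (hCN hc)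
          rw [← this] at hc
          exact absurd hc hlC
      have hyB : y ∉ B := fun h => hCB ⟨c, hc, y, h, hcy⟩
      have hyP : y ∈ P := by
        rcases hadj c hcK y hyV hcy with h | h
        · exact mem_sdiff.2 ⟨mem_union_left _ h, hyB⟩
        · exact mem_sdiff.2 ⟨mem_union_right _ h, hyB⟩
      have hyN : y ∈ N l := clo (hNc l hl) (hCN hc) hyP hcy
      have hyA : y ∈ A0 := hNA0 l hl hyN
      have hyM : y ∉ M' := by
        intro hyM
        rcases hadj c hcK y hyV hcy with h | h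
        · exact hyE (hDE (mem_inter.2 ⟨mem_inter.2 ⟨mem_inter.2 ⟨hyA, hyM⟩, h⟩, hyN⟩))
        · have := hNl l hl y h hyN
          rw [← this] at hyM hyE
          exact hyE (hlE hyM)
      exact clo hCc hc (mem_sdiff.2 ⟨hyA, hyM⟩) hcy
  have hXlc : ∀ l ∈ L, (Xl l).card ≤ (Dl l).card := by
    intro l hl
    have hXlX : ∀ C ∈ Xl l, C ∈ X := fun C hC => (mem_filter.1 (mem_filter.1 hC).1).1
    by_cases hlM : l ∈ M'
    · -- `l ∈ M'`
      have h1 : (Xl l).card + 1 ≤ cc G (V \ insert l (Dl l)) := by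
        refine card_lt (x := b0) (Xl l) ?_ ?_ (fun C hC => hCb0 C (hXlX C hC))
        · intro C hC
          have hCX := hXlX C hC
          rcases (mem_filter.1 hC).2 with h | h
          · refine htypa l hl C hCX h.1 h.2 _ ?_ (subset_insert _ _) ?_ ?_
            · intro e he
              rcases mem_insert.1 he with rfl | he
              · exact hlM
              · exact hDlM l he
            · intro e he
              rcases mem_insert.1 he with rfl | he
              · exact Or.inr rfl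
              · exact Or.inl he
            · intro _
              exact mem_insert_self _ _
          · exact absurd hlM (mem_sdiff.1 (sub (hXs C hCX).1 h.1)).2
        · refine mem_sdiff.2 ⟨hb0V, ?_⟩
          intro h
          rcases mem_insert.1 h with h | h
          · exact hLB l hl (h ▸ hb0)
          · exact hBM' b0 hb0 (hDlM l h)
      have h2 : cc G (V \ insert l (Dl l)) ≤ (insert l (Dl l)).card := by
        refine hadm.2 _ ?_ ⟨l, mem_insert_self _ _⟩
        intro e he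
        rcases mem_insert.1 he with rfl | he
        · exact hlM
        · exact hDlM l he
      have h3 : (insert l (Dl l)).card ≤ (Dl l).card + 1 := card_insert_le _ _
      omega
    · -- `l ∉ M'`
      by_cases hDn : (Dl l).Nonempty
      · have h1 : ((Xl l).filter (fun C => l ∉ C)).card + 1 ≤ cc G (V \ Dl l) := by
          refine card_lt (x := b0) _ ?_ ?_ (fun C hC => hCb0 C (hXlX C (mem_filter.1 hC).1))
          · intro C hC
            obtain ⟨hC1, hlC⟩ := mem_filter.1 hC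
            have hCX := hXlX C hC1
            rcases (mem_filter.1 hC1).2 with h | h
            · exact htypa l hl C hCX h.1 h.2 _ (hDlM l) (Finset.Subset.refl _)
                (fun e he => Or.inl he) (fun h => absurd h hlM)
            · exact absurd h.1 hlC
          · refine mem_sdiff.2 ⟨hb0V, fun h => hBM' b0 hb0 (hDlM l h)⟩
        have h2 : cc G (V \ Dl l) ≤ (Dl l).card := hadm.2 _ (hDlM l) hDn
        have h3 : ((Xl l).filter (fun C => l ∈ C)).card ≤ 1 := by
          apply Finset.card_le_one.2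
          intro C hC C' hC'
          obtain ⟨hC1, hC2⟩ := mem_filter.1 hC
          obtain ⟨hC1', hC2'⟩ := mem_filter.1 hC'
          exact comp_unique (hXs C (hXlX C hC1)).1 (hXs C' (hXlX C' hC1')).1 hC2 hC2'
        have h4 := Finset.card_filter_add_card_filter_not (s := Xl l) (fun C => l ∈ C)
        omega
      · have : Xl l = ∅ := by
          apply Finset.eq_empty_of_forall_notMem
          intro C hC
          have hCX := hXlX C hC
          rcases (mem_filter.1 hC).2 with h | h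
          · obtain ⟨hCc, hCB⟩ := hXs C hCX
            have hNA : N l ⊆ A0 \ M' := by
              intro z hz
              refine mem_sdiff.2 ⟨hNA0 l hl hz, ?_⟩
              intro hzM
              rcases mem_union.1 (mem_sdiff.1 (sub (hNc l hl) hz)).1 with h' | h'
              · exact hDn ⟨z, mem_inter.2 ⟨mem_inter.2 ⟨mem_inter.2 ⟨hNA0 l hl hz, hzM⟩, h'⟩, hz⟩⟩
              · have := hNl l hl z h' hz
                rw [← this] at hzM
                exact hlM hzM
            obtain ⟨c, hc⟩ := ne hCc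
            have := csub hCc (conn (hNc l hl)) hNA (h.1 hc) hc
            exact h.2 (this (hlN l hl))
          · exact hDn h.2
        rw [this]
        simp
  have hX1c : X1.card ≤ D0.card := by
    have h1 : X1 ⊆ L.biUnion Xl := by
      intro C hC
      obtain ⟨l, hl, h⟩ := hrel C hC
      exact mem_biUnion.2 ⟨l, hl, mem_filter.2 ⟨hC, h⟩⟩
    have h2 : (L.biUnion Dl).card = ∑ l ∈ L, (Dl l).card := by
      apply Finset.card_biUnion
      intro l hl l' hl' hne
      rw [Function.onFun, Finset.disjoint_left]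
      intro z hz hz'
      apply hne
      have e := comp_unique (hNc l hl) (hNc l' hl') (mem_inter.1 hz).2 (mem_inter.1 hz').2
      have : l' ∈ N l := by rw [e]; exact hlN l' hl'
      exact hNl l hl l' hl' this
    calc X1.card ≤ (L.biUnion Xl).card := Finset.card_le_card h1
      _ ≤ ∑ l ∈ L, (Xl l).card := Finset.card_biUnion_le
      _ ≤ ∑ l ∈ L, (Dl l).card := Finset.sum_le_sum hXlc
      _ = (L.biUnion Dl).card := h2.symm
      _ ≤ D0.card := by
        apply Finset.card_le_card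
        intro z hz
        obtain ⟨l, -, hz⟩ := mem_biUnion.1 hz
        exact (mem_inter.1 hz).1
  rw [hinn]
  omega

end LY

section D
variable {G : SimpleGraph α} {V L M M' K1 : Finset α}

theorem lemY (h2 : TwoC G V) (hL : MinT G V L) (hM : Tgt G V M) (hc : Crs G V L M)
    (hK1 : K1 ∈ comps G (V \ L)) (hB : 2 ≤ (M ∩ K1).card) (hM' : Tgt G V M')
    (hd : Disjoint M' (M ∩ K1)) (hout : ¬ M' ⊆ K1) :
    cc G (V \ (M' \ K1)) = (M' \ K1).card := by
  have hV : Conn G V := h2.conn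
  have hLV : L ⊆ V := hL.tgt.sub
  have hLn : L.Nonempty := Finset.card_pos.1 (by have := hL.tgt.card; omega)
  rw [Finset.inter_comm] at hB hd
  set B := K1 ∩ M with hBdef
  have hBK : B ⊆ K1 := inter_subset_left
  have hBn : B.Nonempty := Finset.card_pos.1 (by omega)
  have hBt : Tgt G V B := cross_tgt hV hL.tgt hM hc.1 hK1 hB
  obtain ⟨A0, hA0, hA0K⟩ := conn_sub_comp (conn_compl hV hL.tgt hK1)
    (sdiff_subset_sdiff (Finset.Subset.refl V) hBK)
  have hN : ∀ l ∈ L, ∀ l' ∈ L, Rch G ((K1 ∪ L) \ B) l l' → l = l' := by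
    intro l hl l' hl' h
    have hsub : (K1 ∪ L) \ B ⊆ V \ M := by
      intro x hx
      obtain ⟨hx1, hx2⟩ := mem_sdiff.1 hx
      rcases mem_union.1 hx1 with h | h
      · refine mem_sdiff.2 ⟨(mem_sdiff.1 (LY.sub hK1 h)).1, fun hxM => ?_⟩
        exact hx2 (mem_inter.2 ⟨h, hxM⟩)
      · exact mem_sdiff.2 ⟨hLV h, Finset.disjoint_left.1 hc.1 h⟩
    obtain ⟨C, hC, h1, h2⟩ := rch_iff_comp.1 (Rch.mono hsub h)
    have h3 := (MinT.cross hV hL hM hc).1 C hC
    exact Finset.card_le_one.1 h3 l (mem_inter.2 ⟨h1, hl⟩) l' (mem_inter.2 ⟨h2, hl'⟩)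
  have hcore := LY.core hLV hLn hK1 hBK hBn hM'.sub hM'.adm hd hN hA0 hA0K
  obtain ⟨m, hm, hmK⟩ := Finset.not_subset.1 hout
  have hmA : m ∈ A0 := hA0K (mem_sdiff.2 ⟨hM'.sub hm, hmK⟩)
  have hpar := ((cross_parts hV hBt hM' hd.symm).2 A0 hA0 ⟨m, mem_inter.2 ⟨hmA, hm⟩⟩).1
  have hcard : (A0 ∩ M').card = (M' \ K1).card + (A0 ∩ M' ∩ K1).card := by
    have h1 : A0 ∩ M' = (M' \ K1) ∪ (A0 ∩ M' ∩ K1) := by
      ext x
      simp only [mem_inter, mem_union, mem_sdiff]
      constructor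
      · rintro ⟨h1, h2⟩
        by_cases h : x ∈ K1
        · exact Or.inr ⟨⟨h1, h2⟩, h⟩
        · exact Or.inl ⟨h2, h⟩
      · rintro (h | h)
        · exact ⟨hA0K (mem_sdiff.2 ⟨hM'.sub h.1, h.2⟩), h.1⟩
        · exact h.1
    have h2 : ((M' \ K1) ∪ (A0 ∩ M' ∩ K1)).card = (M' \ K1).card + (A0 ∩ M' ∩ K1).card := by
      apply Finset.card_union_of_disjoint
      rw [Finset.disjoint_left]
      intro x hx hx'
      exact (mem_sdiff.1 hx).2 (mem_inter.1 hx').2
    rw [← h2, ← h1]
  have hrev : cc G (V \ (M' \ K1)) ≤ (M' \ K1).card :=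
    hM'.adm.2 _ sdiff_subset ⟨m, mem_sdiff.2 ⟨hm, hmK⟩⟩
  omega

theorem lemY' (h2 : TwoC G V) (hL : MinT G V L) (hM : Tgt G V M) (hc : Crs G V L M)
    (hK1 : K1 ∈ comps G (V \ L)) (hB : 2 ≤ (M ∩ K1).card) (h3 : 3 ≤ (nb G K1 L).card)
    (hM' : Tgt G V M') (hd : Disjoint M' (M ∩ K1)) : ¬ Crs G V L M' := by
  intro hc'
  have hV : Conn G V := h2.conn
  have hLV : L ⊆ V := hL.tgt.sub
  have hdis : Disjoint L M' := hc'.1
  have hmeet := (MinT.cross hV hL hM' hc').2
  set R := (comps G (V \ L)).erase K1 with hR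
  have hccL : (comps G (V \ L)).card = L.card := hL.tgt.eq
  have hL2 := hL.tgt.card
  have hRc : R.card + 1 = L.card := by
    rw [hR, Finset.card_erase_of_mem hK1, hccL]
    omega
  -- `M'` is not inside `K1`
  have hout : ¬ M' ⊆ K1 := by
    intro h
    have : 0 < R.card := by omega
    obtain ⟨K2, hK2⟩ := Finset.card_pos.1 this
    obtain ⟨hne, hK2'⟩ := Finset.mem_erase.1 hK2
    obtain ⟨x, hx⟩ := hmeet K2 hK2'
    obtain ⟨hx1, hx2⟩ := mem_inter.1 hx
    exact hne (comp_unique hK2' hK1 hx1 (h hx2))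
  have hY := lemY h2 hL hM hc hK1 hB hM' hd hout
  set U := M' \ K1 with hU
  -- `U`
  have hUb : U = R.biUnion (fun K => K ∩ M') := by
    ext x
    simp only [mem_biUnion, mem_inter, hU, mem_sdiff]
    constructor
    · rintro ⟨h1, h2⟩
      have hx : x ∈ V \ L := mem_sdiff.2 ⟨hM'.sub h1, fun h => Finset.disjoint_left.1 hdis h h1⟩
      obtain ⟨K, hK, hxK⟩ := exists_comp (G := G) hx
      refine ⟨K, Finset.mem_erase.2 ⟨?_, hK⟩, hxK, h1⟩
      rintro rfl
      exact h2 hxK
    · rintro ⟨K, hK, hxK, hxM⟩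
      obtain ⟨hne, hK'⟩ := Finset.mem_erase.1 hK
      refine ⟨hxM, fun h => hne (comp_unique hK' hK1 hxK h)⟩
  have hUc : U.card = ∑ K ∈ R, (K ∩ M').card := by
    rw [hUb]
    apply Finset.card_biUnion
    intro K hK K' hK' hne
    rw [Function.onFun, Finset.disjoint_left]
    intro x hx hx'
    apply hne
    exact comp_unique (Finset.mem_erase.1 hK).2 (Finset.mem_erase.1 hK').2
      (mem_inter.1 hx).1 (mem_inter.1 hx').1
  have hinn : ∀ K ∈ R, (K ∩ M').card = inn G L M' K + 1 := by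
    intro K hK
    have hK' := (Finset.mem_erase.1 hK).2
    exact ((cross_parts hV hL.tgt hM' hdis).2 K hK' (hmeet K hK')).1.symm
  have hsum : U.card = (∑ K ∈ R, inn G L M' K) + R.card := by
    rw [hUc, Finset.sum_congr rfl hinn, Finset.sum_add_distrib]
    simp
  -- the component of `V \ U` containing `K1`
  have hK1V : K1 ⊆ V := (LY.sub hK1).trans sdiff_subset
  have hK1U : K1 ⊆ V \ U := by
    intro k hk
    exact mem_sdiff.2 ⟨hK1V hk, fun h => (mem_sdiff.1 h).2 hk⟩
  obtain ⟨Ks, hKs, hK1Ks⟩ := conn_sub_comp (LY.conn hK1) hK1U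
  set Z := L \ nb G K1 L with hZ
  have hZc : Z.card + 3 ≤ L.card := by
    have h1 : nb G K1 L ⊆ L := filter_subset _ _
    have h4 := Finset.card_sdiff_add_card_eq_card h1
    rw [← hZ] at h4
    omega
  have hLU : ∀ l ∈ L, l ∈ V \ U := by
    intro l hl
    exact mem_sdiff.2 ⟨hLV hl, fun h => Finset.disjoint_left.1 hdis hl (mem_sdiff.1 h).1⟩
  have hcov : comps G (V \ U) ⊆ insert Ks
      ((R.biUnion (fun K => (comps G (K \ M')).filter (fun C => ¬ Tch G C L))) ∪
        (Z.biUnion (fun l => (comps G (V \ U)).filter (fun C => l ∈ C)))) := by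
    intro C hC
    by_cases hCK : C = Ks
    · rw [hCK]; exact mem_insert_self _ _
    apply mem_insert_of_mem
    have hCK1 : ∀ c ∈ C, c ∉ K1 := fun c hc hc' => hCK (comp_unique hC hKs hc (hK1Ks hc'))
    have hCM : ∀ c ∈ C, c ∉ M' := by
      intro c hc hcM
      exact (mem_sdiff.1 (LY.sub hC hc)).2 (mem_sdiff.2 ⟨hcM, hCK1 c hc⟩)
    by_cases hCL : ∃ l ∈ L, l ∈ C
    · obtain ⟨l, hl, hlC⟩ := hCL
      apply mem_union_right
      refine mem_biUnion.2 ⟨l, mem_sdiff.2 ⟨hl, ?_⟩, mem_filter.2 ⟨hC, hlC⟩⟩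
      intro hnb
      obtain ⟨-, k, hk, hkl⟩ := mem_filter.1 hnb
      have : k ∈ C := LY.clo hC hlC (hK1U hk) hkl.symm
      exact hCK1 k this hk
    · push Not at hCL
      apply mem_union_left
      have hCVL : C ⊆ V \ L := by
        intro c hc
        exact mem_sdiff.2 ⟨(mem_sdiff.1 (LY.sub hC hc)).1, fun h => hCL c h hc⟩
      obtain ⟨K, hK, hCKs⟩ := conn_sub_comp (LY.conn hC) hCVL
      obtain ⟨c0, hc0⟩ := LY.ne hC
      refine mem_biUnion.2 ⟨K, Finset.mem_erase.2 ⟨?_, hK⟩, mem_filter.2 ⟨?_, ?_⟩⟩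
      · rintro rfl
        exact hCK1 c0 hc0 (hCKs hc0)
      · refine mem_comps.2 ⟨?_, LY.conn hC, ?_⟩
        · intro c hc
          exact mem_sdiff.2 ⟨hCKs hc, hCM c hc⟩
        · intro c hc y hy hcy
          obtain ⟨hyK, hyM⟩ := mem_sdiff.1 hy
          refine LY.clo hC hc (mem_sdiff.2 ⟨(mem_sdiff.1 (LY.sub hK hyK)).1, ?_⟩) hcy
          intro h
          exact hyM (mem_sdiff.1 h).1
      · rintro ⟨c, hc, l, hl, hcl⟩
        exact hCL l hl (LY.clo hC hc (hLU l hl) hcl)
  have hb1 : (R.biUnion (fun K => (comps G (K \ M')).filter (fun C => ¬ Tch G C L))).card ≤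
      ∑ K ∈ R, inn G L M' K := Finset.card_biUnion_le
  have hb2 : (Z.biUnion (fun l => (comps G (V \ U)).filter (fun C => l ∈ C))).card ≤ Z.card := by
    calc _ ≤ ∑ l ∈ Z, ((comps G (V \ U)).filter (fun C => l ∈ C)).card := Finset.card_biUnion_le
      _ ≤ ∑ l ∈ Z, 1 := by
        apply Finset.sum_le_sum
        intro l hl
        apply Finset.card_le_one.2
        intro C hC C' hC'
        exact comp_unique (mem_filter.1 hC).1 (mem_filter.1 hC').1 (mem_filter.1 hC).2
          (mem_filter.1 hC').2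
      _ = Z.card := by simp
  have hb : cc G (V \ U) ≤ 1 + (∑ K ∈ R, inn G L M' K) + Z.card := by
    have h1 := Finset.card_le_card hcov
    have h2 := Finset.card_insert_le Ks
      ((R.biUnion (fun K => (comps G (K \ M')).filter (fun C => ¬ Tch G C L))) ∪
        (Z.biUnion (fun l => (comps G (V \ U)).filter (fun C => l ∈ C))))
    have h3 := Finset.card_union_le
      (R.biUnion (fun K => (comps G (K \ M')).filter (fun C => ¬ Tch G C L)))
      (Z.biUnion (fun l => (comps G (V \ U)).filter (fun C => l ∈ C)))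
    unfold cc
    omega
  omega

end D

end Pool.Agent.TH
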