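import Pool.Agent.TH.Comp
import Pool.Agent.TH.Cross
import Pool.Agent.TH.LemY
import Pool.Agent.TH.LeafDef

set_option autoImplicit false
set_option linter.unusedSectionVars false

/-!
# The leaf lemma and the theorem on maximal non-crossing families in 3-connected graphs
-/

namespace Pool.Agent.TH

open Finset
open scoped Classical

variable {α : Type*} [DecidableEq α]

section basic

variable {G : SimpleGraph α} {V D K0 : Finset α} {F : Finset (Finset α)} {r s u v : α}

omit [DecidableEq α] in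
theorem addE_adj_lm {p q a b : α} (hpq : p ≠ q) :
    (addE G p q).Adj a b ↔ G.Adj a b ∨ (a = p ∧ b = q) ∨ (a = q ∧ b = p) := by
  unfold addE
  rw [SimpleGraph.fromRel_adj]
  constructor
  · rintro ⟨hne, (h | h) | (h | h)⟩
    · exact Or.inl h
    · exact Or.inr (Or.inl h)
    · exact Or.inl h.symm
    · exact Or.inr (Or.inr ⟨h.2, h.1⟩)
  · rintro (h | ⟨rfl, rfl⟩ | ⟨rfl, rfl⟩)
    · exact ⟨h.ne, Or.inl (Or.inl h)⟩
    · exact ⟨hpq, Or.inl (Or.inr ⟨rfl, rfl⟩)⟩
    · exact ⟨hpq.symm, Or.inr (Or.inr ⟨rfl, rfl⟩)⟩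

theorem addE_eq_self_lm {p q : α} (h : G.Adj p q) : addE G p q = G := by
  ext a b
  rw [addE_adj_lm h.ne]
  constructor
  · rintro (h' | ⟨rfl, rfl⟩ | ⟨rfl, rfl⟩)
    · exact h'
    · exact h
    · exact h.symm
  · exact Or.inl

namespace Leaf

variable (hl : Leaf G V r s K0)
include hl

theorem K0_sub : K0 ⊆ V \ {r, s} := (mem_comps.1 hl.comp).1

theorem K0_subV : K0 ⊆ V := hl.K0_sub.trans sdiff_subset

theorem K0_conn : Conn G K0 := (mem_comps.1 hl.comp).2.1

theorem r_notin : r ∉ K0 := fun h => by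
  have := hl.K0_sub h
  simp at this

theorem s_notin : s ∉ K0 := fun h => by
  have := hl.K0_sub h
  simp at this

theorem U_sub : K0 ∪ {r, s} ⊆ V := by
  intro x hx
  rcases mem_union.1 hx with h | h
  · exact hl.K0_subV h
  · rcases mem_insert.1 h with rfl | h
    · exact hl.hr
    · rw [mem_singleton.1 h]; exact hl.hs

theorem adj_in {x y : α} (hx : x ∈ K0) (hy : y ∈ V) (h : G.Adj x y) : y ∈ K0 ∪ {r, s} := by
  by_cases hy' : y ∈ ({r, s} : Finset α)
  · exact mem_union_right _ hy'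
  · exact mem_union_left _ ((mem_comps.1 hl.comp).2.2 x hx y (mem_sdiff.2 ⟨hy, hy'⟩) h)

theorem symm : Leaf G V s r K0 where
  hr := hl.hs
  hs := hl.hr
  ne := hl.ne.symm
  comp := by rw [pair_comm]; exact hl.comp
  tc := by
    have h1 : addE G s r = addE G r s := by
      ext a b
      rw [addE_adj_lm hl.ne, addE_adj_lm hl.ne.symm]
      tauto
    rw [h1, pair_comm]; exact hl.tc
  sl := by
    rcases hl.sl with h | h
    · exact Or.inl h.symm
    · right; rw [pair_comm]; exact h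

theorem out_conn_r (h2 : TwoC G V) : Conn G ((V \ K0) \ {r}) := by
  have hsA : s ∈ (V \ K0) \ {r} := by
    simp [hl.hs, hl.s_notin, hl.ne.symm]
  have key : ∀ X ⊆ (V \ K0) \ {r}, X.Nonempty → s ∉ X → Tch G X (((V \ K0) \ {r}) \ X) := by
    intro X hX hXn hsX
    have hc := (conn_iff_cut.1 (h2.erase r hl.hr)).2 X
      (fun x hx => by
        have := hX hx
        simp only [mem_sdiff, mem_singleton, mem_erase] at this ⊢
        exact ⟨this.2, this.1.1⟩) hXn
      (fun h => hsX (by rw [h]; simp [hl.hs, hl.ne.symm]))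
    obtain ⟨x, hx, y, hy, hxy⟩ := hc
    refine ⟨x, hx, y, ?_, hxy⟩
    have hx' := hX hx
    simp only [mem_sdiff, mem_singleton, mem_erase] at hx' hy ⊢
    refine ⟨⟨⟨hy.1.2, fun hyK => ?_⟩, hy.1.1⟩, hy.2⟩
    have := hl.adj_in hyK hx'.1.1 hxy.symm
    simp only [mem_union, mem_insert, mem_singleton] at this
    rcases this with h | h | h
    · exact hx'.1.2 h
    · exact hx'.2 h
    · exact hsX (h ▸ hx)
  rw [conn_iff_cut]
  refine ⟨⟨s, hsA⟩, fun X hX hXn hne => ?_⟩
  by_cases hsX : s ∈ X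
  · have hY : (((V \ K0) \ {r}) \ X).Nonempty := by
      rw [sdiff_nonempty]
      exact fun h => hne (subset_antisymm hX h)
    obtain ⟨x, hx, y, hy, hxy⟩ := key (((V \ K0) \ {r}) \ X) sdiff_subset hY
      (fun h => (mem_sdiff.1 h).2 hsX)
    refine ⟨y, ?_, x, hx, hxy.symm⟩
    rw [Finset.sdiff_sdiff_eq_self hX] at hy
    exact hy
  · exact key X hX hXn hsX

/-- the outside is connected -/
theorem out_conn (h2 : TwoC G V) : Conn G (V \ K0) := by
  have hr1 := hl.out_conn_r h2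
  have hs1 := hl.symm.out_conn_r h2
  have hu : ((V \ K0) \ {r}) ∪ ((V \ K0) \ {s}) = V \ K0 := by
    ext x
    simp only [mem_union, mem_sdiff, mem_singleton]
    have := hl.ne
    constructor
    · tauto
    · intro h
      by_cases hx : x = r
      · right; exact ⟨h, fun h' => hl.ne (hx.symm.trans h')⟩
      · left; exact ⟨h, hx⟩
  rw [← hu]
  refine conn_union hr1 hs1 ?_
  by_cases hV : V = K0 ∪ {r, s}
  · have hrs : G.Adj r s := by
      rcases hl.sl with h | h
      · exact h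
      · exact absurd hV h
    left
    refine ⟨s, ?_, r, ?_, hrs.symm⟩
    · simp [hl.hs, hl.s_notin, hl.ne.symm]
    · simp [hl.hr, hl.r_notin, hl.ne]
  · right
    have : ∃ x ∈ V, x ∉ K0 ∪ {r, s} := by
      by_contra hcon
      push Not at hcon
      exact hV (subset_antisymm hcon hl.U_sub)
    obtain ⟨x, hxV, hx⟩ := this
    refine ⟨x, ?_⟩
    simp only [mem_union, mem_insert, mem_singleton, not_or] at hx
    simp only [mem_inter, mem_sdiff, mem_singleton]
    exact ⟨⟨⟨hxV, hx.1⟩, hx.2.1⟩, ⟨hxV, hx.1⟩, hx.2.2⟩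

theorem out_conn_s (h2 : TwoC G V) : Conn G ((V \ K0) \ {s}) := hl.symm.out_conn_r h2

end Leaf

theorem ThreeC.small_lm {J : SimpleGraph α} {U X N : Finset α} (h : ThreeC J U) (hX : X ⊆ U)
    (hXn : X.Nonempty) (hN : N ⊆ U) (hN2 : N.card ≤ 2)
    (hn : ∀ c ∈ X, ∀ y ∈ U, J.Adj c y → y ∈ X ∨ y ∈ N) (hd : Disjoint X N) : U ⊆ X ∪ N := by
  have h01 : N.card = 0 ∨ N.card = 1 ∨ N.card = 2 := by omega
  rcases h01 with h0 | h1 | h2
  · have hN0 : N = ∅ := card_eq_zero.1 h0
    subst hN0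
    by_contra hcon
    have hXU : X ≠ U := fun h' => hcon (by rw [h']; simp)
    obtain ⟨x, hx, y, hy, hxy⟩ := (conn_iff_cut.1 h.twoC.conn).2 X hX hXn hXU
    rcases hn x hx y (mem_sdiff.1 hy).1 hxy with h' | h'
    · exact (mem_sdiff.1 hy).2 h'
    · simp at h'
  · obtain ⟨p, rfl⟩ := card_eq_one.1 h1
    have hpU : p ∈ U := hN (mem_singleton_self p)
    have hpX : p ∉ X := fun h' => (disjoint_left.1 hd h') (mem_singleton_self p)
    have := TwoC.nb h.twoC hX hXn hpU (fun c hc y hy hcy => by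
      rcases hn c hc y hy hcy with h' | h'
      · exact Or.inl h'
      · exact Or.inr (mem_singleton.1 h')) hpX
    intro x hx
    have := this hx
    simp only [mem_insert, mem_union, mem_singleton] at this ⊢
    tauto
  · obtain ⟨p, q, hpq, rfl⟩ := card_eq_two.1 h2
    have hpU : p ∈ U := hN (by simp)
    have hqU : q ∈ U := hN (by simp)
    have hpX : p ∉ X := fun h' => (disjoint_left.1 hd h') (by simp)
    have hqX : q ∉ X := fun h' => (disjoint_left.1 hd h') (by simp)
    exact ThreeC.nb h hX hXn hpU hqU (fun c hc y hy hcy => by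
      rcases hn c hc y hy hcy with h' | h'
      · exact Or.inl h'
      · simp only [mem_insert, mem_singleton] at h'
        exact Or.inr h') hpX hqX

/-- A set which meets `U` has three neighbours, if enough of `U` is outside. -/
theorem Leaf.sm {Z : Finset α} {g l : α} (hl : Leaf G V r s K0) (h2 : TwoC G V)
    (hZU : (Z ∩ (K0 ∪ {r, s})).Nonempty) (hgZ : g ∉ Z) (hlZ : l ∉ Z)
    (hn : ∀ c ∈ Z, ∀ y ∈ V, G.Adj c y → y ∈ Z ∨ y = g ∨ y = l)
    (hc : 2 ≤ (((K0 ∪ {r, s}) \ Z) \ {g, l}).card) : False := by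
  have htc := hl.tc
  have hUV : K0 ∪ {r, s} ⊆ V := hl.U_sub
  have hrU : r ∈ K0 ∪ {r, s} := by simp
  have hsU : s ∈ K0 ∪ {r, s} := by simp
  generalize hU : K0 ∪ {r, s} = U at *
  -- first case: the edge `rs` does not leave `Z` or ends in `g, l`
  have case1 : (∀ c ∈ Z ∩ U, ∀ y ∈ U, (addE G r s).Adj c y → y ∈ Z ∩ U ∨ y = g ∨ y = l) →
      False := by
    intro hJ
    have := htc.small_lm (X := Z ∩ U) (N := ({g, l} : Finset α) ∩ U) inter_subset_right hZU
      inter_subset_right ((card_le_card inter_subset_left).trans card_le_two)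
      (fun c hc y hy hcy => by
        rcases hJ c hc y hy hcy with h | h | h
        · exact Or.inl h
        · right; subst h; simp [hy]
        · right; subst h; simp [hy])
      (by
        rw [disjoint_left]
        intro x hx hx'
        simp only [mem_inter, mem_insert, mem_singleton] at hx hx'
        rcases hx'.1 with h | h
        · exact hgZ (h ▸ hx.1)
        · exact hlZ (h ▸ hx.1))
    have hpos : 0 < ((U \ Z) \ {g, l}).card := by omega
    obtain ⟨x, hx⟩ := card_pos.1 hpos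
    simp only [mem_sdiff, mem_insert, mem_singleton] at hx
    have := this hx.1.1
    simp only [mem_union, mem_inter, mem_insert, mem_singleton] at this
    tauto
  -- the second case
  have case2 : ∀ r' s' : α, Leaf G V r' s' K0 → (r' = r ∧ s' = s) ∨ (r' = s ∧ s' = r) →
      r' ∈ Z → s' ∉ Z → s' ≠ g → s' ≠ l → False := by
    intro r' s' hl' hrs' hr' hs' hsg hsl
    have hsU' : s' ∈ U := by rcases hrs' with h | h <;> rw [h.2] <;> assumption
    have hrU' : r' ∈ U := by rcases hrs' with h | h <;> rw [h.1] <;> assumption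
    have hUout : ∀ x, x ∈ U → x ∈ K0 ∨ x = r' ∨ x = s' := by
      intro x hx
      rw [← hU] at hx
      simp only [mem_union, mem_insert, mem_singleton] at hx
      rcases hrs' with h | h <;> rw [h.1, h.2] <;> tauto
    have hnadj : ¬ G.Adj r' s' := fun h => by
      rcases hn r' hr' s' hl'.hs h with h | h | h
      · exact hs' h
      · exact hsg h
      · exact hsl h
    have hout := hl'.out_conn_r h2
    -- `g` or `l` is outside `U`
    have hgl : (({g, l} : Finset α) ∩ U).card ≤ 1 := by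
      by_contra hcon
      push Not at hcon
      have hglU : ({g, l} : Finset α) ⊆ U := by
        have h1 : (({g, l} : Finset α) ∩ U).card = ({g, l} : Finset α).card := by
          have := card_le_card (inter_subset_left : ({g, l} : Finset α) ∩ U ⊆ {g, l})
          have := (card_le_two : ({g, l} : Finset α).card ≤ 2)
          omega
        have := eq_of_subset_of_card_le (inter_subset_left : ({g, l} : Finset α) ∩ U ⊆ {g, l})
          (by omega)
        rw [← this]; exact inter_subset_right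
      -- then the outside is in `Z`
      have hgA : ∀ x ∈ (V \ K0) \ {r'}, x ≠ g ∧ x ≠ l := by
        intro x hx
        simp only [mem_sdiff, mem_singleton] at hx
        constructor
        · rintro rfl
          rcases hUout x (hglU (by simp)) with h | h | h
          · exact hx.1.2 h
          · exact hx.2 h
          · exact hsg h.symm
        · rintro rfl
          rcases hUout x (hglU (by simp)) with h | h | h
          · exact hx.1.2 h
          · exact hx.2 h
          · exact hsl h.symm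
      have hsA : s' ∈ (V \ K0) \ {r'} := by
        simp [hl'.hs, hl'.s_notin, hl'.ne.symm]
      have hne : (((V \ K0) \ {r'}) ∩ Z).Nonempty := by
        obtain ⟨x, hx, y, hy, hxy⟩ := (conn_iff_cut.1 (hl'.out_conn h2)).2 {r'}
          (by
            intro x hx
            rw [mem_singleton.1 hx]
            simp [hl'.hr, hl'.r_notin]) (by simp)
          (fun h => by
            have : s' ∈ ({r'} : Finset α) := by
              rw [h]; simp [hl'.hs, hl'.s_notin]
            exact hl'.ne (mem_singleton.1 this).symm)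
        rw [mem_singleton.1 hx] at hxy
        have hyA : y ∈ (V \ K0) \ {r'} := by simpa using hy
        have hyV : y ∈ V := by
          simp only [mem_sdiff, mem_singleton] at hyA; exact hyA.1.1
        refine ⟨y, mem_inter.2 ⟨hyA, ?_⟩⟩
        rcases hn r' hr' y hyV hxy with h | h | h
        · exact h
        · exact absurd h (hgA y hyA).1
        · exact absurd h (hgA y hyA).2
      have heq : ((V \ K0) \ {r'}) ∩ Z = (V \ K0) \ {r'} := by
        by_contra hcon'
        obtain ⟨x, hx, y, hy, hxy⟩ := (conn_iff_cut.1 hout).2 _ inter_subset_left hne hcon'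
        have hyA : y ∈ (V \ K0) \ {r'} := (mem_sdiff.1 hy).1
        have hyV : y ∈ V := by
          simp only [mem_sdiff, mem_singleton] at hyA; exact hyA.1.1
        rcases hn x (mem_inter.1 hx).2 y hyV hxy with h | h | h
        · exact (mem_sdiff.1 hy).2 (mem_inter.2 ⟨hyA, h⟩)
        · exact (hgA y hyA).1 h
        · exact (hgA y hyA).2 h
      rw [← heq] at hsA
      exact hs' (mem_inter.1 hsA).2
    have := htc.small_lm (X := Z ∩ U) (N := insert s' (({g, l} : Finset α) ∩ U)) inter_subset_right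
      hZU (by
        intro x hx
        rcases mem_insert.1 hx with rfl | hx
        · exact hsU'
        · exact (mem_inter.1 hx).2)
      ((card_insert_le _ _).trans (by omega))
      (fun c hc y hy hcy => by
        rw [addE_adj_lm hl.ne] at hcy
        rcases hcy with h | h | h
        · rcases hn c (mem_inter.1 hc).1 y (hUV hy) h with h | h | h
          · exact Or.inl (mem_inter.2 ⟨h, hy⟩)
          · right; subst h; simp [hy]
          · right; subst h; simp [hy]
        · rcases hrs' with h' | h'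
          · right; rw [h.2, h'.2]; simp
          · exfalso; apply hs'; rw [h'.2, ← h.1]; exact (mem_inter.1 hc).1
        · rcases hrs' with h' | h'
          · exfalso; apply hs'; rw [h'.2, ← h.1]; exact (mem_inter.1 hc).1
          · right; rw [h.2, h'.2]; simp)
      (by
        rw [disjoint_left]
        intro x hx hx'
        simp only [mem_inter, mem_insert, mem_singleton] at hx hx'
        rcases hx' with h | ⟨h | h, -⟩
        · exact hs' (h ▸ hx.1)
        · exact hgZ (h ▸ hx.1)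
        · exact hlZ (h ▸ hx.1))
    have hex : ∃ x ∈ ((U \ Z) \ {g, l}), x ≠ s' := by
      by_contra hcon
      push Not at hcon
      have := card_le_card (fun x hx => mem_singleton.2 (hcon x hx) : ((U \ Z) \ {g, l}) ⊆ {s'})
      rw [card_singleton] at this
      omega
    obtain ⟨x, hx, hxs⟩ := hex
    simp only [mem_sdiff, mem_insert, mem_singleton] at hx
    have := this hx.1.1
    simp only [mem_union, mem_inter, mem_insert, mem_singleton] at this
    tauto
  by_cases hA : r ∈ Z ∧ s ∉ Z ∧ s ≠ g ∧ s ≠ l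
  · exact case2 r s hl (Or.inl ⟨rfl, rfl⟩) hA.1 hA.2.1 hA.2.2.1 hA.2.2.2
  by_cases hB : s ∈ Z ∧ r ∉ Z ∧ r ≠ g ∧ r ≠ l
  · exact case2 s r hl.symm (Or.inr ⟨rfl, rfl⟩) hB.1 hB.2.1 hB.2.2.1 hB.2.2.2
  refine case1 (fun c hc y hy hcy => ?_)
  rw [addE_adj_lm hl.ne] at hcy
  rcases hcy with h | ⟨rfl, rfl⟩ | ⟨rfl, rfl⟩
  · rcases hn c (mem_inter.1 hc).1 y (hUV hy) h with h | h | h
    · exact Or.inl (mem_inter.2 ⟨h, hy⟩)
    · exact Or.inr (Or.inl h)
    · exact Or.inr (Or.inr h)
  · by_cases hy' : y ∈ Z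
    · exact Or.inl (mem_inter.2 ⟨hy', hy⟩)
    · have := (mem_inter.1 hc).1
      tauto
  · by_cases hy' : y ∈ Z
    · exact Or.inl (mem_inter.2 ⟨hy', hy⟩)
    · have := (mem_inter.1 hc).1
      tauto

end basic

section sets

variable {G : SimpleGraph α} {V S T L M M0 : Finset α} {F : Finset (Finset α)}

theorem Adm.subset_lm (h : Adm G V S) (hT : T ⊆ S) : Adm G V T :=
  ⟨fun x hx y hy => h.1 x (hT hx) y (hT hy), fun X hX hXn => h.2 X (hX.trans hT) hXn⟩

theorem Tgt.subset_lm (h : Tgt G V S) (hT : T ⊆ S) (h2 : 2 ≤ T.card)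
    (hc : cc G (V \ T) = T.card) : Tgt G V T :=
  ⟨hT.trans h.sub, h.adm.subset_lm hT, h2, hc⟩

theorem Tgt.nonempty_lm (h : Tgt G V S) : S.Nonempty := by
  rw [← card_pos]; have := h.card; omega

theorem Tgt.exists_minT_lm (h : Tgt G V S) : ∃ T ⊆ S, MinT G V T := by
  induction hn : S.card using Nat.strong_induction_on generalizing S with
  | _ n ih =>
    by_cases hm : ∀ T, T ⊆ S → Tgt G V T → T = S
    · exact ⟨S, Subset.rfl, h, hm⟩
    · push Not at hm
      obtain ⟨T, hTS, hT, hne⟩ := hm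
      have hlt : T.card < n := by
        rw [← hn]; exact card_lt_card (hTS.ssubset_of_ne hne)
      obtain ⟨T', hT', hm'⟩ := ih _ hlt hT rfl
      exact ⟨T', hT'.trans hTS, hm'⟩

theorem Free.subset_lm (h : Free G V F S) (hT : T ⊆ S) (hTt : Tgt G V T) : Free G V F T :=
  ⟨hTt, fun ⟨M, hM, hMT⟩ => h.nup ⟨M, hM, hMT.trans hT⟩⟩

theorem NCF.free_ssub_lm (hF : NCF G V F) (hM : M ∈ F) (hT : Tgt G V T) (hTM : T ⊆ M)
    (hne : T ≠ M) : Free G V F T :=
  ⟨hT, fun ⟨N, hN, hNT⟩ => hne (subset_antisymm hTM (by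
    have := hF.anti N hN M hM (hNT.trans hTM)
    rw [← this]; exact hNT))⟩

theorem rch_of_comp_lm {K : Finset α} {W : Finset α} {x y : α} (hK : K ∈ comps G W) (hx : x ∈ K)
    (hy : y ∈ K) : Rch G W x y := rch_iff_comp.2 ⟨K, hK, hx, hy⟩

theorem mem_of_rch_lm {K : Finset α} {W : Finset α} {x y : α} (hK : K ∈ comps G W) (hx : x ∈ K)
    (h : Rch G W x y) : y ∈ K := by
  obtain ⟨C, hC, hxC, hyC⟩ := rch_iff_comp.1 h
  rw [comp_unique hK hC hx hxC]; exact hyC

theorem MinT.free_sub_lm (hS : Free G V F S) : ∃ T ⊆ S, MinT G V T ∧ Free G V F T := by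
  obtain ⟨T, hT, hm⟩ := hS.tgt.exists_minT_lm
  exact ⟨T, hT, hm, hS.subset_lm hT hm.tgt⟩

/-- The reduction step: `M0` is the only big component of `V \ L`. -/
theorem exists_smaller (h2 : TwoC G V) (hF : NCF G V F) (hmax : Maxl G V F) (hL : MinT G V L)
    (hM : M ∈ F) (hc : Crs G V L M) (hM0 : M0 ∈ comps G (V \ L)) (hB : 2 ≤ (M ∩ M0).card)
    (h3 : 3 ≤ (nb G M0 L).card)
    (hsing : ∀ K ∈ comps G (V \ L), K ≠ M0 → ∃ g, K = {g}) :
    ∃ D, Free G V F D ∧ Disjoint D M0 ∧ D.card < L.card := by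
  have hMt := hF.tgt M hM
  have hV := h2.conn
  have hM0V : M0 ⊆ V \ L := (mem_comps.1 hM0).1
  have hne0 : (M0 ∩ M).Nonempty := by
    rw [← card_pos, inter_comm]; omega
  have hBT : Tgt G V (M0 ∩ M) := cross_tgt hV hL.tgt hMt hc.1 hM0 (by rw [inter_comm]; exact hB)
  have hBne : M0 ∩ M ≠ M := by
    intro h
    obtain ⟨x, hx, y, hy, hxy⟩ := hc.2
    rw [← h] at hx hy
    exact hxy (rch_of_comp_lm hM0 (mem_inter.1 hx).1 (mem_inter.1 hy).1)
  have hBfree := hF.free_ssub_lm hM hBT inter_subset_right hBne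
  obtain ⟨G', hG'F, hG'⟩ := hmax _ hBfree
  have hG't := hF.tgt G' hG'F
  have hnd : ¬ Disjoint G' M := by
    intro hd
    obtain ⟨x, hx, y, hy, hxy⟩ := hG'.2
    exact hF.nc G' hG'F M hM ⟨hd, x, (mem_inter.1 hx).2, y, (mem_inter.1 hy).2, hxy⟩
  rw [not_disjoint_iff] at hnd
  obtain ⟨z, hzG, hzM⟩ := hnd
  have hzM0 : z ∉ M0 := fun h => (disjoint_left.1 hG'.1 hzG) (mem_inter.2 ⟨h, hzM⟩)
  have hzL : z ∉ L := fun h => (disjoint_left.1 hc.1 h) hzM
  have hzV : z ∈ V \ L := mem_sdiff.2 ⟨hMt.sub hzM, hzL⟩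
  have hd' : Disjoint G' (M ∩ M0) := by rw [inter_comm]; exact hG'.1
  have hsing' : ∀ y ∈ V \ L, y ∉ M0 → ({y} : Finset α) ∈ comps G (V \ L) := by
    intro y hy hy0
    obtain ⟨C, hC, hyC⟩ := exists_comp (G := G) hy
    obtain ⟨g, hg⟩ := hsing C hC (fun h => hy0 (h ▸ hyC))
    rw [hg, mem_singleton] at hyC
    rw [hyC, ← hg]; exact hC
  have hzC := hsing' z hzV hzM0
  have hncr := lemY' h2 hL hMt hc hM0 hB h3 hG't hd'
  have hLG : (L ∩ G').Nonempty := by
    by_contra hcon
    rw [not_nonempty_iff_eq_empty, ← disjoint_iff_inter_eq_empty] at hcon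
    refine hncr ⟨hcon, z, hzG, ?_⟩
    obtain ⟨y, hy, hyz⟩ := exists_mem_ne (by have := hG't.card; omega : 1 < G'.card) z
    refine ⟨y, hy, fun h => hyz ?_⟩
    exact mem_singleton.1 (mem_of_rch_lm hzC (mem_singleton_self z) h)
  obtain ⟨w, hw⟩ := hLG
  have hwL := (mem_inter.1 hw).1
  have hwG := (mem_inter.1 hw).2
  have hwM0 : w ∉ M0 := fun h => (mem_sdiff.1 (hM0V h)).2 hwL
  have hout : ¬ G' ⊆ M0 := fun h => hzM0 (h hzG)
  have hccU := lemY h2 hL hMt hc hM0 hB hG't hd' hout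
  have hUcard : 2 ≤ (G' \ M0).card := by
    have : ({z, w} : Finset α) ⊆ G' \ M0 := by
      intro x hx
      rcases mem_insert.1 hx with rfl | hx
      · exact mem_sdiff.2 ⟨hzG, hzM0⟩
      · rw [mem_singleton.1 hx]; exact mem_sdiff.2 ⟨hwG, hwM0⟩
    have h2 := card_le_card this
    rwa [card_pair (fun h => hzL (by rw [h]; exact hwL))] at h2
  have hUt : Tgt G V (G' \ M0) := hG't.subset_lm sdiff_subset hUcard hccU
  have hUne : G' \ M0 ≠ G' := by
    intro h
    have hsym := Crs.symm hV hG't hBT hG'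
    obtain ⟨x, hx, y, hy, hxy⟩ := hsym.2
    refine hxy (cross_out hV hL.tgt hMt hc.1 hM0 hne0 x ?_ y ?_)
    · rw [← h] at hx
      exact mem_sdiff.2 ⟨hG't.sub (mem_sdiff.1 hx).1, (mem_sdiff.1 hx).2⟩
    · rw [← h] at hy
      exact mem_sdiff.2 ⟨hG't.sub (mem_sdiff.1 hy).1, (mem_sdiff.1 hy).2⟩
  refine ⟨G' \ M0, hF.free_ssub_lm hG'F hUt sdiff_subset hUne, disjoint_sdiff_self_left, ?_⟩
  -- the count
  set Y := (G' \ M0) \ L with hY
  set N := L.filter (fun l => ∃ x ∈ Y, G.Adj x l) with hN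
  have hYmem : ∀ y ∈ Y, y ∈ G' ∧ y ∈ V \ L ∧ y ∉ M0 := by
    intro y hy
    simp only [hY, mem_sdiff] at hy
    exact ⟨hy.1.1, mem_sdiff.2 ⟨hG't.sub hy.1.1, hy.2⟩, hy.1.2⟩
  have hzY : z ∈ Y := by simp [hY, hzG, hzM0, hzL]
  have hNG : ∀ l ∈ N, l ∉ G' := by
    intro l hl hlG
    obtain ⟨x, hx, hxl⟩ := (mem_filter.1 hl).2
    exact hG't.adm.1 x (hYmem x hx).1 l hlG hxl
  have hNn : N.Nonempty := by
    obtain ⟨x, hx, l, hl, hxl⟩ := comp_nb hV hL.tgt.sub hL.tgt.nonempty_lm hzC
    rw [mem_singleton.1 hx] at hxl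
    exact ⟨l, mem_filter.2 ⟨hl, z, hzY, hxl⟩⟩
  have hNcc : cc G (V \ N) ≤ N.card := hL.tgt.adm.2 N (filter_subset _ _) hNn
  have hVN : V \ L ⊆ V \ N := sdiff_subset_sdiff Subset.rfl (filter_subset _ _)
  have hYc : ∀ y ∈ Y, ({y} : Finset α) ∈ comps G (V \ N) := by
    intro y hy
    obtain ⟨hyG, hyV, hyM0⟩ := hYmem y hy
    refine comp_up (hsing' y hyV hyM0) hVN ?_
    rintro ⟨a, ha, b, hb, hab⟩
    rw [mem_singleton.1 ha] at hab
    simp only [mem_sdiff, not_and, not_not] at hb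
    have hbL := hb.2 hb.1.1
    exact hb.1.2 (mem_filter.2 ⟨hbL, y, hy, hab⟩)
  obtain ⟨m, hm⟩ := (mem_comps.1 hM0).2.1.1
  obtain ⟨C, hC, hmC⟩ := exists_comp (G := G) (hVN (hM0V hm))
  have hsub : insert C (Y.image (fun y => ({y} : Finset α))) ⊆ comps G (V \ N) := by
    intro K hK
    rcases mem_insert.1 hK with rfl | hK
    · exact hC
    · obtain ⟨y, hy, rfl⟩ := mem_image.1 hK
      exact hYc y hy
  have hCn : C ∉ Y.image (fun y => ({y} : Finset α)) := by
    intro h
    obtain ⟨y, hy, hyC⟩ := mem_image.1 h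
    rw [← hyC, mem_singleton] at hmC
    exact (hYmem y hy).2.2 (hmC ▸ hm)
  have hcard := card_le_card hsub
  rw [card_insert_of_notMem hCn, card_image_of_injective _ singleton_injective] at hcard
  have hsplit : (G' \ M0).card = ((G' \ M0) ∩ L).card + Y.card := by
    rw [hY, card_inter_add_card_sdiff]
  have h1 : ((G' \ M0) ∩ L).card ≤ (L \ N).card := by
    apply card_le_card
    intro x hx
    simp only [mem_inter, mem_sdiff] at hx ⊢
    exact ⟨hx.2, fun h => hNG x h hx.1.1⟩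
  have h4 : (L \ N).card + N.card = L.card :=
    card_sdiff_add_card_eq_card (filter_subset _ _)
  unfold cc at hNcc
  omega

end sets

section leaf

variable {G : SimpleGraph α} {V D K0 L M : Finset α} {F : Finset (Finset α)} {r s u v : α}

theorem Leaf.not_pair_sub (hl : Leaf G V r s K0) (hL : MinT G V L) (hne : L ≠ {r, s}) :
    ¬ ({r, s} : Finset α) ⊆ L := by
  intro hsub
  have hcc : cc G (V \ {r, s}) ≤ 2 := by
    have := hL.tgt.adm.2 {r, s} hsub (by simp)
    rwa [card_pair hl.ne] at this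
  have hnad : ¬ G.Adj r s := hL.tgt.adm.1 r (hsub (by simp)) s (hsub (by simp))
  have hV : V ≠ K0 ∪ {r, s} := by
    rcases hl.sl with h | h
    · exact absurd h hnad
    · exact h
  have : ∃ x ∈ V, x ∉ K0 ∪ {r, s} := by
    by_contra hcon
    push Not at hcon
    exact hV (subset_antisymm hcon hl.U_sub)
  obtain ⟨x, hxV, hx⟩ := this
  have hxV' : x ∈ V \ {r, s} := mem_sdiff.2 ⟨hxV, fun h => hx (mem_union_right _ h)⟩
  obtain ⟨y, hy⟩ := hl.K0_conn.1
  have hcc2 : 2 ≤ cc G (V \ {r, s}) := by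
    rw [two_le_cc_iff]
    refine ⟨y, hl.K0_sub hy, x, hxV', fun h => hx (mem_union_left _ ?_)⟩
    exact mem_of_rch_lm hl.comp hy h
  have hT : Tgt G V {r, s} := hL.tgt.subset_lm hsub (by rw [card_pair hl.ne]) (by
    rw [card_pair hl.ne]; omega)
  exact hne (hL.min _ hsub hT).symm

theorem Leaf.exM0 (hl : Leaf G V r s K0) (h2 : TwoC G V) (hL : MinT G V L)
    (hLU : L ⊆ K0 ∪ {r, s}) (hne : L ≠ {r, s}) :
    ∃ M0 ∈ comps G (V \ L), (V \ K0) \ L ⊆ M0 ∧
      (∀ M ∈ comps G (V \ L), M ≠ M0 → M ⊆ K0) ∧ (r ∈ M0 ∨ s ∈ M0) := by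
  have hnp := hl.not_pair_sub hL hne
  have hconn : Conn G ((V \ K0) \ L) := by
    have hLx : ∀ x ∈ V, x ∉ K0 → x ∈ L → x = r ∨ x = s := by
      intro x hx hxK hxL
      have := hLU hxL
      simp only [mem_union, mem_insert, mem_singleton] at this
      tauto
    by_cases hr : r ∈ L
    · have hs : s ∉ L := fun h => hnp (by
        intro x hx
        rcases mem_insert.1 hx with rfl | hx
        · exact hr
        · rw [mem_singleton.1 hx]; exact h)
      have : (V \ K0) \ L = (V \ K0) \ {r} := by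
        ext x
        simp only [mem_sdiff, mem_singleton]
        constructor
        · rintro ⟨hx, hxL⟩
          exact ⟨hx, fun h => hxL (h ▸ hr)⟩
        · rintro ⟨hx, hxr⟩
          refine ⟨hx, fun h => ?_⟩
          rcases hLx x hx.1 hx.2 h with h' | h'
          · exact hxr h'
          · exact hs (h' ▸ h)
      rw [this]; exact hl.out_conn_r h2
    by_cases hs : s ∈ L
    · have : (V \ K0) \ L = (V \ K0) \ {s} := by
        ext x
        simp only [mem_sdiff, mem_singleton]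
        constructor
        · rintro ⟨hx, hxL⟩
          exact ⟨hx, fun h => hxL (h ▸ hs)⟩
        · rintro ⟨hx, hxr⟩
          refine ⟨hx, fun h => ?_⟩
          rcases hLx x hx.1 hx.2 h with h' | h'
          · exact hr (h' ▸ h)
          · exact hxr h'
      rw [this]; exact hl.out_conn_s h2
    · have : (V \ K0) \ L = (V \ K0) := by
        ext x
        simp only [mem_sdiff]
        constructor
        · rintro ⟨hx, hxL⟩
          exact hx
        · rintro hx
          refine ⟨hx, fun h => ?_⟩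
          rcases hLx x hx.1 hx.2 h with h' | h'
          · exact hr (h' ▸ h)
          · exact hs (h' ▸ h)
      rw [this]; exact hl.out_conn h2
  obtain ⟨M0, hM0, hsub⟩ := conn_sub_comp hconn
    (sdiff_subset_sdiff sdiff_subset Subset.rfl : (V \ K0) \ L ⊆ V \ L)
  refine ⟨M0, hM0, hsub, fun M hM hMne x hx => ?_, ?_⟩
  · by_contra hxK
    have hxV := (mem_comps.1 hM).1 hx
    rw [mem_sdiff] at hxV
    exact hMne (comp_unique hM hM0 hx (hsub (mem_sdiff.2 ⟨mem_sdiff.2 ⟨hxV.1, hxK⟩, hxV.2⟩)))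
  · by_cases hr : r ∈ L
    · have hs : s ∉ L := fun h => hnp (by
        intro x hx
        rcases mem_insert.1 hx with rfl | hx
        · exact hr
        · rw [mem_singleton.1 hx]; exact h)
      right
      exact hsub (by simp [hl.hs, hl.s_notin, hs])
    · left
      exact hsub (by simp [hl.hr, hl.r_notin, hr])

theorem Leaf.three (hl : Leaf G V r s K0) (h2 : TwoC G V) (hL : MinT G V L)
    (hLU : L ⊆ K0 ∪ {r, s}) (hne : L ≠ {r, s}) : 3 ≤ L.card := by
  by_contra hcon
  obtain ⟨M0, hM0, hsub, hoth, hrs⟩ := hl.exM0 h2 hL hLU hne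
  have hcc : cc G (V \ L) = L.card := hL.tgt.eq
  have hc2 : 2 ≤ (comps G (V \ L)).card := by
    have := hL.tgt.card
    unfold cc at hcc; omega
  obtain ⟨M, hM, hMne⟩ := exists_mem_ne (by omega : 1 < (comps G (V \ L)).card) M0
  have hMK := hoth M hM hMne
  obtain ⟨hMV, hMc, hMcl⟩ := mem_comps.1 hM
  have := hl.tc.small_lm (X := M) (N := L) (hMK.trans subset_union_left) hMc.1 hLU (by omega)
    (fun c hc y hy hcy => by
      rw [addE_adj_lm hl.ne] at hcy
      have hcK := hMK hc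
      rcases hcy with h | h | h
      · by_cases hyL : y ∈ L
        · exact Or.inr hyL
        · exact Or.inl (hMcl c hc y (mem_sdiff.2 ⟨hl.U_sub hy, hyL⟩) h)
      · exact absurd (h.1 ▸ hcK) hl.r_notin
      · exact absurd (h.1 ▸ hcK) hl.s_notin)
    (by
      rw [disjoint_left]
      intro x hx hxL
      exact (mem_sdiff.1 (hMV hx)).2 hxL)
  rcases hrs with h | h
  · have h' := this (by simp : r ∈ K0 ∪ {r, s})
    rcases mem_union.1 h' with h' | h'
    · exact hl.r_notin (hMK h')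
    · exact (mem_sdiff.1 ((mem_comps.1 hM0).1 h)).2 h'
  · have h' := this (by simp : s ∈ K0 ∪ {r, s})
    rcases mem_union.1 h' with h' | h'
    · exact hl.s_notin (hMK h')
    · exact (mem_sdiff.1 ((mem_comps.1 hM0).1 h)).2 h'

theorem Leaf.single {K : Finset α} {g : α} (hl : Leaf G V r s K0) (h2 : TwoC G V)
    (hL : MinT G V L) (hLU : L ⊆ K0 ∪ {r, s}) (h3 : 3 ≤ L.card) (hM : Tgt G V M)
    (hc : Crs G V L M) (hK : K ∈ comps G (V \ L)) (hg : M ∩ K = {g}) :
    K ∩ (K0 ∪ {r, s}) ⊆ {g} := by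
  intro x hx
  by_contra hxg
  rw [mem_singleton] at hxg
  have hgM : g ∈ M := (mem_inter.1 (by rw [hg]; simp : g ∈ M ∩ K)).1
  obtain ⟨hKV, hKc, hKcl⟩ := mem_comps.1 hK
  have hxK : x ∈ K \ {g} := by
    simp [(mem_inter.1 hx).1, hxg]
  obtain ⟨Z, hZ, hxZ⟩ := exists_comp (G := G) hxK
  obtain ⟨hZK, hZc, hZcl⟩ := mem_comps.1 hZ
  have hgL : g ∉ L := fun h => disjoint_left.1 hc.1 h hgM
  have hZM : ∀ c ∈ Z, c ∈ V \ M := by
    intro c hc'
    have h1 := hZK hc'
    rw [mem_sdiff, mem_singleton] at h1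
    refine mem_sdiff.2 ⟨(mem_sdiff.1 (hKV h1.1)).1, fun h => h1.2 ?_⟩
    have : c ∈ M ∩ K := mem_inter.2 ⟨h, h1.1⟩
    rwa [hg, mem_singleton] at this
  have hMc := (hL.cross h2.conn hM hc).1
  have huniq : ∀ y ∈ L, ∀ y' ∈ L, (∃ c ∈ Z, G.Adj c y) → (∃ c ∈ Z, G.Adj c y') → y = y' := by
    rintro y hy y' hy' ⟨c, hcZ, hcy⟩ ⟨c', hcZ', hcy'⟩
    have hyM : y ∈ V \ M := mem_sdiff.2 ⟨hL.tgt.sub hy, disjoint_left.1 hc.1 hy⟩
    have hyM' : y' ∈ V \ M := mem_sdiff.2 ⟨hL.tgt.sub hy', disjoint_left.1 hc.1 hy'⟩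
    have hr : Rch G (V \ M) y y' := by
      refine (Rch.of_adj hyM (hZM c hcZ) hcy.symm).trans
        (Rch.trans ?_ (Rch.of_adj (hZM c' hcZ') hyM' hcy'))
      exact (hZc.2 c hcZ c' hcZ').mono hZM
    obtain ⟨R, hR, hyR, hyR'⟩ := rch_iff_comp.1 hr
    have hcard := hMc R hR
    rw [card_le_one] at hcard
    exact hcard y (mem_inter.2 ⟨hyR, hy⟩) y' (mem_inter.2 ⟨hyR', hy'⟩)
  have hex : ∃ l ∈ L, ∀ c ∈ Z, ∀ y ∈ V, G.Adj c y → y ∈ Z ∨ y = g ∨ y = l := by
    have hgen : ∀ c ∈ Z, ∀ y ∈ V, G.Adj c y → y ∉ L → y ∈ Z ∨ y = g := by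
      intro c hc' y hy hcy hyL
      have h1 := hZK hc'
      rw [mem_sdiff, mem_singleton] at h1
      have hyK := hKcl c h1.1 y (mem_sdiff.2 ⟨hy, hyL⟩) hcy
      by_cases hyg : y = g
      · exact Or.inr hyg
      · exact Or.inl (hZcl c hc' y (by simp [hyK, hyg]) hcy)
    by_cases h : ∃ l ∈ L, ∃ c ∈ Z, G.Adj c l
    · obtain ⟨l, hlL, hlZ⟩ := h
      refine ⟨l, hlL, fun c hc' y hy hcy => ?_⟩
      by_cases hyL : y ∈ L
      · exact Or.inr (Or.inr (huniq y hyL l hlL ⟨c, hc', hcy⟩ hlZ))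
      · rcases hgen c hc' y hy hcy hyL with h' | h'
        · exact Or.inl h'
        · exact Or.inr (Or.inl h')
    · obtain ⟨l, hlL⟩ := hL.tgt.nonempty_lm
      refine ⟨l, hlL, fun c hc' y hy hcy => ?_⟩
      have hyL : y ∉ L := fun hyL => h ⟨y, hyL, c, hc', hcy⟩
      rcases hgen c hc' y hy hcy hyL with h' | h'
      · exact Or.inl h'
      · exact Or.inr (Or.inl h')
  obtain ⟨l, hlL, hn⟩ := hex
  have hZL : ∀ c ∈ Z, c ∉ L := fun c hc' => by
    have h1 := hZK hc'
    rw [mem_sdiff, mem_singleton] at h1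
    exact (mem_sdiff.1 (hKV h1.1)).2
  refine hl.sm h2 ⟨x, mem_inter.2 ⟨hxZ, (mem_inter.1 hx).2⟩⟩ (g := g) (l := l) ?_ ?_ hn ?_
  · intro h
    have := hZK h
    simp at this
  · exact fun h => hZL l h hlL
  · have hsub : L.erase l ⊆ ((K0 ∪ {r, s}) \ Z) \ {g, l} := by
      intro y hy
      rw [mem_erase] at hy
      simp only [mem_sdiff, mem_insert, mem_singleton, not_or]
      exact ⟨⟨hLU hy.2, fun h => hZL y h hy.2⟩, fun h => hgL (h ▸ hy.2), hy.1⟩
    have := card_le_card hsub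
    rw [card_erase_of_mem hlL] at this
    omega

theorem Leaf.nb3 {M0 : Finset α} {y0 : α} (hl : Leaf G V r s K0) (h2 : TwoC G V)
    (hL : MinT G V L) (hLU : L ⊆ K0 ∪ {r, s}) (h3 : 3 ≤ L.card)
    (hM0 : M0 ∈ comps G (V \ L)) (hMU : (M0 ∩ (K0 ∪ {r, s})).Nonempty)
    (hy0 : y0 ∈ K0) (hy0M : y0 ∉ M0) (hy0L : y0 ∉ L) : 3 ≤ (nb G M0 L).card := by
  by_contra hcon
  obtain ⟨hMV, hMc, hMcl⟩ := mem_comps.1 hM0
  set N := nb G M0 L with hN
  have hNL : N ⊆ L := filter_subset _ _
  obtain ⟨g, hgL, l, hlL, hNgl⟩ : ∃ g ∈ L, ∃ l ∈ L, N ⊆ {g, l} := by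
    have h01 : N.card = 0 ∨ N.card = 1 ∨ N.card = 2 := by omega
    rcases h01 with h | h | h
    · obtain ⟨l, hl⟩ := hL.tgt.nonempty_lm
      refine ⟨l, hl, l, hl, ?_⟩
      rw [card_eq_zero.1 h]; simp
    · obtain ⟨p, hp⟩ := card_eq_one.1 h
      have hpL : p ∈ L := hNL (by rw [hp]; simp)
      refine ⟨p, hpL, p, hpL, ?_⟩
      rw [hp]; simp
    · obtain ⟨p, q, -, hpq⟩ := card_eq_two.1 h
      have hpL : p ∈ L := hNL (by rw [hpq]; simp)
      have hqL : q ∈ L := hNL (by rw [hpq]; simp)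
      exact ⟨p, hpL, q, hqL, by rw [hpq]⟩
  have hML : ∀ c ∈ L, c ∉ M0 := fun c hc h => (mem_sdiff.1 (hMV h)).2 hc
  refine hl.sm h2 hMU (g := g) (l := l) (hML g hgL) (hML l hlL) ?_ ?_
  · intro c hc y hy hcy
    by_cases hyL : y ∈ L
    · right
      have : y ∈ N := mem_filter.2 ⟨hyL, c, hc, hcy⟩
      have := hNgl this
      simpa using this
    · exact Or.inl (hMcl c hc y (mem_sdiff.2 ⟨hy, hyL⟩) hcy)
  · obtain ⟨l3, hl3, hl3'⟩ : ∃ l3 ∈ L, l3 ∉ ({g, l} : Finset α) := by
      by_contra hcon'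
      push Not at hcon'
      have h1 := card_le_card (fun x hx => hcon' x hx : L ⊆ {g, l})
      have h2 := (card_le_two : ({g, l} : Finset α).card ≤ 2)
      omega
    have hsub : ({l3, y0} : Finset α) ⊆ ((K0 ∪ {r, s}) \ M0) \ {g, l} := by
      intro x hx
      rw [mem_insert, mem_singleton] at hx
      rcases hx with rfl | rfl
      · exact mem_sdiff.2 ⟨mem_sdiff.2 ⟨hLU hl3, hML _ hl3⟩, hl3'⟩
      · refine mem_sdiff.2 ⟨mem_sdiff.2 ⟨mem_union_left _ hy0, hy0M⟩, fun h => ?_⟩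
        rw [mem_insert, mem_singleton] at h
        rcases h with h | h
        · exact hy0L (h ▸ hgL)
        · exact hy0L (h ▸ hlL)
    have := card_le_card hsub
    rwa [card_pair (fun h => hy0L (by rw [← h]; exact hl3))] at this

theorem Leaf.stb (hl : Leaf G V r s K0) {M0 : Finset α}
    (hM0 : M0 ∈ comps G (V \ L)) (hsub : (V \ K0) \ L ⊆ M0)
    (h1 : ∀ K ∈ comps G (V \ L), (K ∩ (K0 ∪ {r, s})).card ≤ 1) :
    Stb (addE G r s) ((K0 ∪ {r, s}) \ L) := by
  have hrs : r ∉ L → s ∉ L → False := by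
    intro hr hs
    have hrM : r ∈ M0 := hsub (by simp [hl.hr, hl.r_notin, hr])
    have hsM : s ∈ M0 := hsub (by simp [hl.hs, hl.s_notin, hs])
    have := h1 M0 hM0
    rw [card_le_one] at this
    exact hl.ne (this r (by simp [hrM]) s (by simp [hsM]))
  intro x hx y hy hxy
  rw [mem_sdiff] at hx hy
  rw [addE_adj_lm hl.ne] at hxy
  rcases hxy with h | ⟨h, h'⟩ | ⟨h, h'⟩
  · have hxV : x ∈ V \ L := mem_sdiff.2 ⟨hl.U_sub hx.1, hx.2⟩
    have hyV : y ∈ V \ L := mem_sdiff.2 ⟨hl.U_sub hy.1, hy.2⟩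
    obtain ⟨K, hK, hxK, hyK⟩ := rch_iff_comp.1 (Rch.of_adj hxV hyV h)
    have := h1 K hK
    rw [card_le_one] at this
    exact h.ne (this x (mem_inter.2 ⟨hxK, hx.1⟩) y (mem_inter.2 ⟨hyK, hy.1⟩))
  · exact hrs (h ▸ hx.2) (h' ▸ hy.2)
  · exact hrs (h' ▸ hy.2) (h ▸ hx.2)

theorem Leaf.stepC (hl : Leaf G V r s K0) (h2 : TwoC G V) (hF : NCF G V F) (hmax : Maxl G V F)
    (hL : MinT G V L) (hLU : L ⊆ K0 ∪ {r, s}) (hne : L ≠ {r, s}) {M0 : Finset α}
    (hM0 : M0 ∈ comps G (V \ L)) (hMU : (M0 ∩ (K0 ∪ {r, s})).Nonempty)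
    (hoth : ∀ K ∈ comps G (V \ L), K ≠ M0 → K ⊆ K0)
    (hM : M ∈ F) (hc : Crs G V L M)
    (h1 : ∀ K ∈ comps G (V \ L), K ≠ M0 → (M ∩ K).card ≤ 1) :
    (∀ K ∈ comps G (V \ L), K ≠ M0 → (K ∩ (K0 ∪ {r, s})).card ≤ 1) ∧
      ((M0 ∩ (K0 ∪ {r, s})).card ≤ 1 ∨
        ∃ D, MinT G V D ∧ Free G V F D ∧ Disjoint D M0 ∧ D.card < L.card) := by
  have h3 := hl.three h2 hL hLU hne
  have hMt := hF.tgt M hM
  have hcr := (hL.cross h2.conn hMt hc).2
  have hsg : ∀ K ∈ comps G (V \ L), (M ∩ K).card ≤ 1 → ∃ g, M ∩ K = {g} ∧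
      K ∩ (K0 ∪ {r, s}) ⊆ {g} := by
    intro K hK hK1
    have hn := hcr K hK
    rw [inter_comm, ← card_pos] at hn
    obtain ⟨g, hg⟩ := card_eq_one.1 (by omega : (M ∩ K).card = 1)
    exact ⟨g, hg, hl.single h2 hL hLU h3 hMt hc hK hg⟩
  refine ⟨fun K hK hKM => ?_, ?_⟩
  · obtain ⟨g, -, hg⟩ := hsg K hK (h1 K hK hKM)
    have := card_le_card hg
    rwa [card_singleton] at this
  · by_cases hB : (M ∩ M0).card ≤ 1
    · left
      obtain ⟨g, -, hg⟩ := hsg M0 hM0 hB
      have := card_le_card hg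
      rwa [card_singleton] at this
    · right
      have hcc : (comps G (V \ L)).card = L.card := hL.tgt.eq
      obtain ⟨K, hK, hKM⟩ := exists_mem_ne (by omega : 1 < (comps G (V \ L)).card) M0
      obtain ⟨y0, hy0⟩ := (mem_comps.1 hK).2.1.1
      have hy0M : y0 ∉ M0 := fun h => hKM (comp_unique hK hM0 hy0 h)
      have hy0L : y0 ∉ L := (mem_sdiff.1 ((mem_comps.1 hK).1 hy0)).2
      have hnb := hl.nb3 h2 hL hLU h3 hM0 hMU (hoth K hK hKM hy0) hy0M hy0L
      obtain ⟨D, hD, hDM, hDc⟩ := exists_smaller h2 hF hmax hL hM hc hM0 (by omega) hnb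
        (fun K hK hKM => by
          obtain ⟨g, -, hg⟩ := hsg K hK (h1 K hK hKM)
          refine ⟨g, ?_⟩
          have hKU : K ∩ (K0 ∪ {r, s}) = K :=
            inter_eq_left.2 ((hoth K hK hKM).trans subset_union_left)
          rw [hKU] at hg
          rcases subset_singleton_iff.1 hg with h | h
          · exact absurd h (mem_comps.1 hK).2.1.1.ne_empty
          · exact h)
      obtain ⟨T, hTD, hTm, hTf⟩ := MinT.free_sub_lm hD
      exact ⟨T, hTm, hTf, hDM.mono_left hTD, (card_le_card hTD).trans_lt hDc⟩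

theorem Leaf.crossed (h2 : TwoC G V) (hF : NCF G V F) (hmax : Maxl G V F) (hD : Free G V F D) :
    ∃ M ∈ F, Crs G V D M := by
  obtain ⟨M, hM, hc⟩ := hmax D hD
  exact ⟨M, hM, Crs.symm h2.conn (hF.tgt M hM) hD.tgt hc⟩

theorem Leaf.noPair (hl : Leaf G V r s K0) (h2 : TwoC G V) (hF : NCF G V F)
    (hmax : Maxl G V F) : ∀ (n : ℕ) (C K M : Finset α), K.card = n → Free G V F C →
      K ∈ comps G (V \ C) → K ⊆ K0 → M ∈ F → Crs G V C M → (M ∩ K).card ≤ 1 := by
  intro n
  induction n using Nat.strong_induction_on with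
  | _ n ih =>
    intro C K M hKn hC hK hKK0 hM hc
    by_contra hcon
    have hV := h2.conn
    have hMt := hF.tgt M hM
    have hconn := conn_compl hV hC.tgt hK
    have inner : ∀ (m : ℕ) (L : Finset α), L.card = m → MinT G V L → Free G V F L → L ⊆ K →
        False := by
      intro m
      induction m using Nat.strong_induction_on with
      | _ m ih2 =>
        intro L hLm hL hLf hLK
        have hVK : V \ K ⊆ V \ L := sdiff_subset_sdiff Subset.rfl hLK
        obtain ⟨M0, hM0, hsub⟩ := conn_sub_comp hconn hVK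
        have hrM : r ∈ M0 := hsub (by simp [hl.hr]; exact fun h => hl.r_notin (hKK0 h))
        have hsM : s ∈ M0 := hsub (by simp [hl.hs]; exact fun h => hl.s_notin (hKK0 h))
        have hoth : ∀ K' ∈ comps G (V \ L), K' ≠ M0 → K' ⊆ K := by
          intro K' hK' hne x hx
          by_contra hxK
          have hxV := (mem_comps.1 hK').1 hx
          rw [mem_sdiff] at hxV
          exact hne (comp_unique hK' hM0 hx (hsub (mem_sdiff.2 ⟨hxV.1, hxK⟩)))
        have hLU : L ⊆ K0 ∪ {r, s} := (hLK.trans hKK0).trans subset_union_left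
        have hne : L ≠ {r, s} := fun h => hl.r_notin (hKK0 (hLK (by rw [h]; simp)))
        obtain ⟨H, hH, hcH⟩ := Leaf.crossed h2 hF hmax hLf
        have hres := hl.stepC h2 hF hmax hL hLU hne hM0 ⟨r, by simp [hrM]⟩
          (fun K' hK' hne => (hoth K' hK' hne).trans hKK0) hH hcH
          (fun K' hK' hne => by
            refine ih K'.card ?_ L K' H rfl hLf hK' ((hoth K' hK' hne).trans hKK0) hH hcH
            rw [← hKn]
            apply card_lt_card
            refine (hoth K' hK' hne).ssubset_of_ne (fun h => ?_)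
            obtain ⟨x, hx⟩ := hL.tgt.nonempty_lm
            have := (mem_comps.1 hK').1 (h.symm ▸ hLK hx)
            exact (mem_sdiff.1 this).2 hx)
        rcases hres.2 with h | ⟨D, hDm, hDf, hDM, hDc⟩
        · rw [card_le_one] at h
          exact hl.ne (h r (by simp [hrM]) s (by simp [hsM]))
        · refine ih2 D.card (hLm ▸ hDc) D rfl hDm hDf (fun x hx => ?_)
          by_contra hxK
          exact disjoint_left.1 hDM hx (hsub (mem_sdiff.2 ⟨hDm.tgt.sub hx, hxK⟩))
    have hPT : Tgt G V (K ∩ M) := cross_tgt hV hC.tgt hMt hc.1 hK (by rw [inter_comm]; omega)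
    have hPne : K ∩ M ≠ M := by
      intro h
      obtain ⟨x, hx, y, hy, hxy⟩ := hc.2
      rw [← h] at hx hy
      exact hxy (rch_of_comp_lm hK (mem_inter.1 hx).1 (mem_inter.1 hy).1)
    obtain ⟨L, hLP, hL, hLf⟩ := MinT.free_sub_lm (hF.free_ssub_lm hM hPT inter_subset_right hPne)
    exact inner L.card L rfl hL hLf (hLP.trans inter_subset_left)

theorem LM (h2 : TwoC G V) (hF : NCF G V F) (hmax : Maxl G V F) (hl : Leaf G V r s K0)
    (hD : Free G V F D) (hmin : MinT G V D) (hU : D ⊆ K0 ∪ {r, s}) (hne : D ≠ {r, s}) :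
    Stb (addE G r s) ((K0 ∪ {r, s}) \ D) := by
  induction hn : D.card using Nat.strong_induction_on generalizing D with
  | _ n ih =>
    obtain ⟨M0, hM0, hsub, hoth, hrs⟩ := hl.exM0 h2 hmin hU hne
    obtain ⟨H, hH, hcH⟩ := Leaf.crossed h2 hF hmax hD
    have hMU : (M0 ∩ (K0 ∪ {r, s})).Nonempty := by
      rcases hrs with h | h
      · exact ⟨r, by simp [h]⟩
      · exact ⟨s, by simp [h]⟩
    have hres := hl.stepC h2 hF hmax hmin hU hne hM0 hMU hoth hH hcH
      (fun K hK hKM => hl.noPair h2 hF hmax _ D K H rfl hD hK (hoth K hK hKM) hH hcH)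
    refine hl.stb hM0 hsub (fun K hK => ?_)
    by_cases hKM : K = M0
    · rw [hKM]
      rcases hres.2 with h | ⟨D', hDm, hDf, hDM, hDc⟩
      · exact h
      · have hDU : D' ⊆ K0 ∪ {r, s} := by
          intro x hx
          by_cases hxD : x ∈ D
          · exact hU hxD
          · obtain ⟨C, hC, hxC⟩ := exists_comp (G := G)
              (mem_sdiff.2 ⟨hDm.tgt.sub hx, hxD⟩ : x ∈ V \ D)
            exact mem_union_left _ (hoth C hC (fun h => disjoint_left.1 hDM hx (h ▸ hxC)) hxC)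
        have hDne : D' ≠ {r, s} := by
          intro h
          rcases hrs with h' | h'
          · exact disjoint_left.1 hDM (by rw [h]; simp) h'
          · exact disjoint_left.1 hDM (by rw [h]; simp) h'
        have hst := ih D'.card (hn ▸ hDc) hDf hDm hDU hDne rfl
        by_contra hcon
        have h1 : 1 < (M0 ∩ (K0 ∪ {r, s})).card := by omega
        have hMst : ∀ x ∈ M0 ∩ (K0 ∪ {r, s}), x ∈ (K0 ∪ {r, s}) \ D' := fun x hx =>
          mem_sdiff.2 ⟨(mem_inter.1 hx).2, fun h => disjoint_left.1 hDM h (mem_inter.1 hx).1⟩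
        have hends : ∀ x ∈ M0 ∩ (K0 ∪ {r, s}), x = r ∨ x = s := by
          intro x hx
          obtain ⟨y, hy, hyx⟩ := exists_mem_ne h1 x
          have hcx := (conn_iff_cut.1 (mem_comps.1 hM0).2.1).2 {x}
            (singleton_subset_iff.2 (mem_inter.1 hx).1) (by simp)
            (fun h => hyx (mem_singleton.1 (by rw [h]; exact (mem_inter.1 hy).1)))
          obtain ⟨x', hx', z, hz, hxz⟩ := hcx
          rw [mem_singleton.1 hx'] at hxz
          have hzM := (mem_sdiff.1 hz).1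
          by_contra hcon2
          push Not at hcon2
          have hxK : x ∈ K0 := by
            have := (mem_inter.1 hx).2
            simp only [mem_union, mem_insert, mem_singleton] at this
            tauto
          have hzV : z ∈ V := (mem_sdiff.1 ((mem_comps.1 hM0).1 hzM)).1
          have hzU := hl.adj_in hxK hzV hxz
          exact hst x (hMst x hx) z (hMst z (mem_inter.2 ⟨hzM, hzU⟩))
            ((addE_adj_lm hl.ne).2 (Or.inl hxz))
        obtain ⟨x, hx, y, hy, hxy⟩ := one_lt_card.1 h1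
        refine hst x (hMst x hx) y (hMst y hy) ((addE_adj_lm hl.ne).2 (Or.inr ?_))
        rcases hends x hx with h | h <;> rcases hends y hy with h' | h'
        · exact absurd (h.trans h'.symm) hxy
        · exact Or.inl ⟨h, h'⟩
        · exact Or.inr ⟨h, h'⟩
        · exact absurd (h.trans h'.symm) hxy
    · exact hres.1 K hK hKM

theorem MAX3 (h3 : ThreeC G V) (hF : NCF G V F) (hmax : Maxl G V F) (hD : Free G V F D) :
    Stb G (V \ D) := by
  have h2 := h3.twoC
  obtain ⟨r, hr, s, hs, hrs⟩ : ∃ r ∈ V, ∃ s ∈ V, G.Adj r s := by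
    obtain ⟨x, hx⟩ := h2.conn.1
    have hcut := (conn_iff_cut.1 h2.conn).2 {x} (singleton_subset_iff.2 hx) (by simp)
      (fun h => by
        have := h3.card
        rw [← h, card_singleton] at this
        omega)
    obtain ⟨a, ha, b, hb, hab⟩ := hcut
    exact ⟨a, by rw [mem_singleton.1 ha]; exact hx, b, (mem_sdiff.1 hb).1, hab⟩
  have hVeq : (V \ {r, s}) ∪ {r, s} = V := by
    ext x
    simp only [mem_union, mem_sdiff, mem_insert, mem_singleton]
    constructor
    · rintro (h | rfl | rfl)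
      · exact h.1
      · exact hr
      · exact hs
    · intro h
      tauto
  have hl : Leaf G V r s (V \ {r, s}) :=
    { hr := hr
      hs := hs
      ne := hrs.ne
      comp := by
        rw [comps_of_conn (h3.conn r hr s hs)]
        exact mem_singleton_self _
      tc := by rw [addE_eq_self_lm hrs, hVeq]; exact h3
      sl := Or.inl hrs }
  obtain ⟨T, hTD, hTm, hTf⟩ := MinT.free_sub_lm hD
  have := LM h2 hF hmax hl hTf hTm (by rw [hVeq]; exact hTm.tgt.sub) (fun h =>
    hTm.tgt.adm.1 r (by rw [h]; simp) s (by rw [h]; simp) hrs)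
  rw [addE_eq_self_lm hrs, hVeq] at this
  exact fun x hx y hy => this x (sdiff_subset_sdiff Subset.rfl hTD hx) y
    (sdiff_subset_sdiff Subset.rfl hTD hy)

end leaf

end Pool.Agent.TH
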