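import Pool.Agent.TH.DelCon
import Pool.Agent.TH.LM

/-!
# Deletion and contraction: the statements for maximal families
-/

set_option autoImplicit false

namespace Pool.Agent.TH

open Finset
open scoped Classical

variable {α : Type*} [DecidableEq α]
variable {G : SimpleGraph α} {V : Finset α} {F : Finset (Finset α)} {u v : α}

theorem hob_of_maxl (h3 : ThreeC G V) (hF : NCF G V F) (hmax : Maxl G V F) (hu : u ∈ V)
    (hv : v ∈ V) (huv : G.Adj u v) : ∀ D, Free G V F D → u ∈ D ∨ v ∈ D := by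
  intro D hD
  by_contra hcon
  rw [not_or] at hcon
  exact MAX3 h3 hF hmax hD u (mem_sdiff.2 ⟨hu, hcon.1⟩) v (mem_sdiff.2 ⟨hv, hcon.2⟩) huv

theorem del_clsE (h3 : ThreeC G V) (hF : NCF G V F) (hmax : Maxl G V F) (hu : u ∈ V) (hv : v ∈ V)
    (huv : G.Adj u v) : ClsE (delE G u v) V u v (delF G V F u v) :=
  del_clsE' h3 hF (hob_of_maxl h3 hF hmax hu hv huv) hu hv huv

theorem con_clsE (h3 : ThreeC G V) (hF : NCF G V F) (hmax : Maxl G V F) (hu : u ∈ V) (hv : v ∈ V)
    (huv : G.Adj u v) :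
    ClsE (idn G {u, v} u) (V.erase v) u u (idnF G F {u, v} u (V.erase v)) :=
  con_clsE' h3 hF (hob_of_maxl h3 hF hmax hu hv huv) hu hv huv

end Pool.Agent.TH
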