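import Pool.Agent.TH.LM

set_option autoImplicit false
set_option linter.unusedVariables false
set_option linter.unusedSectionVars false

namespace Pool.Agent.TH

open Finset
open scoped Classical

variable {α : Type*} [DecidableEq α]

section Cor
variable {G : SimpleGraph α} {V D K0 M S T C : Finset α} {F : Finset (Finset α)} {r s u v x y : α}

/-- every tight set contains a minimal one -/
private theorem exists_minT (h : Tgt G V T) : ∃ D ⊆ T, MinT G V D := by
  induction hn : T.card using Nat.strong_induction_on generalizing T with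
  | _ n ih =>
    by_cases hm : ∀ S, S ⊆ T → Tgt G V S → S = T
    · exact ⟨T, Finset.Subset.refl _, ⟨h, hm⟩⟩
    · push Not at hm
      obtain ⟨S, hST, hS, hne⟩ := hm
      have hlt : S.card < n := by
        rw [← hn]
        exact card_lt_card (Finset.ssubset_iff_subset_ne.2 ⟨hST, hne⟩)
      obtain ⟨D, hD, hDm⟩ := ih S.card hlt hS rfl
      exact ⟨D, hD.trans hST, hDm⟩

private theorem Free.mono (h : Free G V F T) (hST : S ⊆ T) (hS : Tgt G V S) : Free G V F S :=
  ⟨hS, fun ⟨M, hM, hMS⟩ => h.nup ⟨M, hM, hMS.trans hST⟩⟩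

/-- a proper tight subset of a member is free -/
private theorem NCF.free_of_ssubset (hF : NCF G V F) (hM : M ∈ F) (hS : Tgt G V S) (hSM : S ⊆ M)
    (hne : ¬ M ⊆ S) : Free G V F S := by
  refine ⟨hS, ?_⟩
  rintro ⟨N, hN, hNS⟩
  have := hF.anti N hN M hM (hNS.trans hSM)
  rw [this] at hNS
  exact hne hNS

private theorem addE_adj' : (addE G r s).Adj x y ↔
    x ≠ y ∧ (G.Adj x y ∨ (x = r ∧ y = s) ∨ (y = r ∧ x = s)) := by
  unfold addE
  rw [SimpleGraph.fromRel_adj]
  constructor
  · rintro ⟨h, (h1 | h1) | (h1 | h1)⟩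
    · exact ⟨h, Or.inl h1⟩
    · exact ⟨h, Or.inr (Or.inl h1)⟩
    · exact ⟨h, Or.inl h1.symm⟩
    · exact ⟨h, Or.inr (Or.inr h1)⟩
  · rintro ⟨h, h1 | h1 | h1⟩
    · exact ⟨h, Or.inl (Or.inl h1)⟩
    · exact ⟨h, Or.inl (Or.inr h1)⟩
    · exact ⟨h, Or.inr (Or.inr h1)⟩

private theorem addE_comm : addE G r s = addE G s r := by
  ext x y
  rw [addE_adj', addE_adj']
  constructor
  · rintro ⟨h, h1 | h1 | h1⟩
    · exact ⟨h, Or.inl h1⟩
    · exact ⟨h, Or.inr (Or.inr ⟨h1.2, h1.1⟩)⟩
    · exact ⟨h, Or.inr (Or.inl ⟨h1.2, h1.1⟩)⟩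
  · rintro ⟨h, h1 | h1 | h1⟩
    · exact ⟨h, Or.inl h1⟩
    · exact ⟨h, Or.inr (Or.inr ⟨h1.2, h1.1⟩)⟩
    · exact ⟨h, Or.inr (Or.inl ⟨h1.2, h1.1⟩)⟩

private theorem Leaf.swap (hl : Leaf G V r s K0) : Leaf G V s r K0 := by
  have h1 : ({s, r} : Finset α) = {r, s} := pair_comm s r
  refine ⟨hl.hs, hl.hr, hl.ne.symm, ?_, ?_, ?_⟩
  · rw [h1]; exact hl.comp
  · rw [h1, addE_comm]; exact hl.tc
  · rw [h1]; exact hl.sl.imp (fun h => h.symm) id

private theorem Cut2.swap (hc : Cut2 G V r s) : Cut2 G V s r :=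
  ⟨hc.hq, hc.hp, hc.ne.symm, by rw [pair_comm]; exact hc.two⟩

private theorem Seal.swap (hc : Seal G V F r s) : Seal G V F s r := by
  unfold Seal at hc ⊢
  rw [pair_comm s r]
  exact hc.imp (fun h => h.symm) id

/-- in a 2-connected graph a component of `V \ {r, s}` has both `r` and `s` as neighbours -/
private theorem Cut2.adj_left (h2 : TwoC G V) (hr : r ∈ V) (hs : s ∈ V) (hne : r ≠ s)
    (hC : C ∈ comps G (V \ {r, s})) : ∃ x ∈ C, G.Adj x r := by
  by_contra hn
  push Not at hn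
  have hCV := (mem_comps.1 hC).1
  have hrC : r ∉ C := fun h => (mem_sdiff.1 (hCV h)).2 (by simp)
  have hsC : s ∉ C := fun h => (mem_sdiff.1 (hCV h)).2 (by simp)
  have h1 := TwoC.nb (p := s) h2 (hCV.trans sdiff_subset) (mem_comps.1 hC).2.1.1 hs
    (by
      intro c hc y hy hcy
      by_cases hyr : y = r
      · rw [hyr] at hcy
        exact (hn c hc hcy).elim
      · by_cases hys : y = s
        · exact Or.inr hys
        · refine Or.inl ((mem_comps.1 hC).2.2 c hc y ?_ hcy)
          rw [mem_sdiff, mem_insert, mem_singleton]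
          exact ⟨hy, fun h => h.elim hyr hys⟩) hsC
  have h3 := h1 hr
  rw [mem_insert] at h3
  exact h3.elim hne hrC

private theorem Cut2.adj_right (h2 : TwoC G V) (hr : r ∈ V) (hs : s ∈ V) (hne : r ≠ s)
    (hC : C ∈ comps G (V \ {r, s})) : ∃ x ∈ C, G.Adj x s := by
  refine Cut2.adj_left h2 hs hr hne.symm ?_
  rw [pair_comm]
  exact hC

/-- a pair with exactly two sides which are not adjacent is tight -/
private theorem pair_tgt (h2 : TwoC G V) (hr : r ∈ V) (hs : s ∈ V) (hne : r ≠ s) (hadj : ¬ G.Adj r s)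
    (hcc : cc G (V \ {r, s}) = 2) : Tgt G V {r, s} := by
  refine ⟨?_, ⟨?_, ?_⟩, ?_, ?_⟩
  · intro x hx
    rw [mem_insert, mem_singleton] at hx
    rcases hx with rfl | rfl
    · exact hr
    · exact hs
  · intro x hx y hy
    rw [mem_insert, mem_singleton] at hx hy
    rcases hx with rfl | rfl <;> rcases hy with rfl | rfl
    · exact G.loopless.irrefl _
    · exact hadj
    · exact fun h => hadj h.symm
    · exact G.loopless.irrefl _
  · intro T hT hTn
    have h1 := Finset.Nonempty.card_pos hTn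
    by_cases hT2 : T.card = 2
    · have : T = {r, s} := eq_of_subset_of_card_le hT (by rw [hT2]; exact card_le_two)
      rw [this, hcc, card_pair hne]
    · have h3 : T.card ≤ 2 := (card_le_card hT).trans card_le_two
      have h4 : T.card = 1 := by omega
      obtain ⟨t, rfl⟩ := card_eq_one.1 h4
      have htV : t ∈ V := by
        have := hT (mem_singleton_self t)
        rw [mem_insert, mem_singleton] at this
        rcases this with rfl | rfl
        · exact hr
        · exact hs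
      rw [sdiff_singleton_eq_erase, cc_eq_one_iff.2 (h2.erase t htV), card_singleton]
  · rw [card_pair hne]
  · rw [hcc, card_pair hne]

theorem leaf_seal (h2 : TwoC G V) (hF : NCF G V F) (hmax : Maxl G V F) (hl : Leaf G V r s K0)
    (hc : Cut2 G V r s) : Seal G V F r s := by
  by_contra hns
  unfold Seal at hns
  push Not at hns
  obtain ⟨hadj, hcc3, hnF⟩ := hns
  have hcc : cc G (V \ {r, s}) = 2 := le_antisymm (by omega) hc.two
  have hrs := pair_tgt h2 hl.hr hl.hs hl.ne hadj hcc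
  have hfree : Free G V F {r, s} := by
    refine ⟨hrs, ?_⟩
    rintro ⟨M, hM, hMs⟩
    have h1 := (hF.tgt M hM).card
    have : M = {r, s} := eq_of_subset_of_card_le hMs (by rw [card_pair hl.ne]; exact h1)
    rw [this] at hM
    exact hnF hM
  obtain ⟨M, hM, hcr⟩ := hmax _ hfree
  have hMt := hF.tgt M hM
  have hcr' := Crs.symm h2.conn hMt hrs hcr
  have hd := hcr'.1
  -- `M` meets both sides
  have h1 := (crs_iff_two hMt.sub (card_pos.1 (by have := hMt.card; omega)) hd).1 hcr'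
  have h3 : (comps G (V \ {r, s})).filter (fun K => (K ∩ M).Nonempty) = comps G (V \ {r, s}) := by
    apply eq_of_subset_of_card_le (filter_subset _ _)
    unfold cc at hcc
    omega
  have hKM : (K0 ∩ M).Nonempty := by
    have := hl.comp
    rw [← h3, mem_filter] at this
    exact this.2
  have hK0 := mem_comps.1 hl.comp
  have hnK : ¬ M ⊆ K0 := by
    intro hMK
    exact (not_crs_iff hMt.sub (card_pos.1 (by have := hMt.card; omega)) hd).2 ⟨K0, hl.comp, hMK⟩
      hcr'
  have hrK : r ∉ K0 := fun h => (mem_sdiff.1 (hK0.1 h)).2 (by simp)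
  have hsK : s ∉ K0 := fun h => (mem_sdiff.1 (hK0.1 h)).2 (by simp)
  have hrM : r ∉ M := fun h => disjoint_left.1 hd (by simp) h
  have hsM : s ∉ M := fun h => disjoint_left.1 hd (by simp) h
  obtain ⟨hinn, hccK⟩ := (cross_parts h2.conn hrs hMt hd).2 K0 hl.comp hKM
  have hnr : ¬ Rch G (V \ M) r s := by
    obtain ⟨_, a, ha, b, hb, hab⟩ := hcr
    rw [mem_insert, mem_singleton] at ha hb
    intro hrch
    rcases ha with rfl | rfl <;> rcases hb with rfl | rfl
    · exact hab (Rch.refl (mem_sdiff.2 ⟨hl.hr, hrM⟩))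
    · exact hab hrch
    · exact hab hrch.symm
    · exact hab (Rch.refl (mem_sdiff.2 ⟨hl.hs, hsM⟩))
  have hcard : 2 ≤ (K0 ∩ M).card := by
    by_contra hlt
    have h4 : (K0 ∩ M).card = 1 := by
      have := card_pos.2 hKM
      omega
    obtain ⟨g, hg⟩ := card_eq_one.1 h4
    have hgK : g ∈ K0 ∩ M := by rw [hg]; exact mem_singleton_self g
    rw [mem_inter] at hgK
    have h5 : inn G {r, s} M K0 = 0 := by omega
    -- a second vertex
    have h6 : 4 ≤ (K0 ∪ {r, s}).card := hl.tc.card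
    have h7 : 2 ≤ K0.card := by
      have := card_union_le K0 ({r, s} : Finset α)
      have := card_le_two (a := r) (b := s)
      omega
    obtain ⟨x, hxK, hxg⟩ := exists_mem_ne (by omega : 1 < K0.card) g
    have hxM : x ∉ M := by
      intro hxM
      have : x ∈ K0 ∩ M := mem_inter.2 ⟨hxK, hxM⟩
      rw [hg, mem_singleton] at this
      exact hxg this
    obtain ⟨C, hC, hxC⟩ := exists_comp (G := G) (mem_sdiff.2 ⟨hxK, hxM⟩ : x ∈ K0 \ M)
    have hC' := mem_comps.1 hC
    have hTch : Tch G C {r, s} := by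
      by_contra hT
      have : C ∈ (comps G (K0 \ M)).filter (fun C => ¬ Tch G C {r, s}) :=
        mem_filter.2 ⟨hC, hT⟩
      have := card_pos.2 ⟨C, this⟩
      unfold inn at h5
      omega
    have hCV : C ⊆ V \ M := fun z hz => by
      have h8 := mem_sdiff.1 (hC'.1 hz)
      exact mem_sdiff.2 ⟨(mem_sdiff.1 (hK0.1 h8.1)).1, h8.2⟩
    -- not both
    have hnot : ¬ ((∃ c ∈ C, G.Adj c r) ∧ (∃ c ∈ C, G.Adj c s)) := by
      rintro ⟨⟨c, hc1, hcr1⟩, ⟨c', hc2, hcs⟩⟩
      apply hnr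
      have hrV : r ∈ V \ M := mem_sdiff.2 ⟨hl.hr, hrM⟩
      have hsV : s ∈ V \ M := mem_sdiff.2 ⟨hl.hs, hsM⟩
      exact ((Rch.of_adj hrV (hCV hc1) hcr1.symm).trans
        ((hC'.2.1.2 c hc1 c' hc2).mono hCV)).trans (Rch.of_adj (hCV hc2) hsV hcs)
    -- the general contradiction
    have key : ∀ p q : α, (p = r ∧ q = s) ∨ (p = s ∧ q = r) → (∀ c ∈ C, ¬ G.Adj c q) → False := by
      intro p q hpq hnq
      have hpU : p ∈ K0 ∪ {r, s} := by
        rcases hpq with ⟨rfl, _⟩ | ⟨rfl, _⟩ <;> simp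
      have hpK : p ∉ K0 := by rcases hpq with ⟨rfl, _⟩ | ⟨rfl, _⟩ <;> assumption
      have hqK : q ∉ K0 := by rcases hpq with ⟨_, rfl⟩ | ⟨_, rfl⟩ <;> assumption
      have hCU : C ⊆ K0 ∪ {r, s} := fun z hz => mem_union_left _ (mem_sdiff.1 (hC'.1 hz)).1
      have hgC : g ∉ C := fun h => (mem_sdiff.1 (hC'.1 h)).2 hgK.2
      have hpC : p ∉ C := fun h => hpK (mem_sdiff.1 (hC'.1 h)).1
      have hqC : q ∉ C := fun h => hqK (mem_sdiff.1 (hC'.1 h)).1
      have h9 := ThreeC.nb (p := g) (q := p) hl.tc hCU ⟨x, hxC⟩ (mem_union_left _ hgK.1) hpU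
        (by
          intro c hc1 y hy hcy
          rw [addE_adj'] at hcy
          have hcK : c ∈ K0 := (mem_sdiff.1 (hC'.1 hc1)).1
          rcases hcy.2 with h10 | ⟨h10, _⟩ | ⟨_, h10⟩
          · rw [mem_union, mem_insert, mem_singleton] at hy
            rcases hy with hy | hy | hy
            · by_cases hyM : y ∈ M
              · have : y ∈ K0 ∩ M := mem_inter.2 ⟨hy, hyM⟩
                rw [hg, mem_singleton] at this
                exact Or.inr (Or.inl this)
              · exact Or.inl (hC'.2.2 c hc1 y (mem_sdiff.2 ⟨hy, hyM⟩) h10)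
            · subst hy
              rcases hpq with ⟨rfl, _⟩ | ⟨_, rfl⟩
              · exact Or.inr (Or.inr rfl)
              · exact (hnq c hc1 h10).elim
            · subst hy
              rcases hpq with ⟨_, rfl⟩ | ⟨rfl, _⟩
              · exact (hnq c hc1 h10).elim
              · exact Or.inr (Or.inr rfl)
          · rw [h10] at hcK
            exact (hrK hcK).elim
          · rw [h10] at hcK
            exact (hsK hcK).elim) hgC hpC
      have hqU : q ∈ K0 ∪ {r, s} := by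
        rcases hpq with ⟨_, rfl⟩ | ⟨_, rfl⟩ <;> simp
      have h10 := h9 hqU
      rw [mem_union, mem_insert, mem_singleton] at h10
      rcases h10 with h10 | h10 | h10
      · exact hqC h10
      · rw [h10] at hqK
        exact hqK hgK.1
      · rcases hpq with ⟨rfl, rfl⟩ | ⟨rfl, rfl⟩
        · exact hl.ne h10.symm
        · exact hl.ne h10
    by_cases hCr : ∃ c ∈ C, G.Adj c r
    · have hCs : ∀ c ∈ C, ¬ G.Adj c s := fun c hc1 h => hnot ⟨hCr, c, hc1, h⟩
      exact key r s (Or.inl ⟨rfl, rfl⟩) hCs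
    · push Not at hCr
      exact key s r (Or.inr ⟨rfl, rfl⟩) hCr
  have hKt := cross_tgt h2.conn hrs hMt hd hl.comp hcard
  have hKf : Free G V F (K0 ∩ M) := by
    refine hF.free_of_ssubset hM hKt inter_subset_right ?_
    intro h
    exact hnK (h.trans inter_subset_left)
  obtain ⟨D, hDK, hDm⟩ := exists_minT hKt
  have hDK0 : D ⊆ K0 := hDK.trans inter_subset_left
  have hDne : D ≠ {r, s} := by
    rintro rfl
    exact hrK (hDK0 (by simp))
  have h8 := LM h2 hF hmax hl (hKf.mono hDK hDm.tgt) hDm (hDK0.trans subset_union_left) hDne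
  refine h8 r ?_ s ?_ ?_
  · exact mem_sdiff.2 ⟨by simp, fun h => hrK (hDK0 h)⟩
  · exact mem_sdiff.2 ⟨by simp, fun h => hsK (hDK0 h)⟩
  · rw [addE_adj']
    exact ⟨hl.ne, Or.inr (Or.inl ⟨rfl, rfl⟩)⟩

/-- a member which meets `K0` and the outside of `K0 + {r, s}` contains exactly one of `r`, `s` -/
private theorem composite_one (h2 : TwoC G V) (hF : NCF G V F) (hr : r ∈ V) (hsV : s ∈ V) (hne : r ≠ s)
    (hK0 : K0 ∈ comps G (V \ {r, s})) (hs : Seal G V F r s) (hM : M ∈ F)
    (h1 : ¬ M ⊆ K0 ∪ {r, s}) (h3 : ¬ M ⊆ V \ K0) : (r ∈ M ∧ s ∉ M) ∨ (r ∉ M ∧ s ∈ M) := by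
  have hMt := hF.tgt M hM
  have hMn : M.Nonempty := card_pos.1 (by have := hMt.card; omega)
  obtain ⟨z, hzM, hz⟩ := not_subset.1 h1
  obtain ⟨k, hkM, hk⟩ := not_subset.1 h3
  have hkK : k ∈ K0 := by
    by_contra h
    exact hk (mem_sdiff.2 ⟨hMt.sub hkM, h⟩)
  rw [mem_union, mem_insert, mem_singleton] at hz
  push Not at hz
  by_cases hrM : r ∈ M
  · by_cases hsM : s ∈ M
    · exfalso
      have hsub : ({r, s} : Finset α) ⊆ M := by
        intro x hx
        rw [mem_insert, mem_singleton] at hx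
        rcases hx with rfl | rfl <;> assumption
      rcases hs with h | h | h
      · exact hMt.adm.1 r hrM s hsM h
      · have := hMt.adm.2 _ hsub ⟨r, by simp⟩
        rw [card_pair hne] at this
        omega
      · have := hF.anti _ h M hM hsub
        rw [← this, mem_insert, mem_singleton] at hzM
        rcases hzM with h4 | h4
        · exact hz.2.1 h4
        · exact hz.2.2 h4
    · exact Or.inl ⟨hrM, hsM⟩
  · by_cases hsM : s ∈ M
    · exact Or.inr ⟨hrM, hsM⟩
    · exfalso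
      have hd : Disjoint ({r, s} : Finset α) M := by
        rw [disjoint_left]
        intro x hx
        rw [mem_insert, mem_singleton] at hx
        rcases hx with rfl | rfl <;> assumption
      have hsub : ({r, s} : Finset α) ⊆ V := by
        intro x hx
        rw [mem_insert, mem_singleton] at hx
        rcases hx with rfl | rfl <;> assumption
      have hzV : z ∈ V \ {r, s} := by
        rw [mem_sdiff, mem_insert, mem_singleton]
        exact ⟨hMt.sub hzM, fun h => h.elim hz.2.1 hz.2.2⟩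
      obtain ⟨C, hC, hzC⟩ := exists_comp (G := G) hzV
      have hCK : C ≠ K0 := by
        rintro rfl
        exact hz.1 hzC
      have hI : 2 ≤ ((comps G (V \ {r, s})).filter (fun K => (K ∩ M).Nonempty)).card := by
        refine one_lt_card.2 ⟨C, mem_filter.2 ⟨hC, ⟨z, mem_inter.2 ⟨hzC, hzM⟩⟩⟩, K0,
          mem_filter.2 ⟨hK0, ⟨k, mem_inter.2 ⟨hkK, hkM⟩⟩⟩, hCK⟩
      have hle := cross_le h2.conn hsub ⟨r, by simp⟩ hMt.sub hMt.adm hd
      have hJ : ∀ A : Finset α, A ∈ comps G (V \ M) → r ∈ A → s ∈ A →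
          ((comps G (V \ M)).filter (fun L => (L ∩ {r, s}).Nonempty)).card ≤ 1 := by
        intro A hA hrA hsA
        rw [card_le_one]
        have : ∀ L ∈ (comps G (V \ M)).filter (fun L => (L ∩ {r, s}).Nonempty), L = A := by
          intro L hL
          rw [mem_filter] at hL
          obtain ⟨hL1, x, hx⟩ := hL
          rw [mem_inter, mem_insert, mem_singleton] at hx
          rcases hx.2 with rfl | rfl
          · exact comp_unique hL1 hA hx.1 hrA
          · exact comp_unique hL1 hA hx.1 hsA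
        intro L hL L' hL'
        rw [this L hL, this L' hL']
      have hnr : ¬ Rch G (V \ M) r s := by
        intro h
        obtain ⟨A, hA, hrA, hsA⟩ := rch_iff_comp.1 h
        have h4 := hJ A hA hrA hsA
        have h5 := hMt.eq
        omega
      have hrV' : r ∈ V \ M := mem_sdiff.2 ⟨hr, hrM⟩
      have hsV' : s ∈ V \ M := mem_sdiff.2 ⟨hsV, hsM⟩
      rcases hs with h | h | h
      · exact hnr (Rch.of_adj hrV' hsV' h)
      · -- some side is not met
        have hJ2 : ((comps G (V \ M)).filter (fun L => (L ∩ {r, s}).Nonempty)).card ≤ 2 := by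
          obtain ⟨A, hA, hrA⟩ := exists_comp (G := G) hrV'
          obtain ⟨A', hA', hsA'⟩ := exists_comp (G := G) hsV'
          have : (comps G (V \ M)).filter (fun L => (L ∩ {r, s}).Nonempty) ⊆ {A, A'} := by
            intro L hL
            rw [mem_filter] at hL
            obtain ⟨hL1, x, hx⟩ := hL
            rw [mem_inter, mem_insert, mem_singleton] at hx
            rw [mem_insert, mem_singleton]
            rcases hx.2 with rfl | rfl
            · exact Or.inl (comp_unique hL1 hA hx.1 hrA)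
            · exact Or.inr (comp_unique hL1 hA' hx.1 hsA')
          exact (card_le_card this).trans card_le_two
        have h5 := hMt.eq
        have h6 : ∃ C' ∈ comps G (V \ {r, s}), ¬ (C' ∩ M).Nonempty := by
          by_contra hall
          push Not at hall
          have : (comps G (V \ {r, s})).filter (fun K => (K ∩ M).Nonempty) =
              comps G (V \ {r, s}) := filter_true_of_mem hall
          rw [this] at hle
          unfold cc at h
          omega
        obtain ⟨C', hC', hC'M⟩ := h6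
        rw [Finset.not_nonempty_iff_eq_empty] at hC'M
        have hC'd : Disjoint C' M := disjoint_iff_inter_eq_empty.2 hC'M
        have hC'1 := mem_comps.1 hC'
        have hC'V : C' ⊆ V \ M := fun x hx =>
          mem_sdiff.2 ⟨(mem_sdiff.1 (hC'1.1 hx)).1, disjoint_left.1 hC'd hx⟩
        obtain ⟨x, hx, hxr⟩ := Cut2.adj_left h2 hr hsV hne hC'
        obtain ⟨y, hy, hys⟩ := Cut2.adj_right h2 hr hsV hne hC'
        exact hnr (((Rch.of_adj hrV' (hC'V hx) hxr.symm).trans
          ((hC'1.2.1.2 x hx y hy).mono hC'V)).trans (Rch.of_adj (hC'V hy) hsV' hys))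
      · have h4 := hF.nc _ h M hM
        rw [not_crs_iff hMt.sub hMn hd] at h4
        obtain ⟨K, hK, hMK⟩ := h4
        have h5 := comp_unique hK hC (hMK hzM) hzC
        have h6 := comp_unique hK hK0 (hMK hkM) hkK
        exact hCK (h5.symm.trans h6)

/-- the two parts of a composite member `M` through `r` are free -/
private theorem composite_parts (h2 : TwoC G V) (hF : NCF G V F) (hr : r ∈ V) (hsV : s ∈ V) (hne : r ≠ s)
    (hK0 : K0 ∈ comps G (V \ {r, s})) (hM : M ∈ F)
    (h1 : ¬ M ⊆ K0 ∪ {r, s}) (h3 : ¬ M ⊆ V \ K0) (hrM : r ∈ M) (hsM : s ∉ M) :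
    Free G V F (M ∩ (K0 ∪ {r, s})) ∧ Free G V F (M \ K0) := by
  have hMt := hF.tgt M hM
  obtain ⟨z, hzM, hz⟩ := not_subset.1 h1
  obtain ⟨k, hkM, hk⟩ := not_subset.1 h3
  have hkK : k ∈ K0 := by
    by_contra h
    exact hk (mem_sdiff.2 ⟨hMt.sub hkM, h⟩)
  rw [mem_union, mem_insert, mem_singleton] at hz
  push Not at hz
  have hK := mem_comps.1 hK0
  have hrK : r ∉ K0 := fun h => (mem_sdiff.1 (hK.1 h)).2 (by simp)
  have hsK : s ∉ K0 := fun h => (mem_sdiff.1 (hK.1 h)).2 (by simp)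
  set A := M ∩ (K0 ∪ {r, s}) with hA
  set B := M \ K0 with hB
  have hrA : r ∈ A := mem_inter.2 ⟨hrM, by simp⟩
  have hrB : r ∈ B := mem_sdiff.2 ⟨hrM, hrK⟩
  have hAM : A ⊆ M := inter_subset_left
  have hBM : B ⊆ M := sdiff_subset
  have hAcard : 2 ≤ A.card := by
    refine one_lt_card.2 ⟨r, hrA, k, mem_inter.2 ⟨hkM, mem_union_left _ hkK⟩, ?_⟩
    rintro rfl
    exact hrK hkK
  have hBcard : 2 ≤ B.card := by
    refine one_lt_card.2 ⟨r, hrB, z, mem_sdiff.2 ⟨hzM, hz.1⟩, ?_⟩
    rintro rfl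
    exact hz.2.1 rfl
  have hsum : A.card + B.card = M.card + 1 := by
    have e1 : A ∪ B = M := by
      ext x
      rw [mem_union, hA, hB, mem_inter, mem_sdiff]
      constructor
      · rintro (h | h)
        · exact h.1
        · exact h.1
      · intro hx
        by_cases hxK : x ∈ K0
        · exact Or.inl ⟨hx, mem_union_left _ hxK⟩
        · exact Or.inr ⟨hx, hxK⟩
    have e2 : A ∩ B = {r} := by
      ext x
      rw [mem_inter, hA, hB, mem_inter, mem_sdiff, mem_union, mem_insert, mem_singleton,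
        mem_singleton]
      constructor
      · rintro ⟨⟨hx, h4⟩, _, h5⟩
        rcases h4 with h4 | h4 | h4
        · exact (h5 h4).elim
        · exact h4
        · rw [h4] at hx
          exact (hsM hx).elim
      · rintro rfl
        exact ⟨⟨hrM, Or.inr (Or.inl rfl)⟩, hrM, hrK⟩
    have := card_union_add_card_inter A B
    rw [e1, e2, card_singleton] at this
    omega
  -- components
  have hsV' : s ∈ V \ M := mem_sdiff.2 ⟨hsV, hsM⟩
  obtain ⟨Cs, hCs, hsCs⟩ := exists_comp (G := G) hsV'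
  set I1 := (comps G (V \ M)).filter (fun C => C ⊆ K0) with hI1
  set I2 := (comps G (V \ M)).filter (fun C => ¬ C ⊆ K0 ∧ s ∉ C) with hI2
  have hcover : comps G (V \ M) ⊆ insert Cs (I1 ∪ I2) := by
    intro C hC
    rw [mem_insert, mem_union]
    by_cases hsC : s ∈ C
    · exact Or.inl (comp_unique hC hCs hsC hsCs)
    · by_cases hCK : C ⊆ K0
      · exact Or.inr (Or.inl (mem_filter.2 ⟨hC, hCK⟩))
      · exact Or.inr (Or.inr (mem_filter.2 ⟨hC, hCK, hsC⟩))
  have hcount : cc G (V \ M) ≤ I1.card + I2.card + 1 := by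
    unfold cc
    have h4 := card_le_card hcover
    have h5 := card_insert_le Cs (I1 ∪ I2)
    have h6 := card_union_le I1 I2
    omega
  -- `A`
  have hA1 : I1.card + 1 ≤ cc G (V \ A) := by
    have hsA : s ∈ V \ A := mem_sdiff.2 ⟨hsV, fun h => hsM (hAM h)⟩
    obtain ⟨C', hC', hsC'⟩ := exists_comp (G := G) hsA
    have hnot : C' ∉ I1 := fun h => hsK ((mem_filter.1 h).2 hsC')
    have : insert C' I1 ⊆ comps G (V \ A) := by
      intro C hC
      rcases mem_insert.1 hC with rfl | hC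
      · exact hC'
      · rw [mem_filter] at hC
        refine comp_up hC.1 (sdiff_subset_sdiff (Finset.Subset.refl _) hAM) ?_
        rintro ⟨x, hx, y, hy, hxy⟩
        rw [mem_sdiff, mem_sdiff, mem_sdiff] at hy
        have hyM : y ∈ M := by
          by_contra h
          exact hy.2 ⟨hy.1.1, h⟩
        have hyU : y ∉ K0 ∪ {r, s} := fun h => hy.1.2 (mem_inter.2 ⟨hyM, h⟩)
        rw [mem_union] at hyU
        push Not at hyU
        exact hyU.1 (hK.2.2 x (hC.2 hx) y (mem_sdiff.2 ⟨hy.1.1, hyU.2⟩) hxy)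
    have h4 := card_le_card this
    rw [card_insert_of_notMem hnot] at h4
    exact h4
  have hB1 : I2.card + 1 ≤ cc G (V \ B) := by
    have hsB : s ∈ V \ B := mem_sdiff.2 ⟨hsV, fun h => hsM (hBM h)⟩
    obtain ⟨C', hC', hsC'⟩ := exists_comp (G := G) hsB
    have hnot : C' ∉ I2 := fun h => (mem_filter.1 h).2.2 hsC'
    have : insert C' I2 ⊆ comps G (V \ B) := by
      intro C hC
      rcases mem_insert.1 hC with rfl | hC
      · exact hC'
      · rw [mem_filter] at hC
        have hCc := mem_comps.1 hC.1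
        -- `C` avoids `K0`
        have hCV : C ⊆ V \ {r, s} := by
          intro x hx
          rw [mem_sdiff, mem_insert, mem_singleton]
          have h5 := mem_sdiff.1 (hCc.1 hx)
          refine ⟨h5.1, ?_⟩
          rintro (rfl | rfl)
          · exact h5.2 hrM
          · exact hC.2.2 hx
        have hCd : ∀ x ∈ C, x ∉ K0 := by
          intro x hx hxK
          obtain ⟨E, hE, hCE⟩ := conn_sub_comp hCc.2.1 hCV
          have := comp_unique hE hK0 (hCE hx) hxK
          rw [this] at hCE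
          exact hC.2.1 hCE
        refine comp_up hC.1 (sdiff_subset_sdiff (Finset.Subset.refl _) hBM) ?_
        rintro ⟨x, hx, y, hy, hxy⟩
        obtain ⟨hy1, hy2⟩ := mem_sdiff.1 hy
        obtain ⟨hy3, hy4⟩ := mem_sdiff.1 hy1
        have hyM : y ∈ M := by
          by_contra h
          exact hy2 (mem_sdiff.2 ⟨hy3, h⟩)
        have hyK : y ∈ K0 := by
          by_contra h
          exact hy4 (mem_sdiff.2 ⟨hyM, h⟩)
        exact hCd x hx (hK.2.2 y hyK x (hCV hx) hxy.symm)
    have h4 := card_le_card this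
    rw [card_insert_of_notMem hnot] at h4
    exact h4
  have h4 := hMt.eq
  have h5 := hMt.adm.2 A hAM ⟨r, hrA⟩
  have h6 := hMt.adm.2 B hBM ⟨r, hrB⟩
  have hadm : ∀ X ⊆ M, Adm G V X := fun X hX =>
    ⟨fun x hx y hy => hMt.adm.1 x (hX hx) y (hX hy), fun Y hY => hMt.adm.2 Y (hY.trans hX)⟩
  have hAt : Tgt G V A := ⟨hAM.trans hMt.sub, hadm A hAM, hAcard, by omega⟩
  have hBt : Tgt G V B := ⟨hBM.trans hMt.sub, hadm B hBM, hBcard, by omega⟩
  refine ⟨hF.free_of_ssubset hM hAt hAM ?_, hF.free_of_ssubset hM hBt hBM ?_⟩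
  · intro h
    have := mem_inter.1 (h hzM)
    rw [mem_union, mem_insert, mem_singleton] at this
    rcases this.2 with h7 | h7 | h7
    · exact hz.1 h7
    · exact hz.2.1 h7
    · exact hz.2.2 h7
  · intro h
    exact (mem_sdiff.1 (h hkM)).2 hkK

/-- the `K0`-part of a composite member is a side of the torso -/
private theorem composite_side (h2 : TwoC G V) (hF : NCF G V F) (hmax : Maxl G V F)
    (hl : Leaf G V r s K0) (hM : M ∈ F)
    (h1 : ¬ M ⊆ K0 ∪ {r, s}) (h3 : ¬ M ⊆ V \ K0) (hrM : r ∈ M) (hsM : s ∉ M) :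
    Stb (addE G r s) ((K0 ∪ {r, s}) \ M) ∧ Stb (addE G r s) ((K0 ∪ {r, s}) ∩ M) := by
  obtain ⟨hAf, _⟩ := composite_parts h2 hF hl.hr hl.hs hl.ne hl.comp hM h1 h3 hrM hsM
  have hMt := hF.tgt M hM
  obtain ⟨D, hDA, hDm⟩ := exists_minT hAf.tgt
  have hDU : D ⊆ K0 ∪ {r, s} := hDA.trans inter_subset_right
  have hDM : D ⊆ M := hDA.trans inter_subset_left
  have hDne : D ≠ {r, s} := by
    rintro rfl
    exact hsM (hDM (by simp))
  have hst := LM h2 hF hmax hl (hAf.mono hDA hDm.tgt) hDm hDU hDne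
  have hst2 : Stb (addE G r s) ((K0 ∪ {r, s}) ∩ M) := by
    intro x hx y hy hxy
    rw [mem_inter] at hx hy
    rw [addE_adj'] at hxy
    rcases hxy.2 with h | ⟨_, h⟩ | ⟨_, h⟩
    · exact hMt.adm.1 x hx.2 y hy.2 h
    · rw [h] at hy
      exact hsM hy.2
    · rw [h] at hx
      exact hsM hx.2
  refine ⟨?_, hst2⟩
  intro x hx y hy
  rw [mem_sdiff] at hx hy
  exact hst x (mem_sdiff.2 ⟨hx.1, fun h => hx.2 (hDM h)⟩) y
    (mem_sdiff.2 ⟨hy.1, fun h => hy.2 (hDM h)⟩)

/-- two bipartitions of a connected graph agree -/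
private theorem bip_agree {J : SimpleGraph α} {U A A' : Finset α} (hJ : Conn J U)
    (h1 : Stb J (U \ A)) (h2 : Stb J (U ∩ A)) (h3 : Stb J (U \ A')) (h4 : Stb J (U ∩ A'))
    {z r : α} (hz : z ∈ U) (hr : r ∈ U) (hzA : z ∈ A ↔ z ∈ A') : (r ∈ A ↔ r ∈ A') := by
  have key : ∀ x ∈ U.filter (fun x => x ∈ A ↔ x ∈ A'), ∀ y ∈ U, J.Adj x y →
      y ∈ U.filter (fun x => x ∈ A ↔ x ∈ A') := by
    intro x hx y hy hxy
    rw [mem_filter] at hx ⊢
    refine ⟨hy, ?_⟩
    have ha : x ∈ A ↔ y ∉ A := by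
      constructor
      · intro hxA hyA
        exact h2 x (mem_inter.2 ⟨hx.1, hxA⟩) y (mem_inter.2 ⟨hy, hyA⟩) hxy
      · intro hyA
        by_contra hxA
        exact h1 x (mem_sdiff.2 ⟨hx.1, hxA⟩) y (mem_sdiff.2 ⟨hy, hyA⟩) hxy
    have hb : x ∈ A' ↔ y ∉ A' := by
      constructor
      · intro hxA hyA
        exact h4 x (mem_inter.2 ⟨hx.1, hxA⟩) y (mem_inter.2 ⟨hy, hyA⟩) hxy
      · intro hyA
        by_contra hxA
        exact h3 x (mem_sdiff.2 ⟨hx.1, hxA⟩) y (mem_sdiff.2 ⟨hy, hyA⟩) hxy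
    have hc := hx.2
    tauto
  have h5 : U.filter (fun x => x ∈ A ↔ x ∈ A') = U := by
    by_contra h5
    obtain ⟨x, hx, y, hy, hxy⟩ := (conn_iff_cut.1 hJ).2 _ (filter_subset _ _)
      ⟨z, mem_filter.2 ⟨hz, hzA⟩⟩ h5
    rw [mem_sdiff] at hy
    exact hy.2 (key x hx y hy.1 hxy)
  rw [← h5] at hr
  exact (mem_filter.1 hr).2

private theorem no_composite_aux (h2 : TwoC G V) (hF : NCF G V F) (hmax : Maxl G V F)
    (hl : Leaf G V r s K0) (hs : Seal G V F r s) (hM : M ∈ F)
    (h1 : ¬ M ⊆ K0 ∪ {r, s}) (h3 : ¬ M ⊆ V \ K0) (hrM : r ∈ M) (hsM : s ∉ M) : False := by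
  have hK := mem_comps.1 hl.comp
  have hrK : r ∉ K0 := fun h => (mem_sdiff.1 (hK.1 h)).2 (by simp)
  have hsK : s ∉ K0 := fun h => (mem_sdiff.1 (hK.1 h)).2 (by simp)
  obtain ⟨_, hBf⟩ := composite_parts h2 hF hl.hr hl.hs hl.ne hl.comp hM h1 h3 hrM hsM
  obtain ⟨hs1, hs2⟩ := composite_side h2 hF hmax hl hM h1 h3 hrM hsM
  obtain ⟨N, hN, hcr⟩ := hmax _ hBf
  have hNt := hF.tgt N hN
  have hNn : N.Nonempty := card_pos.1 (by have := hNt.card; omega)
  have hMt := hF.tgt M hM
  have hrN : r ∉ N := fun h => disjoint_left.1 hcr.1 h (mem_sdiff.2 ⟨hrM, hrK⟩)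
  -- `N` meets `M`
  have hNM : ¬ Disjoint N M := by
    intro hd
    obtain ⟨_, x, hx, y, hy, hxy⟩ := hcr
    exact hF.nc N hN M hM ⟨hd, x, (mem_sdiff.1 hx).1, y, (mem_sdiff.1 hy).1, hxy⟩
  rw [not_disjoint_iff] at hNM
  obtain ⟨w, hwN, hwM⟩ := hNM
  have hwK : w ∈ K0 := by
    by_contra h
    exact disjoint_left.1 hcr.1 hwN (mem_sdiff.2 ⟨hwM, h⟩)
  -- `N` is composite
  have hN3 : ¬ N ⊆ V \ K0 := fun h => (mem_sdiff.1 (h hwN)).2 hwK
  have hN1 : ¬ N ⊆ K0 ∪ {r, s} := by
    intro h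
    have hcr' := Crs.symm h2.conn hNt hBf.tgt hcr
    have hNs : N ⊆ insert s K0 := by
      intro x hx
      have := h hx
      rw [mem_union, mem_insert, mem_singleton] at this
      rw [mem_insert]
      rcases this with h4 | h4 | h4
      · exact Or.inr h4
      · rw [h4] at hx
        exact (hrN hx).elim
      · exact Or.inl h4
    have hcon : Conn G (K0 ∪ {s}) := by
      refine conn_union hK.2.1 ⟨⟨s, by simp⟩, ?_⟩ (Or.inl ?_)
      · intro x hx y hy
        rw [mem_singleton] at hx hy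
        rw [hx, hy]
        exact Rch.refl (mem_singleton_self s)
      · obtain ⟨x, hx, hxs⟩ := Cut2.adj_right h2 hl.hr hl.hs hl.ne hl.comp
        exact ⟨x, hx, s, mem_singleton_self s, hxs⟩
    have hsub : K0 ∪ {s} ⊆ V \ (M \ K0) := by
      intro x hx
      rw [mem_union, mem_singleton] at hx
      rw [mem_sdiff, mem_sdiff]
      rcases hx with hx | rfl
      · exact ⟨(mem_sdiff.1 (hK.1 hx)).1, fun h4 => h4.2 hx⟩
      · exact ⟨hl.hs, fun h4 => hsM h4.1⟩
    obtain ⟨C, hC, hCs⟩ := conn_sub_comp hcon hsub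
    refine (not_crs_iff hNt.sub hNn hcr'.1).2 ⟨C, hC, ?_⟩ hcr'
    intro x hx
    have := hNs hx
    rw [mem_insert] at this
    refine hCs ?_
    rw [mem_union, mem_singleton]
    exact this.symm
  have hsN : s ∈ N := by
    rcases composite_one h2 hF hl.hr hl.hs hl.ne hl.comp hs hN hN1 hN3 with h | h
    · exact (hrN h.1).elim
    · exact h.2
  have hl' := hl.swap
  have hpc : ({s, r} : Finset α) = {r, s} := pair_comm s r
  have hN1' : ¬ N ⊆ K0 ∪ {s, r} := by rw [hpc]; exact hN1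
  obtain ⟨hs3, hs4⟩ := composite_side h2 hF hmax hl' hN hN1' hN3 hsN hrN
  rw [hpc, addE_comm] at hs3 hs4
  have hJ : Conn (addE G r s) (K0 ∪ {r, s}) := (ThreeC.twoC hl.tc).conn
  have := (bip_agree hJ hs1 hs2 hs3 hs4 (mem_union_left _ hwK)
    (by simp : r ∈ K0 ∪ {r, s}) ⟨fun _ => hwN, fun _ => hwM⟩).1 hrM
  exact hrN this

theorem leaf_noComposite (h2 : TwoC G V) (hF : NCF G V F) (hmax : Maxl G V F)
    (hl : Leaf G V r s K0) (hc : Cut2 G V r s) (hs : Seal G V F r s) :
    ∀ M ∈ F, M ⊆ K0 ∪ {r, s} ∨ M ⊆ V \ K0 := by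
  intro M hM
  by_contra hcon
  push Not at hcon
  obtain ⟨h1, h3⟩ := hcon
  have hpc : ({s, r} : Finset α) = {r, s} := pair_comm s r
  rcases composite_one h2 hF hl.hr hl.hs hl.ne hl.comp hs hM h1 h3 with h | h
  · exact no_composite_aux h2 hF hmax hl hs hM h1 h3 h.1 h.2
  · refine no_composite_aux h2 hF hmax hl.swap hs.swap hM ?_ h3 h.2 h.1
    rw [hpc]
    exact h1

end Cor

end Pool.Agent.TH
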