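import Pool.Agent.TH.LemW
import Pool.Agent.TH.Cor

/-!
# Sealed 2-cuts exist (section G)
-/

set_option autoImplicit false
set_option linter.unusedSectionVars false
set_option linter.unusedVariables false

namespace Pool.Agent.TH

open Finset
open scoped Classical

variable {α : Type*} [DecidableEq α] {G : SimpleGraph α} {V : Finset α} {F : Finset (Finset α)}

namespace Ex

theorem mci {W K : Finset α} (hK : K ∈ comps G W) {x y : α} (hx : x ∈ K) :
    y ∈ K ↔ Rch G W x y := by
  constructor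
  · intro hy
    exact rch_iff_comp.2 ⟨K, hK, hx, hy⟩
  · intro h
    obtain ⟨L, hL, hxL, hyL⟩ := rch_iff_comp.1 h
    rw [comp_unique hK hL hx hxL]
    exact hyL

theorem tlc {W : Finset α} : 2 ≤ cc G W ↔ ∃ K ∈ comps G W, ∃ K' ∈ comps G W, K ≠ K' := by
  unfold cc
  rw [← Nat.lt_iff_add_one_le, one_lt_card]

theorem conn_mono {G' : SimpleGraph α} {W : Finset α}
    (h : ∀ x ∈ W, ∀ y ∈ W, G.Adj x y → G'.Adj x y) (hc : Conn G W) : Conn G' W := by
  rw [conn_iff_cut] at hc ⊢
  refine ⟨hc.1, fun X hX hXn hne => ?_⟩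
  obtain ⟨x, hx, y, hy, hxy⟩ := hc.2 X hX hXn hne
  exact ⟨x, hx, y, hy, h x (hX hx) y (mem_sdiff.1 hy).1 hxy⟩

/-! ### 2-cuts -/

/-- a side of a 2-cut is adjacent to both ends -/
theorem cutTch (h2 : TwoC G V) {p q : α} (hp : p ∈ V) (hq : q ∈ V) (hne : p ≠ q) {K : Finset α}
    (hK : K ∈ comps G (V \ {p, q})) : (∃ x ∈ K, G.Adj x p) ∧ (∃ x ∈ K, G.Adj x q) := by
  have hKs := comps_sub hK
  have hKV : K ⊆ V := hKs.trans sdiff_subset
  have hpK : p ∉ K := fun h => by simpa using hKs h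
  have hqK : q ∉ K := fun h => by simpa using hKs h
  have step : ∀ c ∈ K, ∀ y ∈ V, G.Adj c y → y ∈ K ∨ y = p ∨ y = q := by
    intro c hc y hy hcy
    by_cases h : y = p ∨ y = q
    · exact Or.inr h
    · push Not at h
      exact Or.inl (comps_closed hK hc (mem_sdiff.2 ⟨hy, by simp [h.1, h.2]⟩) hcy)
  constructor
  · by_contra hcon
    push Not at hcon
    have := h2.nb hKV (comps_nonempty hK) hq (fun c hc y hy hcy => by
      rcases step c hc y hy hcy with h | h | h
      · exact Or.inl h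
      · exact absurd (h ▸ hcy) (hcon c hc)
      · exact Or.inr h) hqK
    rcases mem_insert.1 (this hp) with h | h
    · exact hne h
    · exact hpK h
  · by_contra hcon
    push Not at hcon
    have := h2.nb hKV (comps_nonempty hK) hp (fun c hc y hy hcy => by
      rcases step c hc y hy hcy with h | h | h
      · exact Or.inl h
      · exact Or.inr h
      · exact absurd (h ▸ hcy) (hcon c hc)) hpK
    rcases mem_insert.1 (this hq) with h | h
    · exact hne h.symm
    · exact hqK h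

theorem rchEnd (h2 : TwoC G V) {p q : α} (hp : p ∈ V) (hq : q ∈ V) (hne : p ≠ q) {K : Finset α}
    (hK : K ∈ comps G (V \ {p, q})) {W : Finset α} (hW : insert p K ⊆ W) {x : α} (hx : x ∈ K) :
    Rch G W x p := by
  obtain ⟨y, hy, hyp⟩ := (cutTch h2 hp hq hne hK).1
  have h1 : Rch G K x y := (comps_conn hK).2 x hx y hy
  exact (h1.mono ((subset_insert _ _).trans hW)).trans
    (Rch.of_adj (hW (mem_insert_of_mem hy)) (hW (mem_insert_self _ _)) hyp)

/-- `p` and `q` are joined through a side -/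
theorem rchPq (h2 : TwoC G V) {p q : α} (hp : p ∈ V) (hq : q ∈ V) (hne : p ≠ q) {K : Finset α}
    (hK : K ∈ comps G (V \ {p, q})) {W : Finset α} (hW : K ∪ {p, q} ⊆ W) :
    Rch G W p q := by
  obtain ⟨x, hx⟩ := comps_nonempty hK
  have h1 : Rch G W x p := rchEnd h2 hp hq hne hK
    ((insert_subset_iff.2 ⟨by simp, subset_union_left⟩).trans hW) hx
  have hK' : K ∈ comps G (V \ {q, p}) := by rw [pair_comm q p]; exact hK
  have h3 : Rch G W x q := rchEnd h2 hq hp hne.symm hK'
    ((insert_subset_iff.2 ⟨by simp, subset_union_left⟩).trans hW) hx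
  exact h1.symm.trans h3

theorem conn_of_ne_two {W : Finset α} (hW : W.Nonempty) (h : ¬ 2 ≤ cc G W) : Conn G W := by
  have := cc_pos (G := G) hW
  exact cc_eq_one_iff.1 (by omega)

theorem exists_cut2 (h2 : TwoC G V) (h4 : 4 ≤ V.card) (hn : ¬ ThreeC G V) :
    ∃ p q, Cut2 G V p q := by
  by_contra hcon
  push Not at hcon
  apply hn
  refine ⟨h4, ?_⟩
  intro x hx y hy
  by_cases hxy : x = y
  · subst hxy
    have := h2.erase x hx
    rwa [show V \ {x, x} = V.erase x by ext z; simp [and_comm]]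
  · have hne : (V \ {x, y}).Nonempty := by
      rw [← card_pos]
      have h1 := le_card_sdiff ({x, y} : Finset α) V
      have h3 : ({x, y} : Finset α).card ≤ 2 := card_le_two
      omega
    apply conn_of_ne_two hne
    intro hcc
    exact hcon x y ⟨hx, hy, hxy, hcc⟩

/-- a member which avoids a sealed pair lies in one side -/
theorem seal_side (h2 : TwoC G V) (hF : NCF G V F) {p q : α} (hc : Cut2 G V p q)
    (hs : Seal G V F p q) {M : Finset α} (hM : M ∈ F) (hpM : p ∉ M) (hqM : q ∉ M) :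
    ∃ K ∈ comps G (V \ {p, q}), M ⊆ K := by
  have hMt := hF.tgt M hM
  have hd : Disjoint ({p, q} : Finset α) M := by
    rw [disjoint_left]
    intro x hx hxM
    rcases mem_insert.1 hx with h | h
    · exact hpM (h ▸ hxM)
    · exact hqM (mem_singleton.1 h ▸ hxM)
  have hMn : M.Nonempty := card_pos.1 (by have := hMt.card; omega)
  have hpq : ({p, q} : Finset α) ⊆ V := insert_subset_iff.2 ⟨hc.hp, singleton_subset_iff.2 hc.hq⟩
  have hMW : M ⊆ V \ {p, q} := subset_sdiff.2 ⟨hMt.sub, hd.symm⟩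
  by_cases hin : ({p, q} : Finset α) ∈ F
  · exact (not_crs_iff hMt.sub hMn hd).1 (hF.nc _ hin _ hM)
  · by_contra hcon
    push Not at hcon
    -- the count
    have hcount := cc_cross h2.conn hpq hMt.sub hd ⟨p, by simp⟩
    set KS := (comps G (V \ {p, q})).filter (fun K => (K ∩ M).Nonempty) with hKS
    set LS := (comps G (V \ M)).filter (fun L => (L ∩ {p, q}).Nonempty) with hLS
    have hinn : ∀ K ∈ KS, inn G {p, q} M K + 1 ≤ (K ∩ M).card := by
      intro K hK
      obtain ⟨hK1, hK2⟩ := mem_filter.1 hK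
      exact (inn_add_one_le h2.conn hpq ⟨p, by simp⟩ hMt.sub hd hK1).trans
        (hMt.adm.2 _ inter_subset_right hK2)
    have hsum : (∑ K ∈ KS, (K ∩ M).card) = M.card := by
      rw [← card_biUnion]
      · congr 1
        ext x
        simp only [mem_biUnion, mem_inter]
        constructor
        · rintro ⟨K, _, _, hx⟩; exact hx
        · intro hx
          obtain ⟨K, hK, hxK⟩ := exists_comp (G := G) (hMW hx)
          exact ⟨K, mem_filter.2 ⟨hK, ⟨x, mem_inter.2 ⟨hxK, hx⟩⟩⟩, hxK, hx⟩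
      · intro K hK L hL hne
        exact (comps_disjoint (mem_filter.1 hK).1 (mem_filter.1 hL).1 hne).mono
          inter_subset_left inter_subset_left
    have hsum2 : (∑ K ∈ KS, inn G {p, q} M K) + KS.card ≤ M.card := by
      rw [← hsum, card_eq_sum_ones, ← sum_add_distrib]
      exact sum_le_sum hinn
    -- at least two sides are met
    have hKS2 : 2 ≤ KS.card := by
      obtain ⟨x, hx⟩ := hMn
      obtain ⟨K, hK, hxK⟩ := exists_comp (G := G) (hMW hx)
      obtain ⟨y, hy, hyK⟩ := not_subset.1 (hcon K hK)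
      obtain ⟨L, hL, hyL⟩ := exists_comp (G := G) (hMW hy)
      refine one_lt_card.2 ⟨K, mem_filter.2 ⟨hK, ⟨x, mem_inter.2 ⟨hxK, hx⟩⟩⟩, L,
        mem_filter.2 ⟨hL, ⟨y, mem_inter.2 ⟨hyL, hy⟩⟩⟩, ?_⟩
      rintro rfl
      exact hyK hyL
    have hpW : p ∈ V \ M := mem_sdiff.2 ⟨hc.hp, hpM⟩
    have hqW : q ∈ V \ M := mem_sdiff.2 ⟨hc.hq, hqM⟩
    -- the components with `p` or `q`
    have hLS2 : LS.card ≤ 2 := by
      obtain ⟨P, hP, hpP⟩ := exists_comp (G := G) hpW
      obtain ⟨Q, hQ, hqQ⟩ := exists_comp (G := G) hqW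
      have : LS ⊆ {P, Q} := by
        intro L hL
        obtain ⟨hL1, z, hz⟩ := mem_filter.1 hL
        obtain ⟨hzL, hz⟩ := mem_inter.1 hz
        rcases mem_insert.1 hz with h | h
        · rw [comp_unique hL1 hP (h ▸ hzL) hpP]; simp
        · rw [comp_unique hL1 hQ (mem_singleton.1 h ▸ hzL) hqQ]; simp
      exact (card_le_card this).trans card_le_two
    have hLS1 : Rch G (V \ M) p q → LS.card ≤ 1 := by
      intro hr
      obtain ⟨P, hP, hpP⟩ := exists_comp (G := G) hpW
      have hqP : q ∈ P := (mci hP hpP).2 hr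
      have : LS ⊆ {P} := by
        intro L hL
        obtain ⟨hL1, z, hz⟩ := mem_filter.1 hL
        obtain ⟨hzL, hz⟩ := mem_inter.1 hz
        rcases mem_insert.1 hz with h | h
        · rw [comp_unique hL1 hP (h ▸ hzL) hpP]; simp
        · rw [comp_unique hL1 hP (mem_singleton.1 h ▸ hzL) hqP]; simp
      exact (card_le_card this).trans (card_singleton _).le
    have heq := hMt.eq
    by_cases hr : Rch G (V \ M) p q
    · have := hLS1 hr
      omega
    · rcases hs with hadj | h3 | h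
      · exact hr (Rch.of_adj hpW hqW hadj)
      · -- all sides are met
        have hall : KS = comps G (V \ {p, q}) := by
          apply Subset.antisymm (filter_subset _ _)
          intro K hK
          refine mem_filter.2 ⟨hK, ?_⟩
          by_contra hemp
          rw [not_nonempty_iff_eq_empty] at hemp
          apply hr
          apply rchPq h2 hc.hp hc.hq hc.ne hK
          intro z hz
          rcases mem_union.1 hz with h | h
          · refine mem_sdiff.2 ⟨(mem_sdiff.1 (comps_sub hK h)).1, fun hzM => ?_⟩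
            have : z ∈ K ∩ M := mem_inter.2 ⟨h, hzM⟩
            rw [hemp] at this
            simp at this
          · rcases mem_insert.1 h with h | h
            · rw [h]; exact hpW
            · rw [mem_singleton.1 h]; exact hqW
        have hKS3 : 3 ≤ KS.card := by rw [hall]; exact h3
        omega
      · exact hin h

theorem seal_side' (h2 : TwoC G V) (hF : NCF G V F) {p q : α} (hc : Cut2 G V p q)
    (hs : Seal G V F p q) {M K : Finset α} (hM : M ∈ F) (hpM : p ∉ M) (hqM : q ∉ M)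
    (hK : K ∈ comps G (V \ {p, q})) : M ⊆ K ∨ M ⊆ V \ K := by
  obtain ⟨L, hL, hML⟩ := seal_side h2 hF hc hs hM hpM hqM
  by_cases h : L = K
  · exact Or.inl (h ▸ hML)
  · right
    intro x hx
    refine mem_sdiff.2 ⟨(hF.tgt M hM).sub hx, fun hxK => ?_⟩
    exact disjoint_left.1 (comps_disjoint hL hK h) (hML hx) hxK

theorem addEadj {p q a b : α} : (addE G p q).Adj a b ↔
    a ≠ b ∧ (G.Adj a b ∨ (a = p ∧ b = q) ∨ (a = q ∧ b = p)) := by
  unfold addE
  rw [SimpleGraph.fromRel_adj]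
  constructor
  · rintro ⟨hne, (h | h) | (h | h)⟩
    · exact ⟨hne, Or.inl h⟩
    · exact ⟨hne, Or.inr (Or.inl h)⟩
    · exact ⟨hne, Or.inl h.symm⟩
    · exact ⟨hne, Or.inr (Or.inr ⟨h.2, h.1⟩)⟩
  · rintro ⟨hne, h | h | h⟩
    · exact ⟨hne, Or.inl (Or.inl h)⟩
    · exact ⟨hne, Or.inl (Or.inr h)⟩
    · exact ⟨hne, Or.inr (Or.inr ⟨h.2, h.1⟩)⟩

/-- a smallest side of a 2-cut is 3-connected or a vertex -/
theorem three_of_min (h2 : TwoC G V) {r s : α} (hc : Cut2 G V r s) {K0 : Finset α}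
    (hK : K0 ∈ comps G (V \ {r, s})) (h2K : 2 ≤ K0.card)
    (hmin : ∀ x y C, x ∈ K0 ∪ {r, s} → y ∈ K0 ∪ {r, s} → Cut2 G V x y →
      C ∈ comps G (V \ {x, y}) → C ⊆ K0 → C = K0) :
    ThreeC (addE G r s) (K0 ∪ {r, s}) := by
  have hKs := comps_sub hK
  have hKV : K0 ⊆ V := hKs.trans sdiff_subset
  have hrK : r ∉ K0 := fun h => by simpa using hKs h
  have hsK : s ∉ K0 := fun h => by simpa using hKs h
  have hUV : K0 ∪ {r, s} ⊆ V :=
    union_subset hKV (insert_subset_iff.2 ⟨hc.hp, singleton_subset_iff.2 hc.hq⟩)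
  have hcard : (K0 ∪ {r, s}).card = K0.card + 2 := by
    rw [card_union_of_disjoint, card_pair hc.ne]
    rw [disjoint_left]
    intro x hx hx'
    rcases mem_insert.1 hx' with h | h
    · exact hrK (h ▸ hx)
    · exact hsK (mem_singleton.1 h ▸ hx)
  refine ⟨by omega, ?_⟩
  intro x hx y hy
  have hne : ((K0 ∪ {r, s}) \ {x, y}).Nonempty := by
    rw [← card_pos]
    have h1 := le_card_sdiff ({x, y} : Finset α) (K0 ∪ {r, s})
    have h3 : ({x, y} : Finset α).card ≤ 2 := card_le_two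
    omega
  apply conn_of_ne_two hne
  intro h2c
  -- a component without `r` and `s`
  obtain ⟨C, hC, hrC, hsC⟩ : ∃ C ∈ comps (addE G r s) ((K0 ∪ {r, s}) \ {x, y}),
      r ∉ C ∧ s ∉ C := by
    obtain ⟨A, hA, B, hB, hAB⟩ := tlc.1 h2c
    by_contra hcon
    push Not at hcon
    -- a component contains `r` or `s`; both in one component
    have h1 : ∀ A ∈ comps (addE G r s) ((K0 ∪ {r, s}) \ {x, y}), r ∈ A ∨ s ∈ A := by
      intro A hA
      by_cases hrA : r ∈ A
      · exact Or.inl hrA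
      · exact Or.inr (hcon A hA hrA)
    have key : ∀ A ∈ comps (addE G r s) ((K0 ∪ {r, s}) \ {x, y}),
        ∀ B ∈ comps (addE G r s) ((K0 ∪ {r, s}) \ {x, y}), r ∈ A → s ∈ B → A = B := by
      intro A hA B hB hrA hsB
      have : s ∈ A := comps_closed hA hrA (comps_sub hB hsB)
        (addEadj.2 ⟨hc.ne, Or.inr (Or.inl ⟨rfl, rfl⟩)⟩)
      exact comp_unique hA hB this hsB
    rcases h1 A hA with ha | ha <;> rcases h1 B hB with hb | hb
    · exact hAB (comp_unique hA hB ha hb)
    · exact hAB (key A hA B hB ha hb)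
    · exact hAB (key B hB A hA hb ha).symm
    · exact hAB (comp_unique hA hB ha hb)
  have hCs := comps_sub hC
  have hCK : C ⊆ K0 := by
    intro z hz
    rcases mem_union.1 (mem_sdiff.1 (hCs hz)).1 with h | h
    · exact h
    · rcases mem_insert.1 h with h | h
      · exact absurd (h ▸ hz) hrC
      · exact absurd (mem_singleton.1 h ▸ hz) hsC
  have hcongr : ∀ a ∈ C, ∀ b ∈ V, ((addE G r s).Adj a b ↔ G.Adj a b) := by
    intro a ha b hb
    rw [addEadj]
    constructor
    · rintro ⟨_, h | h | h⟩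
      · exact h
      · exact absurd (h.1 ▸ ha) hrC
      · exact absurd (h.1 ▸ ha) hsC
    · intro h
      exact ⟨h.ne, Or.inl h⟩
  have hCV : C ⊆ V \ {x, y} := hCs.trans (sdiff_subset_sdiff hUV (Subset.refl _))
  have hCG : C ∈ comps G (V \ {x, y}) := by
    refine mem_comps.2 ⟨hCV, ?_, ?_⟩
    · exact conn_mono (fun a ha b hb hab =>
        (hcongr a ha b (hUV (mem_sdiff.1 (hCs hb)).1)).1 hab) (comps_conn hC)
    · intro a ha b hb hab
      have hbV := (mem_sdiff.1 hb).1
      refine comps_closed hC ha (mem_sdiff.2 ⟨?_, (mem_sdiff.1 hb).2⟩) ((hcongr a ha b hbV).2 hab)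
      by_cases hbr : b ∈ ({r, s} : Finset α)
      · exact mem_union_right _ hbr
      · exact mem_union_left _ (comps_closed hK (hCK ha) (mem_sdiff.2 ⟨hbV, hbr⟩) hab)
  -- a vertex outside
  obtain ⟨D, hD, hDC⟩ : ∃ D ∈ comps (addE G r s) ((K0 ∪ {r, s}) \ {x, y}), D ≠ C := by
    obtain ⟨A, hA, B, hB, hAB⟩ := tlc.1 h2c
    by_cases h : A = C
    · exact ⟨B, hB, fun hB' => hAB (h.trans hB'.symm)⟩
    · exact ⟨A, hA, h⟩
  obtain ⟨d, hd⟩ := comps_nonempty hD
  have hdC : d ∉ C := fun h => hDC (comp_unique hD hC hd h)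
  have hdV : d ∈ V \ {x, y} := sdiff_subset_sdiff hUV (Subset.refl _) (comps_sub hD hd)
  obtain ⟨c, hcC⟩ := comps_nonempty hC
  have hnr : ¬ Rch G (V \ {x, y}) c d := fun h => hdC ((mci hCG hcC).2 h)
  by_cases hxy : x = y
  · subst hxy
    have := h2.erase x (hUV hx)
    rw [show V.erase x = V \ {x, x} by ext z; simp [and_comm]] at this
    exact hnr (this.2 c (hCV hcC) d hdV)
  · have hcut : Cut2 G V x y := ⟨hUV hx, hUV hy, hxy, two_le_cc_iff.2 ⟨c, hCV hcC, d, hdV, hnr⟩⟩
    have hCK0 := hmin x y C hx hy hcut hCG hCK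
    have hxK : x ∉ K0 := fun h => by
      rw [← hCK0] at h
      simpa using hCs h
    have hyK : y ∉ K0 := fun h => by
      rw [← hCK0] at h
      simpa using hCs h
    have hx' : x ∈ ({r, s} : Finset α) := (mem_union.1 hx).resolve_left hxK
    have hy' : y ∈ ({r, s} : Finset α) := (mem_union.1 hy).resolve_left hyK
    have hdK : d ∉ K0 := hCK0 ▸ hdC
    have hd1 := mem_sdiff.1 (comps_sub hD hd)
    have hd2 : d ∈ ({r, s} : Finset α) := (mem_union.1 hd1.1).resolve_left hdK
    have hd3 := hd1.2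
    simp only [mem_insert, mem_singleton] at hx' hy' hd2 hd3
    push Not at hd3
    rcases hx' with h | h <;> rcases hy' with h' | h' <;> rcases hd2 with h'' | h''
    · exact hd3.1 (h''.trans h.symm)
    · exact hxy (h.trans h'.symm)
    · exact hd3.1 (h''.trans h.symm)
    · exact hd3.2 (h''.trans h'.symm)
    · exact hd3.2 (h''.trans h'.symm)
    · exact hd3.1 (h''.trans h.symm)
    · exact hxy (h.trans h'.symm)
    · exact hd3.1 (h''.trans h.symm)

/-- two-element members are sealed 2-cuts -/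
theorem pair_cut (hF : NCF G V F) {g h : α} (hne : h ≠ g) (hgh : ({g, h} : Finset α) ∈ F) :
    Cut2 G V g h ∧ Seal G V F g h := by
  have ht := hF.tgt _ hgh
  refine ⟨⟨ht.sub (by simp), ht.sub (by simp), hne.symm, ?_⟩, Or.inr (Or.inr hgh)⟩
  rw [ht.eq, card_pair hne.symm]

/-- a two-element member through a side of a sealed pair has a smaller side inside -/
theorem pair_inside (h2 : TwoC G V) (hF : NCF G V F) {p q : α} (hc : Cut2 G V p q)
    (hs : Seal G V F p q) {K : Finset α} (hK : K ∈ comps G (V \ {p, q})) {g h : α}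
    (hne : h ≠ g) (hgh : ({g, h} : Finset α) ∈ F) (hg : g ∈ K) :
    ∃ K1 ∈ comps G (V \ {g, h}), K1 ⊆ K ∧ K1 ≠ K := by
  have hKs := comps_sub hK
  have hKV : K ⊆ V := hKs.trans sdiff_subset
  have hpK : p ∉ K := fun h => by simpa using hKs h
  have hqK : q ∉ K := fun h => by simpa using hKs h
  have ht := hF.tgt _ hgh
  have hcut := (pair_cut hF hne hgh).1
  have hgp : g ≠ p := fun h => hpK (h ▸ hg)
  have hgq : g ≠ q := fun h => hqK (h ▸ hg)
  -- `h ∈ K + {p, q}`
  have hhU : h ∈ K ∪ {p, q} := by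
    by_cases hp : p = h
    · rw [← hp]; simp
    by_cases hq : q = h
    · rw [← hq]; simp
    rcases seal_side' h2 hF hc hs hgh (by simp [hgp.symm, hp]) (by simp [hgq.symm, hq]) hK
      with h1 | h1
    · exact mem_union_left _ (h1 (by simp))
    · exact absurd hg (mem_sdiff.1 (h1 (by simp : g ∈ ({g, h} : Finset α)))).2
  -- the outside is connected
  have hout : Conn G ((V \ K) \ {g, h}) := by
    obtain ⟨L, hL, hLK⟩ : ∃ L ∈ comps G (V \ {p, q}), L ≠ K := by
      obtain ⟨A, hA, B, hB, hAB⟩ := tlc.1 hc.two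
      by_cases h : A = K
      · exact ⟨B, hB, fun hB' => hAB (h.trans hB'.symm)⟩
      · exact ⟨A, hA, h⟩
    -- sides other than `K` avoid `g`, `h`
    have hav : ∀ L ∈ comps G (V \ {p, q}), L ≠ K → L ⊆ (V \ K) \ {g, h} := by
      intro L hL hLK z hz
      have hzV := mem_sdiff.1 (comps_sub hL hz)
      have hzK : z ∉ K := disjoint_left.1 (comps_disjoint hL hK hLK) hz
      refine mem_sdiff.2 ⟨mem_sdiff.2 ⟨hzV.1, hzK⟩, ?_⟩
      intro hzgh
      rcases mem_insert.1 hzgh with h1 | h1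
      · exact hzK (h1 ▸ hg)
      · rw [mem_singleton] at h1
        rcases mem_union.1 hhU with h3 | h3
        · exact hzK (h1 ▸ h3)
        · exact hzV.2 (h1 ▸ h3)
    have center : ∀ c, (c = p ∨ c = q) → c ∉ ({g, h} : Finset α) →
        (∀ d, (d = p ∨ d = q) → d ∉ ({g, h} : Finset α) → d ≠ c →
          Rch G ((V \ K) \ {g, h}) d c) → Conn G ((V \ K) \ {g, h}) := by
      intro c hcpq hcgh hother
      have hcV : c ∈ V := by rcases hcpq with h | h <;> rw [h]; exacts [hc.hp, hc.hq]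
      have hcK : c ∉ K := by rcases hcpq with h | h <;> rw [h]; exacts [hpK, hqK]
      have hcW : c ∈ (V \ K) \ {g, h} := mem_sdiff.2 ⟨mem_sdiff.2 ⟨hcV, hcK⟩, hcgh⟩
      have hall : ∀ z ∈ (V \ K) \ {g, h}, Rch G ((V \ K) \ {g, h}) z c := by
        intro z hz
        obtain ⟨hz1, hz2⟩ := mem_sdiff.1 hz
        obtain ⟨hzV, hzK⟩ := mem_sdiff.1 hz1
        by_cases hzpq : z ∈ ({p, q} : Finset α)
        · by_cases hzc : z = c
          · rw [hzc]; exact Rch.refl hcW
          · exact hother z (by simpa using hzpq) hz2 hzc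
        · obtain ⟨L, hL, hzL⟩ := exists_comp (G := G) (mem_sdiff.2 ⟨hzV, hzpq⟩)
          have hLK : L ≠ K := fun h => hzK (h ▸ hzL)
          have hLW := hav L hL hLK
          have hLc : insert c L ⊆ (V \ K) \ {g, h} := insert_subset_iff.2 ⟨hcW, hLW⟩
          rcases hcpq with h | h
          · subst h
            exact rchEnd h2 hc.hp hc.hq hc.ne hL hLc hzL
          · subst h
            exact rchEnd h2 hc.hq hc.hp hc.ne.symm (by rw [pair_comm]; exact hL) hLc hzL
      exact ⟨⟨c, hcW⟩, fun x hx y hy => (hall x hx).trans (hall y hy).symm⟩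
    by_cases hp : p = h
    · have hqh : q ≠ h := fun h' => hc.ne (hp.trans h'.symm)
      apply center q (Or.inr rfl) (by simp [hgq.symm, hqh])
      intro d hd hdgh hdq
      rcases hd with h1 | h1
      · exact absurd (by simp [h1, hp] : d ∈ ({g, h} : Finset α)) hdgh
      · exact absurd h1 hdq
    · apply center p (Or.inl rfl) (by simp [hgp.symm, hp])
      intro d hd hdgh hdp
      rcases hd with h1 | h1
      · exact absurd h1 hdp
      · subst h1
        apply Rch.symm
        apply rchPq h2 hc.hp hc.hq hc.ne hL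
        apply union_subset (hav L hL hLK)
        apply insert_subset_iff.2
        constructor
        · exact mem_sdiff.2 ⟨mem_sdiff.2 ⟨hc.hp, hpK⟩, by simp [hgp.symm, hp]⟩
        · rw [singleton_subset_iff]
          exact mem_sdiff.2 ⟨mem_sdiff.2 ⟨hc.hq, hqK⟩, hdgh⟩
  obtain ⟨Z, hZ, hsub⟩ := conn_sub_comp (W := V \ {g, h}) hout
    (fun z hz => mem_sdiff.2 ⟨(mem_sdiff.1 (mem_sdiff.1 hz).1).1, (mem_sdiff.1 hz).2⟩)
  obtain ⟨K1, hK1, hne1⟩ : ∃ K1 ∈ comps G (V \ {g, h}), K1 ≠ Z := by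
    obtain ⟨A, hA, B, hB, hAB⟩ := tlc.1 hcut.two
    by_cases h : A = Z
    · exact ⟨B, hB, fun hB' => hAB (h.trans hB'.symm)⟩
    · exact ⟨A, hA, h⟩
  refine ⟨K1, hK1, ?_, ?_⟩
  · intro z hz
    by_contra hzK
    have hz1 := mem_sdiff.1 (comps_sub hK1 hz)
    have : z ∈ Z := hsub (mem_sdiff.2 ⟨mem_sdiff.2 ⟨hz1.1, hzK⟩, hz1.2⟩)
    exact hne1 (comp_unique hK1 hZ hz this)
  · rintro rfl
    have := mem_sdiff.1 (comps_sub hK1 hg)
    simp at this

theorem other_side {p q : α} (hc : Cut2 G V p q) (K : Finset α) :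
    ∃ L ∈ comps G (V \ {p, q}), L ≠ K := by
  obtain ⟨A, hA, B, hB, hAB⟩ := tlc.1 hc.two
  by_cases h : A = K
  · exact ⟨B, hB, fun hB' => hAB (h.trans hB'.symm)⟩
  · exact ⟨A, hA, h⟩

theorem ne_side {p q : α} (hc : Cut2 G V p q) {K : Finset α} (hK : K ∈ comps G (V \ {p, q})) :
    V ≠ K ∪ {p, q} := by
  intro h
  obtain ⟨L, hL, hLK⟩ := other_side hc K
  obtain ⟨x, hx⟩ := comps_nonempty hL
  have hx1 := mem_sdiff.1 (comps_sub hL hx)
  rw [h] at hx1
  rcases mem_union.1 hx1.1 with h1 | h1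
  · exact hLK (comp_unique hL hK hx h1)
  · exact hx1.2 h1

/-- the leaf structure of a smallest side -/
theorem leaf_of_min (h2 : TwoC G V) {r s : α} (hc : Cut2 G V r s) {K0 : Finset α}
    (hK : K0 ∈ comps G (V \ {r, s})) (h2K : 2 ≤ K0.card)
    (hmin : ∀ x y C, x ∈ K0 ∪ {r, s} → y ∈ K0 ∪ {r, s} → Cut2 G V x y →
      C ∈ comps G (V \ {x, y}) → C ⊆ K0 → C = K0) : Leaf G V r s K0 :=
  ⟨hc.hp, hc.hq, hc.ne, hK, three_of_min h2 hc hK h2K hmin, Or.inr (ne_side hc hK)⟩

/-- a pair which is not sealed is tight -/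
theorem tgt_of_not_seal (h2 : TwoC G V) {r s : α} (hc : Cut2 G V r s)
    (hns : ¬ Seal G V F r s) : Tgt G V {r, s} ∧ ({r, s} : Finset α) ∉ F := by
  unfold Seal at hns
  push Not at hns
  obtain ⟨h1, h3, h4⟩ := hns
  have hcc : cc G (V \ {r, s}) = 2 := by have := hc.two; omega
  refine ⟨⟨insert_subset_iff.2 ⟨hc.hp, singleton_subset_iff.2 hc.hq⟩, ⟨?_, ?_⟩, ?_, ?_⟩, h4⟩
  · intro x hx y hy hxy
    simp only [mem_insert, mem_singleton] at hx hy
    rcases hx with hx | hx <;> rcases hy with hy | hy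
    · rw [hx, hy] at hxy; exact G.irrefl hxy
    · rw [hx, hy] at hxy; exact h1 hxy
    · rw [hx, hy] at hxy; exact h1 hxy.symm
    · rw [hx, hy] at hxy; exact G.irrefl hxy
  · intro T hT hTn
    by_cases hT2 : 2 ≤ T.card
    · have : T = {r, s} := eq_of_subset_of_card_le hT (by rw [card_pair hc.ne]; exact hT2)
      rw [this, hcc, card_pair hc.ne]
    · have h1 : T.card = 1 := by have := card_pos.2 hTn; omega
      obtain ⟨x, rfl⟩ := card_eq_one.1 h1
      have hx : x ∈ V := by
        have := hT (mem_singleton_self x)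
        simp only [mem_insert, mem_singleton] at this
        rcases this with h | h <;> rw [h]
        exacts [hc.hp, hc.hq]
      rw [← erase_eq, cc_eq_one_iff.2 (h2.erase x hx), card_singleton]
  · rw [card_pair hc.ne]
  · rw [hcc, card_pair hc.ne]

/-- the vertex case -/
theorem small_side {a b : α} (hE : ClsE G V a b F) (hmax : Maxl G V F) {r s w : α}
    (hc : Cut2 G V r s) (hK : ({w} : Finset α) ∈ comps G (V \ {r, s}))
    (hns : ¬ Seal G V F r s) :
    (∃ x, x ≠ w ∧ ({w, x} : Finset α) ∈ F) ∨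
      ((∃ y, y ≠ r ∧ ({r, y} : Finset α) ∈ F) ∧ (∃ y, y ≠ s ∧ ({s, y} : Finset α) ∈ F)) := by
  have hw := mem_sdiff.1 (comps_sub hK (mem_singleton_self w))
  obtain ⟨ht, hnF⟩ := tgt_of_not_seal (F := F) hE.two hc hns
  refine lemW hE hmax hw.1 ?_ ht hnF
  obtain ⟨⟨x, hx, hxr⟩, ⟨y, hy, hys⟩⟩ := cutTch hE.two hc.hp hc.hq hc.ne hK
  rw [mem_singleton] at hx hy
  subst hx
  subst hy
  ext z
  unfold nb
  simp only [mem_filter, mem_singleton, exists_eq_left, mem_insert]
  constructor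
  · rintro ⟨hzV, hz⟩
    by_contra hcon
    have := comps_closed hK (mem_singleton_self y) (mem_sdiff.2 ⟨hzV, by simpa using hcon⟩) hz
    rw [mem_singleton] at this
    rw [this] at hz
    exact G.irrefl hz
  · rintro (h | h)
    · rw [h]; exact ⟨hc.hp, hxr⟩
    · rw [h]; exact ⟨hc.hq, hys⟩

/-- a sealed 2-cut exists -/
theorem exists_seal {a b : α} (hE : ClsE G V a b F) (hmax : Maxl G V F) (h4 : 4 ≤ V.card)
    (hn : ¬ ThreeC G V) :
    ∃ p q K, Cut2 G V p q ∧ Seal G V F p q ∧ K ∈ comps G (V \ {p, q}) := by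
  obtain ⟨p0, q0, hc0⟩ := exists_cut2 hE.two h4 hn
  obtain ⟨K00, hK00, -⟩ := other_side hc0 ∅
  -- smallest side
  have hP : ∃ n, ∃ r s K, Cut2 G V r s ∧ K ∈ comps G (V \ {r, s}) ∧ K.card = n :=
    ⟨_, p0, q0, K00, hc0, hK00, rfl⟩
  obtain ⟨r, s, K, hc, hK, hKn⟩ := Nat.find_spec hP
  have hm := fun m (h : m < Nat.find hP) => Nat.find_min hP h
  by_cases hs : Seal G V F r s
  · exact ⟨r, s, K, hc, hs, hK⟩
  by_cases h2K : 2 ≤ K.card
  · have hmin : ∀ x y C, x ∈ K ∪ {r, s} → y ∈ K ∪ {r, s} → Cut2 G V x y →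
        C ∈ comps G (V \ {x, y}) → C ⊆ K → C = K := by
      intro x y C _ _ hxy hC hCK
      by_contra hne
      have hlt : C.card < K.card := card_lt_card (hCK.ssubset_of_ne hne)
      exact hm C.card (by omega) ⟨x, y, C, hxy, hC, rfl⟩
    exact absurd (leaf_seal hE.two hE.ncf hmax (leaf_of_min hE.two hc hK h2K hmin) hc) hs
  · have hK1 : K.card = 1 := by
      have := card_pos.2 (comps_nonempty hK)
      omega
    obtain ⟨w, rfl⟩ := card_eq_one.1 hK1
    have hres : ∀ g h : α, h ≠ g → ({g, h} : Finset α) ∈ F →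
        ∃ p q K, Cut2 G V p q ∧ Seal G V F p q ∧ K ∈ comps G (V \ {p, q}) := by
      intro g h hne hgh
      obtain ⟨h1, h3⟩ := pair_cut hE.ncf hne hgh
      obtain ⟨L, hL, -⟩ := other_side h1 ∅
      exact ⟨g, h, L, h1, h3, hL⟩
    rcases small_side hE hmax hc hK hs with ⟨x, hx, hxF⟩ | ⟨⟨y, hy, hyF⟩, _⟩
    · exact hres w x hx hxF
    · exact hres r y hy hyF

end Ex

open Ex

theorem exists_cutE {a b : α} (hE : ClsE G V a b F) (hmax : Maxl G V F) (h4 : 4 ≤ V.card)
    (hn : ¬ ThreeC G V) :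
    ∃ p q K, Cut2 G V p q ∧ Seal G V F p q ∧ K ∈ comps G (V \ {p, q}) ∧
      ∀ M ∈ F, M ⊆ K ∪ {p, q} ∨ M ⊆ V \ K := by
  obtain ⟨p0, q0, K00, hc0, hs0, hK00⟩ := exists_seal hE hmax h4 hn
  have hP : ∃ n, ∃ r s K, Cut2 G V r s ∧ Seal G V F r s ∧ K ∈ comps G (V \ {r, s}) ∧ K.card = n :=
    ⟨_, p0, q0, K00, hc0, hs0, hK00, rfl⟩
  obtain ⟨p, q, K, hc, hs, hK, hKn⟩ := Nat.find_spec hP
  have hm := fun m (h : m < Nat.find hP) => Nat.find_min hP h
  have hsmall : ∀ x y C, Cut2 G V x y → Seal G V F x y → C ∈ comps G (V \ {x, y}) →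
      C ⊆ K → C = K := by
    intro x y C hxy hsxy hC hCK
    by_contra hne
    have hlt : C.card < K.card := card_lt_card (hCK.ssubset_of_ne hne)
    exact hm C.card (by omega) ⟨x, y, C, hxy, hsxy, hC, rfl⟩
  refine ⟨p, q, K, hc, hs, hK, ?_⟩
  by_cases h2K : 2 ≤ K.card
  · -- the torso is 3-connected
    have hmin : ∀ x y C, x ∈ K ∪ {p, q} → y ∈ K ∪ {p, q} → Cut2 G V x y →
        C ∈ comps G (V \ {x, y}) → C ⊆ K → C = K := by
      by_contra hcon
      push Not at hcon
      obtain ⟨x0, y0, C0, hx0, hy0, hcut0, hC0, hC0K, hC0ne⟩ := hcon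
      have hQ : ∃ n, ∃ r s C, r ∈ K ∪ {p, q} ∧ s ∈ K ∪ {p, q} ∧ Cut2 G V r s ∧
          C ∈ comps G (V \ {r, s}) ∧ C ⊆ K ∧ C ≠ K ∧ C.card = n :=
        ⟨_, x0, y0, C0, hx0, hy0, hcut0, hC0, hC0K, hC0ne, rfl⟩
      obtain ⟨r, s, K0, hr, hs', hcrs, hK0, hK0K, hK0ne, hK0n⟩ := Nat.find_spec hQ
      have hm' := fun m (h : m < Nat.find hQ) => Nat.find_min hQ h
      have hns : ¬ Seal G V F r s := fun h => hK0ne (hsmall r s K0 hcrs h hK0 hK0K)
      by_cases h2K0 : 2 ≤ K0.card
      · have hmin0 : ∀ x y C, x ∈ K0 ∪ {r, s} → y ∈ K0 ∪ {r, s} → Cut2 G V x y →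
            C ∈ comps G (V \ {x, y}) → C ⊆ K0 → C = K0 := by
          intro x y C hx hy hxy hC hCK0
          by_contra hne
          have hlt : C.card < K0.card := card_lt_card (hCK0.ssubset_of_ne hne)
          have hsub : K0 ∪ {r, s} ⊆ K ∪ {p, q} :=
            union_subset (hK0K.trans subset_union_left)
              (insert_subset_iff.2 ⟨hr, singleton_subset_iff.2 hs'⟩)
          have hCneK : C ≠ K := by
            intro h
            have := card_le_card hK0K
            rw [h] at hlt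
            omega
          exact hm' C.card (by omega) ⟨x, y, C, hsub hx, hsub hy, hxy, hC,
            hCK0.trans hK0K, hCneK, rfl⟩
        exact hns (leaf_seal hE.two hE.ncf hmax (leaf_of_min hE.two hcrs hK0 h2K0 hmin0) hcrs)
      · have hK01 : K0.card = 1 := by
          have := card_pos.2 (comps_nonempty hK0)
          omega
        obtain ⟨w, rfl⟩ := card_eq_one.1 hK01
        -- a two-element member through `K`
        obtain ⟨g, h, hgK, hne, hgh⟩ : ∃ g h, g ∈ K ∧ h ≠ g ∧ ({g, h} : Finset α) ∈ F := by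
          rcases small_side hE hmax hcrs hK0 hns with ⟨x, hx, hxF⟩ | ⟨⟨y, hy, hyF⟩, ⟨z, hz, hzF⟩⟩
          · exact ⟨w, x, hK0K (mem_singleton_self w), hx, hxF⟩
          · by_cases hrK : r ∈ K
            · exact ⟨r, y, hrK, hy, hyF⟩
            · by_cases hsK : s ∈ K
              · exact ⟨s, z, hsK, hz, hzF⟩
              · exfalso
                have hr1 : r ∈ ({p, q} : Finset α) := (mem_union.1 hr).resolve_left hrK
                have hs1 : s ∈ ({p, q} : Finset α) := (mem_union.1 hs').resolve_left hsK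
                have heq : ({r, s} : Finset α) = {p, q} := by
                  apply eq_of_subset_of_card_le
                    (insert_subset_iff.2 ⟨hr1, singleton_subset_iff.2 hs1⟩)
                  rw [card_pair hcrs.ne, card_pair hc.ne]
                rw [heq] at hK0
                exact hK0ne (comp_unique hK0 hK (mem_singleton_self w)
                  (hK0K (mem_singleton_self w)))
        obtain ⟨K1, hK1, hK1K, hK1ne⟩ := pair_inside hE.two hE.ncf hc hs hK hne hgh hgK
        obtain ⟨h5, h6⟩ := pair_cut hE.ncf hne hgh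
        exact hK1ne (hsmall g h K1 h5 h6 hK1 hK1K)
    exact leaf_noComposite hE.two hE.ncf hmax (leaf_of_min hE.two hc hK h2K hmin) hc hs
  · have hK1 : K.card = 1 := by
      have := card_pos.2 (comps_nonempty hK)
      omega
    obtain ⟨w, rfl⟩ := card_eq_one.1 hK1
    intro M hM
    by_cases hwM : w ∈ M
    · obtain ⟨⟨x, hx, hxp⟩, ⟨y, hy, hyq⟩⟩ := cutTch hE.two hc.hp hc.hq hc.ne hK
      rw [mem_singleton] at hx hy
      subst hx
      subst hy
      have hst := (hE.ncf.tgt M hM).adm.1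
      have hpM : p ∉ M := fun h => hst _ hwM _ h hxp
      have hqM : q ∉ M := fun h => hst _ hwM _ h hyq
      rcases seal_side' hE.two hE.ncf hc hs hM hpM hqM hK with h | h
      · exact Or.inl (h.trans subset_union_left)
      · exact Or.inr h
    · right
      intro z hz
      refine mem_sdiff.2 ⟨(hE.ncf.tgt M hM).sub hz, ?_⟩
      rw [mem_singleton]
      rintro rfl
      exact hwM hz

end Pool.Agent.TH
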