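import Pool.Agent.TH.Comp
import Pool.Agent.TH.Cross

/-!
# Class M: maximal families in the 3-connected case, existence of sealed 2-cuts
-/

set_option autoImplicit false

namespace Pool.Agent.TH

open Finset
open scoped Classical

variable {α : Type*} [DecidableEq α]

section ExM
variable {G : SimpleGraph α} {V : Finset α} {F : Finset (Finset α)}

theorem cc_le_cardM (G : SimpleGraph α) (W : Finset α) : cc G W ≤ W.card := by
  unfold cc comps
  exact card_image_le

theorem Adm.subsetM {S T : Finset α} (h : Adm G V S) (hT : T ⊆ S) : Adm G V T :=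
  ⟨fun x hx y hy => h.1 x (hT hx) y (hT hy), fun U hU hn => h.2 U (hU.trans hT) hn⟩

theorem exists_minT {B : Finset α} (hB : Tgt G V B) : ∃ D, D ⊆ B ∧ MinT G V D := by
  have hne : (B.powerset.filter (fun S => Tgt G V S)).Nonempty :=
    ⟨B, by rw [mem_filter, mem_powerset]; exact ⟨subset_rfl, hB⟩⟩
  obtain ⟨D, hD, hmin⟩ := Finset.exists_min_image _ (fun S => S.card) hne
  rw [mem_filter, mem_powerset] at hD
  refine ⟨D, hD.1, hD.2, fun T hT hTt => ?_⟩
  have := hmin T (by rw [mem_filter, mem_powerset]; exact ⟨hT.trans hD.1, hTt⟩)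
  exact Finset.eq_of_subset_of_card_le hT this

theorem maxl_of_M (hM : ClsM G V F) (h3 : ThreeC G V)
    (hmax : ∀ B, MinT G V B → ¬ Addb G V F B) : Maxl G V F := by
  intro B hB
  obtain ⟨D, hDB, hD⟩ := exists_minT hB.tgt
  have hDf : Free G V F D := ⟨hD.tgt, fun ⟨M, hMF, hMD⟩ => hB.nup ⟨M, hMF, hMD.trans hDB⟩⟩
  have hna := hmax D hD
  have hex : ∃ M ∈ F, Crs G V M D := by
    by_contra hcon
    push Not at hcon
    exact hna ⟨hDf, hcon⟩
  obtain ⟨M, hMF, hc⟩ := hex
  refine ⟨M, hMF, ?_⟩
  have hMm := hM.min M hMF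
  have hVc := hM.two.conn
  have hc' : Crs G V D M := hc.symm hVc hMm.tgt hD.tgt
  obtain ⟨h1, h2⟩ := MinT.cross hVc hMm hD.tgt hc
  obtain ⟨h1', h2'⟩ := MinT.cross hVc hD hMm.tgt hc'
  have hdis : Disjoint M D := hc.1
  have hMV := hMm.tgt.sub
  have hDV := hD.tgt.sub
  -- no cells
  have hcell : V ⊆ D ∪ M := by
    intro x hx
    by_contra hxn
    have hxn' : x ∉ D ∧ x ∉ M := by
      constructor
      · intro h; exact hxn (mem_union_left _ h)
      · intro h; exact hxn (mem_union_right _ h)
    have hxW : x ∈ V \ (D ∪ M) := mem_sdiff.2 ⟨hx, hxn⟩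
    obtain ⟨C, hC, hxC⟩ := exists_comp (G := G) hxW
    obtain ⟨hCs, hCc, hCcl⟩ := mem_comps.1 hC
    have hCD : C ⊆ V \ D := fun z hz => by
      have := hCs hz
      rw [mem_sdiff, mem_union] at this
      exact mem_sdiff.2 ⟨this.1, fun h => this.2 (Or.inl h)⟩
    have hCM : C ⊆ V \ M := fun z hz => by
      have := hCs hz
      rw [mem_sdiff, mem_union] at this
      exact mem_sdiff.2 ⟨this.1, fun h => this.2 (Or.inr h)⟩
    obtain ⟨K, hK, hCK⟩ := conn_sub_comp hCc hCD
    obtain ⟨L, hL, hCL⟩ := conn_sub_comp hCc hCM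
    obtain ⟨m, hm⟩ := h2' K hK
    obtain ⟨d, hd⟩ := h2 L hL
    have hKM := h1 K hK
    have hLD := h1' L hL
    rw [mem_inter] at hm hd
    have hVsub := h3.nb (C := C) (p := d) (q := m) (fun z hz => (mem_sdiff.1 (hCs hz)).1)
      ⟨x, hxC⟩ (hDV hd.2) (hMV hm.2) (by
        intro c hcC y hyV hcy
        by_cases hyD : y ∈ D
        · right; left
          have hyM : y ∉ M := fun h => Finset.disjoint_left.1 hdis h hyD
          have hyL : y ∈ L := (mem_comps.1 hL).2.2 c (hCL hcC) y (mem_sdiff.2 ⟨hyV, hyM⟩) hcy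
          have := card_le_one.1 hLD y (mem_inter.2 ⟨hyL, hyD⟩) d (mem_inter.2 ⟨hd.1, hd.2⟩)
          exact this
        · by_cases hyM : y ∈ M
          · right; right
            have hyK : y ∈ K := (mem_comps.1 hK).2.2 c (hCK hcC) y (mem_sdiff.2 ⟨hyV, hyD⟩) hcy
            exact card_le_one.1 hKM y (mem_inter.2 ⟨hyK, hyM⟩) m (mem_inter.2 ⟨hm.1, hm.2⟩)
          · left
            exact hCcl c hcC y (mem_sdiff.2 ⟨hyV, by
              rw [mem_union]; push Not; exact ⟨hyD, hyM⟩⟩) hcy)
      (fun h => (mem_sdiff.1 (hCD h)).2 hd.2) (fun h => (mem_sdiff.1 (hCM h)).2 hm.2)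
    have hDsub : D ⊆ {d} := by
      intro z hz
      have := hVsub (hDV hz)
      rw [mem_union, mem_insert, mem_singleton] at this
      rcases this with h | h | h
      · exact absurd hz (mem_sdiff.1 (hCD h)).2
      · exact mem_singleton.2 h
      · subst h
        exact absurd hz (Finset.disjoint_left.1 hdis hm.2)
    have := card_le_card hDsub
    rw [card_singleton] at this
    have := hD.tgt.card
    omega
  have hVeq : V = D ∪ M := Subset.antisymm hcell (union_subset hDV hMV)
  have hcard : V.card = D.card + M.card := by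
    rw [hVeq, card_union_of_disjoint hdis.symm]
  have e1 := hD.tgt.eq
  have e2 := hMm.tgt.eq
  have e3 := hB.tgt.eq
  have l1 := cc_le_cardM G (V \ D)
  have l2 := cc_le_cardM G (V \ M)
  have l3 := cc_le_cardM G (V \ B)
  rw [card_sdiff_of_subset hDV] at l1
  rw [card_sdiff_of_subset hMV] at l2
  rw [card_sdiff_of_subset hB.tgt.sub] at l3
  have l4 := card_le_card hDB
  have l5 := card_le_card hB.tgt.sub
  have hDBeq : D = B := Finset.eq_of_subset_of_card_le hDB (by omega)
  rw [← hDBeq]
  exact hc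

theorem conn_split_sides {C U U' : Finset α} (hC : Conn G C) (hs : C ⊆ U ∪ U')
    (hn : ∀ x ∈ U, ∀ y ∈ U', ¬ G.Adj x y) : C ⊆ U ∨ C ⊆ U' := by
  by_contra hcon
  push Not at hcon
  obtain ⟨h1, h2⟩ := hcon
  have hX : (C ∩ U).Nonempty := by
    rw [Finset.not_subset] at h2
    obtain ⟨x, hx, hx'⟩ := h2
    refine ⟨x, mem_inter.2 ⟨hx, ?_⟩⟩
    rcases mem_union.1 (hs hx) with h | h
    · exact h
    · exact absurd h hx'
  have hne : C ∩ U ≠ C := fun h => h1 (by rw [← h]; exact inter_subset_right)
  obtain ⟨x, hx, y, hy, hxy⟩ := (conn_iff_cut.1 hC).2 (C ∩ U) inter_subset_left hX hne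
  rw [mem_inter] at hx
  rw [mem_sdiff, mem_inter] at hy
  have hyU : y ∉ U := fun h => hy.2 ⟨hy.1, h⟩
  have hyU' : y ∈ U' := by
    rcases mem_union.1 (hs hy.1) with h | h
    · exact absurd h hyU
    · exact h
  exact hn x hx.2 y hyU' hxy

/-- the components of `V \ M` inside a union `U` of sides of `{p, q}` -/
theorem side_count {p q : α} (hp : p ∈ V) (hq : q ∈ V) {U M : Finset α}
    (hU : U ⊆ V \ {p, q}) (hUn : ∀ x ∈ U, ∀ y ∈ V \ {p, q}, G.Adj x y → y ∈ U)
    (hpq : ¬ (p ∈ M ∧ q ∈ M)) :
    ((comps G (V \ M)).filter (fun C => C ⊆ U)).card + 1 ≤ cc G (V \ (M ∩ (U ∪ {p, q}))) := by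
  have hsub : (comps G (V \ M)).filter (fun C => C ⊆ U) ⊆
      comps G (V \ (M ∩ (U ∪ {p, q}))) := by
    intro C hC
    rw [mem_filter] at hC
    refine comp_up hC.1 ?_ ?_
    · intro z hz
      rw [mem_sdiff] at hz ⊢
      exact ⟨hz.1, fun h => hz.2 (mem_inter.1 h).1⟩
    · rintro ⟨x, hx, y, hy, hxy⟩
      simp only [mem_sdiff, mem_inter, not_and, not_not] at hy
      have hyM : y ∈ M := hy.2 hy.1.1
      have hyU : y ∉ U ∪ {p, q} := hy.1.2 hyM
      rw [mem_union, not_or] at hyU
      exact hyU.1 (hUn x (hC.2 hx) y (mem_sdiff.2 ⟨hy.1.1, hyU.2⟩) hxy)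
  have hr : ∃ r ∈ V, r ∉ M ∧ r ∉ U := by
    by_cases h : p ∈ M
    · have h' : q ∉ M := fun h' => hpq ⟨h, h'⟩
      refine ⟨q, hq, h', fun h'' => ?_⟩
      have := (mem_sdiff.1 (hU h'')).2
      simp at this
    · refine ⟨p, hp, h, fun h'' => ?_⟩
      have := (mem_sdiff.1 (hU h'')).2
      simp at this
  obtain ⟨r, hrV, hrM, hrU⟩ := hr
  obtain ⟨C, hC, hrC⟩ := exists_comp (G := G) (W := V \ (M ∩ (U ∪ {p, q}))) (x := r)
    (mem_sdiff.2 ⟨hrV, fun h => hrM (mem_inter.1 h).1⟩)
  have hCn : C ∉ (comps G (V \ M)).filter (fun C => C ⊆ U) := by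
    rw [mem_filter]
    rintro ⟨-, h⟩
    exact hrU (h hrC)
  have := card_le_card (insert_subset hC hsub)
  rw [card_insert_of_notMem hCn] at this
  exact this

/-- the components of `V \ M` lie on the sides or contain `p` or `q` -/
theorem side_count_split {p q : α} {U U' M : Finset α} (hUU : V \ {p, q} ⊆ U ∪ U')
    (hn : ∀ x ∈ U, ∀ y ∈ U', ¬ G.Adj x y) :
    cc G (V \ M) ≤ ((comps G (V \ M)).filter (fun C => C ⊆ U)).card +
      ((comps G (V \ M)).filter (fun C => C ⊆ U')).card +
      ((comps G (V \ M)).filter (fun C => p ∈ C ∨ q ∈ C)).card := by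
  have : comps G (V \ M) ⊆ ((comps G (V \ M)).filter (fun C => C ⊆ U) ∪
      (comps G (V \ M)).filter (fun C => C ⊆ U')) ∪
      (comps G (V \ M)).filter (fun C => p ∈ C ∨ q ∈ C) := by
    intro C hC
    rw [mem_union, mem_union, mem_filter, mem_filter, mem_filter]
    by_cases h : p ∈ C ∨ q ∈ C
    · exact Or.inr ⟨hC, h⟩
    · left
      obtain ⟨h1, h2, h3⟩ := mem_comps.1 hC
      have hs : C ⊆ U ∪ U' := by
        intro z hz
        apply hUU
        rw [mem_sdiff]
        refine ⟨(mem_sdiff.1 (h1 hz)).1, ?_⟩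
        rw [mem_insert, mem_singleton]
        rintro (rfl | rfl)
        · exact h (Or.inl hz)
        · exact h (Or.inr hz)
      rcases conn_split_sides h2 hs hn with h4 | h4
      · exact Or.inl ⟨hC, h4⟩
      · exact Or.inr ⟨hC, h4⟩
  have h5 := card_le_card this
  have h6 := card_union_le ((comps G (V \ M)).filter (fun C => C ⊆ U) ∪
      (comps G (V \ M)).filter (fun C => C ⊆ U'))
      ((comps G (V \ M)).filter (fun C => p ∈ C ∨ q ∈ C))
  have h7 := card_union_le ((comps G (V \ M)).filter (fun C => C ⊆ U))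
      ((comps G (V \ M)).filter (fun C => C ⊆ U'))
  unfold cc
  omega

theorem side_pq_count {p q : α} {M : Finset α} :
    ((comps G (V \ M)).filter (fun C => p ∈ C ∨ q ∈ C)).card ≤ 2 := by
  have h1 : ((comps G (V \ M)).filter (fun C => p ∈ C)).card ≤ 1 := by
    rw [card_le_one]
    intro A hA B hB
    rw [mem_filter] at hA hB
    exact comp_unique hA.1 hB.1 hA.2 hB.2
  have h2 : ((comps G (V \ M)).filter (fun C => q ∈ C)).card ≤ 1 := by
    rw [card_le_one]
    intro A hA B hB
    rw [mem_filter] at hA hB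
    exact comp_unique hA.1 hB.1 hA.2 hB.2
  rw [filter_or]
  have := card_union_le ((comps G (V \ M)).filter (fun C => p ∈ C))
    ((comps G (V \ M)).filter (fun C => q ∈ C))
  omega

theorem side_pq_count1 {p q : α} {M : Finset α} (h : p ∈ M ∨ q ∈ M ∨ Rch G (V \ M) p q) :
    ((comps G (V \ M)).filter (fun C => p ∈ C ∨ q ∈ C)).card ≤ 1 := by
  rw [card_le_one]
  intro A hA B hB
  rw [mem_filter] at hA hB
  rcases h with h | h | h
  · have hA' : q ∈ A := by
      rcases hA.2 with h' | h'
      · exact absurd h (mem_sdiff.1 ((mem_comps.1 hA.1).1 h')).2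
      · exact h'
    have hB' : q ∈ B := by
      rcases hB.2 with h' | h'
      · exact absurd h (mem_sdiff.1 ((mem_comps.1 hB.1).1 h')).2
      · exact h'
    exact comp_unique hA.1 hB.1 hA' hB'
  · have hA' : p ∈ A := by
      rcases hA.2 with h' | h'
      · exact h'
      · exact absurd h (mem_sdiff.1 ((mem_comps.1 hA.1).1 h')).2
    have hB' : p ∈ B := by
      rcases hB.2 with h' | h'
      · exact h'
      · exact absurd h (mem_sdiff.1 ((mem_comps.1 hB.1).1 h')).2
    exact comp_unique hA.1 hB.1 hA' hB'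
  · obtain ⟨C, hC, hpC, hqC⟩ := rch_iff_comp.1 h
    have e1 : A = C := by
      rcases hA.2 with h' | h'
      · exact comp_unique hA.1 hC h' hpC
      · exact comp_unique hA.1 hC h' hqC
    have e2 : B = C := by
      rcases hB.2 with h' | h'
      · exact comp_unique hB.1 hC h' hpC
      · exact comp_unique hB.1 hC h' hqC
    rw [e1, e2]

/-- a minimal tight set containing exactly one vertex of a 2-cut lies on one side -/
theorem minT_side1 {p q : α} {K M : Finset α} (hp : p ∈ V) (hq : q ∈ V)
    (hK : K ∈ comps G (V \ {p, q})) (hM : MinT G V M) (hpM : p ∈ M) (hqM : q ∉ M) :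
    M ⊆ K ∪ {p, q} ∨ M ⊆ V \ K := by
  by_contra hcon
  push Not at hcon
  obtain ⟨hx, hy⟩ := hcon
  rw [Finset.not_subset] at hx hy
  obtain ⟨x, hxM, hx⟩ := hx
  obtain ⟨y, hyM, hy⟩ := hy
  have hMV := hM.tgt.sub
  have hyK : y ∈ K := by
    by_contra h; exact hy (mem_sdiff.2 ⟨hMV hyM, h⟩)
  obtain ⟨hKs, hKc, hKcl⟩ := mem_comps.1 hK
  have hnpq : ¬ (p ∈ M ∧ q ∈ M) := fun h => hqM h.2
  have c1 := side_count (M := M) hp hq hKs hKcl hnpq
  have c2 := side_count (M := M) (U := (V \ {p, q}) \ K) hp hq sdiff_subset (by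
    intro a ha b hb hab
    rw [mem_sdiff] at ha ⊢
    exact ⟨hb, fun hbK => ha.2 (hKcl b hbK a ha.1 hab.symm)⟩) hnpq
  have c3 := side_count_split (G := G) (M := M) (p := p) (q := q) (U := K) (U' := (V \ {p, q}) \ K)
    (V := V) (by
      intro z hz
      rw [mem_union, mem_sdiff]
      by_cases h : z ∈ K
      · exact Or.inl h
      · exact Or.inr ⟨hz, h⟩) (by
      intro a ha b hb hab
      rw [mem_sdiff] at hb
      exact hb.2 (hKcl a ha b hb.1 hab))
  have c4 := side_pq_count1 (G := G) (V := V) (p := p) (q := q) (M := M) (Or.inl hpM)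
  have s1 : M ∩ (K ∪ {p, q}) ⊆ M := inter_subset_left
  have s2 : M ∩ ((V \ {p, q}) \ K ∪ {p, q}) ⊆ M := inter_subset_left
  have n1 : p ∈ M ∩ (K ∪ {p, q}) := mem_inter.2 ⟨hpM, by simp⟩
  have n2 : p ∈ M ∩ ((V \ {p, q}) \ K ∪ {p, q}) := mem_inter.2 ⟨hpM, by simp⟩
  have a1 := hM.tgt.adm.2 _ s1 ⟨p, n1⟩
  have a2 := hM.tgt.adm.2 _ s2 ⟨p, n2⟩
  have e := hM.tgt.eq
  have hun : (M ∩ (K ∪ {p, q})) ∪ (M ∩ ((V \ {p, q}) \ K ∪ {p, q})) = M := by
    ext z
    simp only [mem_union, mem_inter, mem_insert, mem_singleton, mem_sdiff, not_or]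
    constructor
    · rintro (h | h) <;> exact h.1
    · intro hz
      have := hMV hz
      tauto
  have hint : (M ∩ (K ∪ {p, q})) ∩ (M ∩ ((V \ {p, q}) \ K ∪ {p, q})) = {p} := by
    ext z
    simp only [mem_union, mem_inter, mem_insert, mem_singleton, mem_sdiff, not_or]
    constructor
    · rintro ⟨⟨h1, h2⟩, -, h3⟩
      by_cases hzp : z = p
      · exact hzp
      by_cases hzq : z = q
      · exact absurd (hzq ▸ h1) hqM
      · tauto
    · rintro rfl
      exact ⟨⟨hpM, Or.inr (Or.inl rfl)⟩, hpM, Or.inr (Or.inl rfl)⟩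
  have hcu := card_union_add_card_inter (M ∩ (K ∪ {p, q})) (M ∩ ((V \ {p, q}) \ K ∪ {p, q}))
  rw [hun, hint, card_singleton] at hcu
  have htgt : Tgt G V (M ∩ (K ∪ {p, q})) := by
    refine ⟨s1.trans hMV, hM.tgt.adm.subsetM s1, ?_, ?_⟩
    · have : ({p, y} : Finset α) ⊆ M ∩ (K ∪ {p, q}) := by
        intro z hz
        rw [mem_insert, mem_singleton] at hz
        rcases hz with rfl | rfl
        · exact n1
        · exact mem_inter.2 ⟨hyM, mem_union_left _ hyK⟩
      have h := card_le_card this
      have hpy : p ≠ y := by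
        rintro rfl
        have := (mem_sdiff.1 (hKs hyK)).2
        simp at this
      rw [card_pair hpy] at h
      exact h
    · omega
  have heq := hM.min _ s1 htgt
  apply hx
  have : x ∈ M ∩ (K ∪ {p, q}) := by rw [heq]; exact hxM
  exact (mem_inter.1 this).2

/-- the two ends of a 2-cut are joined through a side which `M` does not meet -/
theorem rch_side {p q : α} {K M : Finset α} (h2 : TwoC G V) (hc : Cut2 G V p q)
    (hK : K ∈ comps G (V \ {p, q})) (hpM : p ∉ M) (hqM : q ∉ M) (hd : Disjoint K M) :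
    Rch G (V \ M) p q := by
  obtain ⟨hKs, hKc, hKcl⟩ := mem_comps.1 hK
  have hKV : K ⊆ V := fun z hz => (mem_sdiff.1 (hKs hz)).1
  have hpK : p ∉ K := fun h => by
    have := (mem_sdiff.1 (hKs h)).2
    simp at this
  have hqK : q ∉ K := fun h => by
    have := (mem_sdiff.1 (hKs h)).2
    simp at this
  have aux : ∀ r s : α, ({r, s} : Finset α) = {p, q} → r ∈ V → s ∈ V → r ≠ s → r ∉ K → s ∉ K →
      ∃ x ∈ K, G.Adj x r := by
    intro r s hrs hr hs hne hrK hsK
    by_contra hcon
    push Not at hcon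
    have := h2.nb (C := K) (p := s) hKV hKc.1 hs (by
      intro c hcK y hy hcy
      by_cases hyr : y = r
      · subst hyr; exact absurd hcy (hcon c hcK)
      · by_cases hys : y = s
        · exact Or.inr hys
        · left
          refine hKcl c hcK y (mem_sdiff.2 ⟨hy, ?_⟩) hcy
          rw [← hrs, mem_insert, mem_singleton, not_or]
          exact ⟨hyr, hys⟩) hsK
    have h3 := this hr
    rw [mem_insert] at h3
    rcases h3 with h | h
    · exact hne h
    · exact hrK h
  obtain ⟨x, hx, hxp⟩ := aux p q rfl hc.hp hc.hq hc.ne hpK hqK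
  obtain ⟨y, hy, hyq⟩ := aux q p (pair_comm q p) hc.hq hc.hp hc.ne.symm hqK hpK
  have hKM : K ⊆ V \ M := fun z hz => mem_sdiff.2 ⟨hKV hz, Finset.disjoint_left.1 hd hz⟩
  have r1 : Rch G (V \ M) p x := Rch.of_adj (mem_sdiff.2 ⟨hc.hp, hpM⟩) (hKM hx) hxp.symm
  have r2 : Rch G (V \ M) x y := (hKc.2 x hx y hy).mono hKM
  have r3 : Rch G (V \ M) y q := Rch.of_adj (hKM hy) (mem_sdiff.2 ⟨hc.hq, hqM⟩) hyq
  exact (r1.trans r2).trans r3

/-- no member is composite at a sealed 2-cut -/
theorem minT_side (h2 : TwoC G V) (hF : NCF G V F) {p q : α} (hc : Cut2 G V p q)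
    (hs : Seal G V F p q) {K M : Finset α} (hK : K ∈ comps G (V \ {p, q})) (hMF : M ∈ F)
    (hM : MinT G V M) : M ⊆ K ∪ {p, q} ∨ M ⊆ V \ K := by
  by_cases hpM : p ∈ M
  · by_cases hqM : q ∈ M
    · have hsub : ({p, q} : Finset α) ⊆ M := by
        intro z hz
        rw [mem_insert, mem_singleton] at hz
        rcases hz with rfl | rfl
        · exact hpM
        · exact hqM
      have hcl := hM.tgt.adm.2 _ hsub ⟨p, by simp⟩
      rw [card_pair hc.ne] at hcl
      rcases hs with hs | hs | hs
      · exact absurd hs (hM.tgt.adm.1 p hpM q hqM)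
      · omega
      · left
        rw [← hF.anti _ hs _ hMF hsub]
        exact subset_union_right
    · exact minT_side1 hc.hp hc.hq hK hM hpM hqM
  · by_cases hqM : q ∈ M
    · rw [pair_comm] at hK ⊢
      exact minT_side1 hc.hq hc.hp hK hM hqM hpM
    · by_contra hcon
      push Not at hcon
      obtain ⟨hx, hy⟩ := hcon
      rw [Finset.not_subset] at hx hy
      obtain ⟨x, hxM, hx⟩ := hx
      obtain ⟨y, hyM, hy⟩ := hy
      have hMV := hM.tgt.sub
      have hyK : y ∈ K := by
        by_contra h; exact hy (mem_sdiff.2 ⟨hMV hyM, h⟩)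
      obtain ⟨hKs, hKc, hKcl⟩ := mem_comps.1 hK
      rw [mem_union, not_or] at hx
      have hxW : x ∈ V \ {p, q} := mem_sdiff.2 ⟨hMV hxM, hx.2⟩
      have hnpq : ¬ (p ∈ M ∧ q ∈ M) := fun h => hqM h.2
      have hcl' : ∀ a ∈ (V \ {p, q}) \ K, ∀ b ∈ V \ {p, q}, G.Adj a b →
          b ∈ (V \ {p, q}) \ K := by
        intro a ha b hb hab
        rw [mem_sdiff] at ha ⊢
        exact ⟨hb, fun hbK => ha.2 (hKcl b hbK a ha.1 hab.symm)⟩
      have e := hM.tgt.eq
      have key : ∀ U : Finset α, M ∩ (U ∪ {p, q}) = M ∩ U := by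
        intro U
        ext z
        simp only [mem_inter, mem_union, mem_insert, mem_singleton]
        constructor
        · rintro ⟨h1, h2 | rfl | rfl⟩
          · exact ⟨h1, h2⟩
          · exact absurd h1 hpM
          · exact absurd h1 hqM
        · rintro ⟨h1, h2⟩
          exact ⟨h1, Or.inl h2⟩
      have cnt : ∀ U : Finset α, U ⊆ V \ {p, q} →
          (∀ a ∈ U, ∀ b ∈ V \ {p, q}, G.Adj a b → b ∈ U) → (M ∩ U).Nonempty →
          ((comps G (V \ M)).filter (fun C => C ⊆ U)).card + 1 ≤ (M ∩ U).card := by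
        intro U hU hUcl hne
        have c1 := side_count (M := M) hc.hp hc.hq hU hUcl hnpq
        rw [key U] at c1
        exact c1.trans (hM.tgt.adm.2 _ inter_subset_left hne)
      have c1 := cnt K hKs hKcl ⟨y, mem_inter.2 ⟨hyM, hyK⟩⟩
      have c2 := cnt ((V \ {p, q}) \ K) sdiff_subset hcl'
        ⟨x, mem_inter.2 ⟨hxM, mem_sdiff.2 ⟨hxW, hx.1⟩⟩⟩
      have c3 := side_count_split (G := G) (M := M) (p := p) (q := q) (U := K)
        (U' := (V \ {p, q}) \ K) (V := V) (by
          intro z hz
          rw [mem_union, mem_sdiff]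
          by_cases h : z ∈ K
          · exact Or.inl h
          · exact Or.inr ⟨hz, h⟩) (by
          intro a ha b hb hab
          rw [mem_sdiff] at hb
          exact hb.2 (hKcl a ha b hb.1 hab))
      have hcm : (M ∩ K).card + (M ∩ ((V \ {p, q}) \ K)).card = M.card := by
        rw [← card_union_of_disjoint]
        · congr 1
          ext z
          simp only [mem_union, mem_inter, mem_sdiff, mem_insert, mem_singleton, not_or]
          constructor
          · rintro (h | h) <;> exact h.1
          · intro hz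
            have := hMV hz
            have h3 : z ≠ p := by rintro rfl; exact hpM hz
            have h4 : z ≠ q := by rintro rfl; exact hqM hz
            tauto
        · rw [Finset.disjoint_left]
          intro z hz hz'
          rw [mem_inter] at hz hz'
          exact (mem_sdiff.1 hz'.2).2 hz.2
      by_cases hr : Rch G (V \ M) p q
      · have c4 := side_pq_count1 (G := G) (V := V) (p := p) (q := q) (M := M) (Or.inr (Or.inr hr))
        omega
      · rcases hs with hs | hs | hs
        · exact hr (Rch.of_adj (mem_sdiff.2 ⟨hc.hp, hpM⟩) (mem_sdiff.2 ⟨hc.hq, hqM⟩) hs)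
        · obtain ⟨K2, hK2, hxK2⟩ := exists_comp (G := G) hxW
          have hK2ne : K2 ≠ K := by rintro rfl; exact hx.1 hxK2
          have hex : ∃ K3 ∈ comps G (V \ {p, q}), K3 ≠ K ∧ K3 ≠ K2 := by
            by_contra hcon
            push Not at hcon
            have : comps G (V \ {p, q}) ⊆ {K, K2} := by
              intro K3 h3
              rw [mem_insert, mem_singleton]
              by_cases h : K3 = K
              · exact Or.inl h
              · exact Or.inr (hcon K3 h3 h)
            have := (card_le_card this).trans card_le_two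
            unfold cc at hs
            omega
          obtain ⟨K3, hK3, hK3K, hK3K2⟩ := hex
          obtain ⟨hK2s, hK2c, hK2cl⟩ := mem_comps.1 hK2
          by_cases hd : Disjoint K3 M
          · exact hr (rch_side h2 hc hK3 hpM hqM hd)
          · rw [Finset.not_disjoint_iff] at hd
            obtain ⟨w, hwK3, hwM⟩ := hd
            have hwW := (mem_comps.1 hK3).1 hwK3
            have hwK : w ∉ K := fun h => hK3K (comp_unique hK3 hK hwK3 h)
            have hwK2 : w ∉ K2 := fun h => hK3K2 (comp_unique hK3 hK2 hwK3 h)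
            have d1 := cnt K2 hK2s hK2cl ⟨x, mem_inter.2 ⟨hxM, hxK2⟩⟩
            have d2 := cnt (((V \ {p, q}) \ K) \ K2) (sdiff_subset.trans sdiff_subset) (by
              intro a ha b hb hab
              rw [mem_sdiff] at ha ⊢
              exact ⟨hcl' a ha.1 b hb hab, fun hbK =>
                ha.2 (hK2cl b hbK a (mem_sdiff.1 ha.1).1 hab.symm)⟩)
              ⟨w, mem_inter.2 ⟨hwM, mem_sdiff.2 ⟨mem_sdiff.2 ⟨hwW, hwK⟩, hwK2⟩⟩⟩
            have d3 : ((comps G (V \ M)).filter (fun C => C ⊆ (V \ {p, q}) \ K)).card ≤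
                ((comps G (V \ M)).filter (fun C => C ⊆ K2)).card +
                ((comps G (V \ M)).filter (fun C => C ⊆ ((V \ {p, q}) \ K) \ K2)).card := by
              refine le_trans (card_le_card ?_) (card_union_le _ _)
              intro C hC
              rw [mem_filter] at hC
              rw [mem_union, mem_filter, mem_filter]
              have h5 : C ⊆ K2 ∪ ((V \ {p, q}) \ K) \ K2 := by
                intro z hz
                rw [mem_union, mem_sdiff]
                by_cases h : z ∈ K2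
                · exact Or.inl h
                · exact Or.inr ⟨hC.2 hz, h⟩
              rcases conn_split_sides (mem_comps.1 hC.1).2.1 h5 (by
                intro a ha b hb hab
                rw [mem_sdiff] at hb
                exact hb.2 (hK2cl a ha b (mem_sdiff.1 hb.1).1 hab)) with h6 | h6
              · exact Or.inl ⟨hC.1, h6⟩
              · exact Or.inr ⟨hC.1, h6⟩
            have d4 : (M ∩ K2).card + (M ∩ (((V \ {p, q}) \ K) \ K2)).card =
                (M ∩ ((V \ {p, q}) \ K)).card := by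
              rw [← card_union_of_disjoint]
              · congr 1
                ext z
                simp only [mem_union, mem_inter, mem_sdiff]
                constructor
                · rintro (h | h)
                  · exact ⟨h.1, mem_sdiff.1 (hK2s h.2), fun hzK =>
                      hK2ne (comp_unique hK2 hK h.2 hzK)⟩
                  · exact ⟨h.1, h.2.1⟩
                · rintro ⟨h1, h2⟩
                  by_cases h : z ∈ K2
                  · exact Or.inl ⟨h1, h⟩
                  · exact Or.inr ⟨h1, h2, h⟩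
              · rw [Finset.disjoint_left]
                intro z hz hz'
                rw [mem_inter] at hz hz'
                exact (mem_sdiff.1 hz'.2).2 hz.2
            have c4 := side_pq_count (G := G) (V := V) (p := p) (q := q) (M := M)
            omega
        · apply hF.nc _ hs _ hMF
          refine ⟨?_, x, hxM, y, hyM, ?_⟩
          · rw [Finset.disjoint_left]
            intro z hz hzM
            rw [mem_insert, mem_singleton] at hz
            rcases hz with rfl | rfl
            · exact hpM hzM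
            · exact hqM hzM
          · intro h
            obtain ⟨C, hC, hxC, hyC⟩ := rch_iff_comp.1 h
            have := comp_unique hC hK hyC hyK
            exact hx.1 (this ▸ hxC)

theorem exists_cut2 (h2 : TwoC G V) (h4 : 4 ≤ V.card) (hn : ¬ ThreeC G V) :
    ∃ p q, Cut2 G V p q := by
  have : ∃ x ∈ V, ∃ y ∈ V, ¬ Conn G (V \ {x, y}) := by
    by_contra hcon
    push Not at hcon
    exact hn ⟨h4, hcon⟩
  obtain ⟨x, hx, y, hy, hxy⟩ := this
  have hne : x ≠ y := by
    rintro rfl
    apply hxy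
    have h := h2.erase x hx
    rwa [← sdiff_singleton_eq_erase, ← pair_eq_singleton x] at h
  refine ⟨x, y, hx, hy, hne, ?_⟩
  have hsub : ({x, y} : Finset α) ⊆ V := by
    intro z hz
    rw [mem_insert, mem_singleton] at hz
    rcases hz with rfl | rfl <;> assumption
  have hcard : (V \ {x, y}).card = V.card - 2 := by
    rw [card_sdiff_of_subset hsub, card_pair hne]
  have hne' : (V \ {x, y}).Nonempty := card_pos.1 (by omega)
  have h1 := cc_pos (G := G) hne'
  have h3 : cc G (V \ {x, y}) ≠ 1 := fun h => hxy (cc_eq_one_iff.1 h)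
  omega

theorem pair_tgt (h2 : TwoC G V) {p q : α} (hc : Cut2 G V p q) (ha : ¬ G.Adj p q)
    (h3 : ¬ 3 ≤ cc G (V \ {p, q})) : Tgt G V {p, q} := by
  have hsub : ({p, q} : Finset α) ⊆ V := by
    intro z hz
    rw [mem_insert, mem_singleton] at hz
    rcases hz with rfl | rfl
    · exact hc.hp
    · exact hc.hq
  have hcc := hc.two
  refine ⟨hsub, ⟨?_, ?_⟩, by rw [card_pair hc.ne], by rw [card_pair hc.ne]; omega⟩
  · intro x hx y hy hxy
    rw [mem_insert, mem_singleton] at hx hy
    rcases hx with rfl | rfl <;> rcases hy with rfl | rfl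
    · exact hxy.ne rfl
    · exact ha hxy
    · exact ha hxy.symm
    · exact hxy.ne rfl
  · intro T hT hTn
    rcases Nat.lt_or_ge T.card 2 with h | h
    · have hT1 : T.card = 1 := by have := hTn.card_pos; omega
      obtain ⟨t, rfl⟩ := card_eq_one.1 hT1
      rw [card_singleton, sdiff_singleton_eq_erase]
      have htV : t ∈ V := hsub (hT (mem_singleton_self t))
      rw [cc_eq_one_iff.2 (h2.erase t htV)]
    · have : T = {p, q} := Finset.eq_of_subset_of_card_le hT (by rw [card_pair hc.ne]; exact h)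
      rw [this, card_pair hc.ne]
      omega

theorem exists_cutM (hM : ClsM G V F) (hmax : ∀ B, MinT G V B → ¬ Addb G V F B) (h4 : 4 ≤ V.card)
    (hn : ¬ ThreeC G V) :
    ∃ p q K, Cut2 G V p q ∧ Seal G V F p q ∧ K ∈ comps G (V \ {p, q}) ∧
      ∀ M ∈ F, M ⊆ K ∪ {p, q} ∨ M ⊆ V \ K := by
  have hmain : ∃ p q, Cut2 G V p q ∧ Seal G V F p q := by
    obtain ⟨p, q, hc⟩ := exists_cut2 hM.two h4 hn
    by_cases hs : Seal G V F p q
    · exact ⟨p, q, hc, hs⟩
    · unfold Seal at hs
      push Not at hs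
      obtain ⟨ha, h3, hnF⟩ := hs
      have ht := pair_tgt hM.two hc ha (by omega)
      have hmin : MinT G V {p, q} := by
        refine ⟨ht, fun T hT hTt => ?_⟩
        refine Finset.eq_of_subset_of_card_le hT ?_
        rw [card_pair hc.ne]
        exact hTt.card
      have hfree : Free G V F {p, q} := by
        refine ⟨ht, ?_⟩
        rintro ⟨M, hMF, hMs⟩
        rw [hmin.min M hMs (hM.ncf.tgt M hMF)] at hMF
        exact hnF hMF
      have hex : ∃ M ∈ F, Crs G V M {p, q} := by
        by_contra hcon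
        push Not at hcon
        exact hmax _ hmin ⟨hfree, hcon⟩
      obtain ⟨M, hMF, hcr⟩ := hex
      have hMm := hM.min M hMF
      obtain ⟨h1, h2⟩ := MinT.cross hM.two.conn hMm ht hcr
      have hMc : M.card ≤ 2 := by
        have hcov : M ⊆ (comps G (V \ {p, q})).biUnion (fun L => L ∩ M) := by
          intro z hz
          have hzn : z ∈ V \ {p, q} :=
            mem_sdiff.2 ⟨hMm.tgt.sub hz, Finset.disjoint_left.1 hcr.1 hz⟩
          obtain ⟨L, hL, hzL⟩ := exists_comp (G := G) hzn
          rw [mem_biUnion]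
          exact ⟨L, hL, mem_inter.2 ⟨hzL, hz⟩⟩
        have h5 := (card_le_card hcov).trans card_biUnion_le
        have h6 : ∑ L ∈ comps G (V \ {p, q}), (L ∩ M).card ≤
            ∑ L ∈ comps G (V \ {p, q}), 1 := sum_le_sum (fun L hL => h1 L hL)
        rw [sum_const, smul_eq_mul, mul_one] at h6
        unfold cc at h3
        omega
      have hMc2 : M.card = 2 := by have := hMm.tgt.card; omega
      obtain ⟨m, n, hmn, hMeq⟩ := card_eq_two.1 hMc2
      refine ⟨m, n, ⟨hMm.tgt.sub (by rw [hMeq]; simp), hMm.tgt.sub (by rw [hMeq]; simp), hmn, ?_⟩,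
        Or.inr (Or.inr (hMeq ▸ hMF))⟩
      rw [← hMeq, hMm.tgt.eq, hMc2]
  obtain ⟨p, q, hc, hs⟩ := hmain
  have hne : (comps G (V \ {p, q})).Nonempty := card_pos.1 (by
    have := hc.two
    unfold cc at this
    omega)
  obtain ⟨K, hK⟩ := hne
  exact ⟨p, q, K, hc, hs, hK, fun M hMF => minT_side hM.two hM.ncf hc hs hK hMF (hM.min M hMF)⟩

end ExM

end Pool.Agent.TH
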