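import Pool.Agent.TH.Comp

/-!
# Supermodularity of `S ↦ cc G (V \ S)` on stable sets
-/

set_option autoImplicit false

namespace Pool.Agent.TH

open Finset
open scoped Classical

variable {α : Type*} [DecidableEq α] {G : SimpleGraph α} {V S T : Finset α}

/-! private helpers, from the statements of section A only -/

private lemma sp_ne {W K : Finset α} (hK : K ∈ comps G W) : K.Nonempty := (mem_comps.1 hK).2.1.1

private lemma sp_sub {W K : Finset α} (hK : K ∈ comps G W) : K ⊆ W := (mem_comps.1 hK).1

private lemma sp_closed {W K : Finset α} (hK : K ∈ comps G W) {x y : α} (hx : x ∈ K) (hy : y ∈ W)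
    (h : G.Adj x y) : y ∈ K := (mem_comps.1 hK).2.2 x hx y hy h

private lemma sp_mem {W K : Finset α} (hK : K ∈ comps G W) {x y : α} (hx : x ∈ K) :
    y ∈ K ↔ Rch G W x y := by
  constructor
  · intro hy; exact rch_iff_comp.2 ⟨K, hK, hx, hy⟩
  · intro h
    obtain ⟨C, hC, hxC, hyC⟩ := rch_iff_comp.1 h
    rw [comp_unique hK hC hx hxC]
    exact hyC

/-- adding one vertex -/
theorem cc_insert_vertex {W : Finset α} {s : α} (hs : s ∉ W) :
    cc G (insert s W) + ((comps G W).filter (fun K => ∃ x ∈ K, G.Adj x s)).card = cc G W + 1 := by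
  set P := (comps G W).filter (fun K => ∃ x ∈ K, G.Adj x s) with hP
  set Q := (comps G W).filter (fun K => ¬ ∃ x ∈ K, G.Adj x s) with hQ
  have h1 : cc G W = P.card + Q.card := by
    unfold cc
    rw [hP, hQ, Finset.card_filter_add_card_filter_not]
  obtain ⟨C, hC, hsC⟩ := exists_comp (G := G) (mem_insert_self s W)
  have h2 : comps G (insert s W) = insert C Q := by
    ext K
    constructor
    · intro hK
      by_cases hsK : s ∈ K
      · rw [mem_insert]; left
        exact comp_unique hK hC hsK hsC
      · rw [mem_insert]; right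
        have hKW : K ⊆ W := by
          intro x hx
          rcases mem_insert.1 (sp_sub hK hx) with h | h
          · exact absurd (h ▸ hx) hsK
          · exact h
        rw [hQ, mem_filter]
        refine ⟨comp_down hK (subset_insert _ _) hKW, ?_⟩
        rintro ⟨x, hx, hxs⟩
        exact hsK (sp_closed hK hx (mem_insert_self _ _) hxs)
    · intro hK
      rcases mem_insert.1 hK with h | h
      · rw [h]; exact hC
      · rw [hQ, mem_filter] at h
        refine comp_up h.1 (subset_insert _ _) ?_
        rintro ⟨x, hx, y, hy, hxy⟩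
        obtain ⟨hy1, hy2⟩ := mem_sdiff.1 hy
        rcases mem_insert.1 hy1 with h' | h'
        · exact h.2 ⟨x, hx, h' ▸ hxy⟩
        · exact hy2 h'
  have h3 : C ∉ Q := by
    intro h
    rw [hQ, mem_filter] at h
    exact hs (sp_sub h.1 hsC)
  have h4 : cc G (insert s W) = Q.card + 1 := by
    unfold cc
    rw [h2, card_insert_of_notMem h3]
  rw [h4, h1]
  ring

/-- the marginals are increasing -/
theorem cc_marg {X Y : Finset α} {a : α} (hXY : X ⊆ Y) (ha : a ∈ V) (haY : a ∉ Y)
    (hadj : ∀ y ∈ Y, ¬ G.Adj y a) :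
    cc G (V \ insert a X) + cc G (V \ Y) ≤ cc G (V \ insert a Y) + cc G (V \ X) := by
  have haX : a ∉ X := fun h => haY (hXY h)
  have e1 : insert a (V \ insert a X) = V \ X := by
    ext z
    simp only [mem_insert, mem_sdiff, not_or]
    constructor
    · rintro (rfl | h)
      · exact ⟨ha, haX⟩
      · exact ⟨h.1, h.2.2⟩
    · rintro ⟨h1, h2⟩
      by_cases hz : z = a
      · left; exact hz
      · right; exact ⟨h1, hz, h2⟩
  have e2 : insert a (V \ insert a Y) = V \ Y := by
    ext z
    simp only [mem_insert, mem_sdiff, not_or]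
    constructor
    · rintro (rfl | h)
      · exact ⟨ha, haY⟩
      · exact ⟨h.1, h.2.2⟩
    · rintro ⟨h1, h2⟩
      by_cases hz : z = a
      · left; exact hz
      · right; exact ⟨h1, hz, h2⟩
  have h1 := cc_insert_vertex (G := G) (W := V \ insert a X) (s := a) (by simp)
  have h2 := cc_insert_vertex (G := G) (W := V \ insert a Y) (s := a) (by simp)
  rw [e1] at h1
  rw [e2] at h2
  have hsub : V \ insert a Y ⊆ V \ insert a X :=
    sdiff_subset_sdiff (Subset.refl _) (insert_subset_insert _ hXY)
  have h3 : ((comps G (V \ insert a X)).filter (fun K => ∃ x ∈ K, G.Adj x a)).card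
      ≤ ((comps G (V \ insert a Y)).filter (fun K => ∃ x ∈ K, G.Adj x a)).card := by
    apply card_le_card_of_forall_subsingleton (fun K L : Finset α => L ⊆ K)
    · intro K hK
      obtain ⟨hK1, x, hx, hxa⟩ := mem_filter.1 hK
      have hxV := mem_sdiff.1 (sp_sub hK1 hx)
      have hxW : x ∈ V \ insert a Y := by
        refine mem_sdiff.2 ⟨hxV.1, ?_⟩
        rw [mem_insert, not_or]
        exact ⟨hxa.ne, fun h => hadj x h hxa⟩
      obtain ⟨L, hL, hxL⟩ := exists_comp (G := G) hxW
      refine ⟨L, mem_filter.2 ⟨hL, x, hxL, hxa⟩, ?_⟩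
      intro y hy
      exact (sp_mem hK1 hx).2 (((sp_mem hL hxL).1 hy).mono hsub)
    · intro L hL K hK K' hK'
      obtain ⟨hK1, hK2⟩ := hK
      obtain ⟨hK1', hK2'⟩ := hK'
      obtain ⟨x, hx⟩ := sp_ne (mem_filter.1 hL).1
      exact comp_unique (mem_filter.1 hK1).1 (mem_filter.1 hK1').1 (hK2 hx) (hK2' hx)
  omega

theorem cc_supermod (hS : S ⊆ V) (hT : T ⊆ V) (hst : Stb G (S ∪ T)) :
    cc G (V \ S) + cc G (V \ T) ≤ cc G (V \ (S ∪ T)) + cc G (V \ (S ∩ T)) := by
  have key : ∀ A : Finset α, A ⊆ T \ S →
      cc G (V \ S) + cc G (V \ ((S ∩ T) ∪ A)) ≤ cc G (V \ (S ∪ A)) + cc G (V \ (S ∩ T)) := by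
    intro A
    induction A using Finset.induction_on with
    | empty => intro _; simp
    | insert a A haA ih =>
      intro hsub
      have ih' := ih ((subset_insert a A).trans hsub)
      have haT := mem_sdiff.1 (hsub (mem_insert_self a A))
      have hAT : A ⊆ T \ S := (subset_insert a A).trans hsub
      have hm := cc_marg (G := G) (V := V) (X := (S ∩ T) ∪ A) (Y := S ∪ A) (a := a)
        (union_subset_union inter_subset_left (Subset.refl _)) (hT haT.1)
        (by rw [mem_union, not_or]; exact ⟨haT.2, haA⟩)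
        (by
          intro y hy
          refine hst y ?_ a (mem_union_right _ haT.1)
          rcases mem_union.1 hy with h | h
          · exact mem_union_left _ h
          · exact mem_union_right _ (mem_sdiff.1 (hAT h)).1)
      rw [union_insert, union_insert]
      omega
  have h := key (T \ S) (Subset.refl _)
  have e1 : (S ∩ T) ∪ (T \ S) = T := by
    ext z; simp only [mem_union, mem_inter, mem_sdiff]; tauto
  have e2 : S ∪ (T \ S) = S ∪ T := by
    ext z; simp only [mem_union, mem_sdiff]; tauto
  rw [e1, e2] at h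
  exact h

theorem Adm.sub (h : Adm G V S) (hT : T ⊆ S) : Adm G V T :=
  ⟨fun x hx y hy => h.1 x (hT hx) y (hT hy), fun U hU hn => h.2 U (hU.trans hT) hn⟩

theorem Tgt.union (hS : Tgt G V S) (hT : Tgt G V T) (ha : Adm G V (S ∪ T))
    (hn : (S ∩ T).Nonempty) : Tgt G V (S ∪ T) := by
  have h1 := cc_supermod hS.sub hT.sub ha.1
  have h2 := ha.2 (S ∪ T) (Subset.refl _) (hn.mono (inter_subset_left.trans subset_union_left))
  have h3 := ha.2 (S ∩ T) (inter_subset_left.trans subset_union_left) hn
  have h4 := card_union_add_card_inter S T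
  have h5 := hS.eq
  have h6 := hT.eq
  refine ⟨union_subset hS.sub hT.sub, ha, hS.card.trans (card_le_card subset_union_left), ?_⟩
  omega

theorem Tgt.inter (hS : Tgt G V S) (hT : Tgt G V T) (ha : Adm G V (S ∪ T))
    (hn : 2 ≤ (S ∩ T).card) : Tgt G V (S ∩ T) := by
  have hne : (S ∩ T).Nonempty := card_pos.1 (by omega)
  have h1 := cc_supermod hS.sub hT.sub ha.1
  have h2 := ha.2 (S ∪ T) (Subset.refl _) (hne.mono (inter_subset_left.trans subset_union_left))
  have h3 := ha.2 (S ∩ T) (inter_subset_left.trans subset_union_left) hne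
  have h4 := card_union_add_card_inter S T
  have h5 := hS.eq
  have h6 := hT.eq
  refine ⟨inter_subset_left.trans hS.sub, ha.sub (inter_subset_left.trans subset_union_left), hn, ?_⟩
  omega

/-- `cc` of the intersection, when it is a single vertex or tight (value form) -/
theorem Tgt.inter_eq (hS : Tgt G V S) (hT : Tgt G V T) (ha : Adm G V (S ∪ T))
    (hne : (S ∩ T).Nonempty) :
    cc G (V \ (S ∩ T)) = (S ∩ T).card ∧ cc G (V \ (S ∪ T)) = (S ∪ T).card := by
  have h1 := cc_supermod hS.sub hT.sub ha.1
  have h2 := ha.2 (S ∪ T) (Subset.refl _) (hne.mono (inter_subset_left.trans subset_union_left))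
  have h3 := ha.2 (S ∩ T) (inter_subset_left.trans subset_union_left) hne
  have h4 := card_union_add_card_inter S T
  have h5 := hS.eq
  have h6 := hT.eq
  constructor <;> omega

end Pool.Agent.TH
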