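import Pool.Agent.TH.Ops
import Pool.Agent.TH.Cross
import Pool.Agent.TH.Super

/-!
# Closure of the classes E and M under pieces

Component calculus of the piece `(idn G B t, insert t K)` of a tight set `B`: for
`K ∈ comps G (V \ B)`, `G' = idn G B t`, `W = insert t K`
* for `T ⊆ K`, reachability in `(G', W \ T)` and in `(G, V \ T)` agree, `cc` agree;
* for `t ∈ S ⊆ W`, `cc G (V \ (B ∪ S)) + 1 = |B| + cc G' (W \ S)`;
* admissible / tight sets correspond.
Main results: `piece_clsE`, `piece_clsM`.
-/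

set_option autoImplicit false
set_option linter.unusedSectionVars false

namespace Pool.Agent.TH

open Finset
open scoped Classical

variable {α : Type*} [DecidableEq α]

section Gen
variable {G G' : SimpleGraph α} {W W' V B K S T M : Finset α} {F : Finset (Finset α)} {x y t c : α}

private theorem idn_adj_t (ht : t ∈ B) (hy : y ≠ t) :
    (idn G B t).Adj t y ↔ ∃ c ∈ B, G.Adj c y := by
  rw [idn_adj_left ht]
  exact ⟨fun h => h.2, fun h => ⟨hy, h⟩⟩

/-- a map which sends steps to reachable pairs sends reachable pairs to reachable pairs -/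
private theorem rch_lift {f : α → α} (hf : ∀ a ∈ W, f a ∈ W')
    (hs : ∀ a ∈ W, ∀ b ∈ W, G.Adj a b → Rch G' W' (f a) (f b)) (h : Rch G W x y) :
    Rch G' W' (f x) (f y) := by
  obtain ⟨hx, hy, h⟩ := h
  have key : ∀ z, Relation.ReflTransGen (fun a b => G.Adj a b ∧ a ∈ W ∧ b ∈ W) x z →
      Rch G' W' (f x) (f z) := by
    intro z hz
    induction hz with
    | refl => exact Rch.refl (hf x hx)
    | tail _ hbc ih => exact ih.trans (hs _ hbc.2.1 _ hbc.2.2 hbc.1)
  exact key y h

/-- counting components by a set of representatives -/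
private theorem cc_transversal (hsub : W' ⊆ W)
    (hr : ∀ x ∈ W', ∀ y ∈ W', (Rch G' W' x y ↔ Rch G W x y))
    (hm : ∀ x ∈ W, ∃ y ∈ W', Rch G W x y) : cc G' W' = cc G W := by
  symm
  unfold cc
  have hcl : ∀ C ∈ comps G W, ∃ y ∈ W', y ∈ C ∧ C = W.filter (fun z => Rch G W y z) := by
    intro C hC
    obtain ⟨x, hx, rfl⟩ := Finset.mem_image.1 hC
    obtain ⟨y, hy, hxy⟩ := hm x hx
    refine ⟨y, hy, Finset.mem_filter.2 ⟨hsub hy, hxy⟩, ?_⟩
    apply Finset.filter_congr
    intro z _
    exact ⟨fun h => hxy.symm.trans h, fun h => hxy.trans h⟩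
  have hcl' : ∀ y ∈ W', W.filter (fun z => Rch G W y z) ∩ W' =
      W'.filter (fun z => Rch G' W' y z) := by
    intro y hy
    ext z
    simp only [Finset.mem_inter, Finset.mem_filter]
    constructor
    · rintro ⟨⟨_, h1⟩, h2⟩
      exact ⟨h2, (hr y hy z h2).2 h1⟩
    · rintro ⟨h1, h2⟩
      exact ⟨⟨hsub h1, (hr y hy z h1).1 h2⟩, h1⟩
  refine Finset.card_bij (fun C _ => C ∩ W') ?_ ?_ ?_
  · intro C hC
    obtain ⟨y, hy, _, hCy⟩ := hcl C hC
    rw [hCy, hcl' y hy]
    exact Finset.mem_image_of_mem _ hy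
  · intro C hC D hD h
    obtain ⟨y, hy, hyC, _⟩ := hcl C hC
    have h1 : y ∈ C ∩ W' := Finset.mem_inter.2 ⟨hyC, hy⟩
    have h2 : y ∈ D ∩ W' := by
      have : C ∩ W' = D ∩ W' := h
      rw [← this]
      exact h1
    exact comp_unique hC hD hyC (Finset.mem_inter.1 h2).1
  · intro D hD
    obtain ⟨y, hy, rfl⟩ := Finset.mem_image.1 hD
    exact ⟨W.filter (fun z => Rch G W y z), Finset.mem_image_of_mem _ (hsub hy), hcl' y hy⟩


private theorem mem_mkF {E : Finset α → Prop} : M ∈ mkF G V E ↔
    Tgt G V M ∧ E M ∧ ∀ T, T ⊆ M → Tgt G V T → E T → T = M := by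
  unfold mkF
  rw [Finset.mem_filter, Finset.mem_powerset]
  exact ⟨fun h => h.2, fun h => ⟨h.1.sub, h⟩⟩

/-- a tight set with `E` contains a minimal one -/
private theorem exists_mkF {E : Finset α → Prop} (hS : Tgt G V S) (hE : E S) : Up (mkF G V E) S := by
  induction' hn : S.card using Nat.strong_induction_on with n ih generalizing S
  by_cases h : ∀ T, T ⊆ S → Tgt G V T → E T → T = S
  · exact ⟨S, mem_mkF.2 ⟨hS, hE, h⟩, Finset.Subset.refl S⟩
  · push Not at h
    obtain ⟨T, hTS, hT, hET, hne⟩ := h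
    have hlt : T.card < n := by
      rw [← hn]
      exact Finset.card_lt_card (lt_of_le_of_ne hTS hne)
    obtain ⟨M, hM, hMT⟩ := ih T.card hlt hT hET rfl
    exact ⟨M, hM, hMT.trans hTS⟩

private theorem adm_mono (h : Adm G V T) (hST : S ⊆ T) : Adm G V S :=
  ⟨h.1.mono hST, fun U hU hUn => h.2 U (hU.trans hST) hUn⟩

end Gen

/-! ### pieces -/

/-- the hypotheses on a piece -/
structure PieceH (G : SimpleGraph α) (V B : Finset α) (t : α) (K : Finset α) : Prop where
  sub : B ⊆ V
  ht : t ∈ B
  hK : K ∈ comps G (V \ B)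
  conn : Conn G (V \ K)

section Piece
variable {G : SimpleGraph α} {V B K S T : Finset α} {x y t a b c : α}

theorem PieceH.of_tgt (h2 : TwoC G V) (hB : Tgt G V B) (ht : t ∈ B) (hK : K ∈ comps G (V \ B)) :
    PieceH G V B t K :=
  ⟨hB.sub, ht, hK, conn_compl h2.conn hB hK⟩

theorem PieceH.K_sub (h : PieceH G V B t K) : K ⊆ V \ B := (mem_comps.1 h.hK).1

theorem PieceH.K_subV (h : PieceH G V B t K) : K ⊆ V :=
  fun _ hx => (Finset.mem_sdiff.1 (h.K_sub hx)).1

theorem PieceH.notB (h : PieceH G V B t K) (hx : x ∈ K) : x ∉ B :=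
  (Finset.mem_sdiff.1 (h.K_sub hx)).2

theorem PieceH.tK (h : PieceH G V B t K) : t ∉ K := fun hx => h.notB hx h.ht

theorem PieceH.ne_t (h : PieceH G V B t K) (hx : x ∈ K) : x ≠ t := fun e => h.tK (e ▸ hx)

theorem PieceH.connK (h : PieceH G V B t K) : Conn G K := (mem_comps.1 h.hK).2.1

theorem PieceH.nbK (h : PieceH G V B t K) (hx : x ∈ K) (hy : y ∈ V) (hxy : G.Adj x y) :
    y ∈ K ∨ y ∈ B := by
  by_cases hB : y ∈ B
  · exact Or.inr hB
  · exact Or.inl ((mem_comps.1 h.hK).2.2 x hx y (Finset.mem_sdiff.2 ⟨hy, hB⟩) hxy)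

theorem PieceH.B_sub (h : PieceH G V B t K) : B ⊆ V \ K := by
  intro x hx
  exact Finset.mem_sdiff.2 ⟨h.sub hx, fun hK => h.notB hK hx⟩

theorem PieceH.tV (h : PieceH G V B t K) : t ∈ V := h.sub h.ht

/-- `V \ K` lies in one component of `V \ T`, `T ⊆ K` -/
theorem PieceH.out (h : PieceH G V B t K) (hT : T ⊆ K) (hx : x ∈ V \ K) (hy : y ∈ V \ K) :
    Rch G (V \ T) x y :=
  (h.conn.2 x hx y hy).mono (Finset.sdiff_subset_sdiff (Finset.Subset.refl V) hT)

theorem PieceH.W_sub (h : PieceH G V B t K) : insert t K ⊆ V := by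
  intro x hx
  rcases Finset.mem_insert.1 hx with rfl | hx
  · exact h.tV
  · exact h.K_subV hx

theorem PieceH.rch_iff (h : PieceH G V B t K) (hT : T ⊆ K)
    (hx : x ∈ insert t K \ T) (hy : y ∈ insert t K \ T) :
    Rch (idn G B t) (insert t K \ T) x y ↔ Rch G (V \ T) x y := by
  have htT : t ∉ T := fun ht => h.tK (hT ht)
  constructor
  · intro hr
    refine rch_lift (f := id) ?_ ?_ hr
    · intro a ha
      rw [Finset.mem_sdiff] at ha ⊢
      exact ⟨h.W_sub ha.1, ha.2⟩
    · intro a ha b hb hab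
      rw [Finset.mem_sdiff] at ha hb
      show Rch G (V \ T) a b
      have haV : a ∈ V \ T := Finset.mem_sdiff.2 ⟨h.W_sub ha.1, ha.2⟩
      have hbV : b ∈ V \ T := Finset.mem_sdiff.2 ⟨h.W_sub hb.1, hb.2⟩
      by_cases hat : a = t
      · subst hat
        have hbt : b ≠ a := fun e => (hab.ne e.symm)
        obtain ⟨c, hc, hcb⟩ := (idn_adj_t h.ht hbt).1 hab
        have h1 : Rch G (V \ T) a c := h.out hT (h.B_sub h.ht) (h.B_sub hc)
        exact h1.trans (Rch.of_adj h1.2.1 hbV hcb)
      · by_cases hbt : b = t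
        · subst hbt
          obtain ⟨c, hc, hca⟩ := (idn_adj_t h.ht hat).1 hab.symm
          have h1 : Rch G (V \ T) b c := h.out hT (h.B_sub h.ht) (h.B_sub hc)
          exact (h1.trans (Rch.of_adj h1.2.1 haV hca)).symm
        · exact Rch.of_adj haV hbV ((idn_adj_of_ne hat hbt).1 hab)
  · intro hr
    have hf : ∀ z ∈ insert t K, (if z ∈ K then z else t) = z := by
      intro z hz
      rcases Finset.mem_insert.1 hz with rfl | hz
      · rw [if_neg h.tK]
      · rw [if_pos hz]
    have htW : t ∈ insert t K \ T := Finset.mem_sdiff.2 ⟨Finset.mem_insert_self _ _, htT⟩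
    have key : Rch (idn G B t) (insert t K \ T) (if x ∈ K then x else t)
        (if y ∈ K then y else t) := by
      refine rch_lift (f := fun z => if z ∈ K then z else t) ?_ ?_ hr
      · intro a ha
        show (if a ∈ K then a else t) ∈ _
        by_cases haK : a ∈ K
        · rw [if_pos haK]
          exact Finset.mem_sdiff.2 ⟨Finset.mem_insert_of_mem haK, (Finset.mem_sdiff.1 ha).2⟩
        · rw [if_neg haK]
          exact htW
      · intro a ha b hb hab
        show Rch _ _ (if a ∈ K then a else t) (if b ∈ K then b else t)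
        rw [Finset.mem_sdiff] at ha hb
        by_cases haK : a ∈ K
        · have haW : a ∈ insert t K \ T :=
            Finset.mem_sdiff.2 ⟨Finset.mem_insert_of_mem haK, ha.2⟩
          rw [if_pos haK]
          by_cases hbK : b ∈ K
          · rw [if_pos hbK]
            exact Rch.of_adj haW (Finset.mem_sdiff.2 ⟨Finset.mem_insert_of_mem hbK, hb.2⟩)
              ((idn_adj_of_ne (h.ne_t haK) (h.ne_t hbK)).2 hab)
          · rw [if_neg hbK]
            have hbB : b ∈ B := (h.nbK haK hb.1 hab).resolve_left hbK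
            exact Rch.of_adj haW htW ((idn_adj_t h.ht (h.ne_t haK)).2 ⟨b, hbB, hab.symm⟩).symm
        · rw [if_neg haK]
          by_cases hbK : b ∈ K
          · rw [if_pos hbK]
            have haB : a ∈ B := (h.nbK hbK ha.1 hab.symm).resolve_left haK
            exact Rch.of_adj htW (Finset.mem_sdiff.2 ⟨Finset.mem_insert_of_mem hbK, hb.2⟩)
              ((idn_adj_t h.ht (h.ne_t hbK)).2 ⟨a, haB, hab⟩)
          · rw [if_neg hbK]
            exact Rch.refl htW
    rw [hf x (Finset.mem_sdiff.1 hx).1, hf y (Finset.mem_sdiff.1 hy).1] at key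
    exact key

theorem PieceH.cc_eq (h : PieceH G V B t K) (hT : T ⊆ K) :
    cc (idn G B t) (insert t K \ T) = cc G (V \ T) := by
  have htT : t ∉ T := fun ht => h.tK (hT ht)
  refine cc_transversal (Finset.sdiff_subset_sdiff h.W_sub (Finset.Subset.refl T)) ?_ ?_
  · intro x hx y hy
    exact h.rch_iff hT hx hy
  · intro x hx
    by_cases hxK : x ∈ K
    · exact ⟨x, Finset.mem_sdiff.2 ⟨Finset.mem_insert_of_mem hxK, (Finset.mem_sdiff.1 hx).2⟩,
        Rch.refl hx⟩
    · exact ⟨t, Finset.mem_sdiff.2 ⟨Finset.mem_insert_self _ _, htT⟩,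
        h.out hT (Finset.mem_sdiff.2 ⟨(Finset.mem_sdiff.1 hx).1, hxK⟩) (h.B_sub h.ht)⟩

/-- inside `K` nothing changes -/
theorem PieceH.adjK (h : PieceH G V B t K) :
    ∀ x ∈ K, ∀ y ∈ K, ((idn G B t).Adj x y ↔ G.Adj x y) :=
  fun _ hx _ hy => idn_adj_of_ne (h.ne_t hx) (h.ne_t hy)

theorem PieceH.cc_eqK (h : PieceH G V B t K) (hT : T ⊆ K) : cc (idn G B t) T = cc G T :=
  cc_congr (fun x hx y hy => h.adjK x (hT hx) y (hT hy))

theorem PieceH.rch_eqK (h : PieceH G V B t K) (hT : T ⊆ K) :
    Rch (idn G B t) T x y ↔ Rch G T x y :=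
  rch_congr (fun x hx y hy => h.adjK x (hT hx) y (hT hy))

/-- the sets containing the root -/
theorem PieceH.cc_eq_t (h : PieceH G V B t K) (hS : S ⊆ insert t K) (htS : t ∈ S) :
    cc G (V \ (B ∪ S)) + 1 = cc G (V \ B) + cc (idn G B t) (insert t K \ S) := by
  have h1 : insert t K \ S = K \ S := by
    ext z
    simp only [Finset.mem_sdiff, Finset.mem_insert]
    constructor
    · rintro ⟨rfl | hz, hzS⟩
      · exact absurd htS hzS
      · exact ⟨hz, hzS⟩
    · rintro ⟨hz, hzS⟩
      exact ⟨Or.inr hz, hzS⟩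
  have h2 : V \ (B ∪ S) = ((V \ B) \ K) ∪ (K \ S) := by
    ext z
    simp only [Finset.mem_sdiff, Finset.mem_union]
    constructor
    · rintro ⟨hzV, hz⟩
      push Not at hz
      by_cases hzK : z ∈ K
      · exact Or.inr ⟨hzK, hz.2⟩
      · exact Or.inl ⟨⟨hzV, hz.1⟩, hzK⟩
    · rintro (⟨⟨hzV, hzB⟩, hzK⟩ | ⟨hzK, hzS⟩)
      · refine ⟨hzV, ?_⟩
        push Not
        refine ⟨hzB, fun hzS => ?_⟩
        rcases Finset.mem_insert.1 (hS hzS) with rfl | h3
        · exact hzB h.ht
        · exact hzK h3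
      · refine ⟨h.K_subV hzK, ?_⟩
        push Not
        exact ⟨h.notB hzK, hzS⟩
  have h3 : V \ B = ((V \ B) \ K) ∪ K := by
    rw [Finset.sdiff_union_of_subset h.K_sub]
  have hd : Disjoint ((V \ B) \ K) K := Finset.sdiff_disjoint
  have hn : ¬ Tch G ((V \ B) \ K) K := by
    rintro ⟨x, hx, y, hy, hxy⟩
    rw [Finset.mem_sdiff] at hx
    exact hx.2 ((mem_comps.1 h.hK).2.2 y hy x hx.1 hxy.symm)
  have hd' : Disjoint ((V \ B) \ K) (K \ S) :=
    Finset.disjoint_of_subset_right Finset.sdiff_subset hd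
  have hn' : ¬ Tch G ((V \ B) \ K) (K \ S) := by
    rintro ⟨x, hx, y, hy, hxy⟩
    exact hn ⟨x, hx, y, (Finset.mem_sdiff.1 hy).1, hxy⟩
  have hcK : cc G K = 1 := cc_eq_one_iff.2 h.connK
  have e1 : cc G (V \ B) = cc G ((V \ B) \ K) + 1 := by
    conv_lhs => rw [h3]
    rw [cc_union hd hn, hcK]
  rw [h1, h.cc_eqK Finset.sdiff_subset, h2, cc_union hd' hn', e1]
  omega

end Piece

section Piece2
variable {G : SimpleGraph α} {V B K S T M N : Finset α} {F : Finset (Finset α)} {x y t a b c : α}

theorem PieceH.tW (h : PieceH G V B t K) (hT : T ⊆ insert t K) (htT : t ∉ T) : T ⊆ K := by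
  intro x hx
  rcases Finset.mem_insert.1 (hT hx) with rfl | h1
  · exact absurd hx htT
  · exact h1

theorem PieceH.stb_K (h : PieceH G V B t K) (hS : S ⊆ K) : Stb (idn G B t) S ↔ Stb G S := by
  constructor
  · intro hs x hx y hy hxy
    exact hs x hx y hy ((h.adjK x (hS hx) y (hS hy)).2 hxy)
  · intro hs x hx y hy hxy
    exact hs x hx y hy ((h.adjK x (hS hx) y (hS hy)).1 hxy)

theorem PieceH.stb_t (h : PieceH G V B t K) (hB : Stb G B) (hS : S ⊆ insert t K) (htS : t ∈ S) :
    Stb (idn G B t) S ↔ Stb G (B ∪ S) := by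
  constructor
  · intro hs
    have hBS : ∀ x ∈ B, ∀ y ∈ S, ¬ G.Adj x y := by
      intro x hx y hy hxy
      by_cases hyB : y ∈ B
      · exact hB x hx y hyB hxy
      · have hyt : y ≠ t := fun e => hyB (e ▸ h.ht)
        exact hs t htS y hy ((idn_adj_t h.ht hyt).2 ⟨x, hx, hxy⟩)
    intro x hx y hy hxy
    rcases Finset.mem_union.1 hx with hx | hx
    · rcases Finset.mem_union.1 hy with hy | hy
      · exact hB x hx y hy hxy
      · exact hBS x hx y hy hxy
    · rcases Finset.mem_union.1 hy with hy | hy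
      · exact hBS y hy x hx hxy.symm
      · by_cases hxt : x = t
        · subst hxt
          exact hBS x h.ht y hy hxy
        · by_cases hyt : y = t
          · subst hyt
            exact hBS y h.ht x hx hxy.symm
          · exact hs x hx y hy ((idn_adj_of_ne hxt hyt).2 hxy)
  · intro hs x hx y hy hxy
    by_cases hxt : x = t
    · subst hxt
      have hyt : y ≠ x := fun e => hxy.ne e.symm
      obtain ⟨c, hc, hcy⟩ := (idn_adj_t h.ht hyt).1 hxy
      exact hs c (Finset.mem_union_left _ hc) y (Finset.mem_union_right _ hy) hcy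
    · by_cases hyt : y = t
      · subst hyt
        obtain ⟨c, hc, hcy⟩ := (idn_adj_t h.ht hxt).1 hxy.symm
        exact hs c (Finset.mem_union_left _ hc) x (Finset.mem_union_right _ hx) hcy
      · exact hs x (Finset.mem_union_right _ hx) y (Finset.mem_union_right _ hy)
          ((idn_adj_of_ne hxt hyt).1 hxy)

theorem PieceH.inter_eq (h : PieceH G V B t K) (hS : S ⊆ insert t K) (htS : t ∈ S) :
    B ∩ S = {t} := by
  ext z
  rw [Finset.mem_inter, Finset.mem_singleton]
  constructor
  · rintro ⟨hzB, hzS⟩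
    rcases Finset.mem_insert.1 (hS hzS) with rfl | h1
    · rfl
    · exact absurd hzB (h.notB h1)
  · rintro rfl
    exact ⟨h.ht, htS⟩

theorem PieceH.card_t (h : PieceH G V B t K) (hS : S ⊆ insert t K) (htS : t ∈ S) :
    (B ∪ S).card + 1 = B.card + S.card := by
  have h1 := Finset.card_union_add_card_inter B S
  rw [h.inter_eq hS htS, Finset.card_singleton] at h1
  exact h1

theorem PieceH.adm_K (h : PieceH G V B t K) (hS : S ⊆ K) :
    Adm (idn G B t) (insert t K) S ↔ Adm G V S := by
  unfold Adm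
  rw [h.stb_K hS]
  constructor
  · rintro ⟨h1, h2⟩
    refine ⟨h1, fun T hT hTn => ?_⟩
    rw [← h.cc_eq (hT.trans hS)]
    exact h2 T hT hTn
  · rintro ⟨h1, h2⟩
    refine ⟨h1, fun T hT hTn => ?_⟩
    rw [h.cc_eq (hT.trans hS)]
    exact h2 T hT hTn

theorem PieceH.adm_t (h : PieceH G V B t K) (hB : Tgt G V B) (hS : S ⊆ insert t K) (htS : t ∈ S) :
    Adm (idn G B t) (insert t K) S ↔ Adm G V (B ∪ S) := by
  unfold Adm
  rw [h.stb_t hB.adm.1 hS htS]
  constructor
  · rintro ⟨h1, h2⟩
    refine ⟨h1, fun T hT hTn => ?_⟩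
    by_cases hTB : (T ∩ B).Nonempty
    · -- supermodularity
      set S' := insert t (T ∩ K) with hS'
      have hTKS : T ∩ K ⊆ S := by
        intro z hz
        rw [Finset.mem_inter] at hz
        rcases Finset.mem_union.1 (hT hz.1) with h3 | h3
        · exact absurd h3 (h.notB hz.2)
        · exact h3
      have hS'S : S' ⊆ S := Finset.insert_subset htS hTKS
      have htS' : t ∈ S' := Finset.mem_insert_self _ _
      have hTV : T ⊆ V := by
        intro z hz
        rcases Finset.mem_union.1 (hT hz) with h3 | h3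
        · exact h.sub h3
        · exact h.W_sub (hS h3)
      have hTBe : T ∪ B = B ∪ S' := by
        ext z
        simp only [Finset.mem_union, hS', Finset.mem_insert, Finset.mem_inter]
        constructor
        · rintro (hz | hz)
          · rcases Finset.mem_union.1 (hT hz) with h3 | h3
            · exact Or.inl h3
            · rcases Finset.mem_insert.1 (hS h3) with h4 | h4
              · exact Or.inr (Or.inl h4)
              · exact Or.inr (Or.inr ⟨hz, h4⟩)
          · exact Or.inl hz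
        · rintro (hz | rfl | hz)
          · exact Or.inr hz
          · exact Or.inr h.ht
          · exact Or.inl hz.1
      have hst : Stb G (T ∪ B) := by
        refine h1.mono ?_
        exact Finset.union_subset hT Finset.subset_union_left
      have h3 := cc_supermod (G := G) hTV h.sub hst
      have h4 : cc G (V \ (T ∩ B)) ≤ (T ∩ B).card :=
        hB.adm.2 _ Finset.inter_subset_right hTB
      have h5 := h.cc_eq_t (hS'S.trans hS) htS'
      have h6 := h2 S' hS'S ⟨t, htS'⟩
      have h7 : S'.card = (T ∩ K).card + 1 :=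
        Finset.card_insert_of_notMem (fun hz => h.tK (Finset.mem_inter.1 hz).2)
      have h8 : T.card = (T ∩ K).card + (T ∩ B).card := by
        have h9 : T = (T ∩ K) ∪ (T ∩ B) := by
          ext z
          simp only [Finset.mem_union, Finset.mem_inter]
          constructor
          · intro hz
            rcases Finset.mem_union.1 (hT hz) with h3 | h3
            · exact Or.inr ⟨hz, h3⟩
            · rcases Finset.mem_insert.1 (hS h3) with rfl | h4
              · exact Or.inr ⟨hz, h.ht⟩
              · exact Or.inl ⟨hz, h4⟩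
          · rintro (hz | hz)
            · exact hz.1
            · exact hz.1
        have h10 : Disjoint (T ∩ K) (T ∩ B) := by
          rw [Finset.disjoint_left]
          intro z hz hz'
          exact h.notB (Finset.mem_inter.1 hz).2 (Finset.mem_inter.1 hz').2
        conv_lhs => rw [h9]
        rw [Finset.card_union_of_disjoint h10]
      have h11 := hB.eq
      rw [hTBe] at h3
      omega
    · rw [Finset.not_nonempty_iff_eq_empty] at hTB
      have hTS : T ⊆ S := by
        intro z hz
        rcases Finset.mem_union.1 (hT hz) with h3 | h3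
        · have : z ∈ T ∩ B := Finset.mem_inter.2 ⟨hz, h3⟩
          rw [hTB] at this
          simp at this
        · exact h3
      have htT : t ∉ T := by
        intro hz
        have : t ∈ T ∩ B := Finset.mem_inter.2 ⟨hz, h.ht⟩
        rw [hTB] at this
        simp at this
      rw [← h.cc_eq (h.tW (hTS.trans hS) htT)]
      exact h2 T hTS hTn
  · rintro ⟨h1, h2⟩
    refine ⟨h1, fun T hT hTn => ?_⟩
    by_cases htT : t ∈ T
    · have h3 := h.cc_eq_t (hT.trans hS) htT
      have h4 := h2 (B ∪ T) (Finset.union_subset_union (Finset.Subset.refl B) hT)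
        ⟨t, Finset.mem_union_right _ htT⟩
      have h5 := h.card_t (hT.trans hS) htT
      have h6 := hB.eq
      omega
    · rw [h.cc_eq (h.tW (hT.trans hS) htT)]
      exact h2 T (hT.trans Finset.subset_union_right) hTn

theorem PieceH.tgt_K (h : PieceH G V B t K) (hS : S ⊆ K) :
    Tgt (idn G B t) (insert t K) S ↔ Tgt G V S := by
  constructor
  · intro hT
    exact ⟨hS.trans h.K_subV, (h.adm_K hS).1 hT.adm, hT.card, by
      rw [← h.cc_eq hS]
      exact hT.eq⟩
  · intro hT
    exact ⟨hS.trans (Finset.subset_insert _ _), (h.adm_K hS).2 hT.adm, hT.card, by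
      rw [h.cc_eq hS]
      exact hT.eq⟩

theorem PieceH.tgt_t (h : PieceH G V B t K) (hB : Tgt G V B) (hS : S ⊆ insert t K)
    (htS : t ∈ S) :
    Tgt (idn G B t) (insert t K) S ↔ (Tgt G V (B ∪ S) ∧ 2 ≤ S.card) := by
  have h1 := h.cc_eq_t hS htS
  have h2 := h.card_t hS htS
  have h3 := hB.eq
  have h4 := hB.card
  constructor
  · intro hT
    have h5 := hT.eq
    have h6 := hT.card
    exact ⟨⟨Finset.union_subset h.sub (hS.trans h.W_sub), (h.adm_t hB hS htS).1 hT.adm,
      by omega, by omega⟩, hT.card⟩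
  · rintro ⟨hT, hc⟩
    have h5 := hT.eq
    exact ⟨hS, (h.adm_t hB hS htS).2 hT.adm, hc, by omega⟩

theorem PieceH.nb_t (h : PieceH G V B t K) (h2 : TwoC G V) :
    ∃ k ∈ K, ∃ c ∈ B, G.Adj c k := by
  obtain ⟨x, hx, y, hy, hxy⟩ := comp_nb h2.conn h.sub ⟨t, h.ht⟩ h.hK
  exact ⟨x, hx, y, hy, hxy.symm⟩

theorem PieceH.twoC (h : PieceH G V B t K) (h2 : TwoC G V) :
    TwoC (idn G B t) (insert t K) := by
  obtain ⟨k, hk⟩ := h.connK.1
  have hcon : Conn (idn G B t) (insert t K) := by
    have h3 := h.cc_eq (T := ∅) (Finset.empty_subset _)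
    rw [Finset.sdiff_empty, Finset.sdiff_empty, cc_eq_one_iff.2 h2.conn] at h3
    exact cc_eq_one_iff.1 h3
  refine ⟨?_, hcon, ?_⟩
  · rw [Finset.card_insert_of_notMem h.tK]
    have := Finset.card_pos.2 ⟨k, hk⟩
    omega
  · intro x hx
    by_cases hxt : x = t
    · subst hxt
      rw [Finset.erase_insert h.tK]
      exact (conn_congr h.adjK).2 h.connK
    · have hxK : x ∈ K := (Finset.mem_insert.1 hx).resolve_left hxt
      have h3 := h.cc_eq (T := {x}) (Finset.singleton_subset_iff.2 hxK)
      rw [Finset.sdiff_singleton_eq_erase, Finset.sdiff_singleton_eq_erase,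
        cc_eq_one_iff.2 (h2.erase x (h.K_subV hxK))] at h3
      exact cc_eq_one_iff.1 h3

/-! ### crossing in a piece -/

theorem PieceH.crs_K (h : PieceH G V B t K) (hN : N ⊆ K) (hM : M ⊆ insert t K) :
    Crs (idn G B t) (insert t K) N M ↔ Crs G V N M := by
  unfold Crs
  constructor
  · rintro ⟨hd, x, hx, y, hy, hr⟩
    refine ⟨hd, x, hx, y, hy, fun hr' => hr ?_⟩
    exact (h.rch_iff hN (Finset.mem_sdiff.2 ⟨hM hx, fun hz => Finset.disjoint_left.1 hd hz hx⟩)
      (Finset.mem_sdiff.2 ⟨hM hy, fun hz => Finset.disjoint_left.1 hd hz hy⟩)).2 hr'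
  · rintro ⟨hd, x, hx, y, hy, hr⟩
    refine ⟨hd, x, hx, y, hy, fun hr' => hr ?_⟩
    exact (h.rch_iff hN (Finset.mem_sdiff.2 ⟨hM hx, fun hz => Finset.disjoint_left.1 hd hz hx⟩)
      (Finset.mem_sdiff.2 ⟨hM hy, fun hz => Finset.disjoint_left.1 hd hz hy⟩)).1 hr'

theorem PieceH.sdiff_t (h : PieceH G V B t K) (hM : M ⊆ insert t K) (htM : t ∈ M) :
    insert t K \ M = K \ M := by
  ext z
  simp only [Finset.mem_sdiff, Finset.mem_insert]
  constructor
  · rintro ⟨rfl | hz, hzS⟩
    · exact absurd htM hzS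
    · exact ⟨hz, hzS⟩
  · rintro ⟨hz, hzS⟩
    exact ⟨Or.inr hz, hzS⟩

/-- reachability after removal of a set which contains the root -/
theorem PieceH.rch_t (h : PieceH G V B t K) (hM : M ⊆ insert t K) (htM : t ∈ M)
    (hx : x ∈ K) (hy : y ∈ K) :
    Rch (idn G B t) (insert t K \ M) x y ↔ Rch G (V \ (B ∪ M)) x y := by
  rw [h.sdiff_t hM htM, h.rch_eqK Finset.sdiff_subset]
  constructor
  · intro hr
    refine hr.mono ?_
    intro z hz
    rw [Finset.mem_sdiff] at hz ⊢
    refine ⟨h.K_subV hz.1, ?_⟩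
    rw [Finset.mem_union]
    push Not
    exact ⟨h.notB hz.1, hz.2⟩
  · intro hr
    have hxM : x ∈ K \ M := by
      have h1 := hr.1
      rw [Finset.mem_sdiff, Finset.mem_union] at h1
      push Not at h1
      exact Finset.mem_sdiff.2 ⟨hx, h1.2.2⟩
    have key : Rch G (K \ M) (if x ∈ K then x else x) (if y ∈ K then y else x) := by
      refine rch_lift (f := fun z => if z ∈ K then z else x) ?_ ?_ hr
      · intro a ha
        show (if a ∈ K then a else x) ∈ _
        by_cases haK : a ∈ K
        · rw [if_pos haK]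
          rw [Finset.mem_sdiff, Finset.mem_union] at ha
          push Not at ha
          exact Finset.mem_sdiff.2 ⟨haK, ha.2.2⟩
        · rw [if_neg haK]
          exact hxM
      · intro a ha b hb hab
        show Rch _ _ (if a ∈ K then a else x) (if b ∈ K then b else x)
        rw [Finset.mem_sdiff, Finset.mem_union] at ha hb
        push Not at ha hb
        by_cases haK : a ∈ K
        · have hbK : b ∈ K := (h.nbK haK hb.1 hab).resolve_right hb.2.1
          rw [if_pos haK, if_pos hbK]
          exact Rch.of_adj (Finset.mem_sdiff.2 ⟨haK, ha.2.2⟩)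
            (Finset.mem_sdiff.2 ⟨hbK, hb.2.2⟩) hab
        · have hbK : b ∉ K := fun hbK => (h.nbK hbK ha.1 hab.symm).elim haK ha.2.1
          rw [if_neg haK, if_neg hbK]
          exact Rch.refl hxM
    rw [if_pos hx, if_pos hy] at key
    exact key

theorem PieceH.crs_t (h : PieceH G V B t K) (hN : N ⊆ K) (hM : M ⊆ insert t K) (htM : t ∈ M) :
    Crs (idn G B t) (insert t K) M N ↔ Crs G V (B ∪ M) N := by
  unfold Crs
  have hd : Disjoint M N ↔ Disjoint (B ∪ M) N := by
    rw [Finset.disjoint_union_left]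
    constructor
    · intro h1
      refine ⟨?_, h1⟩
      rw [Finset.disjoint_left]
      intro z hz hz'
      exact h.notB (hN hz') hz
    · exact fun h1 => h1.2
  rw [hd]
  constructor
  · rintro ⟨hd, x, hx, y, hy, hr⟩
    exact ⟨hd, x, hx, y, hy, fun hr' => hr ((h.rch_t hM htM (hN hx) (hN hy)).2 hr')⟩
  · rintro ⟨hd, x, hx, y, hy, hr⟩
    exact ⟨hd, x, hx, y, hy, fun hr' => hr ((h.rch_t hM htM (hN hx) (hN hy)).1 hr')⟩

/-! ### the members of the family of a piece -/

theorem PieceH.mem_K (h : PieceH G V B t K) (hF : NCF G V F)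
    (hM : M ∈ idnF G F B t (insert t K)) (htM : t ∉ M) : M ∈ F := by
  obtain ⟨hT, hE, hmin⟩ := mem_mkF.1 hM
  rw [if_neg htM] at hE
  obtain ⟨m, hm, hmM⟩ := hE
  have hMK : M ⊆ K := h.tW hT.sub htM
  have htm : t ∉ m := fun hz => htM (hmM hz)
  have h1 : m = M := by
    refine hmin m hmM ((h.tgt_K (hmM.trans hMK)).2 (hF.tgt m hm)) ?_
    rw [if_neg htm]
    exact ⟨m, hm, Finset.Subset.refl m⟩
  rw [← h1]
  exact hm

theorem PieceH.mem_t (h : PieceH G V B t K) (hF : NCF G V F) (hB : Addb G V F B)
    (hM : M ∈ idnF G F B t (insert t K)) (htM : t ∈ M) :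
    ∃ m ∈ F, (m ∩ B).Nonempty ∧ m ⊆ B ∪ K ∧ M = insert t (m ∩ K) ∧ B ∪ M = B ∪ m ∧
      Tgt G V (B ∪ m) := by
  obtain ⟨hT, hE, hmin⟩ := mem_mkF.1 hM
  rw [if_pos htM] at hE
  obtain ⟨m, hm, hmM⟩ := hE
  have hmBK : m ⊆ B ∪ K := by
    intro z hz
    rcases Finset.mem_union.1 (hmM hz) with h1 | h1
    · exact Finset.mem_union_left _ h1
    · rcases Finset.mem_insert.1 (hT.sub h1) with rfl | h2
      · exact Finset.mem_union_left _ h.ht
      · exact Finset.mem_union_right _ h2
  have hBM := (h.tgt_t hB.free.tgt hT.sub htM).1 hT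
  -- `m` meets `B`
  have hmB : (m ∩ B).Nonempty := by
    by_contra hcon
    rw [Finset.not_nonempty_iff_eq_empty] at hcon
    have hmK : m ⊆ K := by
      intro z hz
      rcases Finset.mem_union.1 (hmBK hz) with h1 | h1
      · have : z ∈ m ∩ B := Finset.mem_inter.2 ⟨hz, h1⟩
        rw [hcon] at this
        simp at this
      · exact h1
    have hmM' : m ⊆ M := by
      intro z hz
      rcases Finset.mem_union.1 (hmM hz) with h1 | h1
      · exact absurd h1 (h.notB (hmK hz))
      · exact h1
    have htm : t ∉ m := fun hz => h.tK (hmK hz)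
    have h1 : m = M := by
      refine hmin m hmM' ((h.tgt_K hmK).2 (hF.tgt m hm)) ?_
      rw [if_neg htm]
      exact ⟨m, hm, Finset.Subset.refl m⟩
    rw [h1] at htm
    exact htm htM
  -- `B ∪ m` is tight
  have hBm : Tgt G V (B ∪ m) := by
    refine Tgt.union hB.free.tgt (hF.tgt m hm) ?_ ?_
    · exact adm_mono hBM.1.adm (Finset.union_subset Finset.subset_union_left hmM)
    · rw [Finset.inter_comm]
      exact hmB
  have hBe : B ∪ insert t (m ∩ K) = B ∪ m := by
    ext z
    simp only [Finset.mem_union, Finset.mem_insert, Finset.mem_inter]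
    constructor
    · rintro (hz | rfl | hz)
      · exact Or.inl hz
      · exact Or.inl h.ht
      · exact Or.inr hz.1
    · rintro (hz | hz)
      · exact Or.inl hz
      · rcases Finset.mem_union.1 (hmBK hz) with h1 | h1
        · exact Or.inl h1
        · exact Or.inr (Or.inr ⟨hz, h1⟩)
  have hsubW : insert t (m ∩ K) ⊆ insert t K :=
    Finset.insert_subset_insert _ Finset.inter_subset_right
  have hmK : (m ∩ K).Nonempty := by
    by_contra hcon
    rw [Finset.not_nonempty_iff_eq_empty] at hcon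
    apply hB.free.nup
    refine ⟨m, hm, ?_⟩
    intro z hz
    rcases Finset.mem_union.1 (hmBK hz) with h1 | h1
    · exact h1
    · have : z ∈ m ∩ K := Finset.mem_inter.2 ⟨hz, h1⟩
      rw [hcon] at this
      simp at this
  have htn : t ∉ m ∩ K := fun hz => h.tK (Finset.mem_inter.1 hz).2
  have hTM1 : Tgt (idn G B t) (insert t K) (insert t (m ∩ K)) := by
    refine (h.tgt_t hB.free.tgt hsubW (Finset.mem_insert_self _ _)).2 ⟨?_, ?_⟩
    · rw [hBe]
      exact hBm
    · rw [Finset.card_insert_of_notMem htn]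
      have := Finset.card_pos.2 hmK
      omega
  have hM1 : insert t (m ∩ K) = M := by
    refine hmin _ ?_ hTM1 ?_
    · intro z hz
      rcases Finset.mem_insert.1 hz with rfl | h1
      · exact htM
      · rw [Finset.mem_inter] at h1
        rcases Finset.mem_union.1 (hmM h1.1) with h2 | h2
        · exact absurd h2 (h.notB h1.2)
        · exact h2
    · rw [if_pos (Finset.mem_insert_self _ _), hBe]
      exact ⟨m, hm, Finset.subset_union_right⟩
  refine ⟨m, hm, hmB, hmBK, hM1.symm, ?_, hBm⟩
  rw [← hM1]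
  exact hBe

/-- a member inside `K` does not cross a member containing the root -/
theorem PieceH.not_crs_aux (h : PieceH G V B t K) (h2 : TwoC G V) (hF : NCF G V F)
    (hB : Addb G V F B)
    (hM : M ∈ idnF G F B t (insert t K)) (htM : t ∈ M)
    (hN : N ∈ idnF G F B t (insert t K)) (htN : t ∉ N) :
    ¬ Crs (idn G B t) (insert t K) M N := by
  intro hc
  have hNT := (mem_mkF.1 hN).1
  have hMT := (mem_mkF.1 hM).1
  have hNK : N ⊆ K := h.tW hNT.sub htN
  have hNF : N ∈ F := h.mem_K hF hN htN
  obtain ⟨m, hm, hmB, hmBK, hMm, hBe, hBm⟩ := h.mem_t hF hB hM htM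
  have hc1 : Crs G V (B ∪ M) N := (h.crs_t hNK hMT.sub htM).1 hc
  rw [hBe] at hc1
  have hc2 : Crs G V N (B ∪ m) := Crs.symm h2.conn hBm (hF.tgt N hNF) hc1
  obtain ⟨hd, x, hx, y, hy, hr⟩ := hc2
  rw [Finset.disjoint_union_right] at hd
  obtain ⟨c, hc⟩ := hmB
  rw [Finset.mem_inter] at hc
  have hall : ∀ z ∈ B ∪ m, Rch G (V \ N) z c := by
    intro z hz
    rcases Finset.mem_union.1 hz with h1 | h1
    · by_contra hcon
      exact hB.nc N hNF ⟨hd.1, z, h1, c, hc.2, hcon⟩
    · by_contra hcon
      exact hF.nc N hNF m hm ⟨hd.2, z, h1, c, hc.1, hcon⟩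
  exact hr ((hall x hx).trans (hall y hy).symm)

theorem PieceH.ncf (h : PieceH G V B t K) (h2 : TwoC G V) (hF : NCF G V F)
    (hB : Addb G V F B) :
    NCF (idn G B t) (insert t K) (idnF G F B t (insert t K)) := by
  refine ⟨fun M hM => (mem_mkF.1 hM).1, ?_, ?_⟩
  · intro M hM N hN hMN
    obtain ⟨hT, hE, _⟩ := mem_mkF.1 hM
    exact (mem_mkF.1 hN).2.2 M hMN hT hE
  · intro M hM N hN hc
    by_cases htM : t ∈ M
    · by_cases htN : t ∈ N
      · exact Finset.disjoint_left.1 hc.1 htM htN
      · exact h.not_crs_aux h2 hF hB hM htM hN htN hc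
    · by_cases htN : t ∈ N
      · exact h.not_crs_aux h2 hF hB hN htN hM htM
          (Crs.symm (h.twoC h2).conn (mem_mkF.1 hM).1 (mem_mkF.1 hN).1 hc)
      · have hMK : M ⊆ K := h.tW (mem_mkF.1 hM).1.sub htM
        exact hF.nc M (h.mem_K hF hM htM) N (h.mem_K hF hN htN)
          ((h.crs_K hMK (mem_mkF.1 hN).1.sub).1 hc)

/-- separation in a piece -/
theorem PieceH.sep (h : PieceH G V B t K) (hS : S ⊆ insert t K) (haV : a ∈ V) (hbV : b ∈ V)
    (hs : Sep G V a b (if t ∈ S then B ∪ S else S)) :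
    Sep (idn G B t) (insert t K) (if a ∈ K then a else t) (if b ∈ K then b else t) S := by
  by_cases htS : t ∈ S
  · rw [if_pos htS] at hs
    by_cases haK : a ∈ K
    · by_cases hbK : b ∈ K
      · rw [if_pos haK, if_pos hbK]
        rcases hs with hs | hs | hs
        · exact Or.inl ((Finset.mem_union.1 hs).resolve_left (h.notB haK))
        · exact Or.inr (Or.inl ((Finset.mem_union.1 hs).resolve_left (h.notB hbK)))
        · exact Or.inr (Or.inr (fun hr => hs ((h.rch_t hS htS haK hbK).1 hr)))
      · rw [if_neg hbK]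
        exact Or.inr (Or.inl htS)
    · rw [if_neg haK]
      exact Or.inl htS
  · rw [if_neg htS] at hs
    have hSK : S ⊆ K := h.tW hS htS
    have htW : t ∈ insert t K \ S := Finset.mem_sdiff.2 ⟨Finset.mem_insert_self _ _, htS⟩
    rcases hs with hs | hs | hs
    · rw [if_pos (hSK hs)]
      exact Or.inl hs
    · rw [if_pos (hSK hs)]
      exact Or.inr (Or.inl hs)
    · refine Or.inr (Or.inr (fun hr => hs ?_))
      have hr' := (h.rch_iff hSK hr.1 hr.2.1).1 hr
      have hla : ∀ z ∈ V, (if z ∈ K then z else t) ∈ insert t K \ S →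
          Rch G (V \ S) z (if z ∈ K then z else t) := by
        intro z hzV hz
        by_cases hzK : z ∈ K
        · rw [if_pos hzK] at hz ⊢
          exact Rch.refl (Finset.mem_sdiff.2 ⟨hzV, (Finset.mem_sdiff.1 hz).2⟩)
        · rw [if_neg hzK]
          exact h.out hSK (Finset.mem_sdiff.2 ⟨hzV, hzK⟩) (h.B_sub h.ht)
      exact ((hla a haV hr.1).trans hr').trans (hla b hbV hr.2.1).symm

end Piece2

section Main
variable {G : SimpleGraph α} {V B K : Finset α} {F : Finset (Finset α)} {a b t : α}

theorem piece_clsE (hE : ClsE G V a b F) (hB : Addb G V F B) (ht : t ∈ B)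
    (hK : K ∈ comps G (V \ B)) :
    ∃ a' b', ClsE (idn G B t) (insert t K) a' b' (idnF G F B t (insert t K)) := by
  have h : PieceH G V B t K := PieceH.of_tgt hE.two hB.free.tgt ht hK
  refine ⟨if a ∈ K then a else t, if b ∈ K then b else t, ⟨h.twoC hE.two, ?_, ?_,
    h.ncf hE.two hE.ncf hB, ?_, ?_⟩⟩
  · by_cases haK : a ∈ K
    · rw [if_pos haK]
      exact Finset.mem_insert_of_mem haK
    · rw [if_neg haK]
      exact Finset.mem_insert_self _ _
  · by_cases hbK : b ∈ K
    · rw [if_pos hbK]
      exact Finset.mem_insert_of_mem hbK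
    · rw [if_neg hbK]
      exact Finset.mem_insert_self _ _
  · intro S hS
    have hSW := hS.tgt.sub
    apply h.sep hSW hE.ha hE.hb
    apply hE.e1
    refine ⟨?_, ?_⟩
    · by_cases htS : t ∈ S
      · rw [if_pos htS]
        exact ((h.tgt_t hB.free.tgt hSW htS).1 hS.tgt).1
      · rw [if_neg htS]
        exact (h.tgt_K (h.tW hSW htS)).1 hS.tgt
    · intro hup
      exact hS.nup (exists_mkF (E := fun S => Up F (if t ∈ S then B ∪ S else S)) hS.tgt hup)
  · intro p q hpq
    have hsub : ({p, q} : Finset α) ⊆ insert t K := by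
      intro z hz
      rcases Finset.mem_insert.1 hz with rfl | h1
      · exact hpq.hp
      · rw [Finset.mem_singleton] at h1
        rw [h1]
        exact hpq.hq
    by_cases htS : t ∈ ({p, q} : Finset α)
    · -- one of the terminals is the root
      have hsB := hE.e1 B hB.free
      have : ¬ (a ∈ K ∧ b ∈ K) := by
        rintro ⟨haK, hbK⟩
        rcases hsB with h1 | h1 | h1
        · exact h.notB haK h1
        · exact h.notB hbK h1
        · exact h1 (rch_iff_comp.2 ⟨K, hK, haK, hbK⟩)
      by_cases haK : a ∈ K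
      · have hbK : b ∉ K := fun hbK => this ⟨haK, hbK⟩
        rw [if_neg hbK]
        exact Or.inr (Or.inl htS)
      · rw [if_neg haK]
        exact Or.inl htS
    · apply h.sep hsub hE.ha hE.hb
      rw [if_neg htS]
      have hsubK : ({p, q} : Finset α) ⊆ K := h.tW hsub htS
      apply hE.e3
      refine ⟨h.K_subV (hsubK (Finset.mem_insert_self _ _)),
        h.K_subV (hsubK (Finset.mem_insert_of_mem (Finset.mem_singleton_self _))), hpq.ne, ?_⟩
      rw [← h.cc_eq hsubK]
      exact hpq.two

theorem piece_clsM (hM : ClsM G V F) (hB : Addb G V F B) (ht : t ∈ B)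
    (hK : K ∈ comps G (V \ B)) :
    ClsM (idn G B t) (insert t K) (idnF G F B t (insert t K)) := by
  have h : PieceH G V B t K := PieceH.of_tgt hM.two hB.free.tgt ht hK
  refine ⟨h.twoC hM.two, h.ncf hM.two hM.ncf hB, ?_⟩
  intro M hMF
  have hMT := (mem_mkF.1 hMF).1
  refine ⟨hMT, ?_⟩
  intro T hTM hT
  by_cases htM : t ∈ M
  · obtain ⟨m, hm, hmB, hmBK, hMm, hBe, hBm⟩ := h.mem_t hM.ncf hB hMF htM
    have hmin := hM.min m hm
    by_cases htT : t ∈ T
    · have hBT := ((h.tgt_t hB.free.tgt hT.sub htT).1 hT)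
      have hTe : T = insert t (T ∩ K) := by
        ext z
        simp only [Finset.mem_insert, Finset.mem_inter]
        constructor
        · intro hz
          rcases Finset.mem_insert.1 (hT.sub hz) with h1 | h1
          · exact Or.inl h1
          · exact Or.inr ⟨hz, h1⟩
        · rintro (rfl | hz)
          · exact htT
          · exact hz.1
      have hTKm : T ∩ K ⊆ m := by
        intro z hz
        rw [Finset.mem_inter] at hz
        have h1 := hTM hz.1
        rw [hMm] at h1
        rcases Finset.mem_insert.1 h1 with rfl | h2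
        · exact absurd hz.2 h.tK
        · exact (Finset.mem_inter.1 h2).1
      have hTKne : (T ∩ K).Nonempty := by
        by_contra hcon
        rw [Finset.not_nonempty_iff_eq_empty] at hcon
        rw [hcon] at hTe
        have h1 := hT.card
        rw [hTe] at h1
        simp at h1
      have hunion : (B ∪ T) ∪ m = B ∪ m := by
        ext z
        simp only [Finset.mem_union]
        constructor
        · rintro ((hz | hz) | hz)
          · exact Or.inl hz
          · rcases Finset.mem_insert.1 (hT.sub hz) with rfl | h1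
            · exact Or.inl h.ht
            · exact Or.inr (hTKm (Finset.mem_inter.2 ⟨hz, h1⟩))
          · exact Or.inr hz
        · rintro (hz | hz)
          · exact Or.inl (Or.inl hz)
          · exact Or.inr hz
      obtain ⟨k, hk⟩ := hTKne
      obtain ⟨c, hc⟩ := hmB
      rw [Finset.mem_inter] at hk hc
      have hcard : 2 ≤ ((B ∪ T) ∩ m).card := by
        have h1 : ({k, c} : Finset α) ⊆ (B ∪ T) ∩ m := by
          intro z hz
          rcases Finset.mem_insert.1 hz with rfl | h1
          · exact Finset.mem_inter.2 ⟨Finset.mem_union_right _ hk.1,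
              hTKm (Finset.mem_inter.2 hk)⟩
          · rw [Finset.mem_singleton] at h1
            rw [h1]
            exact Finset.mem_inter.2 ⟨Finset.mem_union_left _ hc.2, hc.1⟩
        have h2 : k ≠ c := fun e => h.notB hk.2 (e ▸ hc.2)
        have h3 := Finset.card_le_card h1
        rw [Finset.card_pair h2] at h3
        exact h3
      have hint := Tgt.inter hBT.1 hmin.tgt (by rw [hunion]; exact hBm.adm) hcard
      have h4 := hmin.min _ Finset.inter_subset_right hint
      rw [hTe, hMm]
      congr 1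
      apply Finset.Subset.antisymm
      · exact Finset.subset_inter hTKm Finset.inter_subset_right
      · intro z hz
        rw [Finset.mem_inter] at hz
        have h5 : z ∈ (B ∪ T) ∩ m := by
          rw [h4]
          exact hz.1
        rw [Finset.mem_inter] at h5
        rcases Finset.mem_union.1 h5.1 with h6 | h6
        · exact absurd h6 (h.notB hz.2)
        · exact Finset.mem_inter.2 ⟨h6, hz.2⟩
    · exfalso
      have hTK : T ⊆ K := h.tW hT.sub htT
      have hTm : T ⊆ m := by
        intro z hz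
        have h1 := hTM hz
        rw [hMm] at h1
        rcases Finset.mem_insert.1 h1 with rfl | h2
        · exact absurd hz htT
        · exact (Finset.mem_inter.1 h2).1
      have h4 := hmin.min T hTm ((h.tgt_K hTK).1 hT)
      obtain ⟨c, hc⟩ := hmB
      rw [Finset.mem_inter] at hc
      have h5 : c ∈ T := by
        rw [h4]
        exact hc.1
      exact h.notB (hTK h5) hc.2
  · have hMK : M ⊆ K := h.tW hMT.sub htM
    have htT : t ∉ T := fun hz => htM (hTM hz)
    have hTK : T ⊆ K := hTM.trans hMK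
    exact (hM.min M (h.mem_K hM.ncf hMF htM)).min T hTM ((h.tgt_K hTK).1 hT)

end Main

end Pool.Agent.TH
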