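import Pool.Agent.TH.Cross
import Pool.Agent.TH.Super

/-! # Adding a set to the family: no composite members, the classes are kept -/

set_option autoImplicit false
set_option linter.unusedVariables false

namespace Pool.Agent.TH

open Finset
open scoped Classical

variable {α : Type*} [DecidableEq α]

section H
variable {G : SimpleGraph α} {V B K : Finset α} {F : Finset (Finset α)} {a b t : α}

/-- no composite members -/
def NoComp (G : SimpleGraph α) (V : Finset α) (F : Finset (Finset α)) (B : Finset α) : Prop :=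
  ∀ M ∈ F, (M ∩ B).Nonempty → Adm G V (M ∪ B) →
    ∃ K ∈ comps G (V \ B), ∃ M' ∈ F, (M' ∩ B).Nonempty ∧ M' ⊆ B ∪ K ∧ M' ⊆ M ∪ B

theorem Adm.mono' {S T : Finset α} (h : Adm G V T) (hS : S ⊆ T) : Adm G V S :=
  ⟨fun x hx y hy => h.1 x (hS hx) y (hS hy), fun U hU hn => h.2 U (hU.trans hS) hn⟩

/-- the part of `B ∪ M` in one component -/
theorem tgt_part {M : Finset α} (hB : Tgt G V B) (hM : Tgt G V M) (hn : (M ∩ B).Nonempty)
    (ha : Adm G V (M ∪ B)) (hK : K ∈ comps G (V \ B)) : Tgt G V (B ∪ (M ∩ K)) := by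
  have hKs : K ⊆ V \ B := (mem_comps.1 hK).1
  have hcl := (mem_comps.1 hK).2.2
  have hKB : Disjoint K B := by
    rw [Finset.disjoint_left]
    intro x hx hx'
    exact (mem_sdiff.1 (hKs hx)).2 hx'
  have hBV := hB.sub
  have hMV := hM.sub
  have hU : Tgt G V (M ∪ B) := hM.union hB ha hn
  -- the four counts
  have key : ∀ X : Finset α, X ⊆ V \ B → cc G (V \ (B ∪ X)) =
      cc G (K \ X) + cc G (((V \ B) \ K) \ X) := by
    intro X hX
    rw [← cc_union]
    · congr 1
      ext z
      simp only [mem_sdiff, mem_union]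
      constructor
      · rintro ⟨h1, h2⟩
        by_cases hz : z ∈ K
        · exact Or.inl ⟨hz, fun h => h2 (Or.inr h)⟩
        · exact Or.inr ⟨⟨⟨h1, fun h => h2 (Or.inl h)⟩, hz⟩, fun h => h2 (Or.inr h)⟩
      · rintro (⟨h1, h2⟩ | ⟨⟨⟨h1, h2⟩, h3⟩, h4⟩)
        · have := mem_sdiff.1 (hKs h1)
          exact ⟨this.1, fun h => h.elim this.2 h2⟩
        · exact ⟨h1, fun h => h.elim h2 h4⟩
    · rw [Finset.disjoint_left]
      intro z hz hz'
      exact (mem_sdiff.1 (mem_sdiff.1 hz').1).2 (mem_sdiff.1 hz).1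
    · rintro ⟨x, hx, y, hy, hxy⟩
      have hy' := mem_sdiff.1 (mem_sdiff.1 hy).1
      exact hy'.2 (hcl x (mem_sdiff.1 hx).1 y hy'.1 hxy)
  have hX1 : M ∩ K ⊆ V \ B := fun z hz => hKs (mem_inter.1 hz).2
  have hX2 : (M \ B) \ K ⊆ V \ B := by
    intro z hz
    have h1 := mem_sdiff.1 (mem_sdiff.1 hz).1
    exact mem_sdiff.2 ⟨hMV h1.1, h1.2⟩
  have hX0 : M \ B ⊆ V \ B := sdiff_subset_sdiff hMV subset_rfl
  have k0 := key (M \ B) hX0
  have k1 := key (M ∩ K) hX1
  have k2 := key ((M \ B) \ K) hX2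
  have k3 := key ∅ (empty_subset _)
  have e0 : B ∪ (M \ B) = M ∪ B := by
    ext z; simp only [mem_union, mem_sdiff]; tauto
  have e1 : K \ (M \ B) = K \ (M ∩ K) := by
    ext z
    simp only [mem_sdiff, mem_inter]
    constructor
    · rintro ⟨h1, h2⟩
      refine ⟨h1, fun h => h2 ⟨h.1, ?_⟩⟩
      exact (mem_sdiff.1 (hKs h1)).2
    · rintro ⟨h1, h2⟩
      exact ⟨h1, fun h => h2 ⟨h.1, h1⟩⟩
  have e2 : ((V \ B) \ K) \ (M ∩ K) = (V \ B) \ K := by
    ext z; simp only [mem_sdiff, mem_inter]; tauto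
  have e3 : K \ ((M \ B) \ K) = K := by
    ext z; simp only [mem_sdiff]; tauto
  have e4 : ((V \ B) \ K) \ ((M \ B) \ K) = ((V \ B) \ K) \ (M \ B) := by
    ext z; simp only [mem_sdiff]; tauto
  rw [e0, e1] at k0
  rw [e2] at k1
  rw [e3, e4] at k2
  rw [union_empty, sdiff_empty, sdiff_empty] at k3
  -- cardinalities
  have hsub1 : B ∪ (M ∩ K) ⊆ M ∪ B := by
    intro z hz
    rcases mem_union.1 hz with h | h
    · exact mem_union_right _ h
    · exact mem_union_left _ (mem_inter.1 h).1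
  have hsub2 : B ∪ ((M \ B) \ K) ⊆ M ∪ B := by
    intro z hz
    rcases mem_union.1 hz with h | h
    · exact mem_union_right _ h
    · exact mem_union_left _ (mem_sdiff.1 (mem_sdiff.1 h).1).1
  have hBne : B.Nonempty := by
    obtain ⟨z, hz⟩ := hn
    exact ⟨z, (mem_inter.1 hz).2⟩
  have a1 := ha.2 _ hsub1 (hBne.mono subset_union_left)
  have a2 := ha.2 _ hsub2 (hBne.mono subset_union_left)
  have d1 : Disjoint B (M ∩ K) := by
    rw [Finset.disjoint_left]
    intro z hz hz'
    exact (Finset.disjoint_left.1 hKB (mem_inter.1 hz').2) hz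
  have d2 : Disjoint B ((M \ B) \ K) := by
    rw [Finset.disjoint_left]
    intro z hz hz'
    exact (mem_sdiff.1 (mem_sdiff.1 hz').1).2 hz
  have c1 : (B ∪ (M ∩ K)).card = B.card + (M ∩ K).card := card_union_of_disjoint d1
  have c2 : (B ∪ ((M \ B) \ K)).card = B.card + ((M \ B) \ K).card := card_union_of_disjoint d2
  have c0 : (M ∪ B).card = B.card + (M \ B).card := by
    rw [← e0]
    exact card_union_of_disjoint (Finset.disjoint_left.2 fun z hz hz' => (mem_sdiff.1 hz').2 hz)
  have c3 : (M \ B).card = (M ∩ K).card + ((M \ B) \ K).card := by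
    have : M \ B = (M ∩ K) ∪ ((M \ B) \ K) := by
      ext z
      simp only [mem_union, mem_sdiff, mem_inter]
      constructor
      · intro h
        by_cases hz : z ∈ K
        · exact Or.inl ⟨h.1, hz⟩
        · exact Or.inr ⟨h, hz⟩
      · rintro (h | h)
        · exact ⟨h.1, (mem_sdiff.1 (hKs h.2)).2⟩
        · exact h.1
    conv_lhs => rw [this]
    apply card_union_of_disjoint
    rw [Finset.disjoint_left]
    intro z hz hz'
    exact (mem_sdiff.1 hz').2 (mem_inter.1 hz).2
  have hUe := hU.eq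
  have hBe := hB.eq
  rw [hUe] at k0
  rw [hBe] at k3
  refine ⟨?_, ha.mono' hsub1, ?_, ?_⟩
  · intro z hz
    rcases mem_union.1 hz with h | h
    · exact hBV h
    · exact hMV (mem_inter.1 h).1
  · have := hB.card
    omega
  · omega

theorem noComp_of_max (h2 : TwoC G V) (hF : NCF G V F) (hB : Addb G V F B)
    (hm : ∀ B', Addb G V F B' → B ⊆ B' → B' = B) : NoComp G V F B := by
  intro M hM hn ha
  have hMt := hF.tgt M hM
  have hBt := hB.free.tgt
  -- `M` is not inside `B`
  have hMB : ¬ M ⊆ B := fun h => hB.free.nup ⟨M, hM, h⟩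
  obtain ⟨z, hzM, hzB⟩ := Finset.not_subset.1 hMB
  obtain ⟨K, hK, hzK⟩ := exists_comp (G := G) (W := V \ B) (x := z)
    (mem_sdiff.2 ⟨hMt.sub hzM, hzB⟩)
  refine ⟨K, hK, ?_⟩
  by_cases hin : M ⊆ B ∪ K
  · exact ⟨M, hM, hn, hin, subset_union_left⟩
  obtain ⟨w, hwM, hwn⟩ := Finset.not_subset.1 hin
  have hwB : w ∉ B := fun h => hwn (mem_union_left _ h)
  have hwK : w ∉ K := fun h => hwn (mem_union_right _ h)
  have hT : Tgt G V (B ∪ (M ∩ K)) := tgt_part hBt hMt hn ha hK
  have hKs : K ⊆ V \ B := (mem_comps.1 hK).1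
  -- it crosses no member
  have hnc : ∀ N ∈ F, ¬ Crs G V N (B ∪ (M ∩ K)) := by
    intro N hN hc
    have hNt := hF.tgt N hN
    have hdB : Disjoint N B := by
      rw [Finset.disjoint_left]
      intro x hx hx'
      exact Finset.disjoint_left.1 hc.1 hx (mem_union_left _ hx')
    have hBne : B.Nonempty := card_pos.1 (lt_of_lt_of_le (by norm_num) hBt.card)
    have hNne : N.Nonempty := card_pos.1 (lt_of_lt_of_le (by norm_num) hNt.card)
    -- `B` lies in one component of `V \ N`
    obtain ⟨C, hC, hBC⟩ := (not_crs_iff hBt.sub hBne hdB).1 (hB.nc N hN)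
    -- the whole set lies in one component
    suffices hsub : B ∪ (M ∩ K) ⊆ C by
      obtain ⟨-, x, hx, y, hy, hxy⟩ := hc
      exact hxy (rch_iff_comp.2 ⟨C, hC, hsub hx, hsub hy⟩)
    by_cases hNM : Disjoint N M
    · have hMne : M.Nonempty := ⟨z, hzM⟩
      obtain ⟨C', hC', hMC⟩ := (not_crs_iff hMt.sub hMne hNM).1 (hF.nc N hN M hM)
      obtain ⟨x, hx⟩ := hn
      have := comp_unique hC hC' (hBC (mem_inter.1 hx).2) (hMC (mem_inter.1 hx).1)
      subst this
      exact union_subset hBC (fun y hy => hMC (mem_inter.1 hy).1)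
    · rw [Finset.not_disjoint_iff] at hNM
      obtain ⟨u, huN, huM⟩ := hNM
      -- `N` lies in one component of `V \ B`
      have hdB' : Disjoint B N := hdB.symm
      have hnB : ¬ Crs G V B N := fun h => hB.nc N hN (Crs.symm h2.conn hBt hNt h)
      obtain ⟨K', hK', hNK'⟩ := (not_crs_iff hNt.sub hNne hdB').1 hnB
      have hKK' : K ≠ K' := by
        intro he
        subst he
        exact Finset.disjoint_left.1 hc.1 huN (mem_union_right _ (mem_inter.2 ⟨huM, hNK' huN⟩))
      have hconn : Conn G (V \ K') := conn_compl h2.conn hBt hK'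
      obtain ⟨D, hD, hsD⟩ := conn_sub_comp hconn (W := V \ N) (sdiff_subset_sdiff subset_rfl hNK')
      have hBK : B ∪ (M ∩ K) ⊆ V \ K' := by
        intro x hx
        rcases mem_union.1 hx with h | h
        · refine mem_sdiff.2 ⟨hBt.sub h, fun h' => ?_⟩
          exact (mem_sdiff.1 ((mem_comps.1 hK').1 h')).2 h
        · have hxK := (mem_inter.1 h).2
          refine mem_sdiff.2 ⟨(mem_sdiff.1 (hKs hxK)).1, fun h' => ?_⟩
          exact hKK' (comp_unique hK hK' hxK h')
      obtain ⟨x, hx⟩ := hBne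
      have := comp_unique hC hD (hBC hx) (hsD (hBK (mem_union_left _ hx)))
      subst this
      exact hBK.trans hsD
  -- so it is not free
  have hnf : ¬ Free G V F (B ∪ (M ∩ K)) := by
    intro hf
    have := hm _ ⟨hf, hnc⟩ subset_union_left
    have hz : z ∈ B := by
      rw [← this]
      exact mem_union_right _ (mem_inter.2 ⟨hzM, hzK⟩)
    exact hzB hz
  have hup : Up F (B ∪ (M ∩ K)) := by
    by_contra h
    exact hnf ⟨hT, h⟩
  obtain ⟨M', hM', hsub⟩ := hup
  refine ⟨M', hM', ?_, ?_, ?_⟩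
  · by_contra hemp
    rw [Finset.not_nonempty_iff_eq_empty] at hemp
    have hM'M : M' ⊆ M := by
      intro x hx
      rcases mem_union.1 (hsub hx) with h | h
      · exact absurd (mem_inter.2 ⟨hx, h⟩) (by rw [hemp]; exact notMem_empty x)
      · exact (mem_inter.1 h).1
    have := hF.anti M' hM' M hM hM'M
    subst this
    rw [hemp] at hn
    exact Finset.not_nonempty_empty hn
  · exact hsub.trans (union_subset_union subset_rfl inter_subset_right)
  · intro x hx
    rcases mem_union.1 (hsub hx) with h | h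
    · exact mem_union_right _ h
    · exact mem_union_left _ (mem_inter.1 h).1

theorem noComp_of_min (h2 : TwoC G V) (hF : NCF G V F) (hmin : ∀ M ∈ F, MinT G V M)
    (hB : Addb G V F B) : NoComp G V F B := by
  intro M hM hn ha
  have hMt := hF.tgt M hM
  have hBt := hB.free.tgt
  have hMB : ¬ M ⊆ B := fun h => hB.free.nup ⟨M, hM, h⟩
  obtain ⟨z, hzM, hzB⟩ := Finset.not_subset.1 hMB
  obtain ⟨K, hK, hzK⟩ := exists_comp (G := G) (W := V \ B) (x := z)
    (mem_sdiff.2 ⟨hMt.sub hzM, hzB⟩)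
  refine ⟨K, hK, M, hM, hn, ?_, subset_union_left⟩
  have hT : Tgt G V (B ∪ (M ∩ K)) := tgt_part hBt hMt hn ha hK
  have hu : M ∪ (B ∪ (M ∩ K)) = M ∪ B := by
    ext x
    simp only [mem_union, mem_inter]
    tauto
  have hi : M ∩ (B ∪ (M ∩ K)) = (M ∩ B) ∪ (M ∩ K) := by
    ext x
    simp only [mem_union, mem_inter]
    tauto
  have hcard : 2 ≤ (M ∩ (B ∪ (M ∩ K))).card := by
    rw [hi]
    obtain ⟨y, hy⟩ := hn
    have hne : y ≠ z := by
      intro h
      subst h
      exact hzB (mem_inter.1 hy).2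
    have hsub : ({y, z} : Finset α) ⊆ (M ∩ B) ∪ (M ∩ K) := by
      intro x hx
      rcases mem_insert.1 hx with h | h
      · subst h
        exact mem_union_left _ hy
      · rw [mem_singleton] at h
        subst h
        exact mem_union_right _ (mem_inter.2 ⟨hzM, hzK⟩)
    have := card_le_card hsub
    rwa [card_pair hne] at this
  have hti : Tgt G V (M ∩ (B ∪ (M ∩ K))) := hMt.inter hT (by rw [hu]; exact ha) hcard
  have := (hmin M hM).min _ inter_subset_left hti
  rw [← this]
  exact inter_subset_right.trans (union_subset_union subset_rfl inter_subset_right)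

theorem ncf_addF (h2 : TwoC G V) (hF : NCF G V F) (hB : Addb G V F B) : NCF G V (addF F B) := by
  have hmem : ∀ M, M ∈ addF F B ↔ M = B ∨ (M ∈ F ∧ ¬ B ⊆ M) := by
    intro M
    unfold addF
    rw [mem_insert, mem_filter]
  have hBt := hB.free.tgt
  have hBne : B.Nonempty := card_pos.1 (lt_of_lt_of_le (by norm_num) hBt.card)
  refine ⟨?_, ?_, ?_⟩
  · intro M hM
    rcases (hmem M).1 hM with h | h
    · rw [h]; exact hBt
    · exact hF.tgt M h.1
  · intro M hM N hN hMN
    rcases (hmem M).1 hM with h | h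
    · rcases (hmem N).1 hN with h' | h'
      · rw [h, h']
      · exact absurd (h ▸ hMN) h'.2
    · rcases (hmem N).1 hN with h' | h'
      · exact absurd ⟨M, h.1, h' ▸ hMN⟩ hB.free.nup
      · exact hF.anti M h.1 N h'.1 hMN
  · intro M hM N hN hc
    rcases (hmem M).1 hM with h | h
    · rcases (hmem N).1 hN with h' | h'
      · rw [h, h'] at hc
        obtain ⟨x, hx⟩ := hBne
        exact Finset.disjoint_left.1 hc.1 hx hx
      · rw [h] at hc
        exact hB.nc N h'.1 (Crs.symm h2.conn hBt (hF.tgt N h'.1) hc)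
    · rcases (hmem N).1 hN with h' | h'
      · rw [h'] at hc
        exact hB.nc M h.1 hc
      · exact hF.nc M h.1 N h'.1 hc

theorem addF_clsE (hE : ClsE G V a b F) (hB : Addb G V F B) : ClsE G V a b (addF F B) := by
  refine ⟨hE.two, hE.ha, hE.hb, ncf_addF hE.two hE.ncf hB, ?_, hE.e3⟩
  intro S hS
  apply hE.e1 S
  refine ⟨hS.tgt, ?_⟩
  rintro ⟨M, hM, hMS⟩
  apply hS.nup
  by_cases hBM : B ⊆ M
  · exact ⟨B, by simp [addF], hBM.trans hMS⟩
  · exact ⟨M, by simp [addF, hM, hBM], hMS⟩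

theorem addF_clsM (hM : ClsM G V F) (hB : Addb G V F B) (hmin : MinT G V B) :
    ClsM G V (addF F B) := by
  refine ⟨hM.two, ncf_addF hM.two hM.ncf hB, ?_⟩
  intro M hMm
  unfold addF at hMm
  rw [mem_insert, mem_filter] at hMm
  rcases hMm with h | h
  · rw [h]; exact hmin
  · exact hM.min M h.1

end H

end Pool.Agent.TH
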