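import Pool.Agent.TH.Rc

/-!
Deletion-contraction `Rc_delcon`, gluing at two differently coloured vertices `Rc_two`, bases.
-/

set_option autoImplicit false
set_option linter.unusedSectionVars false

namespace Pool.Agent.TH

open Finset
open Pool.Agent.HamChrom (IsPoly)

variable {α : Type*} [Fintype α] [DecidableEq α]

/-- (B) deletion-contraction. `D` = allowed sets of `H`, `DX` = of `H - uv`, `DY` = of `H / uv` (the
new vertex is `u`). -/
theorem Rc_delcon (x : ℝ) (hx : x ≠ 0) (hx1 : x ≠ 1) (V : Finset α) (u v : α) (hu : u ∈ V)
    (hv : v ∈ V) (huv : u ≠ v) (D DX DY : Finset α → Prop) (hDX : DC V DX)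
    (h1 : ∀ S ⊆ V, S.Nonempty → (D S ↔ DX S ∧ ¬ (u ∈ S ∧ v ∈ S)))
    (h2 : ∀ S ⊆ V.erase v, u ∉ S → S.Nonempty → (DY S ↔ DX S))
    (h3 : ∀ S ⊆ V.erase v, u ∈ S → (DY S ↔ DX (insert v S))) :
    Rc x V D = Rc x V DX + Rc x (V.erase v) DY := by
  classical
  have hKu : u ∉ V \ {u, v} := by
    intro h
    rw [Finset.mem_sdiff] at h
    exact h.2 (Finset.mem_insert_self _ _)
  have hpair : ({u, v} : Finset α) ⊆ V := by
    intro a ha
    rcases Finset.mem_insert.1 ha with h | h
    · rw [h]; exact hu
    · rw [Finset.mem_singleton.1 h]; exact hv
  have hVeq : V = {u, v} ∪ (V \ {u, v}) := by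
    rw [Finset.union_sdiff_of_subset hpair]
  have key := Rc_add x hx hx1 {u, v} u (Finset.mem_insert_self _ _) {V \ {u, v}} V
    (by rw [Finset.singleton_biUnion]; exact hVeq)
    (Finset.singleton_nonempty _)
    (by
      intro K hK
      rw [Finset.mem_singleton.1 hK]
      exact Finset.disjoint_sdiff)
    (by
      intro K hK K' hK' hne
      rw [Finset.mem_singleton.1 hK, Finset.mem_singleton.1 hK'] at hne
      exact absurd rfl hne)
    DX hDX
    (by
      constructor
      · intro S hS hdis hne H
        have e : S ∩ (V \ {u, v}) = S := by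
          apply Finset.inter_eq_left.2
          intro a ha
          rw [Finset.mem_sdiff]
          exact ⟨hS ha, fun h => Finset.disjoint_left.1 hdis h ha⟩
        have := H _ (Finset.mem_singleton_self _) (by rw [e]; exact hne)
        rwa [e] at this
      · intro S hS hBS H
        have := H _ (Finset.mem_singleton_self _)
        have e : {u, v} ∪ (S ∩ (V \ {u, v})) = S := by
          ext a
          rw [Finset.mem_union, Finset.mem_inter, Finset.mem_sdiff]
          constructor
          · rintro (h | h)
            · exact hBS h
            · exact h.1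
          · intro h
            by_cases hb : a ∈ ({u, v} : Finset α)
            · exact Or.inl hb
            · exact Or.inr ⟨h, hS h, hb⟩
        rwa [e] at this)
  rw [Finset.card_singleton, Finset.prod_singleton, Finset.card_pair huv] at key
  have e1 : Rc x V (fun S => DX S ∧ ¬ ({u, v} : Finset α) ⊆ S) = Rc x V D := by
    apply Rc_congr
    intro S hS hne
    rw [h1 S hS hne]
    have : ({u, v} : Finset α) ⊆ S ↔ u ∈ S ∧ v ∈ S := by
      rw [Finset.insert_subset_iff, Finset.singleton_subset_iff]
    rw [this]
  have e2 : insert u (V \ {u, v}) = V.erase v := by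
    ext a
    rw [Finset.mem_insert, Finset.mem_sdiff, Finset.mem_erase, Finset.mem_insert,
      Finset.mem_singleton]
    constructor
    · rintro (h | ⟨h, h'⟩)
      · rw [h]; exact ⟨huv, hu⟩
      · exact ⟨fun e => h' (Or.inr e), h⟩
    · rintro ⟨h, h'⟩
      by_cases hau : a = u
      · exact Or.inl hau
      · right
        refine ⟨h', ?_⟩
        rintro (e | e)
        · exact hau e
        · exact h e
  have e3 : Rc x (insert u (V \ {u, v})) (Dc {u, v} u DX) = Rc x (V.erase v) DY := by
    rw [e2]
    apply Rc_congr
    intro S hS hne
    unfold Dc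
    by_cases huS : u ∈ S
    · rw [h3 S hS huS]
      have e4 : ({u, v} : Finset α) ∪ S = insert v S := by
        ext a
        rw [Finset.mem_union, Finset.mem_insert, Finset.mem_insert, Finset.mem_singleton]
        constructor
        · rintro ((h | h) | h)
          · right; rw [h]; exact huS
          · left; exact h
          · right; exact h
        · rintro (h | h)
          · left; right; exact h
          · right; exact h
      rw [e4]
      exact ⟨fun h => h.1 huS, fun h => ⟨fun _ => h, fun h' => absurd huS h'⟩⟩
    · rw [h2 S hS huS hne]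
      exact ⟨fun h => h.2 huS, fun h => ⟨fun h' => absurd h' huS, fun _ => h⟩⟩
  rw [e1, e3] at key
  rw [key]
  norm_num

open Classical in
/-- indicator of `p`, `q` in different classes -/
noncomputable def PN (p q : α) (r : Setoid α) : ℝ := if r p q then 0 else 1

theorem PN_add (p q : α) (r : Setoid α) : PN p q r + PB {p, q} r = 1 := by
  have h : Mn {p, q} r ↔ r p q := by
    constructor
    · intro H
      exact H p (Finset.mem_insert_self _ _) q (Finset.mem_insert_of_mem (Finset.mem_singleton_self _))
    · intro H a ha b hb
      rcases Finset.mem_insert.1 ha with h1 | h1 <;> rcases Finset.mem_insert.1 hb with h2 | h2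
      · rw [h1, h2]
      · rw [h1, Finset.mem_singleton.1 h2]; exact H
      · rw [Finset.mem_singleton.1 h1, h2]; exact r.symm' H
      · rw [Finset.mem_singleton.1 h1, Finset.mem_singleton.1 h2]
  unfold PN
  by_cases hr : r p q
  · rw [if_pos hr, PB_pos (h.2 hr)]; ring
  · rw [if_neg hr, PB_neg (fun h' => hr (h.1 h'))]; ring

theorem I_PN (x : ℝ) (hx : x ≠ 0) (p q : α) (hpq : p ≠ q) :
    I x (PN p q) = x ^ (Fintype.card α) * ((x - 1) / x) := by
  have h1 := I_PB_mul x {p, q} p (Finset.mem_insert_self _ _)
  rw [Finset.card_pair hpq, pow_one] at h1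
  have h2 : I x (PN p q) + I x (PB {p, q}) = x ^ (Fintype.card α) := by
    rw [← I_add, ← I_one]
    congr 1
    funext r
    exact PN_add p q r
  have h3 : I x (PB {p, q}) = x ^ (Fintype.card α) / x := by
    rw [eq_div_iff hx]; exact h1
  rw [h3] at h2
  have h4 : I x (PN p q) = x ^ (Fintype.card α) - x ^ (Fintype.card α) / x := by linarith
  rw [h4]
  field_simp

theorem PN_dep (p q : α) : Dep {p, q} (PN p q) := by
  intro r s h
  have := h p (Finset.mem_insert_self _ _) q (Finset.mem_insert_of_mem (Finset.mem_singleton_self _))
  unfold PN
  by_cases hr : r p q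
  · rw [if_pos hr, if_pos (this.1 hr)]
  · rw [if_neg hr, if_neg (fun h' => hr (this.2 h'))]

theorem PN_pattern (p q : α) (r s : Setoid α) (hr : PN p q r ≠ 0) (hs : PN p q s ≠ 0) :
    ∀ a ∈ ({p, q} : Finset α), ∀ b ∈ ({p, q} : Finset α), (r a b ↔ s a b) := by
  have h1 : ¬ r p q := by
    intro h
    exact hr (by unfold PN; rw [if_pos h])
  have h2 : ¬ s p q := by
    intro h
    exact hs (by unfold PN; rw [if_pos h])
  intro a ha b hb
  rcases Finset.mem_insert.1 ha with h3 | h3 <;> rcases Finset.mem_insert.1 hb with h4 | h4
  · rw [h3, h4]
    exact ⟨fun _ => s.refl' p, fun _ => r.refl' p⟩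
  · rw [h3, Finset.mem_singleton.1 h4]
    exact ⟨fun h => absurd h h1, fun h => absurd h h2⟩
  · rw [Finset.mem_singleton.1 h3, h4]
    exact ⟨fun h => absurd (r.symm' h) h1, fun h => absurd (s.symm' h) h2⟩
  · rw [Finset.mem_singleton.1 h3, Finset.mem_singleton.1 h4]
    exact ⟨fun _ => s.refl' q, fun _ => r.refl' q⟩

/-- (C) gluing at two differently coloured vertices -/
theorem Rc_two (x : ℝ) (hx : x ≠ 0) (hx1 : x ≠ 1) (V V₁ V₂ : Finset α) (p q : α) (hpq : p ≠ q)
    (hV : V = V₁ ∪ V₂) (hI : V₁ ∩ V₂ = {p, q}) (D : Finset α → Prop) (hD : ¬ D {p, q})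
    (hs : ∀ S ⊆ V, S.Nonempty → ((S ∩ V₁).Nonempty → D (S ∩ V₁)) →
      ((S ∩ V₂).Nonempty → D (S ∩ V₂)) → D S) :
    Rc x V D = Rc x V₁ D * Rc x V₂ D := by
  classical
  have hx1' : x - 1 ≠ 0 := sub_ne_zero.2 hx1
  have hp1 : p ∈ V₁ ∩ V₂ := by rw [hI]; exact Finset.mem_insert_self _ _
  have hq1 : q ∈ V₁ ∩ V₂ := by
    rw [hI]; exact Finset.mem_insert_of_mem (Finset.mem_singleton_self _)
  rw [Finset.mem_inter] at hp1 hq1
  -- the weights vanish when p ~ q
  have hz : ∀ W : Finset α, p ∈ W → q ∈ W → ∀ r, PN p q r * Wt W D r = Wt W D r := by
    intro W hpW hqW r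
    unfold PN
    by_cases hr : r p q
    · rw [if_pos hr]
      have : Wt W D r = 0 := by
        apply Wt_neg
        intro H
        apply hD
        apply H
        · intro a ha
          rcases Finset.mem_insert.1 ha with h | h
          · rw [h]; exact hpW
          · rw [Finset.mem_singleton.1 h]; exact hqW
        · exact ⟨p, Finset.mem_insert_self _ _⟩
        · intro a ha b hb
          rcases Finset.mem_insert.1 ha with h3 | h3 <;> rcases Finset.mem_insert.1 hb with h4 | h4
          · rw [h3, h4]
          · rw [h3, Finset.mem_singleton.1 h4]; exact hr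
          · rw [Finset.mem_singleton.1 h3, h4]; exact r.symm' hr
          · rw [Finset.mem_singleton.1 h3, Finset.mem_singleton.1 h4]
      rw [this]; ring
    · rw [if_neg hr]; ring
  have hprod : ∀ r, Wt V D r = Wt V₁ D r * Wt V₂ D r := by
    intro r
    by_cases h1 : ∀ S ⊆ V₁, S.Nonempty → Mn S r → D S
    · by_cases h2 : ∀ S ⊆ V₂, S.Nonempty → Mn S r → D S
      · rw [Wt_pos h1, Wt_pos h2, mul_one]
        apply Wt_pos
        intro S hS hne hm
        apply hs S hS hne
        · intro hne1
          apply h1 _ Finset.inter_subset_right hne1
          intro a ha b hb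
          exact hm a (Finset.mem_inter.1 ha).1 b (Finset.mem_inter.1 hb).1
        · intro hne1
          apply h2 _ Finset.inter_subset_right hne1
          intro a ha b hb
          exact hm a (Finset.mem_inter.1 ha).1 b (Finset.mem_inter.1 hb).1
      · rw [Wt_neg h2, mul_zero]
        apply Wt_neg
        intro H
        apply h2
        intro S hS hne hm
        exact H S (hS.trans (by rw [hV]; exact Finset.subset_union_right)) hne hm
    · rw [Wt_neg h1, zero_mul]
      apply Wt_neg
      intro H
      apply h1
      intro S hS hne hm
      exact H S (hS.trans (by rw [hV]; exact Finset.subset_union_left)) hne hm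
  have key := indep x {p, q} V₁ V₂ (by rw [hI])
    (by
      intro a ha
      rcases Finset.mem_insert.1 ha with h | h
      · rw [h]; exact hp1.1
      · rw [Finset.mem_singleton.1 h]; exact hq1.1)
    (PN p q) (PN_dep p q) (PN_pattern p q) (Wt V₁ D) (Wt V₂ D) (Wt_dep _ _) (Wt_dep _ _)
  have e1 : (fun r => PN p q r * Wt V₁ D r) = Wt V₁ D := by
    funext r; exact hz V₁ hp1.1 hq1.1 r
  have e2 : (fun r => PN p q r * Wt V₂ D r) = Wt V₂ D := by
    funext r; exact hz V₂ hp1.2 hq1.2 r
  have e3 : (fun r => PN p q r * (Wt V₁ D r * Wt V₂ D r)) = Wt V D := by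
    funext r
    rw [← hprod r]
    exact hz V (by rw [hV]; exact Finset.mem_union_left _ hp1.1)
      (by rw [hV]; exact Finset.mem_union_left _ hq1.1) r
  rw [e1, e2, e3, I_PN x hx p q hpq] at key
  have hcard : V.card + 2 = V₁.card + V₂.card := by
    have := Finset.card_union_add_card_inter V₁ V₂
    rw [hI, Finset.card_pair hpq, ← hV] at this
    exact this
  have hxN : x ^ (Fintype.card α) ≠ 0 := pow_ne_zero _ hx
  unfold Rc
  set N := x ^ (Fintype.card α) with hN
  set A := I x (Wt V₁ D) with hA
  set B := I x (Wt V₂ D) with hB
  have e4 : I x (Wt V D) = A * B * x / (N * (x - 1)) := by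
    rw [eq_div_iff (mul_ne_zero hxN hx1')]
    have : A * B * x = N * ((x - 1) / x) * I x (Wt V D) * x := by rw [key]
    rw [this]
    field_simp
  rw [e4]
  have e5 : (-1 : ℝ) ^ V.card = (-1) ^ V₁.card * (-1) ^ V₂.card := by
    rw [← pow_add, ← hcard, pow_add]; norm_num
  have e6 : x ^ V.card * x ^ 2 = x ^ V₁.card * x ^ V₂.card := by
    rw [← pow_add, ← pow_add, hcard]
  rw [e5]
  have e7 : x ^ V.card = x ^ V₁.card * x ^ V₂.card / x ^ 2 := by
    rw [eq_div_iff (pow_ne_zero _ hx)]
    exact e6
  rw [e7]
  field_simp

/-- base: an edge -/
theorem Rc_edge (x : ℝ) (hx : x ≠ 0) (hx1 : x ≠ 1) (u v : α) (huv : u ≠ v)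
    (D : Finset α → Prop) (hD : ¬ D {u, v}) (hu : D {u}) (hv : D {v}) :
    Rc x {u, v} D = 1 := by
  have hx1' : x - 1 ≠ 0 := sub_ne_zero.2 hx1
  have e : Wt {u, v} D = PN u v := by
    funext r
    by_cases hr : r u v
    · unfold PN
      rw [if_pos hr]
      apply Wt_neg
      intro H
      apply hD
      apply H _ (Finset.Subset.refl _) ⟨u, Finset.mem_insert_self _ _⟩
      intro a ha b hb
      rcases Finset.mem_insert.1 ha with h3 | h3 <;> rcases Finset.mem_insert.1 hb with h4 | h4
      · rw [h3, h4]
      · rw [h3, Finset.mem_singleton.1 h4]; exact hr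
      · rw [Finset.mem_singleton.1 h3, h4]; exact r.symm' hr
      · rw [Finset.mem_singleton.1 h3, Finset.mem_singleton.1 h4]
    · unfold PN
      rw [if_neg hr]
      apply Wt_pos
      intro S hS hne hm
      by_cases huS : u ∈ S
      · have hvS : v ∉ S := fun h => hr (hm u huS v h)
        have : S = {u} := by
          apply Finset.Subset.antisymm
          · intro a ha
            rcases Finset.mem_insert.1 (hS ha) with h | h
            · rw [h]; exact Finset.mem_singleton_self _
            · rw [Finset.mem_singleton.1 h] at ha; exact absurd ha hvS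
          · exact Finset.singleton_subset_iff.2 huS
        rw [this]; exact hu
      · have : S = {v} := by
          apply Finset.Subset.antisymm
          · intro a ha
            rcases Finset.mem_insert.1 (hS ha) with h | h
            · rw [h] at ha; exact absurd ha huS
            · exact h
          · obtain ⟨a, ha⟩ := hne
            rcases Finset.mem_insert.1 (hS ha) with h | h
            · rw [h] at ha; exact absurd ha huS
            · rw [Finset.mem_singleton.1 h] at ha
              exact Finset.singleton_subset_iff.2 ha
        rw [this]; exact hv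
  unfold Rc
  rw [e, I_PN x hx u v huv, Finset.card_pair huv]
  have hxN : x ^ (Fintype.card α) ≠ 0 := pow_ne_zero _ hx
  field_simp

/-- some singleton is not allowed -/
theorem Rc_zero (x : ℝ) (V : Finset α) (D : Finset α → Prop) (w : α) (hw : w ∈ V)
    (hD : ¬ D {w}) : Rc x V D = 0 := by
  have e : ∀ r, Wt V D r = 0 := by
    intro r
    apply Wt_neg
    intro H
    apply hD
    apply H _ (Finset.singleton_subset_iff.2 hw) (Finset.singleton_nonempty w)
    intro a ha b hb
    rw [Finset.mem_singleton.1 ha, Finset.mem_singleton.1 hb]
  unfold Rc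
  have : I x (Wt V D) = 0 := by
    unfold I
    apply Finset.sum_eq_zero
    intro r _
    rw [e r, zero_mul]
  rw [this]
  ring

/-- base: a triangle -/
theorem Rc_triangle (x : ℝ) (hx : x ≠ 0) (hx1 : x ≠ 1) (u v w : α) (huv : u ≠ v) (huw : u ≠ w)
    (hvw : v ≠ w) (D : Finset α → Prop)
    (hD : ∀ S ⊆ ({u, v, w} : Finset α), S.Nonempty → (D S ↔ S.card = 1)) :
    Rc x {u, v, w} D = 2 - x := by
  classical
  have memu : u ∈ ({u, v, w} : Finset α) := by simp
  have memv : v ∈ ({u, v, w} : Finset α) := by simp
  have memw : w ∈ ({u, v, w} : Finset α) := by simp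
  have herase : ({u, v, w} : Finset α).erase v = {u, w} := by
    ext a
    rw [Finset.mem_erase, Finset.mem_insert, Finset.mem_insert, Finset.mem_singleton,
      Finset.mem_insert, Finset.mem_singleton]
    constructor
    · rintro ⟨h, h' | h' | h'⟩
      · exact Or.inl h'
      · exact absurd h' h
      · exact Or.inr h'
    · rintro (h | h)
      · rw [h]; exact ⟨huv, Or.inl rfl⟩
      · rw [h]; exact ⟨hvw.symm, Or.inr (Or.inr rfl)⟩
  -- allowed sets after deletion: singletons and `{u, v}`
  have key := Rc_delcon x hx hx1 {u, v, w} u v memu memv huv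
    D (fun S => S.card = 1 ∨ S = {u, v}) (fun S => S.card = 1)
    (by
      intro S hS T hT hne h
      have hT1 : 1 ≤ T.card := Finset.card_pos.2 hne
      rcases h with h | h
      · left
        have := Finset.card_le_card hT
        omega
      · rw [h] at hT
        by_cases hc : T.card = 1
        · exact Or.inl hc
        · right
          apply Finset.eq_of_subset_of_card_le hT
          rw [Finset.card_pair huv]
          omega)
    (by
      intro S hS hne
      rw [hD S hS hne]
      constructor
      · intro h
        refine ⟨Or.inl h, ?_⟩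
        rintro ⟨h1, h2⟩
        obtain ⟨a, ha⟩ := Finset.card_eq_one.1 h
        rw [ha, Finset.mem_singleton] at h1 h2
        exact huv (h1.trans h2.symm)
      · rintro ⟨h | h, h'⟩
        · exact h
        · exfalso
          apply h'
          rw [h]
          simp)
    (by
      intro S hS huS hne
      constructor
      · intro h
        exact Or.inl h
      · rintro (h | h)
        · exact h
        · exfalso
          apply huS
          rw [h]
          simp)
    (by
      intro S hS huS
      constructor
      · intro h
        right
        obtain ⟨a, ha⟩ := Finset.card_eq_one.1 h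
        rw [ha, Finset.mem_singleton] at huS
        rw [ha, ← huS]
        ext b
        simp only [Finset.mem_insert, Finset.mem_singleton]
        tauto
      · rintro (h | h)
        · exfalso
          have hv' : v ∉ S := by
            intro h'
            exact (Finset.mem_erase.1 (hS h')).1 rfl
          rw [Finset.card_insert_of_notMem hv'] at h
          have : 1 ≤ S.card := Finset.card_pos.2 ⟨u, huS⟩
          omega
        · have hv' : v ∉ S := by
            intro h'
            exact (Finset.mem_erase.1 (hS h')).1 rfl
          have hc : (insert v S).card = 2 := by rw [h, Finset.card_pair huv]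
          rw [Finset.card_insert_of_notMem hv'] at hc
          omega)
  -- the path u - w - v
  have key2 := Rc_add x hx hx1 {w} w (Finset.mem_singleton_self _) {{u}, {v}} {u, v, w}
    (by
      ext a
      simp only [Finset.mem_insert, Finset.mem_singleton, Finset.mem_union, Finset.mem_biUnion, id,
        exists_eq_or_imp, exists_eq_left]
      tauto)
    (Finset.insert_nonempty _ _)
    (by
      intro K hK
      rcases Finset.mem_insert.1 hK with h | h
      · rw [h, Finset.disjoint_singleton]; exact huw.symm
      · rw [Finset.mem_singleton.1 h, Finset.disjoint_singleton]; exact hvw.symm)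
    (by
      intro K hK K' hK' hne
      rcases Finset.mem_insert.1 hK with h | h <;> rcases Finset.mem_insert.1 hK' with h' | h'
      · exact absurd (h.trans h'.symm) hne
      · rw [h, Finset.mem_singleton.1 h', Finset.disjoint_singleton]; exact huv
      · rw [Finset.mem_singleton.1 h, h', Finset.disjoint_singleton]; exact huv.symm
      · exact absurd ((Finset.mem_singleton.1 h).trans (Finset.mem_singleton.1 h').symm) hne)
    (fun S => S.card = 1 ∨ S = {u, v})
    (by
      intro S hS T hT hne h
      have hT1 : 1 ≤ T.card := Finset.card_pos.2 hne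
      rcases h with h | h
      · left
        have := Finset.card_le_card hT
        omega
      · rw [h] at hT
        by_cases hc : T.card = 1
        · exact Or.inl hc
        · right
          apply Finset.eq_of_subset_of_card_le hT
          rw [Finset.card_pair huv]
          omega)
    (by
      constructor
      · intro S hS hdis hne H
        have hwS : w ∉ S := fun h => Finset.disjoint_left.1 hdis (Finset.mem_singleton_self _) h
        have hSuv : S ⊆ {u, v} := by
          intro a ha
          have := hS ha
          simp only [Finset.mem_insert, Finset.mem_singleton] at this ⊢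
          rcases this with h | h | h
          · exact Or.inl h
          · exact Or.inr h
          · exact absurd (h ▸ ha) hwS
        by_cases hc : S.card = 1
        · exact Or.inl hc
        · right
          apply Finset.eq_of_subset_of_card_le hSuv
          rw [Finset.card_pair huv]
          have : 1 ≤ S.card := Finset.card_pos.2 hne
          omega
      · intro S hS hBS H
        have hwS : w ∈ S := hBS (Finset.mem_singleton_self _)
        have h1 : u ∉ S := by
          intro h
          have := H {u} (Finset.mem_insert_self _ _)
          have e : S ∩ {u} = {u} := Finset.inter_eq_right.2 (Finset.singleton_subset_iff.2 h)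
          rw [e] at this
          rcases this with h2 | h2
          · have : ({w} ∪ {u} : Finset α) = {w, u} := rfl
            rw [this, Finset.card_pair huw.symm] at h2
            omega
          · have : w ∈ ({u, v} : Finset α) := by rw [← h2]; simp
            simp only [Finset.mem_insert, Finset.mem_singleton] at this
            rcases this with h3 | h3
            · exact huw h3.symm
            · exact hvw h3.symm
        have h1' : v ∉ S := by
          intro h
          have := H {v} (Finset.mem_insert_of_mem (Finset.mem_singleton_self _))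
          have e : S ∩ {v} = {v} := Finset.inter_eq_right.2 (Finset.singleton_subset_iff.2 h)
          rw [e] at this
          rcases this with h2 | h2
          · have : ({w} ∪ {v} : Finset α) = {w, v} := rfl
            rw [this, Finset.card_pair hvw.symm] at h2
            omega
          · have : w ∈ ({u, v} : Finset α) := by rw [← h2]; simp
            simp only [Finset.mem_insert, Finset.mem_singleton] at this
            rcases this with h3 | h3
            · exact huw h3.symm
            · exact hvw h3.symm
        left
        rw [Finset.card_eq_one]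
        refine ⟨w, Finset.Subset.antisymm ?_ hBS⟩
        intro a ha
        have := hS ha
        simp only [Finset.mem_insert, Finset.mem_singleton] at this ⊢
        rcases this with h | h | h
        · exact absurd (h ▸ ha) h1
        · exact absurd (h ▸ ha) h1'
        · exact h)
  have hne : ({u} : Finset α) ∉ ({{v}} : Finset (Finset α)) := by
    rw [Finset.mem_singleton, Finset.singleton_inj]; exact huv
  rw [Finset.prod_insert hne, Finset.prod_singleton, Finset.card_insert_of_notMem hne,
    Finset.card_singleton, Finset.card_singleton] at key2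
  have e0 : Rc x {u, v, w} (fun S => (S.card = 1 ∨ S = {u, v}) ∧ ¬ ({w} : Finset α) ⊆ S) = 0 := by
    apply Rc_zero x _ _ w memw
    rintro ⟨-, h⟩
    exact h (Finset.Subset.refl _)
  have e1 : Rc x (insert w {u}) (Dc {w} w fun S => S.card = 1 ∨ S = {u, v}) = 1 := by
    apply Rc_edge x hx hx1 w u huw.symm
    · intro h
      have h1 := h.1 (by simp)
      rcases h1 with h2 | h2
      · have : ({w} ∪ {w, u} : Finset α) = {w, u} := by simp
        rw [this, Finset.card_pair huw.symm] at h2
        omega
      · have : w ∈ ({u, v} : Finset α) := by rw [← h2]; simp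
        simp only [Finset.mem_insert, Finset.mem_singleton] at this
        rcases this with h3 | h3
        · exact huw h3.symm
        · exact hvw h3.symm
    · refine ⟨fun _ => Or.inl (by simp), fun h => absurd (Finset.mem_singleton_self w) h⟩
    · refine ⟨fun h => absurd (Finset.mem_singleton.1 h) huw.symm, fun _ => Or.inl (by simp)⟩
  have e2 : Rc x (insert w {v}) (Dc {w} w fun S => S.card = 1 ∨ S = {u, v}) = 1 := by
    apply Rc_edge x hx hx1 w v hvw.symm
    · intro h
      have h1 := h.1 (by simp)
      rcases h1 with h2 | h2
      · have : ({w} ∪ {w, v} : Finset α) = {w, v} := by simp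
        rw [this, Finset.card_pair hvw.symm] at h2
        omega
      · have : w ∈ ({u, v} : Finset α) := by rw [← h2]; simp
        simp only [Finset.mem_insert, Finset.mem_singleton] at this
        rcases this with h3 | h3
        · exact huw h3.symm
        · exact hvw h3.symm
    · refine ⟨fun _ => Or.inl (by simp), fun h => absurd (Finset.mem_singleton_self w) h⟩
    · refine ⟨fun h => absurd (Finset.mem_singleton.1 h) hvw.symm, fun _ => Or.inl (by simp)⟩
  rw [e0, e1, e2] at key2
  have e3 : Rc x (({u, v, w} : Finset α).erase v) (fun S => S.card = 1) = 1 := by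
    rw [herase]
    apply Rc_edge x hx hx1 u w huw
    · rw [Finset.card_pair huw]; omega
    · exact Finset.card_singleton _
    · exact Finset.card_singleton _
  rw [key, key2, e3]
  norm_num
  try ring

end Pool.Agent.TH
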