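import Pool.Agent.TH.Defs
import Pool.Agent.TH.Rc2

/-!
`RR G V F x = R_F(G)`: the normalised signed number of colourings of `G[V]` without monochromatic
bad set.
-/

set_option autoImplicit false

namespace Pool.Agent.TH

open Finset
open scoped Classical

variable {α : Type*} [DecidableEq α]

/-- no nonempty subset is bad: the allowed colour classes -/
def Gd (G : SimpleGraph α) (V : Finset α) (F : Finset (Finset α)) (S : Finset α) : Prop :=
  ∀ T ⊆ S, T.Nonempty → ¬ Bad G V F T

theorem Gd.mono {G : SimpleGraph α} {V : Finset α} {F : Finset (Finset α)} {S T : Finset α}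
    (h : Gd G V F S) (hT : T ⊆ S) : Gd G V F T := fun U hU hne => h U (hU.trans hT) hne

theorem Gd_dc (G : SimpleGraph α) (V W : Finset α) (F : Finset (Finset α)) :
    DC W (Gd G V F) := fun _ _ _ hT _ h => h.mono hT

theorem Gd_iff {G : SimpleGraph α} {V : Finset α} {F : Finset (Finset α)} (h0 : ∅ ∉ F)
    (S : Finset α) : Gd G V F S ↔ Adm G V S ∧ ¬ Up F S := by
  constructor
  · intro h
    refine ⟨⟨?_, ?_⟩, ?_⟩
    · intro x hx y hy hxy
      exact h S (Finset.Subset.refl _) ⟨x, hx⟩ (Or.inl (fun hs => hs x hx y hy hxy))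
    · intro T hT hne
      by_contra hc
      exact h T hT hne (Or.inr (Or.inl (not_le.1 hc)))
    · rintro ⟨M, hM, hMS⟩
      have hne : M.Nonempty := by
        rw [Finset.nonempty_iff_ne_empty]
        intro h'
        exact h0 (h' ▸ hM)
      exact h M hMS hne (Or.inr (Or.inr hM))
  · rintro ⟨⟨h1, h2⟩, h3⟩ T hT hne hB
    rcases hB with hB | hB | hB
    · exact hB (fun x hx y hy => h1 x (hT hx) y (hT hy))
    · exact absurd (h2 T hT hne) (not_le.2 hB)
    · exact h3 ⟨T, hB, hT⟩

theorem NCF.empty_notMem {G : SimpleGraph α} {V : Finset α} {F : Finset (Finset α)}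
    (h : NCF G V F) : ∅ ∉ F := by
  intro h0
  have := (h.tgt _ h0).card
  simp at this

theorem mkF_empty_notMem {G : SimpleGraph α} {V : Finset α} {E : Finset α → Prop} :
    ∅ ∉ mkF G V E := by
  intro h0
  unfold mkF at h0
  rw [Finset.mem_filter] at h0
  have := h0.2.1.card
  simp at this

/-- `Up` of a family `mkF`: for sets `S ⊆ V` without bad subset from `E` being up-closed -/
theorem up_mkF {G : SimpleGraph α} {V : Finset α} {E : Finset α → Prop} {S : Finset α} :
    Up (mkF G V E) S ↔ ∃ T ⊆ S, Tgt G V T ∧ E T := by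
  classical
  constructor
  · rintro ⟨M, hM, hMS⟩
    unfold mkF at hM
    rw [Finset.mem_filter] at hM
    exact ⟨M, hMS, hM.2.1, hM.2.2.1⟩
  · rintro ⟨T, hT, hT1, hT2⟩
    -- take a minimal one
    have : ∃ M ⊆ T, Tgt G V M ∧ E M ∧ ∀ N, N ⊆ M → Tgt G V N → E N → N = M := by
      induction hn : T.card using Nat.strong_induction_on generalizing T with
      | _ n ih =>
        by_cases h : ∀ N, N ⊆ T → Tgt G V N → E N → N = T
        · exact ⟨T, Finset.Subset.refl _, hT1, hT2, h⟩
        · push Not at h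
          obtain ⟨N, hN, hN1, hN2, hNT⟩ := h
          have hlt : N.card < n := by
            rw [← hn]
            exact Finset.card_lt_card (Finset.ssubset_iff_subset_ne.2 ⟨hN, hNT⟩)
          obtain ⟨M, hM, h1, h2, h3⟩ := ih N.card hlt N (hN.trans hT) hN1 hN2 rfl
          exact ⟨M, hM.trans hN, h1, h2, h3⟩
    obtain ⟨M, hM, h1, h2, h3⟩ := this
    refine ⟨M, ?_, hM.trans hT⟩
    unfold mkF
    rw [Finset.mem_filter, Finset.mem_powerset]
    exact ⟨h1.sub, h1, h2, h3⟩

variable [Fintype α]

/-- the normalised signed count -/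
noncomputable def RR (G : SimpleGraph α) (V : Finset α) (F : Finset (Finset α)) (x : ℝ) : ℝ :=
  Rc x V (Gd G V F)

theorem RR_congr {G G' : SimpleGraph α} {V : Finset α} {F F' : Finset (Finset α)} {x : ℝ}
    (h : ∀ S ⊆ V, S.Nonempty → (Gd G V F S ↔ Gd G' V F' S)) : RR G V F x = RR G' V F' x :=
  Rc_congr h

end Pool.Agent.TH
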