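import Pool.Agent.TH.SplitA
import Pool.Agent.TH.RR

/-!
# Step A: adding a set to the family
-/

set_option autoImplicit false
set_option linter.unusedSectionVars false

namespace Pool.Agent.TH

open Finset
open scoped Classical

variable {α : Type*} [DecidableEq α] {G : SimpleGraph α} {V S B K : Finset α}
  {F : Finset (Finset α)} {t : α}

lemma al_iff_gd (hF : ∀ M ∈ F, M.Nonempty) : Al G V F S ↔ Gd G V F S := by
  rw [al_iff_bad hF]
  rfl

lemma sa_mkF_nonempty {E : Finset α → Prop} : ∀ M ∈ mkF G V E, M.Nonempty := by
  intro M hM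
  have := (mem_filter.1 hM).2.1.card
  exact card_pos.1 (by omega)

theorem stepA [Fintype α] (h2 : TwoC G V) (hF : NCF G V F) (hB : Addb G V F B)
    (hc : NoComp G V F B) (ht : t ∈ B) {x : ℝ} (hx : 1 < x) :
    RR G V F x = RR G V (addF F B) x + (x - 1) ^ (B.card - 1) *
      ∏ K ∈ comps G (V \ B), RR (idn G B t) (insert t K) (idnF G F B t (insert t K)) x := by
  have hBt := hB.free.tgt
  have hBn : B.Nonempty := ⟨t, ht⟩
  have hcard : (comps G (V \ B)).card = B.card := hBt.eq
  have hVeq : V = B ∪ (comps G (V \ B)).biUnion id := by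
    ext y
    simp only [mem_union, mem_biUnion, id]
    constructor
    · intro hy
      by_cases hyB : y ∈ B
      · exact Or.inl hyB
      · obtain ⟨K, hK, hyK⟩ := exists_comp (G := G) (mem_sdiff.2 ⟨hy, hyB⟩)
        exact Or.inr ⟨K, hK, hyK⟩
    · rintro (hy | ⟨K, hK, hy⟩)
      · exact hBt.sub hy
      · exact (mem_sdiff.1 (comps_sub hK hy)).1
  have hne : (comps G (V \ B)).Nonempty := by
    apply card_pos.1
    have := hBt.card
    omega
  have hBK : ∀ K ∈ comps G (V \ B), Disjoint B K := by
    intro K hK
    rw [Finset.disjoint_left]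
    intro y hy hy'
    exact (mem_sdiff.1 (comps_sub hK hy')).2 hy
  have hKK : ∀ K ∈ comps G (V \ B), ∀ K' ∈ comps G (V \ B), K ≠ K' → Disjoint K K' :=
    fun K hK K' hK' h => comps_disjoint hK hK' h
  have hs : Split B (comps G (V \ B)) V (Gd G V F) := by
    constructor
    · intro S hS hd hn h
      rw [← al_iff_gd hF.sanonempty]
      refine al_split_disj h2 hF hB hS hd ?_
      intro K hK hSK
      rw [al_iff_gd hF.sanonempty]
      exact h K hK hSK
    · intro S hS hBS h
      rw [← al_iff_gd hF.sanonempty]
      refine al_split_union h2 hF hB hc hS hBS ?_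
      intro K hK
      rw [al_iff_gd hF.sanonempty]
      exact h K hK
  have key := Rc_add x (by linarith) (by linarith) B t ht (comps G (V \ B)) V hVeq hne hBK hKK
    (Gd G V F) (Gd_dc G V V F) hs
  unfold RR
  rw [key, hcard]
  congr 1
  · apply Rc_congr
    intro S hS hn
    have hF' : ∀ M ∈ addF F B, M.Nonempty := by
      intro M hM
      rcases mem_insert.1 hM with rfl | hM
      · exact hBn
      · exact hF.sanonempty M (mem_filter.1 hM).1
    rw [← al_iff_gd hF', ← al_iff_gd hF.sanonempty, al_addF]
  · have hsign : (-1 : ℝ) ^ (B.card + B.card) = 1 := by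
      rw [← two_mul, pow_mul]; norm_num
    rw [hsign, one_mul]
    congr 1
    apply prod_congr rfl
    intro K hK
    apply Rc_congr
    intro S hS hn
    rw [← al_iff_gd (F := idnF G F B t (insert t K)) sa_mkF_nonempty]
    have htK := pc_notMem h2.conn hBt ht hK
    by_cases htS : t ∈ S
    · have hSK : S.erase t ⊆ K := by
        intro y hy
        obtain ⟨h1, h3⟩ := mem_erase.1 hy
        exact (mem_insert.1 (hS h3)).resolve_left h1
      have e1 : S = insert t (S.erase t) := (insert_erase htS).symm
      have e2 : B ∪ S = B ∪ S.erase t := by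
        ext y
        simp only [mem_union, mem_erase]
        constructor
        · rintro (h | h)
          · exact Or.inl h
          · by_cases hyt : y = t
            · rw [hyt]; exact Or.inl ht
            · exact Or.inr ⟨hyt, h⟩
        · rintro (h | h)
          · exact Or.inl h
          · exact Or.inr h.2
      have e3 : Dc B t (Gd G V F) S ↔ Gd G V F (B ∪ S) :=
        ⟨fun h => h.1 htS, fun h => ⟨fun _ => h, fun h' => absurd htS h'⟩⟩
      rw [e3, e2, ← al_iff_gd hF.sanonempty, ← al_piece_mem h2.conn hBt ht hK hF hB.free.nup hSK,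
        ← e1]
    · have hSK : S ⊆ K := by
        intro y hy
        refine (mem_insert.1 (hS hy)).resolve_left ?_
        rintro rfl
        exact htS hy
      have e3 : Dc B t (Gd G V F) S ↔ Gd G V F S :=
        ⟨fun h => h.2 htS, fun h => ⟨fun h' => absurd h' htS, fun _ => h⟩⟩
      rw [e3, ← al_iff_gd hF.sanonempty, ← al_piece_notMem h2.conn hBt ht hK hF hSK]

end Pool.Agent.TH
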