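import Pool.Agent.TH.DelCon
import Pool.Agent.TH.RR

/-!
# Step B: deletion-contraction for `RR`
-/

set_option autoImplicit false

namespace Pool.Agent.TH

open Finset
open scoped Classical

variable {α : Type*} [DecidableEq α] [Fintype α] {G : SimpleGraph α} {V : Finset α}
  {F : Finset (Finset α)} {u v : α}

theorem stepB (h3 : ThreeC G V) (hF : NCF G V F)
    (hob : ∀ D, Free G V F D → u ∈ D ∨ v ∈ D) (hu : u ∈ V) (hv : v ∈ V)
    (huv : G.Adj u v) {x : ℝ} (hx : 1 < x) :
    RR G V F x = RR (delE G u v) V (delF G V F u v) x +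
      RR (idn G {u, v} u) (V.erase v) (idnF G F {u, v} u (V.erase v)) x := by
  have hd : ∅ ∉ delF G V F u v := mkF_empty_notMem
  have hc : ∅ ∉ idnF G F {u, v} u (V.erase v) := mkF_empty_notMem
  have hf : ∅ ∉ F := hF.empty_notMem
  unfold RR
  apply Rc_delcon x (by linarith) (by linarith : x ≠ 1) V u v hu hv huv.ne _ _ _ (Gd_dc _ _ _ _)
  · intro S hS _
    rw [Gd_iff hf, Gd_iff hd]
    exact al_del_iff h3 hF hob hu hv huv hS
  · intro S hS huS _
    rw [Gd_iff hc, Gd_iff hd]
    exact al_con_iff_del h3 hF hob hu hv huv hS huS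
  · intro S hS huS
    rw [Gd_iff hc, Gd_iff hd]
    exact al_con_iff_del' h3 hF hob hu hv huv hS huS

end Pool.Agent.TH
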