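import Pool.Agent.TH.Torso

/-!
# The combinatorial half of step C (sealed 2-cuts)

The allowed colour classes are `Adm G V S ∧ ¬ Up F S`.
-/

set_option autoImplicit false

namespace Pool.Agent.TH

open Finset
open scoped Classical

variable {α : Type*} [DecidableEq α]

section
variable {G : SimpleGraph α} {V K U S : Finset α} {F : Finset (Finset α)} {p q : α}

/-- the pair of a sealed 2-cut is not allowed -/
theorem seal_not_allowed (hpq : p ≠ q) (hs : Seal G V F p q) (hp : p ∈ S) (hq : q ∈ S) :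
    ¬ (Adm G V S ∧ ¬ Up F S) := by
  rintro ⟨hA, hU⟩
  have hsub : ({p, q} : Finset α) ⊆ S := by
    intro z hz
    rw [Finset.mem_insert, Finset.mem_singleton] at hz
    rcases hz with rfl | rfl
    · exact hp
    · exact hq
  rcases hs with hs | hs | hs
  · exact hA.1 p hp q hq hs
  · have := hA.2 {p, q} hsub ⟨p, by simp⟩
    rw [Finset.card_pair hpq] at this
    omega
  · exact hU ⟨_, hs, hsub⟩

/-- on one side the allowed sets of `G` and of the torso agree -/
theorem TSide.al_iff (h : TSide G V p q U) (hs : Seal G V F p q) (hS : S ⊆ U) :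
    (Adm G V S ∧ ¬ Up F S) ↔ (Adm (addE G p q) U S ∧ ¬ Up (torF F U p q) S) := by
  by_cases hpq : p ∈ S ∧ q ∈ S
  · constructor
    · intro hh
      exact absurd hh (seal_not_allowed h.ne hs hpq.1 hpq.2)
    · intro hh
      exact absurd hpq (tor_not_both_of_stb h.ne hh.1.1)
  · rw [h.adm_iff hS hpq]
    refine and_congr_right (fun _ => not_congr ?_)
    constructor
    · rintro ⟨M, hM, hMS⟩
      refine ⟨M, ?_, hMS⟩
      rw [torF, Finset.mem_erase, Finset.mem_filter]
      refine ⟨?_, hM, hMS.trans hS⟩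
      rintro rfl
      exact hpq ⟨hMS (by simp), hMS (by simp)⟩
    · rintro ⟨M, hM, hMS⟩
      rw [torF, Finset.mem_erase, Finset.mem_filter] at hM
      exact ⟨M, hM.2.1, hMS⟩

/-- a component of `V \ S` without `p` and `q` inside `K` is a component of `V \ (S ∩ (K ∪ {p,q}))` -/
theorem comp_side_in (hc : Cut2 G V p q) (hK : K ∈ comps G (V \ {p, q})) (hS : S ⊆ V)
    {C : Finset α} (hC : C ∈ comps G (V \ S)) (hCK : C ⊆ K) :
    C ∈ comps G (V \ (S ∩ (K ∪ {p, q}))) := by
  obtain ⟨hCs, hCc, hCm⟩ := mem_comps.1 hC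
  obtain ⟨hKs, hKc, hKm⟩ := mem_comps.1 hK
  refine mem_comps.2 ⟨?_, hCc, ?_⟩
  · intro z hz
    have := hCs hz
    rw [Finset.mem_sdiff] at this ⊢
    exact ⟨this.1, fun h => this.2 (Finset.mem_inter.1 h).1⟩
  · intro x hx y hy hxy
    rw [Finset.mem_sdiff, Finset.mem_inter, Finset.mem_union] at hy
    by_cases hyS : y ∈ S
    · exfalso
      have hn : ¬ (y ∈ K ∨ y ∈ ({p, q} : Finset α)) := fun h => hy.2 ⟨hyS, h⟩
      rw [not_or] at hn
      exact hn.1 (hKm x (hCK hx) y (Finset.mem_sdiff.2 ⟨hy.1, hn.2⟩) hxy)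
    · exact hCm x hx y (Finset.mem_sdiff.2 ⟨hy.1, hyS⟩) hxy

theorem comp_side_out (hc : Cut2 G V p q) (hK : K ∈ comps G (V \ {p, q})) (hS : S ⊆ V)
    {C : Finset α} (hC : C ∈ comps G (V \ S)) (hp : p ∉ C) (hq : q ∉ C) (hCK : Disjoint C K) :
    C ∈ comps G (V \ (S ∩ (V \ K))) := by
  obtain ⟨hCs, hCc, hCm⟩ := mem_comps.1 hC
  obtain ⟨hKs, hKc, hKm⟩ := mem_comps.1 hK
  refine mem_comps.2 ⟨?_, hCc, ?_⟩
  · intro z hz
    have := hCs hz
    rw [Finset.mem_sdiff] at this ⊢
    exact ⟨this.1, fun h => this.2 (Finset.mem_inter.1 h).1⟩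
  · intro x hx y hy hxy
    rw [Finset.mem_sdiff, Finset.mem_inter, Finset.mem_sdiff] at hy
    by_cases hyS : y ∈ S
    · exfalso
      have hyK : y ∈ K := by
        by_contra h
        exact hy.2 ⟨hyS, hy.1, h⟩
      have hxV := hCs hx
      rw [Finset.mem_sdiff] at hxV
      have := hKm y hyK x (Finset.mem_sdiff.2 ⟨hxV.1, by
        simp only [Finset.mem_insert, Finset.mem_singleton]
        rintro (h | h)
        · exact hp (h ▸ hx)
        · exact hq (h ▸ hx)⟩) hxy.symm
      exact Finset.disjoint_left.1 hCK hx this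
    · exact hCm x hx y (Finset.mem_sdiff.2 ⟨hy.1, hyS⟩) hxy

/-- the counting bound at a 2-cut -/
theorem cc_side_le (hc : Cut2 G V p q) (hK : K ∈ comps G (V \ {p, q})) (hS : S ⊆ V)
    (hpq : ¬ (p ∈ S ∧ q ∈ S)) :
    cc G (V \ S) + 2 ≤ cc G (V \ (S ∩ (K ∪ {p, q}))) + cc G (V \ (S ∩ (V \ K))) +
      (({p, q} : Finset α) \ S).card := by
  obtain ⟨hKs, hKc, hKm⟩ := mem_comps.1 hK
  set A := (comps G (V \ (S ∩ (K ∪ {p, q})))).filter (fun C => Disjoint C {p, q}) with hA
  set B := (comps G (V \ (S ∩ (V \ K)))).filter (fun C => Disjoint C {p, q}) with hB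
  set P := (comps G (V \ S)).filter (fun C => ¬ Disjoint C {p, q}) with hP
  have hsub : comps G (V \ S) ⊆ (A ∪ B) ∪ P := by
    intro C hC
    rw [Finset.mem_union, Finset.mem_union]
    by_cases hd : Disjoint C {p, q}
    · left
      have hpC : p ∉ C := fun h => Finset.disjoint_left.1 hd h (by simp)
      have hqC : q ∉ C := fun h => Finset.disjoint_left.1 hd h (by simp)
      obtain ⟨hCs, hCc, hCm⟩ := mem_comps.1 hC
      have hCV : C ⊆ V \ {p, q} := by
        intro z hz
        have := hCs hz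
        rw [Finset.mem_sdiff] at this ⊢
        exact ⟨this.1, fun h => Finset.disjoint_left.1 hd hz h⟩
      obtain ⟨D, hD, hCD⟩ := conn_sub_comp hCc hCV
      by_cases hDK : D = K
      · left
        rw [hA, Finset.mem_filter]
        exact ⟨comp_side_in hc hK hS hC (hDK ▸ hCD), hd⟩
      · right
        rw [hB, Finset.mem_filter]
        refine ⟨comp_side_out hc hK hS hC hpC hqC ?_, hd⟩
        rw [Finset.disjoint_left]
        intro z hz hzK
        exact hDK (comp_unique hD hK (hCD hz) hzK)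
    · right
      rw [hP, Finset.mem_filter]
      exact ⟨hC, hd⟩
  have h1 : cc G (V \ S) ≤ A.card + B.card + P.card := by
    unfold cc
    refine (Finset.card_le_card hsub).trans ((Finset.card_union_le _ _).trans ?_)
    exact Nat.add_le_add_right (Finset.card_union_le _ _) _
  -- the components which meet `{p, q}`
  have hPle : P.card ≤ (({p, q} : Finset α) \ S).card := by
    have hex : ∀ C ∈ P, ∃ z ∈ (({p, q} : Finset α) \ S), z ∈ C := by
      intro C hC
      rw [hP, Finset.mem_filter] at hC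
      obtain ⟨hC1, hC2⟩ := hC
      rw [Finset.not_disjoint_iff] at hC2
      obtain ⟨z, hz, hz'⟩ := hC2
      have := (mem_comps.1 hC1).1 hz
      exact ⟨z, Finset.mem_sdiff.2 ⟨hz', (Finset.mem_sdiff.1 this).2⟩, hz⟩
    choose f hf1 hf2 using hex
    apply Finset.card_le_card_of_injOn (fun C => if h : C ∈ P then f C h else p)
    · intro C hC
      have hC' : C ∈ P := hC
      simp only [dif_pos hC']
      exact hf1 C hC'
    · intro C hC D hD hCD
      have hC' : C ∈ P := hC
      have hD' : D ∈ P := hD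
      simp only [dif_pos hC', dif_pos hD'] at hCD
      have h2 := hf2 C hC'
      rw [hCD] at h2
      rw [hP, Finset.mem_filter] at hC' hD'
      exact comp_unique hC'.1 hD'.1 h2 (hf2 D hD)
  -- in each of the two other graphs one component meets `{p, q}`
  have hside : ∀ T : Finset α, ¬ (p ∈ T ∧ q ∈ T) →
      ((comps G (V \ T)).filter (fun C => Disjoint C {p, q})).card + 1 ≤ cc G (V \ T) := by
    intro T hT
    have : ∃ z ∈ ({p, q} : Finset α), z ∈ V \ T := by
      by_cases hpT : p ∈ T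
      · exact ⟨q, by simp, Finset.mem_sdiff.2 ⟨hc.hq, fun h => hT ⟨hpT, h⟩⟩⟩
      · exact ⟨p, by simp, Finset.mem_sdiff.2 ⟨hc.hp, hpT⟩⟩
    obtain ⟨z, hz, hzT⟩ := this
    obtain ⟨D, hD, hzD⟩ := exists_comp (G := G) hzT
    unfold cc
    have hlt : (comps G (V \ T)).filter (fun C => Disjoint C {p, q}) ⊂ comps G (V \ T) := by
      rw [Finset.filter_ssubset]
      exact ⟨D, hD, fun h => Finset.disjoint_left.1 h hzD hz⟩
    exact Finset.card_lt_card hlt
  have hA' := hside (S ∩ (K ∪ {p, q})) (fun h => hpq ⟨(Finset.mem_inter.1 h.1).1,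
    (Finset.mem_inter.1 h.2).1⟩)
  have hB' := hside (S ∩ (V \ K)) (fun h => hpq ⟨(Finset.mem_inter.1 h.1).1,
    (Finset.mem_inter.1 h.2).1⟩)
  rw [← hA] at hA'
  rw [← hB] at hB'
  omega

/-- admissible on both sides implies admissible -/
theorem adm_of_sides (h2 : TwoC G V) (hc : Cut2 G V p q) (hK : K ∈ comps G (V \ {p, q}))
    (hS : S ⊆ V) (hpq : ¬ (p ∈ S ∧ q ∈ S)) (h1 : Adm G V (S ∩ (K ∪ {p, q})))
    (h3 : Adm G V (S ∩ (V \ K))) : Adm G V S := by
  obtain ⟨hKs, hKc, hKm⟩ := mem_comps.1 hK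
  have hpK : p ∉ K := fun h => (Finset.mem_sdiff.1 (hKs h)).2 (by simp)
  have hqK : q ∉ K := fun h => (Finset.mem_sdiff.1 (hKs h)).2 (by simp)
  have hKV : K ⊆ V := hKs.trans Finset.sdiff_subset
  have hpV := hc.hp
  have hqV := hc.hq
  refine ⟨?_, ?_⟩
  · intro x hx y hy hxy
    by_cases hxy1 : x ∈ K ∪ {p, q} ∧ y ∈ K ∪ {p, q}
    · exact h1.1 x (Finset.mem_inter.2 ⟨hx, hxy1.1⟩) y (Finset.mem_inter.2 ⟨hy, hxy1.2⟩) hxy
    · by_cases hxK : x ∈ K
      · apply hxy1
        refine ⟨Finset.mem_union_left _ hxK, ?_⟩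
        by_cases hyp : y ∈ ({p, q} : Finset α)
        · exact Finset.mem_union_right _ hyp
        · exact Finset.mem_union_left _ (hKm x hxK y (Finset.mem_sdiff.2 ⟨hS hy, hyp⟩) hxy)
      · by_cases hyK : y ∈ K
        · apply hxy1
          refine ⟨?_, Finset.mem_union_left _ hyK⟩
          by_cases hxp : x ∈ ({p, q} : Finset α)
          · exact Finset.mem_union_right _ hxp
          · exact absurd (hKm y hyK x (Finset.mem_sdiff.2 ⟨hS hx, hxp⟩) hxy.symm) hxK
        · exact h3.1 x (Finset.mem_inter.2 ⟨hx, Finset.mem_sdiff.2 ⟨hS hx, hxK⟩⟩) y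
            (Finset.mem_inter.2 ⟨hy, Finset.mem_sdiff.2 ⟨hS hy, hyK⟩⟩) hxy
  · intro T hTS hTn
    have hTV : T ⊆ V := hTS.trans hS
    have hTpq : ¬ (p ∈ T ∧ q ∈ T) := fun h => hpq ⟨hTS h.1, hTS h.2⟩
    by_cases hn1 : (T ∩ (K ∪ {p, q})).Nonempty
    · by_cases hn3 : (T ∩ (V \ K)).Nonempty
      · have e1 := h1.2 (T ∩ (K ∪ {p, q})) (Finset.inter_subset_inter_right hTS) hn1
        have e3 := h3.2 (T ∩ (V \ K)) (Finset.inter_subset_inter_right hTS) hn3
        have e := cc_side_le hc hK hTV hTpq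
        have hcard : (T ∩ (K ∪ {p, q})).card + (T ∩ (V \ K)).card = T.card +
            (T ∩ {p, q}).card := by
          have hu : (T ∩ (K ∪ {p, q})) ∪ (T ∩ (V \ K)) = T := by
            ext z
            simp only [Finset.mem_union, Finset.mem_inter, Finset.mem_sdiff]
            constructor
            · rintro (⟨h, _⟩ | ⟨h, _⟩) <;> exact h
            · intro h
              by_cases hzK : z ∈ K
              · exact Or.inl ⟨h, Or.inl hzK⟩
              · exact Or.inr ⟨h, hTV h, hzK⟩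
          have hi : (T ∩ (K ∪ {p, q})) ∩ (T ∩ (V \ K)) = T ∩ {p, q} := by
            ext z
            simp only [Finset.mem_union, Finset.mem_inter, Finset.mem_sdiff]
            constructor
            · rintro ⟨⟨h, h' | h'⟩, _, _, h''⟩
              · exact absurd h' h''
              · exact ⟨h, h'⟩
            · rintro ⟨h, h'⟩
              refine ⟨⟨h, Or.inr h'⟩, h, hTV h, ?_⟩
              rw [Finset.mem_insert, Finset.mem_singleton] at h'
              rcases h' with rfl | rfl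
              · exact hpK
              · exact hqK
          have := Finset.card_union_add_card_inter (T ∩ (K ∪ {p, q})) (T ∩ (V \ K))
          rw [hu, hi] at this
          omega
        have hcard2 : (T ∩ {p, q}).card + (({p, q} : Finset α) \ T).card = 2 := by
          rw [Finset.inter_comm, ← Finset.card_pair hc.ne]
          exact Finset.card_inter_add_card_sdiff _ _
        omega
      · -- `T ⊆ K`
        rw [Finset.not_nonempty_iff_eq_empty] at hn3
        have hTK : T ∩ (K ∪ {p, q}) = T := by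
          rw [Finset.inter_eq_left]
          intro z hz
          by_contra hzz
          have : z ∈ T ∩ (V \ K) := Finset.mem_inter.2 ⟨hz, Finset.mem_sdiff.2 ⟨hTV hz,
            fun h => hzz (Finset.mem_union_left _ h)⟩⟩
          rw [hn3] at this
          exact absurd this (Finset.notMem_empty _)
        have := h1.2 T (by
          intro z hz
          have h' := hz
          rw [← hTK, Finset.mem_inter] at h'
          exact Finset.mem_inter.2 ⟨hTS hz, h'.2⟩) hTn
        exact this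
    · rw [Finset.not_nonempty_iff_eq_empty] at hn1
      have hTK : T ⊆ S ∩ (V \ K) := by
        intro z hz
        refine Finset.mem_inter.2 ⟨hTS hz, Finset.mem_sdiff.2 ⟨hTV hz, fun h => ?_⟩⟩
        have : z ∈ T ∩ (K ∪ {p, q}) := Finset.mem_inter.2 ⟨hz, Finset.mem_union_left _ h⟩
        rw [hn1] at this
        exact absurd this (Finset.notMem_empty _)
      exact h3.2 T hTK hTn

/-- allowed on both sides implies allowed -/
theorem al_of_sides (h2 : TwoC G V) (hc : Cut2 G V p q) (hK : K ∈ comps G (V \ {p, q}))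
    (hs : Seal G V F p q) (hcomp : ∀ M ∈ F, M ⊆ K ∪ {p, q} ∨ M ⊆ V \ K) (hS : S ⊆ V)
    (h1 : Adm G V (S ∩ (K ∪ {p, q})) ∧ ¬ Up F (S ∩ (K ∪ {p, q})))
    (h3 : Adm G V (S ∩ (V \ K)) ∧ ¬ Up F (S ∩ (V \ K))) : Adm G V S ∧ ¬ Up F S := by
  have hpq : ¬ (p ∈ S ∧ q ∈ S) := by
    rintro ⟨hp, hq⟩
    exact seal_not_allowed hc.ne hs (S := S ∩ (K ∪ {p, q}))
      (Finset.mem_inter.2 ⟨hp, by simp⟩) (Finset.mem_inter.2 ⟨hq, by simp⟩) h1
  refine ⟨adm_of_sides h2 hc hK hS hpq h1.1 h3.1, ?_⟩
  rintro ⟨M, hM, hMS⟩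
  rcases hcomp M hM with h | h
  · exact h1.2 ⟨M, hM, Finset.subset_inter hMS h⟩
  · exact h3.2 ⟨M, hM, Finset.subset_inter hMS h⟩

end

end Pool.Agent.TH
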