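import Pool.Agent.TH.RR
import Pool.Agent.TH.StepCComb

/-!
# Step C: the product formula at a sealed 2-cut
-/

set_option autoImplicit false

namespace Pool.Agent.TH

open Finset
open scoped Classical

variable {α : Type*} [DecidableEq α] [Fintype α]

theorem torF_empty_notMem {F : Finset (Finset α)} {U : Finset α} {p q : α} (h : ∅ ∉ F) :
    ∅ ∉ torF F U p q := by
  intro h0
  rw [torF, Finset.mem_erase, Finset.mem_filter] at h0
  exact h h0.2.1

theorem stepC {G : SimpleGraph α} {V K : Finset α} {F : Finset (Finset α)} {p q : α}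
    (h2 : TwoC G V) (hF : NCF G V F) (hc : Cut2 G V p q) (hs : Seal G V F p q)
    (hK : K ∈ comps G (V \ {p, q})) (hcomp : ∀ M ∈ F, M ⊆ K ∪ {p, q} ∨ M ⊆ V \ K)
    {x : ℝ} (hx : 1 < x) :
    RR G V F x = RR (addE G p q) (K ∪ {p, q}) (torF F (K ∪ {p, q}) p q) x *
      RR (addE G p q) (V \ K) (torF F (V \ K) p q) x := by
  have h0 := hF.empty_notMem
  have hx0 : x ≠ 0 := by linarith
  have hx1 : x ≠ 1 := by linarith
  obtain ⟨hKs, hKc, hKm⟩ := mem_comps.1 hK
  have hpK : p ∉ K := fun h => (Finset.mem_sdiff.1 (hKs h)).2 (by simp)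
  have hqK : q ∉ K := fun h => (Finset.mem_sdiff.1 (hKs h)).2 (by simp)
  have hKV : K ⊆ V := hKs.trans Finset.sdiff_subset
  have hin := hc.side_in h2 hK
  have hout := hc.side_out h2 hK
  have hempty : Adm G V ∅ ∧ ¬ Up F ∅ := by
    refine ⟨⟨?_, ?_⟩, ?_⟩
    · intro a ha
      exact absurd ha (Finset.notMem_empty _)
    · intro T hT hTn
      rw [Finset.subset_empty] at hT
      exact absurd hT hTn.ne_empty
    · rintro ⟨M, hM, hM0⟩
      rw [Finset.subset_empty] at hM0
      exact h0 (hM0 ▸ hM)
  have key := Rc_two x hx0 hx1 V (K ∪ {p, q}) (V \ K) p q hc.ne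
    (by
      ext z
      simp only [Finset.mem_union, Finset.mem_sdiff]
      constructor
      · intro hz
        by_cases hzK : z ∈ K
        · exact Or.inl (Or.inl hzK)
        · exact Or.inr ⟨hz, hzK⟩
      · rintro (h | h)
        · exact hin.sub (Finset.mem_union.2 h)
        · exact h.1)
    (by
      ext z
      simp only [Finset.mem_union, Finset.mem_inter, Finset.mem_sdiff]
      constructor
      · rintro ⟨h | h, _, h'⟩
        · exact absurd h h'
        · exact h
      · intro h
        refine ⟨Or.inr h, hc.tpq_sub h, ?_⟩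
        rw [Finset.mem_insert, Finset.mem_singleton] at h
        rcases h with rfl | rfl
        · exact hpK
        · exact hqK)
    (Gd G V F)
    (by
      rw [Gd_iff h0]
      exact seal_not_allowed hc.ne hs (by simp) (by simp))
    (by
      intro S hS _ h1 h3
      rw [Gd_iff h0] at h1 h3 ⊢
      refine al_of_sides h2 hc hK hs hcomp hS ?_ ?_
      · rcases Finset.eq_empty_or_nonempty (S ∩ (K ∪ {p, q})) with he | hne
        · rw [he]; exact hempty
        · exact h1 hne
      · rcases Finset.eq_empty_or_nonempty (S ∩ (V \ K)) with he | hne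
        · rw [he]; exact hempty
        · exact h3 hne)
  unfold RR
  rw [key]
  congr 1
  · apply Rc_congr
    intro S hS _
    rw [Gd_iff h0, Gd_iff (torF_empty_notMem h0)]
    exact hin.al_iff hs hS
  · apply Rc_congr
    intro S hS _
    rw [Gd_iff h0, Gd_iff (torF_empty_notMem h0)]
    exact hout.al_iff hs hS

end Pool.Agent.TH
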