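import Pool.Agent.TH.Comp

/-!
# Torsos at a sealed 2-cut (module J)
-/

set_option autoImplicit false

namespace Pool.Agent.TH

open Finset
open scoped Classical

variable {α : Type*} [DecidableEq α]

/-- Comparison of component counts: a map of vertex sets that preserves and reflects reachability
and meets every component is a bijection on components. -/
theorem tor_cc_eq_of_map {G H : SimpleGraph α} {W W' : Finset α} (φ : α → α)
    (h1 : ∀ x ∈ W, φ x ∈ W') (h2 : ∀ x ∈ W, ∀ y ∈ W, Rch G W x y ↔ Rch H W' (φ x) (φ y))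
    (h3 : ∀ y ∈ W', ∃ x ∈ W, Rch H W' (φ x) y) : cc G W = cc H W' := by
  unfold cc
  apply Finset.card_bij (fun C _ => W'.filter (fun z => ∃ x ∈ C, Rch H W' (φ x) z))
  · intro C hC
    rw [comps, Finset.mem_image] at hC
    obtain ⟨x, hx, rfl⟩ := hC
    rw [comps, Finset.mem_image]
    refine ⟨φ x, h1 x hx, ?_⟩
    ext z
    simp only [Finset.mem_filter]
    constructor
    · rintro ⟨hz, hr⟩
      exact ⟨hz, x, ⟨hx, Rch.refl hx⟩, hr⟩
    · rintro ⟨hz, y, ⟨hy, hxy⟩, hr⟩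
      exact ⟨hz, Rch.trans ((h2 x hx y hy).1 hxy) hr⟩
  · intro C hC D hD hCD
    rw [comps, Finset.mem_image] at hC hD
    obtain ⟨x, hx, rfl⟩ := hC
    obtain ⟨y, hy, rfl⟩ := hD
    have hmem : φ y ∈ W'.filter (fun z => ∃ a ∈ W.filter (fun b => Rch G W x b), Rch H W' (φ a) z) := by
      rw [hCD]
      simp only [Finset.mem_filter]
      exact ⟨h1 y hy, y, ⟨hy, Rch.refl hy⟩, Rch.refl (h1 y hy)⟩
    simp only [Finset.mem_filter] at hmem
    obtain ⟨_, a, ⟨ha, hxa⟩, hr⟩ := hmem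
    have hxy : Rch G W x y := Rch.trans hxa ((h2 a ha y hy).2 hr)
    ext z
    simp only [Finset.mem_filter]
    constructor
    · rintro ⟨hz, hr'⟩
      exact ⟨hz, Rch.trans (Rch.symm hxy) hr'⟩
    · rintro ⟨hz, hr'⟩
      exact ⟨hz, Rch.trans hxy hr'⟩
  · intro D hD
    rw [comps, Finset.mem_image] at hD
    obtain ⟨y, hy, rfl⟩ := hD
    obtain ⟨x, hx, hxy⟩ := h3 y hy
    refine ⟨W.filter (fun z => Rch G W x z), ?_, ?_⟩
    · rw [comps, Finset.mem_image]
      exact ⟨x, hx, rfl⟩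
    · ext z
      simp only [Finset.mem_filter]
      constructor
      · rintro ⟨hz, a, ⟨ha, hxa⟩, hr⟩
        exact ⟨hz, Rch.trans (Rch.symm hxy) (Rch.trans ((h2 x hx a ha).1 hxa) hr)⟩
      · rintro ⟨hz, hr⟩
        exact ⟨hz, x, ⟨hx, Rch.refl hx⟩, Rch.trans hxy hr⟩

/-- Induction principle: to transfer reachability along a map it suffices to look at edges. -/
theorem Rch.tmap {G H : SimpleGraph α} {W W' : Finset α} (φ : α → α)
    (h1 : ∀ x ∈ W, φ x ∈ W')
    (h2 : ∀ x ∈ W, ∀ y ∈ W, G.Adj x y → Rch H W' (φ x) (φ y)) {x y : α}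
    (h : Rch G W x y) : Rch H W' (φ x) (φ y) := by
  obtain ⟨hx, hy, hr⟩ := h
  clear hy
  induction hr with
  | refl => exact Rch.refl (h1 x hx)
  | tail _ hbc ih => exact Rch.trans ih (h2 _ hbc.2.1 _ hbc.2.2 hbc.1)

theorem tor_addE_adj {G : SimpleGraph α} {p q x y : α} :
    (addE G p q).Adj x y ↔ x ≠ y ∧ (G.Adj x y ∨ (x = p ∧ y = q) ∨ (x = q ∧ y = p)) := by
  unfold addE
  rw [SimpleGraph.fromRel_adj]
  constructor
  · rintro ⟨hne, (h | ⟨h1, h2⟩) | (h | ⟨h1, h2⟩)⟩
    · exact ⟨hne, Or.inl h⟩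
    · exact ⟨hne, Or.inr (Or.inl ⟨h1, h2⟩)⟩
    · exact ⟨hne, Or.inl h.symm⟩
    · exact ⟨hne, Or.inr (Or.inr ⟨h2, h1⟩)⟩
  · rintro ⟨hne, h | ⟨h1, h2⟩ | ⟨h1, h2⟩⟩
    · exact ⟨hne, Or.inl (Or.inl h)⟩
    · exact ⟨hne, Or.inl (Or.inr ⟨h1, h2⟩)⟩
    · exact ⟨hne, Or.inr (Or.inr ⟨h2, h1⟩)⟩

theorem tor_addE_stb {G : SimpleGraph α} {p q : α} {S : Finset α} (hS : ¬ (p ∈ S ∧ q ∈ S)) :
    Stb (addE G p q) S ↔ Stb G S := by
  constructor
  · intro h x hx y hy hxy
    exact h x hx y hy (tor_addE_adj.2 ⟨hxy.ne, Or.inl hxy⟩)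
  · intro h x hx y hy hxy
    rcases (tor_addE_adj.1 hxy).2 with h' | ⟨rfl, rfl⟩ | ⟨rfl, rfl⟩
    · exact h x hx y hy h'
    · exact hS ⟨hx, hy⟩
    · exact hS ⟨hy, hx⟩

theorem tor_not_both_of_stb {G : SimpleGraph α} {p q : α} {S : Finset α} (hpq : p ≠ q)
    (h : Stb (addE G p q) S) : ¬ (p ∈ S ∧ q ∈ S) := by
  rintro ⟨hp, hq⟩
  exact h p hp q hq (tor_addE_adj.2 ⟨hpq, Or.inr (Or.inl ⟨rfl, rfl⟩)⟩)

/-- `U` is a side with the 2-cut `{p, q}`: there is no edge between the rest `V \ U` and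
`U \ {p, q}`, and the rest together with `p` (resp. `q`) is connected. -/
structure TSide (G : SimpleGraph α) (V : Finset α) (p q : α) (U : Finset α) : Prop where
  ne : p ≠ q
  hp : p ∈ U
  hq : q ∈ U
  sub : U ⊆ V
  out : (V \ U).Nonempty
  cp : Conn G (insert p (V \ U))
  cq : Conn G (insert q (V \ U))
  cl : ∀ x ∈ V \ U, ∀ y ∈ U, G.Adj x y → y = p ∨ y = q

section side

variable {G : SimpleGraph α} {V U S : Finset α} {p q a b x y : α}

theorem TSide.rch_p (h : TSide G V p q U) (hS : S ⊆ U) (hp : p ∉ S) {o : α} (ho : o ∈ V \ U) :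
    Rch G (V \ S) o p := by
  refine Rch.mono ?_ (h.cp.2 o (Finset.mem_insert_of_mem ho) p (Finset.mem_insert_self _ _))
  intro z hz
  rw [Finset.mem_insert] at hz
  rcases hz with rfl | hz
  · exact Finset.mem_sdiff.2 ⟨h.sub h.hp, hp⟩
  · rw [Finset.mem_sdiff] at hz ⊢
    exact ⟨hz.1, fun hzS => hz.2 (hS hzS)⟩

theorem TSide.rch_q (h : TSide G V p q U) (hS : S ⊆ U) (hq : q ∉ S) {o : α} (ho : o ∈ V \ U) :
    Rch G (V \ S) o q := by
  refine Rch.mono ?_ (h.cq.2 o (Finset.mem_insert_of_mem ho) q (Finset.mem_insert_self _ _))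
  intro z hz
  rw [Finset.mem_insert] at hz
  rcases hz with rfl | hz
  · exact Finset.mem_sdiff.2 ⟨h.sub h.hq, hq⟩
  · rw [Finset.mem_sdiff] at hz ⊢
    exact ⟨hz.1, fun hzS => hz.2 (hS hzS)⟩

theorem TSide.rch_iff (h : TSide G V p q U) (hS : S ⊆ U) (hpq : ¬ (p ∈ S ∧ q ∈ S))
    (hx : x ∈ U \ S) (hy : y ∈ U \ S) : Rch (addE G p q) (U \ S) x y ↔ Rch G (V \ S) x y := by
  have hUV : U \ S ⊆ V \ S := Finset.sdiff_subset_sdiff h.sub (subset_refl _)
  constructor
  · intro hr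
    have := Rch.tmap (G := addE G p q) (H := G) (W := U \ S) (W' := V \ S) id (fun z hz => hUV hz)
      (by
        intro u hu v hv huv
        have huV := hUV hu
        have hvV := hUV hv
        rcases (tor_addE_adj.1 huv).2 with h' | ⟨rfl, rfl⟩ | ⟨rfl, rfl⟩
        · exact Rch.of_adj huV hvV h'
        · obtain ⟨o, ho⟩ := h.out
          exact Rch.trans (Rch.symm (h.rch_p hS (Finset.mem_sdiff.1 hu).2 ho))
            (h.rch_q hS (Finset.mem_sdiff.1 hv).2 ho)
        · obtain ⟨o, ho⟩ := h.out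
          exact Rch.trans (Rch.symm (h.rch_q hS (Finset.mem_sdiff.1 hu).2 ho))
            (h.rch_p hS (Finset.mem_sdiff.1 hv).2 ho)) hr
    simpa using this
  · intro hr
    have hmem : ∀ z ∈ V \ S, (if z ∈ U then z else if p ∈ S then q else p) ∈ U \ S := by
      intro z hz
      by_cases hzU : z ∈ U
      · rw [if_pos hzU]
        exact Finset.mem_sdiff.2 ⟨hzU, (Finset.mem_sdiff.1 hz).2⟩
      · rw [if_neg hzU]
        by_cases hpS : p ∈ S
        · rw [if_pos hpS]
          exact Finset.mem_sdiff.2 ⟨h.hq, fun hqS => hpq ⟨hpS, hqS⟩⟩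
        · rw [if_neg hpS]
          exact Finset.mem_sdiff.2 ⟨h.hp, hpS⟩
    have key : ∀ u v : α, u ∈ V \ S → u ∉ U → v ∈ V \ S → v ∈ U → G.Adj u v →
        Rch (addE G p q) (U \ S) (if p ∈ S then q else p) v := by
      intro u v hu huU hv hvU huv
      have hv2 : v ∈ U \ S := Finset.mem_sdiff.2 ⟨hvU, (Finset.mem_sdiff.1 hv).2⟩
      have hu2 : u ∈ V \ U := Finset.mem_sdiff.2 ⟨(Finset.mem_sdiff.1 hu).1, huU⟩
      rcases h.cl u hu2 v hvU huv with rfl | rfl
      · have hpS : v ∉ S := (Finset.mem_sdiff.1 hv).2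
        rw [if_neg hpS]
        exact Rch.refl hv2
      · by_cases hpS : p ∈ S
        · rw [if_pos hpS]
          exact Rch.refl hv2
        · rw [if_neg hpS]
          exact Rch.of_adj (Finset.mem_sdiff.2 ⟨h.hp, hpS⟩) hv2
            (tor_addE_adj.2 ⟨h.ne, Or.inr (Or.inl ⟨rfl, rfl⟩)⟩)
    have := Rch.tmap (G := G) (H := addE G p q) (W := V \ S) (W' := U \ S)
      (fun z => if z ∈ U then z else if p ∈ S then q else p) hmem
      (by
        intro u hu v hv huv
        by_cases huU : u ∈ U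
        · by_cases hvU : v ∈ U
          · simp only [if_pos huU, if_pos hvU]
            exact Rch.of_adj (Finset.mem_sdiff.2 ⟨huU, (Finset.mem_sdiff.1 hu).2⟩)
              (Finset.mem_sdiff.2 ⟨hvU, (Finset.mem_sdiff.1 hv).2⟩)
              (tor_addE_adj.2 ⟨huv.ne, Or.inl huv⟩)
          · simp only [if_pos huU, if_neg hvU]
            exact Rch.symm (key v u hv hvU hu huU huv.symm)
        · by_cases hvU : v ∈ U
          · simp only [if_neg huU, if_pos hvU]
            exact key u v hu huU hv hvU huv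
          · simp only [if_neg huU, if_neg hvU]
            have := hmem u hu
            rw [if_neg huU] at this
            exact Rch.refl this) hr
    simp only [if_pos (Finset.mem_sdiff.1 hx).1, if_pos (Finset.mem_sdiff.1 hy).1] at this
    exact this

theorem TSide.cc_eq (h : TSide G V p q U) (hS : S ⊆ U) (hpq : ¬ (p ∈ S ∧ q ∈ S)) :
    cc (addE G p q) (U \ S) = cc G (V \ S) := by
  have hUV : U \ S ⊆ V \ S := Finset.sdiff_subset_sdiff h.sub (subset_refl _)
  apply tor_cc_eq_of_map id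
  · intro x hx
    exact hUV hx
  · intro x hx y hy
    exact h.rch_iff hS hpq hx hy
  · intro y hy
    by_cases hyU : y ∈ U
    · exact ⟨y, Finset.mem_sdiff.2 ⟨hyU, (Finset.mem_sdiff.1 hy).2⟩, Rch.refl hy⟩
    · have hy2 : y ∈ V \ U := Finset.mem_sdiff.2 ⟨(Finset.mem_sdiff.1 hy).1, hyU⟩
      by_cases hpS : p ∈ S
      · have hqS : q ∉ S := fun hqS => hpq ⟨hpS, hqS⟩
        exact ⟨q, Finset.mem_sdiff.2 ⟨h.hq, hqS⟩, Rch.symm (h.rch_q hS hqS hy2)⟩
      · exact ⟨p, Finset.mem_sdiff.2 ⟨h.hp, hpS⟩, Rch.symm (h.rch_p hS hpS hy2)⟩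

theorem TSide.adm_iff (h : TSide G V p q U) (hS : S ⊆ U) (hpq : ¬ (p ∈ S ∧ q ∈ S)) :
    Adm (addE G p q) U S ↔ Adm G V S := by
  unfold Adm
  rw [tor_addE_stb hpq]
  refine and_congr_right (fun _ => ?_)
  refine forall_congr' (fun T => ?_)
  refine forall_congr' (fun hT => ?_)
  rw [h.cc_eq (hT.trans hS) (fun hh => hpq ⟨hT hh.1, hT hh.2⟩)]

theorem TSide.tgt_iff (h : TSide G V p q U) (hS : S ⊆ U) (hpq : ¬ (p ∈ S ∧ q ∈ S)) :
    Tgt (addE G p q) U S ↔ Tgt G V S := by
  constructor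
  · rintro ⟨_, h2, h3, h4⟩
    exact ⟨hS.trans h.sub, (h.adm_iff hS hpq).1 h2, h3, by rw [← h.cc_eq hS hpq]; exact h4⟩
  · rintro ⟨_, h2, h3, h4⟩
    exact ⟨hS, (h.adm_iff hS hpq).2 h2, h3, by rw [h.cc_eq hS hpq]; exact h4⟩

theorem TSide.tgt_G (h : TSide G V p q U) (hS : Tgt (addE G p q) U S) :
    Tgt G V S ∧ ¬ (p ∈ S ∧ q ∈ S) := by
  have hn := tor_not_both_of_stb h.ne hS.adm.1
  exact ⟨(h.tgt_iff hS.sub hn).1 hS, hn⟩

theorem TSide.crs_iff (h : TSide G V p q U) {T : Finset α} (hS : S ⊆ U)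
    (hpq : ¬ (p ∈ S ∧ q ∈ S)) (hT : T ⊆ U) : Crs (addE G p q) U S T ↔ Crs G V S T := by
  unfold Crs
  refine and_congr_right (fun hd => ?_)
  have hTS : ∀ z ∈ T, z ∈ U \ S := fun z hz =>
    Finset.mem_sdiff.2 ⟨hT hz, fun hzS => Finset.disjoint_left.1 hd hzS hz⟩
  constructor
  · rintro ⟨x, hx, y, hy, hxy⟩
    exact ⟨x, hx, y, hy, fun hr => hxy ((h.rch_iff hS hpq (hTS x hx) (hTS y hy)).2 hr)⟩
  · rintro ⟨x, hx, y, hy, hxy⟩
    exact ⟨x, hx, y, hy, fun hr => hxy ((h.rch_iff hS hpq (hTS x hx) (hTS y hy)).1 hr)⟩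

theorem TSide.twoC (h : TSide G V p q U) (h2 : TwoC G V) : TwoC (addE G p q) U := by
  refine ⟨?_, ?_, ?_⟩
  · have : ({p, q} : Finset α) ⊆ U := by
      intro z hz
      rw [Finset.mem_insert, Finset.mem_singleton] at hz
      rcases hz with rfl | rfl
      · exact h.hp
      · exact h.hq
    have := Finset.card_le_card this
    rwa [Finset.card_pair h.ne] at this
  · have h1 := h.cc_eq (S := ∅) (Finset.empty_subset _) (by simp)
    rw [Finset.sdiff_empty, Finset.sdiff_empty, cc_eq_one_iff.2 h2.conn] at h1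
    exact cc_eq_one_iff.1 h1
  · intro x hx
    have h1 := h.cc_eq (S := {x}) (Finset.singleton_subset_iff.2 hx) (by
      simp only [Finset.mem_singleton]
      rintro ⟨rfl, h⟩
      exact (‹TSide G V p q U›.ne h.symm).elim)
    rw [← Finset.erase_eq, ← Finset.erase_eq, cc_eq_one_iff.2 (h2.erase x (h.sub hx))] at h1
    exact cc_eq_one_iff.1 h1

theorem TSide.sep (h : TSide G V p q U) (ha : a ∈ V) (hb : b ∈ V) (hS : S ⊆ U)
    (hpq : ¬ (p ∈ S ∧ q ∈ S)) (hs : Sep G V a b S) :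
    Sep (addE G p q) U (if a ∈ U then a else p) (if b ∈ U then b else p) S := by
  by_contra hc
  unfold Sep at hc
  push Not at hc
  obtain ⟨h1, h2, h3⟩ := hc
  have claim : ∀ c ∈ V, (if c ∈ U then c else p) ∉ S →
      c ∉ S ∧ (if c ∈ U then c else p) ∈ U \ S ∧ Rch G (V \ S) c (if c ∈ U then c else p) := by
    intro c hc hcS
    by_cases hcU : c ∈ U
    · rw [if_pos hcU] at hcS ⊢
      exact ⟨hcS, Finset.mem_sdiff.2 ⟨hcU, hcS⟩, Rch.refl (Finset.mem_sdiff.2 ⟨hc, hcS⟩)⟩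
    · rw [if_neg hcU] at hcS ⊢
      exact ⟨fun hcS' => hcU (hS hcS'), Finset.mem_sdiff.2 ⟨h.hp, hcS⟩,
        h.rch_p hS hcS (Finset.mem_sdiff.2 ⟨hc, hcU⟩)⟩
  obtain ⟨a1, a2, a3⟩ := claim a ha h1
  obtain ⟨b1, b2, b3⟩ := claim b hb h2
  rcases hs with hs | hs | hs
  · exact a1 hs
  · exact b1 hs
  · exact hs (Rch.trans a3 (Rch.trans ((h.rch_iff hS hpq a2 b2).1 h3) (Rch.symm b3)))

end side

section sides

variable {G : SimpleGraph α} {V K : Finset α} {p q : α}

theorem Cut2.tpq_sub (hc : Cut2 G V p q) : ({p, q} : Finset α) ⊆ V := by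
  intro z hz
  rw [Finset.mem_insert, Finset.mem_singleton] at hz
  rcases hz with rfl | rfl
  · exact hc.hp
  · exact hc.hq

theorem Cut2.tsymm (hc : Cut2 G V p q) : Cut2 G V q p :=
  ⟨hc.hq, hc.hp, hc.ne.symm, by rw [Finset.pair_comm]; exact hc.two⟩

/-- a side of a 2-cut together with one of the two vertices is connected -/
theorem Cut2.tconn_insert (h2 : TwoC G V) (hc : Cut2 G V p q) (hK : K ∈ comps G (V \ {p, q})) :
    Conn G (insert p K) := by
  obtain ⟨hKs, hKc, hKm⟩ := mem_comps.1 hK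
  have hqK : q ∉ K := fun h => (Finset.mem_sdiff.1 (hKs h)).2 (by simp)
  have hpK : p ∉ K := fun h => (Finset.mem_sdiff.1 (hKs h)).2 (by simp)
  have hcon := h2.erase q hc.hq
  have hKsub : K ⊆ V.erase q := by
    intro z hz
    exact Finset.mem_erase.2 ⟨fun h => hqK (h ▸ hz), (Finset.mem_sdiff.1 (hKs hz)).1⟩
  have hpV : p ∈ V.erase q := Finset.mem_erase.2 ⟨hc.ne, hc.hp⟩
  obtain ⟨x, hx, y, hy, hxy⟩ := (conn_iff_cut.1 hcon).2 K hKsub hKc.1
    (fun h => hpK (h ▸ hpV))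
  have hyp : y = p := by
    by_contra hyp
    rw [Finset.mem_sdiff, Finset.mem_erase] at hy
    exact hy.2 (hKm x hx y (Finset.mem_sdiff.2 ⟨hy.1.2, by
      simp only [Finset.mem_insert, Finset.mem_singleton]
      rintro (h | h)
      · exact hyp h
      · exact hy.1.1 h⟩) hxy)
  subst hyp
  have hs : Conn G ({y} : Finset α) := ⟨⟨y, Finset.mem_singleton_self y⟩, by
    intro a ha b hb
    rw [Finset.mem_singleton] at ha hb
    subst ha; subst hb
    exact Rch.refl (Finset.mem_singleton_self _)⟩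
  have := conn_union hs hKc (Or.inl ⟨y, Finset.mem_singleton_self y, x, hx, hxy.symm⟩)
  rwa [← Finset.insert_eq] at this

/-- the side `K` itself -/
theorem Cut2.side_in (h2 : TwoC G V) (hc : Cut2 G V p q) (hK : K ∈ comps G (V \ {p, q})) :
    TSide G V p q (K ∪ {p, q}) := by
  obtain ⟨hKs, hKc, hKm⟩ := mem_comps.1 hK
  have hsub : K ∪ {p, q} ⊆ V := Finset.union_subset (hKs.trans Finset.sdiff_subset) hc.tpq_sub
  have hout : ∀ o ∈ V \ (K ∪ {p, q}), ∃ C ∈ comps G (V \ {p, q}), o ∈ C ∧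
      C ⊆ V \ (K ∪ {p, q}) := by
    intro o ho
    rw [Finset.mem_sdiff, Finset.mem_union, not_or] at ho
    obtain ⟨C, hC, hoC⟩ := exists_comp (G := G) (W := V \ {p, q}) (x := o)
      (Finset.mem_sdiff.2 ⟨ho.1, ho.2.2⟩)
    refine ⟨C, hC, hoC, ?_⟩
    intro z hz
    have hz' := (mem_comps.1 hC).1 hz
    rw [Finset.mem_sdiff] at hz'
    rw [Finset.mem_sdiff, Finset.mem_union, not_or]
    refine ⟨hz'.1, fun hzK => ?_, hz'.2⟩
    have := comp_unique hC hK hz hzK
    exact ho.2.1 (this ▸ hoC)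
  have hconn : ∀ r : α, (∀ C ∈ comps G (V \ {p, q}), Conn G (insert r C)) →
      Conn G (insert r (V \ (K ∪ {p, q}))) := by
    intro r hr
    have hrr : ∀ o ∈ V \ (K ∪ {p, q}), Rch G (insert r (V \ (K ∪ {p, q}))) o r := by
      intro o ho
      obtain ⟨C, hC, hoC, hCs⟩ := hout o ho
      exact Rch.mono (Finset.insert_subset_insert _ hCs)
        ((hr C hC).2 o (Finset.mem_insert_of_mem hoC) r (Finset.mem_insert_self _ _))
    have hrr' : ∀ o ∈ insert r (V \ (K ∪ {p, q})), Rch G (insert r (V \ (K ∪ {p, q}))) o r := by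
      intro o ho
      rw [Finset.mem_insert] at ho
      rcases ho with rfl | ho
      · exact Rch.refl (Finset.mem_insert_self _ _)
      · exact hrr o ho
    exact ⟨⟨r, Finset.mem_insert_self _ _⟩, fun x hx y hy =>
      Rch.trans (hrr' x hx) (Rch.symm (hrr' y hy))⟩
  refine ⟨hc.ne, by simp, by simp, hsub, ?_, ?_, ?_, ?_⟩
  · by_contra hne
    rw [Finset.not_nonempty_iff_eq_empty, Finset.sdiff_eq_empty_iff_subset] at hne
    have hVK : V \ {p, q} = K := by
      apply Finset.Subset.antisymm _ hKs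
      intro z hz
      rw [Finset.mem_sdiff] at hz
      have := hne hz.1
      rw [Finset.mem_union] at this
      exact this.resolve_right hz.2
    have h1 : cc G (V \ {p, q}) = 1 := cc_eq_one_iff.2 (by rw [hVK]; exact hKc)
    have := hc.two
    omega
  · exact hconn p (fun C hC => hc.tconn_insert h2 hC)
  · exact hconn q (fun C hC => hc.tsymm.tconn_insert h2 (by rw [Finset.pair_comm]; exact hC))
  · intro x hx y hy hxy
    rw [Finset.mem_union] at hy
    rcases hy with hy | hy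
    · exfalso
      rw [Finset.mem_sdiff, Finset.mem_union, not_or] at hx
      exact hx.2.1 (hKm y hy x (Finset.mem_sdiff.2 ⟨hx.1, hx.2.2⟩) hxy.symm)
    · rw [Finset.mem_insert, Finset.mem_singleton] at hy
      exact hy

/-- the rest `V \ K` -/
theorem Cut2.side_out (h2 : TwoC G V) (hc : Cut2 G V p q) (hK : K ∈ comps G (V \ {p, q})) :
    TSide G V p q (V \ K) := by
  obtain ⟨hKs, hKc, hKm⟩ := mem_comps.1 hK
  have hqK : q ∉ K := fun h => (Finset.mem_sdiff.1 (hKs h)).2 (by simp)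
  have hpK : p ∉ K := fun h => (Finset.mem_sdiff.1 (hKs h)).2 (by simp)
  have hKV : K ⊆ V := hKs.trans Finset.sdiff_subset
  have hVV : V \ (V \ K) = K := Finset.sdiff_sdiff_eq_self hKV
  refine ⟨hc.ne, Finset.mem_sdiff.2 ⟨hc.hp, hpK⟩, Finset.mem_sdiff.2 ⟨hc.hq, hqK⟩,
    Finset.sdiff_subset, ?_, ?_, ?_, ?_⟩
  · rw [hVV]; exact hKc.1
  · rw [hVV]; exact hc.tconn_insert h2 hK
  · rw [hVV]; exact hc.tsymm.tconn_insert h2 (by rw [Finset.pair_comm]; exact hK)
  · rw [hVV]
    intro x hx y hy hxy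
    rw [Finset.mem_sdiff] at hy
    by_contra hne
    exact hy.2 (hKm x hx y (Finset.mem_sdiff.2 ⟨hy.1, by
      simpa only [Finset.mem_insert, Finset.mem_singleton] using hne⟩) hxy)

end sides

section J
variable {G : SimpleGraph α} {V K U : Finset α} {F : Finset (Finset α)} {a b p q : α}

theorem torF_sub (hU : TSide G V p q U) (hF : NCF G V F) (hs : Seal G V F p q) :
    ∀ M ∈ torF F U p q, M ∈ F ∧ M ⊆ U ∧ ¬ (p ∈ M ∧ q ∈ M) := by
  intro M hM
  rw [torF, Finset.mem_erase, Finset.mem_filter] at hM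
  obtain ⟨hne, hMF, hMU⟩ := hM
  refine ⟨hMF, hMU, ?_⟩
  rintro ⟨hp, hq⟩
  have hsub : ({p, q} : Finset α) ⊆ M := by
    intro z hz
    rw [Finset.mem_insert, Finset.mem_singleton] at hz
    rcases hz with rfl | rfl
    · exact hp
    · exact hq
  rcases hs with hs | hs | hs
  · exact (hF.tgt M hMF).adm.1 p hp q hq hs
  · have := (hF.tgt M hMF).adm.2 {p, q} hsub ⟨p, by simp⟩
    rw [Finset.card_pair hU.ne] at this
    omega
  · exact hne (hF.anti _ hs M hMF hsub).symm

theorem TSide.ncf (hU : TSide G V p q U) (hF : NCF G V F) (hs : Seal G V F p q) :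
    NCF (addE G p q) U (torF F U p q) := by
  refine ⟨?_, ?_, ?_⟩
  · intro M hM
    obtain ⟨h1, h2, h3⟩ := torF_sub hU hF hs M hM
    exact (hU.tgt_iff h2 h3).2 (hF.tgt M h1)
  · intro M hM N hN hMN
    exact hF.anti M (torF_sub hU hF hs M hM).1 N (torF_sub hU hF hs N hN).1 hMN
  · intro M hM N hN hcr
    obtain ⟨h1, h2, h3⟩ := torF_sub hU hF hs M hM
    obtain ⟨h1', h2', h3'⟩ := torF_sub hU hF hs N hN
    exact hF.nc M h1 N h1' ((hU.crs_iff h2 h3 h2').1 hcr)

theorem TSide.clsE (hU : TSide G V p q U) (hE : ClsE G V a b F) (hc : Cut2 G V p q)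
    (hs : Seal G V F p q) :
    ClsE (addE G p q) U (if a ∈ U then a else p) (if b ∈ U then b else p) (torF F U p q) := by
  refine ⟨hU.twoC hE.two, ?_, ?_, hU.ncf hE.ncf hs, ?_, ?_⟩
  · split_ifs with h
    · exact h
    · exact hU.hp
  · split_ifs with h
    · exact h
    · exact hU.hp
  · intro S hS
    obtain ⟨hT, hn⟩ := hU.tgt_G hS.tgt
    have hSU := hS.tgt.sub
    apply hU.sep hE.ha hE.hb hSU hn
    apply hE.e1
    refine ⟨hT, ?_⟩
    rintro ⟨M, hM, hMS⟩
    apply hS.nup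
    refine ⟨M, ?_, hMS⟩
    rw [torF, Finset.mem_erase, Finset.mem_filter]
    refine ⟨?_, hM, hMS.trans hSU⟩
    rintro rfl
    exact hn ⟨hMS (by simp), hMS (by simp)⟩
  · intro g h hgh
    by_cases hpq : p ∈ ({g, h} : Finset α) ∧ q ∈ ({g, h} : Finset α)
    · have heq : ({g, h} : Finset α) = {p, q} := by
        have hsub : ({p, q} : Finset α) ⊆ {g, h} := by
          intro z hz
          rw [Finset.mem_insert, Finset.mem_singleton] at hz
          rcases hz with rfl | rfl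
          · exact hpq.1
          · exact hpq.2
        symm
        apply Finset.eq_of_subset_of_card_le hsub
        rw [Finset.card_pair hU.ne, Finset.card_pair hgh.ne]
      rw [heq]
      by_cases haU : a ∈ U
      · by_cases hbU : b ∈ U
        · rw [if_pos haU, if_pos hbU]
          rcases hE.e3 p q hc with h' | h' | h'
          · exact Or.inl h'
          · exact Or.inr (Or.inl h')
          · right; right
            intro hr
            apply h'
            have := Rch.tmap (G := addE G p q) (H := G) (W := U \ {p, q}) (W' := V \ {p, q}) id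
              (fun z hz => Finset.sdiff_subset_sdiff hU.sub (subset_refl _) hz) (by
                intro u hu v hv huv
                rw [Finset.mem_sdiff, Finset.mem_insert, Finset.mem_singleton, not_or] at hu
                have hsub : U \ {p, q} ⊆ V \ {p, q} :=
                  Finset.sdiff_subset_sdiff hU.sub (subset_refl _)
                rcases (tor_addE_adj.1 huv).2 with h'' | ⟨h1, h2⟩ | ⟨h1, h2⟩
                · exact Rch.of_adj (hsub (by
                    rw [Finset.mem_sdiff, Finset.mem_insert, Finset.mem_singleton, not_or]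
                    exact hu)) (hsub hv) h''
                · exact (hu.2.1 h1).elim
                · exact (hu.2.2 h1).elim) hr
            simpa using this
        · rw [if_neg hbU]
          right; left
          simp
      · rw [if_neg haU]
        left
        simp
    · have hsub : ({g, h} : Finset α) ⊆ U := by
        intro z hz
        rw [Finset.mem_insert, Finset.mem_singleton] at hz
        rcases hz with rfl | rfl
        · exact hgh.hp
        · exact hgh.hq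
      apply hU.sep hE.ha hE.hb hsub hpq
      apply hE.e3
      refine ⟨hU.sub hgh.hp, hU.sub hgh.hq, hgh.ne, ?_⟩
      rw [← hU.cc_eq hsub hpq]
      exact hgh.two

theorem TSide.clsM (hU : TSide G V p q U) (hM : ClsM G V F) (hs : Seal G V F p q) :
    ClsM (addE G p q) U (torF F U p q) := by
  refine ⟨hU.twoC hM.two, hU.ncf hM.ncf hs, ?_⟩
  intro M hMM
  obtain ⟨h1, h2, h3⟩ := torF_sub hU hM.ncf hs M hMM
  have hmin := hM.min M h1
  refine ⟨(hU.tgt_iff h2 h3).2 hmin.tgt, ?_⟩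
  intro T hT hTt
  exact hmin.min T hT ((hU.tgt_iff (hT.trans h2) (fun hh => h3 ⟨hT hh.1, hT hh.2⟩)).1 hTt)

theorem tor_clsE (hE : ClsE G V a b F) (hc : Cut2 G V p q) (hs : Seal G V F p q)
    (hK : K ∈ comps G (V \ {p, q})) :
    (∃ a' b', ClsE (addE G p q) (K ∪ {p, q}) a' b' (torF F (K ∪ {p, q}) p q)) ∧
    (∃ a' b', ClsE (addE G p q) (V \ K) a' b' (torF F (V \ K) p q)) :=
  ⟨⟨_, _, (hc.side_in hE.two hK).clsE hE hc hs⟩, ⟨_, _, (hc.side_out hE.two hK).clsE hE hc hs⟩⟩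

theorem tor_clsM (hM : ClsM G V F) (hc : Cut2 G V p q) (hs : Seal G V F p q)
    (hK : K ∈ comps G (V \ {p, q})) :
    ClsM (addE G p q) (K ∪ {p, q}) (torF F (K ∪ {p, q}) p q) ∧
    ClsM (addE G p q) (V \ K) (torF F (V \ K) p q) :=
  ⟨(hc.side_in hM.two hK).clsM hM hs, (hc.side_out hM.two hK).clsM hM hs⟩

end J

end Pool.Agent.TH
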