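import Pool.Agent.TH.Ops
import Pool.Agent.TH.LM
import Pool.Agent.TH.PieceB
import Pool.Agent.TH.Piece
import Pool.Agent.TH.DelConM
import Pool.Agent.TH.Torso
import Pool.Agent.TH.ExLeaf
import Pool.Agent.TH.ExM
import Pool.Agent.TH.StepA
import Pool.Agent.TH.StepB
import Pool.Agent.TH.StepC
import Pool.Agent.TH.Base

/-! # The main induction -/

set_option autoImplicit false

namespace Pool.Agent.TH

open Finset
open scoped Classical

variable {α : Type*} [DecidableEq α]

/-- number of (ordered) edges inside `V` -/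
noncomputable def en (G : SimpleGraph α) (V : Finset α) : ℕ :=
  ((V ×ˢ V).filter (fun p => G.Adj p.1 p.2)).card

/-- number of free sets -/
noncomputable def fn (G : SimpleGraph α) (V : Finset α) (F : Finset (Finset α)) : ℕ :=
  (V.powerset.filter (fun S => Free G V F S)).card

theorem en_delE {G : SimpleGraph α} {V : Finset α} {u v : α} (hu : u ∈ V) (hv : v ∈ V)
    (huv : G.Adj u v) : en (delE G u v) V < en G V := by
  unfold en
  apply Finset.card_lt_card
  rw [Finset.ssubset_iff_of_subset]
  · refine ⟨(u, v), ?_, ?_⟩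
    · simp [hu, hv, huv]
    · simp [delE_adj]
  · intro p hp
    rw [mem_filter] at hp ⊢
    exact ⟨hp.1, (delE_adj.1 hp.2).1⟩

theorem fn_addF {G : SimpleGraph α} {V : Finset α} {F : Finset (Finset α)} {B : Finset α}
    (hB : Free G V F B) : fn G V (addF F B) < fn G V F := by
  unfold fn
  apply Finset.card_lt_card
  rw [Finset.ssubset_iff_of_subset]
  · refine ⟨B, ?_, ?_⟩
    · rw [mem_filter, mem_powerset]; exact ⟨hB.tgt.sub, hB⟩
    · rw [mem_filter]
      rintro ⟨-, h⟩
      exact h.nup ⟨B, by simp [addF], subset_rfl⟩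
  · intro S hS
    rw [mem_filter] at hS ⊢
    refine ⟨hS.1, hS.2.tgt, ?_⟩
    rintro ⟨M, hM, hMS⟩
    apply hS.2.nup
    by_cases hBM : B ⊆ M
    · exact ⟨B, by simp [addF], hBM.trans hMS⟩
    · exact ⟨M, by simp [addF, hM, hBM], hMS⟩

theorem Conn.exists_adj {G : SimpleGraph α} {V : Finset α} (h : Conn G V) (h2 : 2 ≤ V.card) :
    ∃ u ∈ V, ∃ v ∈ V, G.Adj u v := by
  obtain ⟨x, hx⟩ := h.1
  have h' := (conn_iff_cut.1 h).2 {x} (by simpa using hx) (by simp) (by
    intro he; rw [← he] at h2; simp at h2)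
  obtain ⟨a, ha, b, hb, hab⟩ := h'
  simp only [mem_singleton] at ha
  subst ha
  exact ⟨a, hx, b, (mem_sdiff.1 hb).1, hab⟩

theorem exists_addb_max {G : SimpleGraph α} {V : Finset α} {F : Finset (Finset α)}
    (h : ¬ Maxl G V F) : ∃ B, Addb G V F B ∧ ∀ B', Addb G V F B' → B ⊆ B' → B' = B := by
  unfold Maxl at h
  push Not at h
  obtain ⟨B, hB, hn⟩ := h
  have hne : (V.powerset.filter (fun S => Addb G V F S)).Nonempty :=
    ⟨B, by rw [mem_filter, mem_powerset]; exact ⟨hB.tgt.sub, hB, hn⟩⟩
  obtain ⟨C, hC, hmax⟩ := Finset.exists_max_image _ (fun S => S.card) hne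
  rw [mem_filter, mem_powerset] at hC
  refine ⟨C, hC.2, fun B' hB' hsub => ?_⟩
  have := hmax B' (by rw [mem_filter, mem_powerset]; exact ⟨hB'.free.tgt.sub, hB'⟩)
  exact (Finset.eq_of_subset_of_card_le hsub this).symm

theorem card_piece_lt {G : SimpleGraph α} {V B K : Finset α} {t : α} (hB : Tgt G V B)
    (hK : K ∈ comps G (V \ B)) : (insert t K).card < V.card := by
  have h1 : K ⊆ V \ B := (mem_comps.1 hK).1
  have h2 := Finset.card_le_card h1
  rw [Finset.card_sdiff_of_subset hB.sub] at h2
  have h3 := Finset.card_insert_le t K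
  have h4 := hB.card
  have h5 := Finset.card_le_card hB.sub
  omega

section sizes
variable {G : SimpleGraph α} {V K : Finset α} {p q : α}

theorem cut_sizes (hc : Cut2 G V p q) (hK : K ∈ comps G (V \ {p, q})) :
    (K ∪ {p, q}).card < V.card ∧ (V \ K).card < V.card ∧
      2 ≤ (K ∪ {p, q}).card ∧ 2 ≤ (V \ K).card ∧
      (K ∪ {p, q}).card - 2 + ((V \ K).card - 2) = V.card - 2 := by
  have hKs : K ⊆ V \ {p, q} := (mem_comps.1 hK).1
  have hKn : K.Nonempty := (mem_comps.1 hK).2.1.1
  have hpq : ({p, q} : Finset α) ⊆ V := by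
    intro z hz; simp only [mem_insert, mem_singleton] at hz
    rcases hz with rfl | rfl; exacts [hc.hp, hc.hq]
  have hd : Disjoint K {p, q} := by
    rw [Finset.disjoint_left]; intro z hz hz'
    exact (mem_sdiff.1 (hKs hz)).2 hz'
  have hc2 : ({p, q} : Finset α).card = 2 := Finset.card_pair hc.ne
  have h1 : (K ∪ {p, q}).card = K.card + 2 := by rw [card_union_of_disjoint hd, hc2]
  have hKV : K ⊆ V := hKs.trans sdiff_subset
  have h2 : (V \ K).card = V.card - K.card := card_sdiff_of_subset hKV
  have h3 : K.card ≤ (V \ {p, q}).card := card_le_card hKs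
  rw [card_sdiff_of_subset hpq, hc2] at h3
  have h4 : K.card ≠ (V \ {p, q}).card := by
    intro he
    have := Finset.eq_of_subset_of_card_le hKs he.ge
    have h5 := hc.two
    rw [← this] at h5
    have h6 : cc G K = 1 := cc_eq_one_iff.2 (mem_comps.1 hK).2.1
    omega
  rw [card_sdiff_of_subset hpq, hc2] at h4
  have h5 : 1 ≤ K.card := hKn.card_pos
  have h6 := card_le_card hpq
  omega

end sizes

section main
variable [Fintype α] {x : ℝ}

theorem mainE (h1 : 1 < x) (h2 : x < 2) :
    ∀ (n : ℕ) (G : SimpleGraph α) (V : Finset α) (a b : α) (F : Finset (Finset α)),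
      V.card = n → ClsE G V a b F → (2 - x) ^ (V.card - 2) ≤ RR G V F x := by
  have hz0 : 0 ≤ 2 - x := by linarith
  have hz1 : 2 - x ≤ 1 := by linarith
  intro n
  induction n using Nat.strong_induction_on with
  | _ n IHn =>
  have main : ∀ (e : ℕ) (G : SimpleGraph α) (V : Finset α) (a b : α) (F : Finset (Finset α)),
      V.card = n → en G V = e → ClsE G V a b F → (2 - x) ^ (V.card - 2) ≤ RR G V F x := by
    intro e
    induction e using Nat.strong_induction_on with
    | _ e IHe =>
    have main' : ∀ (m : ℕ) (G : SimpleGraph α) (V : Finset α) (a b : α) (F : Finset (Finset α)),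
        V.card = n → en G V = e → fn G V F = m → ClsE G V a b F →
        (2 - x) ^ (V.card - 2) ≤ RR G V F x := by
      intro m
      induction m using Nat.strong_induction_on with
      | _ m IHm =>
      intro G V a b F hn he hm hE
      rcases Nat.lt_or_ge V.card 4 with hlt | h4
      · have hc2 := hE.two.card
        rcases (by omega : V.card = 2 ∨ V.card = 3) with h | h
        · rw [RR_two hE.two hE.ncf h h1, h]; simp
        · rw [RR_three hE.two hE.ncf h h1, h]; simp
      by_cases hmax : Maxl G V F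
      · by_cases h3 : ThreeC G V
        · obtain ⟨u, hu, v, hv, huv⟩ := hE.two.conn.exists_adj hE.two.card
          have hob : ∀ D, Free G V F D → u ∈ D ∨ v ∈ D := by
            intro D hD
            by_contra hcon
            push Not at hcon
            exact MAX3 h3 hE.ncf hmax hD u (mem_sdiff.2 ⟨hu, hcon.1⟩) v
              (mem_sdiff.2 ⟨hv, hcon.2⟩) huv
          rw [stepB h3 hE.ncf hob hu hv huv h1]
          have hX := IHe (en (delE G u v) V) (he ▸ en_delE hu hv huv) _ _ _ _ _ hn rfl
            (del_clsE h3 hE.ncf hmax hu hv huv)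
          have hYc : (V.erase v).card = V.card - 1 := card_erase_of_mem hv
          have hY := IHn (V.erase v).card (by omega) _ _ _ _ _ rfl
            (con_clsE h3 hE.ncf hmax hu hv huv)
          have h5 : (2 - x) ^ (V.card - 2) ≤ (2 - x) ^ ((V.erase v).card - 2) :=
            pow_le_pow_of_le_one hz0 hz1 (by omega)
          have h6 : (0 : ℝ) ≤ (2 - x) ^ (V.card - 2) := pow_nonneg hz0 _
          linarith
        · obtain ⟨p, q, K, hc, hs, hK, hcomp⟩ := exists_cutE hE hmax h4 h3
          obtain ⟨s1, s2, s3, s4, s5⟩ := cut_sizes hc hK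
          obtain ⟨⟨a1, b1, hJ⟩, ⟨a2, b2, hG2⟩⟩ := tor_clsE hE hc hs hK
          rw [stepC hE.two hE.ncf hc hs hK hcomp h1]
          have hJ' := IHn _ (hn ▸ s1) _ _ _ _ _ rfl hJ
          have hG2' := IHn _ (hn ▸ s2) _ _ _ _ _ rfl hG2
          rw [← s5, pow_add]
          exact mul_le_mul hJ' hG2' (pow_nonneg hz0 _) ((pow_nonneg hz0 _).trans hJ')
      · obtain ⟨B, hB, hBm⟩ := exists_addb_max hmax
        have hBn : B.Nonempty := card_pos.1 (by have := hB.free.tgt.card; omega)
        obtain ⟨t, ht⟩ := hBn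
        rw [stepA hE.two hE.ncf hB (noComp_of_max hE.two hE.ncf hB hBm) ht h1]
        have h5 := IHm (fn G V (addF F B)) (hm ▸ fn_addF hB.free) _ _ _ _ _ hn he rfl
          (addF_clsE hE hB)
        have h6 : 0 ≤ ∏ K ∈ comps G (V \ B),
            RR (idn G B t) (insert t K) (idnF G F B t (insert t K)) x := by
          apply Finset.prod_nonneg
          intro K hK
          obtain ⟨a', b', hP⟩ := piece_clsE hE hB ht hK
          exact (pow_nonneg hz0 _).trans
            (IHn _ (hn ▸ card_piece_lt hB.free.tgt hK) _ _ _ _ _ rfl hP)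
        have h7 : 0 ≤ (x - 1) ^ (B.card - 1) := pow_nonneg (by linarith) _
        have := mul_nonneg h7 h6
        linarith
    intro G V a b F hn he hE
    exact main' _ G V a b F hn he rfl hE
  intro G V a b F hn hE
  exact main _ G V a b F hn rfl hE

theorem mainM (h1 : 1 < x) (h2 : x < 2) :
    ∀ (n : ℕ) (G : SimpleGraph α) (V : Finset α) (F : Finset (Finset α)),
      V.card = n → ClsM G V F → (2 - x) ^ (V.card - 2) ≤ RR G V F x := by
  have hz0 : 0 ≤ 2 - x := by linarith
  have hz1 : 2 - x ≤ 1 := by linarith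
  intro n
  induction n using Nat.strong_induction_on with
  | _ n IHn =>
  have main' : ∀ (m : ℕ) (G : SimpleGraph α) (V : Finset α) (F : Finset (Finset α)),
      V.card = n → fn G V F = m → ClsM G V F →
      (2 - x) ^ (V.card - 2) ≤ RR G V F x := by
    intro m
    induction m using Nat.strong_induction_on with
    | _ m IHm =>
    intro G V F hn hm hE
    rcases Nat.lt_or_ge V.card 4 with hlt | h4
    · have hc2 := hE.two.card
      rcases (by omega : V.card = 2 ∨ V.card = 3) with h | h
      · rw [RR_two hE.two hE.ncf h h1, h]; simp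
      · rw [RR_three hE.two hE.ncf h h1, h]; simp
    by_cases hmax : ∀ B, MinT G V B → ¬ Addb G V F B
    · by_cases h3 : ThreeC G V
      · have hM := maxl_of_M hE h3 hmax
        obtain ⟨u, hu, v, hv, huv⟩ := hE.two.conn.exists_adj hE.two.card
        have hob : ∀ D, Free G V F D → u ∈ D ∨ v ∈ D := by
          intro D hD
          by_contra hcon
          push Not at hcon
          exact MAX3 h3 hE.ncf hM hD u (mem_sdiff.2 ⟨hu, hcon.1⟩) v
            (mem_sdiff.2 ⟨hv, hcon.2⟩) huv
        rw [stepB h3 hE.ncf hob hu hv huv h1]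
        have hX := mainE h1 h2 _ _ _ _ _ _ rfl (del_clsE h3 hE.ncf hM hu hv huv)
        have hYc : (V.erase v).card = V.card - 1 := card_erase_of_mem hv
        have hY := mainE h1 h2 _ _ _ _ _ _ rfl (con_clsE h3 hE.ncf hM hu hv huv)
        have h5 : (2 - x) ^ (V.card - 2) ≤ (2 - x) ^ ((V.erase v).card - 2) :=
          pow_le_pow_of_le_one hz0 hz1 (by omega)
        have h6 : (0 : ℝ) ≤ (2 - x) ^ (V.card - 2) := pow_nonneg hz0 _
        linarith
      · obtain ⟨p, q, K, hc, hs, hK, hcomp⟩ := exists_cutM hE hmax h4 h3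
        obtain ⟨s1, s2, s3, s4, s5⟩ := cut_sizes hc hK
        obtain ⟨hJ, hG2⟩ := tor_clsM hE hc hs hK
        rw [stepC hE.two hE.ncf hc hs hK hcomp h1]
        have hJ' := IHn _ (hn ▸ s1) _ _ _ rfl hJ
        have hG2' := IHn _ (hn ▸ s2) _ _ _ rfl hG2
        rw [← s5, pow_add]
        exact mul_le_mul hJ' hG2' (pow_nonneg hz0 _) ((pow_nonneg hz0 _).trans hJ')
    · push Not at hmax
      obtain ⟨B, hBmin, hB⟩ := hmax
      have hBn : B.Nonempty := card_pos.1 (by have := hB.free.tgt.card; omega)
      obtain ⟨t, ht⟩ := hBn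
      rw [stepA hE.two hE.ncf hB (noComp_of_min hE.two hE.ncf hE.min hB) ht h1]
      have h5 := IHm (fn G V (addF F B)) (hm ▸ fn_addF hB.free) _ _ _ hn rfl
        (addF_clsM hE hB hBmin)
      have h6 : 0 ≤ ∏ K ∈ comps G (V \ B),
          RR (idn G B t) (insert t K) (idnF G F B t (insert t K)) x := by
        apply Finset.prod_nonneg
        intro K hK
        exact (pow_nonneg hz0 _).trans
          (IHn _ (hn ▸ card_piece_lt hB.free.tgt hK) _ _ _ rfl (piece_clsM hE hB ht hK))
      have h7 : 0 ≤ (x - 1) ^ (B.card - 1) := pow_nonneg (by linarith) _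
      have := mul_nonneg h7 h6
      linarith
  intro G V F hn hE
  exact main' _ G V F hn rfl hE

/-- Main theorem: for every 2-connected graph. -/
theorem main_two (h1 : 1 < x) (h2 : x < 2) (G : SimpleGraph α) (V : Finset α) (hV : TwoC G V) :
    (2 - x) ^ (V.card - 2) ≤ RR G V ∅ x := by
  apply mainM h1 h2 _ G V ∅ rfl
  exact ⟨hV, ⟨by simp, by simp, by simp⟩, by simp⟩

end main

end Pool.Agent.TH
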