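import Mathlib

/-!
# Definitions for the chromatic roots of Hamiltonian graphs in (1,2)

One vertex type `α`.  A graph is a pair `(G, V)` with `G : SimpleGraph α` and `V : Finset α`.
Minors are made without changing the type.
-/

set_option autoImplicit false

namespace Pool.Agent.TH

open Finset
open scoped Classical

variable {α : Type*} [DecidableEq α]

/-! ## Components -/

/-- `x` and `y` lie in `W` and are joined by a path inside `W`. -/
def Rch (G : SimpleGraph α) (W : Finset α) (x y : α) : Prop :=
  x ∈ W ∧ y ∈ W ∧ Relation.ReflTransGen (fun a b => G.Adj a b ∧ a ∈ W ∧ b ∈ W) x y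

/-- `W` is nonempty and connected. -/
def Conn (G : SimpleGraph α) (W : Finset α) : Prop :=
  W.Nonempty ∧ ∀ x ∈ W, ∀ y ∈ W, Rch G W x y

/-- The components of the subgraph induced on `W`. -/
noncomputable def comps (G : SimpleGraph α) (W : Finset α) : Finset (Finset α) :=
  W.image (fun x => W.filter (fun y => Rch G W x y))

/-- The number of components of the subgraph induced on `W`. -/
noncomputable def cc (G : SimpleGraph α) (W : Finset α) : ℕ := (comps G W).card

/-- There is an edge between `S` and `T`. -/
def Tch (G : SimpleGraph α) (S T : Finset α) : Prop := ∃ x ∈ S, ∃ y ∈ T, G.Adj x y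

/-- The neighbours of `C` in `S`. -/
noncomputable def nb (G : SimpleGraph α) (C S : Finset α) : Finset α :=
  S.filter (fun s => ∃ x ∈ C, G.Adj x s)

/-- The number of components of `K \ T` without a neighbour in `S`. -/
noncomputable def inn (G : SimpleGraph α) (S T K : Finset α) : ℕ :=
  ((comps G (K \ T)).filter (fun C => ¬ Tch G C S)).card

/-- `S` is stable. -/
def Stb (G : SimpleGraph α) (S : Finset α) : Prop := ∀ x ∈ S, ∀ y ∈ S, ¬ G.Adj x y

/-- 2-connected (`K_2` counts). -/
structure TwoC (G : SimpleGraph α) (V : Finset α) : Prop where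
  card : 2 ≤ V.card
  conn : Conn G V
  erase : ∀ x ∈ V, Conn G (V.erase x)

/-- 3-connected. -/
structure ThreeC (G : SimpleGraph α) (V : Finset α) : Prop where
  card : 4 ≤ V.card
  conn : ∀ x ∈ V, ∀ y ∈ V, Conn G (V \ {x, y})

/-- `{p, q}` is a 2-cut of `(G, V)`. -/
structure Cut2 (G : SimpleGraph α) (V : Finset α) (p q : α) : Prop where
  hp : p ∈ V
  hq : q ∈ V
  ne : p ≠ q
  two : 2 ≤ cc G (V \ {p, q})

/-- `S` separates `a` from `b` in the broad sense (`a` or `b` may lie in `S`). -/
def Sep (G : SimpleGraph α) (V : Finset α) (a b : α) (S : Finset α) : Prop :=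
  a ∈ S ∨ b ∈ S ∨ ¬ Rch G (V \ S) a b

/-! ## Admissible and tight sets -/

/-- Admissible: stable, and no nonempty subset `T` has more than `|T|` components in its complement. -/
def Adm (G : SimpleGraph α) (V S : Finset α) : Prop :=
  Stb G S ∧ ∀ T ⊆ S, T.Nonempty → cc G (V \ T) ≤ T.card

/-- Tight: admissible, at least two elements, exactly `|S|` components in the complement. -/
structure Tgt (G : SimpleGraph α) (V S : Finset α) : Prop where
  sub : S ⊆ V
  adm : Adm G V S
  card : 2 ≤ S.card
  eq : cc G (V \ S) = S.card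

/-- Inclusion-minimal tight sets. -/
structure MinT (G : SimpleGraph α) (V S : Finset α) : Prop where
  tgt : Tgt G V S
  min : ∀ T, T ⊆ S → Tgt G V T → T = S

/-- `S` and `T` are disjoint and `T` meets two components of the complement of `S`
(symmetric for tight sets, see `Crs.symm`). -/
def Crs (G : SimpleGraph α) (V S T : Finset α) : Prop :=
  Disjoint S T ∧ ∃ x ∈ T, ∃ y ∈ T, ¬ Rch G (V \ S) x y

/-! ## Families -/

/-- `S` contains a member of `F`. -/
def Up (F : Finset (Finset α)) (S : Finset α) : Prop := ∃ M ∈ F, M ⊆ S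

/-- `S` is tight and contains no member of `F`. -/
structure Free (G : SimpleGraph α) (V : Finset α) (F : Finset (Finset α)) (S : Finset α) : Prop where
  tgt : Tgt G V S
  nup : ¬ Up F S

/-- `F` is a non-crossing antichain of tight sets. -/
structure NCF (G : SimpleGraph α) (V : Finset α) (F : Finset (Finset α)) : Prop where
  tgt : ∀ M ∈ F, Tgt G V M
  anti : ∀ M ∈ F, ∀ N ∈ F, M ⊆ N → M = N
  nc : ∀ M ∈ F, ∀ N ∈ F, ¬ Crs G V M N

/-- `B` may be added to `F`. -/
structure Addb (G : SimpleGraph α) (V : Finset α) (F : Finset (Finset α)) (B : Finset α) : Prop where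
  free : Free G V F B
  nc : ∀ M ∈ F, ¬ Crs G V M B

/-- `F` is maximal: every free set crosses a member. -/
def Maxl (G : SimpleGraph α) (V : Finset α) (F : Finset (Finset α)) : Prop :=
  ∀ B, Free G V F B → ∃ M ∈ F, Crs G V M B

/-- The family `F + B`. -/
noncomputable def addF (F : Finset (Finset α)) (B : Finset α) : Finset (Finset α) :=
  insert B (F.filter (fun M => ¬ B ⊆ M))

/-- The minimal tight sets of `(G, V)` with the property `E` (used with `E` closed under
tight supersets). -/
noncomputable def mkF (G : SimpleGraph α) (V : Finset α) (E : Finset α → Prop) :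
    Finset (Finset α) :=
  V.powerset.filter (fun S => Tgt G V S ∧ E S ∧ ∀ T, T ⊆ S → Tgt G V T → E T → T = S)

/-! ## Minors on the same type -/

/-- `G` with the set `B` identified to its element `t` (only used on vertex sets `W`
with `W ∩ B ⊆ {t}`). -/
def idn (G : SimpleGraph α) (B : Finset α) (t : α) : SimpleGraph α :=
  SimpleGraph.fromRel (fun a b => G.Adj a b ∨ (a = t ∧ ∃ c ∈ B, G.Adj c b))

/-- Add the edge `pq`. -/
def addE (G : SimpleGraph α) (p q : α) : SimpleGraph α :=
  SimpleGraph.fromRel (fun a b => G.Adj a b ∨ (a = p ∧ b = q))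

/-- Delete the edge `uv`. -/
def delE (G : SimpleGraph α) (u v : α) : SimpleGraph α :=
  SimpleGraph.fromRel (fun a b => G.Adj a b ∧ ¬ (a = u ∧ b = v) ∧ ¬ (a = v ∧ b = u))

/-- The family induced on `idn G B t`, vertex set `W`
(`W = insert t K` for a piece, `B = {u, v}`, `t = u`, `W = V.erase v` for a contraction). -/
noncomputable def idnF (G : SimpleGraph α) (F : Finset (Finset α)) (B : Finset α) (t : α)
    (W : Finset α) : Finset (Finset α) :=
  mkF (idn G B t) W (fun S => Up F (if t ∈ S then B ∪ S else S))

/-- The family induced on `G - uv`. -/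
noncomputable def delF (G : SimpleGraph α) (V : Finset α) (F : Finset (Finset α)) (u v : α) :
    Finset (Finset α) :=
  mkF (delE G u v) V (fun S => Up F S ∨ (u ∈ S ∧ v ∈ S))

/-- The family induced on the torso with vertex set `U` at the 2-cut `{p, q}`. -/
noncomputable def torF (F : Finset (Finset α)) (U : Finset α) (p q : α) : Finset (Finset α) :=
  (F.filter (fun M => M ⊆ U)).erase {p, q}

/-- The 2-cut `{p, q}` is sealed: adjacent, or at least three sides, or excluded. -/
def Seal (G : SimpleGraph α) (V : Finset α) (F : Finset (Finset α)) (p q : α) : Prop :=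
  G.Adj p q ∨ 3 ≤ cc G (V \ {p, q}) ∨ ({p, q} : Finset α) ∈ F

/-! ## The two classes -/

/-- Class E (two-terminal class). -/
structure ClsE (G : SimpleGraph α) (V : Finset α) (a b : α) (F : Finset (Finset α)) : Prop where
  two : TwoC G V
  ha : a ∈ V
  hb : b ∈ V
  ncf : NCF G V F
  e1 : ∀ S, Free G V F S → Sep G V a b S
  e3 : ∀ p q, Cut2 G V p q → Sep G V a b {p, q}

/-- Class M (minimal tight sets). -/
structure ClsM (G : SimpleGraph α) (V : Finset α) (F : Finset (Finset α)) : Prop where
  two : TwoC G V
  ncf : NCF G V F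
  min : ∀ M ∈ F, MinT G V M

/-! ## Colourings -/

/-- `f` is constant on `S`. -/
def Mono {β : Type*} (f : α → β) (S : Finset α) : Prop := ∀ x ∈ S, ∀ y ∈ S, f x = f y

/-- Forbidden colour sets: not stable, violating, or a member of `F`. -/
def Bad (G : SimpleGraph α) (V : Finset α) (F : Finset (Finset α)) (S : Finset α) : Prop :=
  ¬ Stb G S ∨ S.card < cc G (V \ S) ∨ S ∈ F

/-- Colourings of `V` with `k + 1` colours (value `0` outside `V`) without a monochromatic
nonempty `S ⊆ V` with `bad S`. -/
noncomputable def col [Fintype α] (V : Finset α) (bad : Finset α → Prop) (k : ℕ) :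
    Finset (α → Fin (k + 1)) :=
  Finset.univ.filter (fun f => (∀ x, x ∉ V → f x = 0) ∧
    ∀ S, S ⊆ V → S.Nonempty → bad S → ¬ Mono f S)

end Pool.Agent.TH
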