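import Pool.Agent.TH.Cross
import Pool.Agent.TH.Super

/-!
# Deletion and contraction of an edge of a 3-connected graph

`X = delE G u v` on `V`, `Y = idn G {u, v} u` on `V.erase v`.
-/

set_option autoImplicit false

namespace Pool.Agent.TH

open Finset
open scoped Classical

variable {α : Type*} [DecidableEq α]

/-! ### general facts -/

theorem Rch.dcTransport {G G' : SimpleGraph α} {W W' : Finset α} (f : α → α)
    (hf : ∀ a ∈ W, f a ∈ W')
    (h : ∀ a ∈ W, ∀ b ∈ W, G.Adj a b → Rch G' W' (f a) (f b))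
    {x y : α} (hxy : Rch G W x y) : Rch G' W' (f x) (f y) := by
  obtain ⟨hx, hy, hr⟩ := hxy
  clear hy
  induction hr with
  | refl => exact Rch.refl (hf _ hx)
  | tail _ hbc ih => exact ih.trans (h _ hbc.2.1 _ hbc.2.2 hbc.1)

theorem dc_card_image_le_of_factor {β γ : Type*} [DecidableEq β] [DecidableEq γ] {s : Finset α}
    {g : α → β} {h : α → γ} (H : ∀ a ∈ s, ∀ b ∈ s, h a = h b → g a = g b) :
    (s.image g).card ≤ (s.image h).card := by
  rcases s.eq_empty_or_nonempty with rfl | ⟨a0, ha0⟩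
  · simp
  have h1 : ∀ c : γ, ∃ a ∈ s, c ∈ s.image h → h a = c := by
    intro c
    by_cases hc : c ∈ s.image h
    · obtain ⟨a, ha, hac⟩ := mem_image.1 hc
      exact ⟨a, ha, fun _ => hac⟩
    · exact ⟨a0, ha0, fun h => absurd h hc⟩
  choose k hk hk' using h1
  refine le_trans (card_le_card (?_ : s.image g ⊆ (s.image h).image (fun c => g (k c))))
    card_image_le
  intro b hb
  obtain ⟨a, ha, rfl⟩ := mem_image.1 hb
  refine mem_image.2 ⟨h a, mem_image_of_mem _ ha, ?_⟩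
  exact H _ (hk _) _ ha (hk' _ (mem_image_of_mem _ ha))

theorem dc_cls_eq_iff {G : SimpleGraph α} {W : Finset α} {x y : α} (hx : x ∈ W) (hy : y ∈ W) :
    W.filter (fun z => Rch G W x z) = W.filter (fun z => Rch G W y z) ↔ Rch G W x y := by
  constructor
  · intro h
    have : y ∈ W.filter (fun z => Rch G W x z) := by
      rw [h]; exact mem_filter.2 ⟨hy, Rch.refl hy⟩
    exact (mem_filter.1 this).2
  · intro h
    ext z
    simp only [mem_filter]
    exact ⟨fun hz => ⟨hz.1, h.symm.trans hz.2⟩, fun hz => ⟨hz.1, h.trans hz.2⟩⟩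

theorem dc_cc_le_of_map {G G' : SimpleGraph α} {W W' : Finset α} (f : α → α)
    (hf : ∀ a ∈ W, f a ∈ W')
    (h : ∀ a ∈ W, ∀ b ∈ W, Rch G W a b → Rch G' W' (f a) (f b))
    (hs : ∀ b ∈ W', ∃ a ∈ W, Rch G' W' (f a) b) : cc G' W' ≤ cc G W := by
  unfold cc comps
  refine le_trans (card_le_card (?_ : _ ⊆ W.image (fun x => W'.filter (fun y =>
    Rch G' W' (f x) y)))) ?_
  · intro C hC
    obtain ⟨b, hb, rfl⟩ := mem_image.1 hC
    obtain ⟨a, ha, hab⟩ := hs b hb
    exact mem_image.2 ⟨a, ha, (dc_cls_eq_iff (hf a ha) hb).2 hab⟩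
  · apply dc_card_image_le_of_factor
    intro a ha b hb hab
    exact (dc_cls_eq_iff (hf a ha) (hf b hb)).2 (h a ha b hb ((dc_cls_eq_iff ha hb).1 hab))

theorem dc_cc_eq_of_map {G G' : SimpleGraph α} {W W' : Finset α} (f : α → α)
    (hf : ∀ a ∈ W, f a ∈ W')
    (h : ∀ a ∈ W, ∀ b ∈ W, (Rch G W a b ↔ Rch G' W' (f a) (f b)))
    (hs : ∀ b ∈ W', ∃ a ∈ W, Rch G' W' (f a) b) : cc G' W' = cc G W := by
  apply le_antisymm (dc_cc_le_of_map f hf (fun a ha b hb => (h a ha b hb).1) hs)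
  unfold cc comps
  have hsub : (W.image (fun x => W'.filter (fun y => Rch G' W' (f x) y))) ⊆
      W'.image (fun x => W'.filter (fun y => Rch G' W' x y)) := by
    intro C hC
    obtain ⟨a, ha, rfl⟩ := mem_image.1 hC
    exact mem_image.2 ⟨f a, hf a ha, rfl⟩
  refine le_trans ?_ (card_le_card hsub)
  apply dc_card_image_le_of_factor
  intro a ha b hb hab
  exact (dc_cls_eq_iff ha hb).2 ((h a ha b hb).2 ((dc_cls_eq_iff (hf a ha) (hf b hb)).1 hab))

theorem dc_cc_congr {G G' : SimpleGraph α} {W : Finset α}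
    (h : ∀ a ∈ W, ∀ b ∈ W, (Rch G W a b ↔ Rch G' W a b)) : cc G' W = cc G W :=
  dc_cc_eq_of_map id (fun _ ha => ha) h (fun b hb => ⟨b, hb, Rch.refl hb⟩)

theorem dc_cc_le_erase {G : SimpleGraph α} {A : Finset α} {v w : α} (hv : v ∈ A) (hw : w ∈ A)
    (h : G.Adj v w) : cc G A ≤ cc G (A.erase v) := by
  refine dc_cc_le_of_map id (fun a ha => mem_of_mem_erase ha)
    (fun a _ b _ hab => hab.mono (erase_subset _ _)) ?_
  intro b hb
  by_cases hbv : b = v
  · subst hbv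
    exact ⟨w, mem_erase.2 ⟨h.ne', hw⟩, Rch.of_adj hw hv h.symm⟩
  · exact ⟨b, mem_erase.2 ⟨hbv, hb⟩, Rch.refl hb⟩

theorem Tgt.dcNe {G : SimpleGraph α} {V S : Finset α} (h : Tgt G V S) : S.Nonempty :=
  card_pos.1 (by have := h.card; omega)

/-- a tight subset test -/
theorem Tgt.dcOf_le {G : SimpleGraph α} {V S : Finset α} (hs : S ⊆ V) (ha : Adm G V S)
    (h2 : 2 ≤ S.card) (hc : S.card ≤ cc G (V \ S)) : Tgt G V S :=
  ⟨hs, ha, h2, le_antisymm (ha.2 S subset_rfl (card_pos.1 (by omega))) hc⟩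

/-! ### `mkF` -/

section mk
variable {G : SimpleGraph α} {V S : Finset α} {E : Finset α → Prop}

theorem dc_mem_mkF : S ∈ mkF G V E ↔ Tgt G V S ∧ E S ∧ ∀ T, T ⊆ S → Tgt G V T → E T → T = S := by
  unfold mkF
  rw [mem_filter, mem_powerset]
  exact ⟨fun h => h.2, fun h => ⟨h.1.sub, h⟩⟩

theorem dc_exists_mkF (hS : Tgt G V S) (hE : E S) : ∃ M ∈ mkF G V E, M ⊆ S := by
  obtain ⟨M, hM, hmin⟩ := Finset.exists_min_image
    (S.powerset.filter (fun T => Tgt G V T ∧ E T)) (fun T => T.card)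
    ⟨S, mem_filter.2 ⟨mem_powerset.2 subset_rfl, hS, hE⟩⟩
  rw [mem_filter, mem_powerset] at hM
  refine ⟨M, dc_mem_mkF.2 ⟨hM.2.1, hM.2.2, fun T hT hT1 hT2 => ?_⟩, hM.1⟩
  exact eq_of_subset_of_card_le hT
    (hmin T (mem_filter.2 ⟨mem_powerset.2 (hT.trans hM.1), hT1, hT2⟩))

theorem dc_up_mkF (hS : Tgt G V S) (hE : E S) : Up (mkF G V E) S := by
  obtain ⟨M, hM, h⟩ := dc_exists_mkF hS hE
  exact ⟨M, hM, h⟩

theorem Up.dcMono {F : Finset (Finset α)} {S T : Finset α} (h : Up F S) (hST : S ⊆ T) : Up F T := by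
  obtain ⟨M, hM, h'⟩ := h
  exact ⟨M, hM, h'.trans hST⟩

/-- allowed sets: admissible and not above a member -/
def dc_Al (G : SimpleGraph α) (V : Finset α) (F : Finset (Finset α)) (S : Finset α) : Prop :=
  Adm G V S ∧ ¬ Up F S

theorem dc_Al.dcSub {F : Finset (Finset α)} {S T : Finset α} (h : dc_Al G V F S) (hT : T ⊆ S) :
    dc_Al G V F T := ⟨h.1.sub hT, fun h' => h.2 (h'.dcMono hT)⟩

end mk

/-! ### the deletion `X = G - uv` -/

section del
variable {G : SimpleGraph α} {V W S T : Finset α} {u v a b : α} {F : Finset (Finset α)}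

theorem dc_delE_adj_iff :
    (delE G u v).Adj a b ↔ G.Adj a b ∧ ¬ (a = u ∧ b = v) ∧ ¬ (a = v ∧ b = u) := by
  unfold delE
  rw [SimpleGraph.fromRel_adj]
  constructor
  · rintro ⟨hne, h | h⟩
    · exact h
    · exact ⟨h.1.symm, fun h' => h.2.2 ⟨h'.2, h'.1⟩, fun h' => h.2.1 ⟨h'.2, h'.1⟩⟩
  · intro h
    exact ⟨h.1.ne, Or.inl h⟩

theorem dc_rch_del_le (h : Rch (delE G u v) W a b) : Rch G W a b := by
  have := h.dcTransport (G' := G) (W' := W) id (fun _ h => h)
    (fun a ha b hb hab => Rch.of_adj ha hb (dc_delE_adj_iff.1 hab).1)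
  exact this

theorem dc_rch_del_iff_of_not (h : ¬ (u ∈ W ∧ v ∈ W)) : Rch (delE G u v) W a b ↔ Rch G W a b := by
  refine ⟨dc_rch_del_le, fun hab => ?_⟩
  have := hab.dcTransport (G' := delE G u v) (W' := W) id (fun _ h => h)
    (fun a ha b hb hab => Rch.of_adj ha hb (dc_delE_adj_iff.2 ⟨hab, ?_, ?_⟩))
  · exact this
  · rintro ⟨rfl, rfl⟩; exact h ⟨ha, hb⟩
  · rintro ⟨rfl, rfl⟩; exact h ⟨hb, ha⟩

theorem dc_rch_del_iff_of_rch (h : Rch (delE G u v) W u v) :
    Rch (delE G u v) W a b ↔ Rch G W a b := by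
  refine ⟨dc_rch_del_le, fun hab => ?_⟩
  have := hab.dcTransport (G' := delE G u v) (W' := W) id (fun _ h => h) ?_
  · exact this
  intro a ha b hb hab
  by_cases h1 : a = u ∧ b = v
  · rw [h1.1, h1.2]; exact h
  by_cases h2 : a = v ∧ b = u
  · rw [h2.1, h2.2]; exact h.symm
  exact Rch.of_adj ha hb (dc_delE_adj_iff.2 ⟨hab, h1, h2⟩)

theorem dc_cc_del_le : cc G W ≤ cc (delE G u v) W :=
  dc_cc_le_of_map id (fun _ h => h) (fun _ _ _ _ h => dc_rch_del_le h)
    (fun b hb => ⟨b, hb, Rch.refl hb⟩)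

theorem dc_cc_del_eq_of_not (h : ¬ (u ∈ W ∧ v ∈ W)) : cc (delE G u v) W = cc G W :=
  dc_cc_congr (fun _ _ _ _ => (dc_rch_del_iff_of_not h).symm)

theorem dc_cc_del_eq_of_rch (h : Rch (delE G u v) W u v) : cc (delE G u v) W = cc G W :=
  dc_cc_congr (fun _ _ _ _ => (dc_rch_del_iff_of_rch h).symm)

theorem dc_rch_del_or (h : Rch G W a b) : Rch (delE G u v) W a b ∨
    (Rch (delE G u v) W a u ∧ Rch (delE G u v) W v b) ∨
    (Rch (delE G u v) W a v ∧ Rch (delE G u v) W u b) := by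
  obtain ⟨hx, hy, hr⟩ := h
  clear hy
  induction hr with
  | refl => exact Or.inl (Rch.refl hx)
  | @tail b c _ hbc ih =>
    by_cases h1 : b = u ∧ c = v
    · obtain ⟨rfl, rfl⟩ := h1
      rcases ih with h | h | h
      · exact Or.inr (Or.inl ⟨h, Rch.refl hbc.2.2⟩)
      · exact Or.inr (Or.inl ⟨h.1, Rch.refl hbc.2.2⟩)
      · exact Or.inl h.1
    by_cases h2 : b = v ∧ c = u
    · obtain ⟨rfl, rfl⟩ := h2
      rcases ih with h | h | h
      · exact Or.inr (Or.inr ⟨h, Rch.refl hbc.2.2⟩)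
      · exact Or.inl h.1
      · exact Or.inr (Or.inr ⟨h.1, Rch.refl hbc.2.2⟩)
    have hadj : Rch (delE G u v) W b c := Rch.of_adj hbc.2.1 hbc.2.2
      (dc_delE_adj_iff.2 ⟨hbc.1, h1, h2⟩)
    rcases ih with h | h | h
    · exact Or.inl (h.trans hadj)
    · exact Or.inr (Or.inl ⟨h.1, h.2.trans hadj⟩)
    · exact Or.inr (Or.inr ⟨h.1, h.2.trans hadj⟩)

theorem dc_cc_del_le_succ : cc (delE G u v) W ≤ cc G W + 1 := by
  by_cases hu : u ∈ W
  swap
  · rw [dc_cc_del_eq_of_not (fun h => hu h.1)]; omega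
  -- remove the class of `u`
  have h1 : (comps (delE G u v) W).card ≤
      ((comps (delE G u v) W).erase (W.filter (fun y => Rch (delE G u v) W u y))).card + 1 := by
    have := Finset.pred_card_le_card_erase (s := comps (delE G u v) W)
      (a := W.filter (fun y => Rch (delE G u v) W u y))
    omega
  have h2 : ((comps (delE G u v) W).erase
      (W.filter (fun y => Rch (delE G u v) W u y))).card ≤ cc G W := by
    set A := W.filter (fun x => ¬ Rch (delE G u v) W u x) with hA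
    have h3 : (comps (delE G u v) W).erase (W.filter (fun y => Rch (delE G u v) W u y)) ⊆
        A.image (fun x => W.filter (fun y => Rch (delE G u v) W x y)) := by
      intro C hC
      obtain ⟨hne, hC⟩ := mem_erase.1 hC
      obtain ⟨x, hx, rfl⟩ := mem_image.1 hC
      refine mem_image.2 ⟨x, ?_, rfl⟩
      rw [hA, mem_filter]
      refine ⟨hx, fun h => hne ?_⟩
      exact (dc_cls_eq_iff hx hu).2 h.symm
    have h4 : A.image (fun x => W.filter (fun y => Rch G W x y)) ⊆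
        W.image (fun x => W.filter (fun y => Rch G W x y)) :=
      image_subset_image (filter_subset _ _)
    refine le_trans (card_le_card h3) (le_trans ?_ (card_le_card h4))
    apply dc_card_image_le_of_factor
    intro a ha b hb hab
    rw [hA, mem_filter] at ha hb
    have h5 := (dc_cls_eq_iff ha.1 hb.1).1 hab
    refine (dc_cls_eq_iff ha.1 hb.1).2 ?_
    rcases dc_rch_del_or (u := u) (v := v) h5 with h | h | h
    · exact h
    · exact absurd h.1.symm ha.2
    · exact absurd h.2 hb.2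
  unfold cc at *
  omega

theorem dc_cc_del_lt (hu : u ∈ W) (hv : v ∈ W) (huv : G.Adj u v)
    (h : ¬ Rch (delE G u v) W u v) : cc G W < cc (delE G u v) W := by
  set A := W.filter (fun x => ¬ Rch (delE G u v) W u x) with hA
  have hvA : v ∈ A := by rw [hA, mem_filter]; exact ⟨hv, h⟩
  have h1 : comps G W ⊆ A.image (fun x => W.filter (fun y => Rch G W x y)) := by
    intro C hC
    obtain ⟨b, hb, rfl⟩ := mem_image.1 hC
    by_cases hub : Rch (delE G u v) W u b
    · refine mem_image.2 ⟨v, hvA, (dc_cls_eq_iff hv hb).2 ?_⟩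
      exact (Rch.of_adj hv hu huv.symm).trans (dc_rch_del_le hub)
    · exact mem_image.2 ⟨b, by rw [hA, mem_filter]; exact ⟨hb, hub⟩, rfl⟩
  have h2 : (A.image (fun x => W.filter (fun y => Rch G W x y))).card ≤
      (A.image (fun x => W.filter (fun y => Rch (delE G u v) W x y))).card := by
    apply dc_card_image_le_of_factor
    intro a ha b hb hab
    rw [hA, mem_filter] at ha hb
    exact (dc_cls_eq_iff ha.1 hb.1).2 (dc_rch_del_le ((dc_cls_eq_iff ha.1 hb.1).1 hab))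
  have h3 : A.image (fun x => W.filter (fun y => Rch (delE G u v) W x y)) ⊆
      (comps (delE G u v) W).erase (W.filter (fun y => Rch (delE G u v) W u y)) := by
    intro C hC
    obtain ⟨a, ha, rfl⟩ := mem_image.1 hC
    rw [hA, mem_filter] at ha
    refine mem_erase.2 ⟨fun he => ha.2 ((dc_cls_eq_iff ha.1 hu).1 he).symm, mem_image_of_mem _ ha.1⟩
  have h4 : W.filter (fun y => Rch (delE G u v) W u y) ∈ comps (delE G u v) W :=
    mem_image_of_mem _ hu
  have h5 := card_erase_lt_of_mem h4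
  have h6 := card_le_card h1
  have h7 := card_le_card h3
  unfold cc
  omega

theorem dc_stb_del_iff (h : ¬ (u ∈ S ∧ v ∈ S)) : Stb (delE G u v) S ↔ Stb G S := by
  constructor
  · intro hs x hx y hy hxy
    refine hs x hx y hy (dc_delE_adj_iff.2 ⟨hxy, ?_, ?_⟩)
    · rintro ⟨rfl, rfl⟩; exact h ⟨hx, hy⟩
    · rintro ⟨rfl, rfl⟩; exact h ⟨hy, hx⟩
  · intro hs x hx y hy hxy
    exact hs x hx y hy (dc_delE_adj_iff.1 hxy).1

theorem dc_adm_of_del (h : ¬ (u ∈ S ∧ v ∈ S)) (hS : Adm (delE G u v) V S) : Adm G V S :=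
  ⟨(dc_stb_del_iff h).1 hS.1, fun T hT hn => dc_cc_del_le.trans (hS.2 T hT hn)⟩

end del

/-! ### the contraction `Y = G / uv` -/

section con
variable {G : SimpleGraph α} {V W A S T : Finset α} {u v a b : α} {F : Finset (Finset α)}

theorem dc_con_adj_iff : (idn G {u, v} u).Adj a b ↔
    a ≠ b ∧ (G.Adj a b ∨ (a = u ∧ G.Adj v b) ∨ (b = u ∧ G.Adj v a)) := by
  unfold idn
  rw [SimpleGraph.fromRel_adj]
  constructor
  · rintro ⟨hne, (h | ⟨rfl, c, hc, h⟩) | (h | ⟨rfl, c, hc, h⟩)⟩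
    · exact ⟨hne, Or.inl h⟩
    · simp only [mem_insert, mem_singleton] at hc
      rcases hc with rfl | rfl
      · exact ⟨hne, Or.inl h⟩
      · exact ⟨hne, Or.inr (Or.inl ⟨rfl, h⟩)⟩
    · exact ⟨hne, Or.inl h.symm⟩
    · simp only [mem_insert, mem_singleton] at hc
      rcases hc with rfl | rfl
      · exact ⟨hne, Or.inl h.symm⟩
      · exact ⟨hne, Or.inr (Or.inr ⟨rfl, h⟩)⟩
  · rintro ⟨hne, h | ⟨rfl, h⟩ | ⟨rfl, h⟩⟩
    · exact ⟨hne, Or.inl (Or.inl h)⟩
    · exact ⟨hne, Or.inl (Or.inr ⟨rfl, v, by simp, h⟩)⟩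
    · exact ⟨hne, Or.inr (Or.inr ⟨rfl, v, by simp, h⟩)⟩

/-- the projection -/
def dc_pr (u v x : α) : α := if x = v then u else x

theorem dc_pr_self : dc_pr u v v = u := by simp [dc_pr]
theorem dc_pr_ne (h : a ≠ v) : dc_pr u v a = a := by simp [dc_pr, h]

theorem dc_rch_con_of (hu : u ∈ A) (huv : u ≠ v) (h : Rch G A a b) :
    Rch (idn G {u, v} u) (A.erase v) (dc_pr u v a) (dc_pr u v b) := by
  refine h.dcTransport (dc_pr u v) ?_ ?_
  · intro x hx
    by_cases h : x = v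
    · subst h; rw [dc_pr_self]; exact mem_erase.2 ⟨huv, hu⟩
    · rw [dc_pr_ne h]; exact mem_erase.2 ⟨h, hx⟩
  · intro x hx y hy hxy
    by_cases h : x = v
    · subst h
      rw [dc_pr_self, dc_pr_ne hxy.ne']
      by_cases h' : y = u
      · subst h'; exact Rch.refl (mem_erase.2 ⟨huv, hu⟩)
      · exact Rch.of_adj (mem_erase.2 ⟨huv, hu⟩) (mem_erase.2 ⟨hxy.ne', hy⟩)
          (dc_con_adj_iff.2 ⟨fun e => h' e.symm, Or.inr (Or.inl ⟨rfl, hxy⟩)⟩)
    · by_cases h2 : y = v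
      · subst h2
        rw [dc_pr_self, dc_pr_ne h]
        by_cases h' : x = u
        · subst h'; exact Rch.refl (mem_erase.2 ⟨huv, hu⟩)
        · exact Rch.of_adj (mem_erase.2 ⟨h, hx⟩) (mem_erase.2 ⟨huv, hu⟩)
            (dc_con_adj_iff.2 ⟨h', Or.inr (Or.inr ⟨rfl, hxy.symm⟩)⟩)
      · rw [dc_pr_ne h, dc_pr_ne h2]
        exact Rch.of_adj (mem_erase.2 ⟨h, hx⟩) (mem_erase.2 ⟨h2, hy⟩)
          (dc_con_adj_iff.2 ⟨hxy.ne, Or.inl hxy⟩)

theorem dc_rch_of_con (hu : u ∈ A) (hv : v ∈ A) (huv : G.Adj u v)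
    (hab : Rch (idn G {u, v} u) (A.erase v) a b) : Rch G A a b := by
  have := hab.dcTransport (G' := G) (W' := A) id (fun _ h => mem_of_mem_erase h) ?_
  · exact this
  intro x hx y hy hxy
  have hx' := mem_of_mem_erase hx
  have hy' := mem_of_mem_erase hy
  obtain ⟨hne, h | ⟨rfl, h⟩ | ⟨rfl, h⟩⟩ := dc_con_adj_iff.1 hxy
  · exact Rch.of_adj hx' hy' h
  · exact (Rch.of_adj hu hv huv).trans (Rch.of_adj hv hy' h)
  · exact (Rch.of_adj hx' hv h.symm).trans (Rch.of_adj hv hu huv.symm)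

theorem dc_rch_con_iff (hu : u ∈ A) (hv : v ∈ A) (huv : G.Adj u v) (ha : a ≠ v) (hb : b ≠ v) :
    Rch (idn G {u, v} u) (A.erase v) a b ↔ Rch G A a b := by
  refine ⟨dc_rch_of_con hu hv huv, fun h => ?_⟩
  have := dc_rch_con_of hu huv.ne h
  rwa [dc_pr_ne ha, dc_pr_ne hb] at this

theorem dc_rch_con_iff_of_not (hu : u ∉ A) : Rch (idn G {u, v} u) A a b ↔ Rch G A a b := by
  constructor
  · intro h
    have := h.dcTransport (G' := G) (W' := A) id (fun _ h => h) ?_
    · exact this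
    intro x hx y hy hxy
    obtain ⟨hne, h | ⟨rfl, h⟩ | ⟨rfl, h⟩⟩ := dc_con_adj_iff.1 hxy
    · exact Rch.of_adj hx hy h
    · exact absurd hx hu
    · exact absurd hy hu
  · intro h
    have := h.dcTransport (G' := idn G {u, v} u) (W' := A) id (fun _ h => h) ?_
    · exact this
    intro x hx y hy hxy
    exact Rch.of_adj hx hy (dc_con_adj_iff.2 ⟨hxy.ne, Or.inl hxy⟩)

theorem dc_cc_con_eq (hu : u ∈ A) (hv : v ∈ A) (huv : G.Adj u v) :
    cc (idn G {u, v} u) (A.erase v) = cc G A := by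
  symm
  refine dc_cc_eq_of_map id (fun _ h => mem_of_mem_erase h) ?_ ?_
  · intro a ha b hb
    exact dc_rch_con_iff hu hv huv (ne_of_mem_erase ha) (ne_of_mem_erase hb)
  · intro b hb
    by_cases h : b = v
    · subst h
      exact ⟨u, mem_erase.2 ⟨huv.ne, hu⟩, Rch.of_adj hu hv huv⟩
    · exact ⟨b, mem_erase.2 ⟨h, hb⟩, Rch.refl hb⟩

theorem dc_cc_con_eq_of_not (hu : u ∉ A) : cc (idn G {u, v} u) A = cc G A :=
  dc_cc_congr (fun _ _ _ _ => (dc_rch_con_iff_of_not hu).symm)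

theorem dc_stb_con_of_not (hu : u ∉ S) : Stb (idn G {u, v} u) S ↔ Stb G S := by
  constructor
  · intro h x hx y hy hxy
    exact h x hx y hy (dc_con_adj_iff.2 ⟨hxy.ne, Or.inl hxy⟩)
  · intro h x hx y hy hxy
    obtain ⟨hne, h' | ⟨rfl, h'⟩ | ⟨rfl, h'⟩⟩ := dc_con_adj_iff.1 hxy
    · exact h x hx y hy h'
    · exact hu hx
    · exact hu hy

theorem dc_stb_con_iff (hu : u ∈ S) (hv : v ∉ S) :
    Stb (idn G {u, v} u) S ↔ Stb (delE G u v) (insert v S) := by
  constructor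
  · intro h x hx y hy hxy
    obtain ⟨hxy', h1, h2⟩ := dc_delE_adj_iff.1 hxy
    rcases mem_insert.1 hx with hxv | hxS <;> rcases mem_insert.1 hy with hyv | hyS
    · exact hxy'.ne (hxv.trans hyv.symm)
    · have hyu : y ≠ u := fun e => h2 ⟨hxv, e⟩
      exact h u hu y hyS (dc_con_adj_iff.2 ⟨hyu.symm, Or.inr (Or.inl ⟨rfl, hxv ▸ hxy'⟩)⟩)
    · have hxu : x ≠ u := fun e => h1 ⟨e, hyv⟩
      exact h x hxS u hu (dc_con_adj_iff.2 ⟨hxu, Or.inr (Or.inr ⟨rfl, hyv ▸ hxy'.symm⟩)⟩)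
    · exact h x hxS y hyS (dc_con_adj_iff.2 ⟨hxy'.ne, Or.inl hxy'⟩)
  · intro h x hx y hy hxy
    have hxv : x ≠ v := fun e => hv (e ▸ hx)
    have hyv : y ≠ v := fun e => hv (e ▸ hy)
    obtain ⟨hne, h' | ⟨rfl, h'⟩ | ⟨rfl, h'⟩⟩ := dc_con_adj_iff.1 hxy
    · exact h x (mem_insert_of_mem hx) y (mem_insert_of_mem hy)
        (dc_delE_adj_iff.2 ⟨h', fun e => hyv e.2, fun e => hxv e.1⟩)
    · exact h v (mem_insert_self _ _) y (mem_insert_of_mem hy)
        (dc_delE_adj_iff.2 ⟨h', fun e => hyv e.2, fun e => hne e.2.symm⟩)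
    · exact h v (mem_insert_self _ _) x (mem_insert_of_mem hx)
        (dc_delE_adj_iff.2 ⟨h', fun e => hxv e.2, fun e => hne e.2⟩)

end con

/-! ### connectivity of the minors -/

section conn
variable {G : SimpleGraph α} {V S T : Finset α} {u v p q : α} {F : Finset (Finset α)}

theorem ThreeC.dcConn' (h3 : ThreeC G V) (hp : p ∈ V) (hq : q ∈ V) {a b : α} (ha : a ∈ V)
    (hb : b ∈ V) (hap : a ≠ p) (haq : a ≠ q) (hbp : b ≠ p) (hbq : b ≠ q) :
    Rch G (V \ {p, q}) a b := by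
  refine (h3.conn p hp q hq).2 a ?_ b ?_
  · simp [ha, hap, haq]
  · simp [hb, hbp, hbq]

theorem ThreeC.dcExists_nb (h3 : ThreeC G V) (hu : u ∈ V) (hp : p ∈ V) (hq : q ∈ V)
    (hup : u ≠ p) (huq : u ≠ q) : ∃ w ∈ V, w ≠ p ∧ w ≠ q ∧ w ≠ u ∧ G.Adj u w := by
  have h1 := (conn_iff_cut.1 (h3.conn p hp q hq)).2 {u} (by simp [hu, hup, huq]) (by simp) (by
    intro he
    have h4 := h3.card
    have h5 := card_le_card (show V ⊆ {u} ∪ {p, q} by
      rw [he]; intro z hz; by_cases hz' : z ∈ ({p, q} : Finset α)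
      · exact mem_union_right _ hz'
      · exact mem_union_left _ (mem_sdiff.2 ⟨hz, hz'⟩))
    have h6 := card_union_le ({u} : Finset α) {p, q}
    have h7 := card_le_two (a := p) (b := q)
    rw [card_singleton] at h6
    omega)
  obtain ⟨x, hx, w, hw, hxw⟩ := h1
  rw [mem_singleton] at hx
  subst hx
  simp only [mem_sdiff, mem_insert, mem_singleton, not_or] at hw
  exact ⟨w, hw.1.1, hw.1.2.1, hw.1.2.2, hw.2, hxw⟩

theorem dc_rch_del_three (h3 : ThreeC G V) (hu : u ∈ V) (hv : v ∈ V) (hne : u ≠ v) {x : α}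
    (hx : x ∈ V) (hxu : x ≠ u) (hxv : x ≠ v) : Rch (delE G u v) (V \ {u, x} ∪ {u}) u v := by
  obtain ⟨w, hw, hwv, hwx, hwu, huw⟩ := h3.dcExists_nb hu hv hx hne hxu.symm
  have h1 : Rch G (V \ {u, x}) w v := h3.dcConn' hu hx hw hv hwu hwx hne.symm hxv.symm
  have h2 : Rch (delE G u v) (V \ {u, x}) w v := (dc_rch_del_iff_of_not (by simp)).2 h1
  have h3' : Rch (delE G u v) (V \ {u, x} ∪ {u}) u w := by
    refine Rch.of_adj (by simp) ?_ (dc_delE_adj_iff.2 ⟨huw, fun e => hwv e.2, fun e => hwu e.2⟩)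
    simp [hw, hwu, hwx]
  exact h3'.trans (h2.mono subset_union_left)

theorem ThreeC.dcExists_third (h3 : ThreeC G V) (u v : α) : ∃ x ∈ V, x ≠ u ∧ x ≠ v := by
  by_contra hcon
  push Not at hcon
  have h4 := h3.card
  have h5 : V ⊆ {u, v} := by
    intro x hx
    by_cases h : x = u
    · simp [h]
    · simp [hcon x hx h]
  have h6 := card_le_card h5
  have h7 := card_le_two (a := u) (b := v)
  omega

theorem dc_twoC_del (h3 : ThreeC G V) (hu : u ∈ V) (hv : v ∈ V) (hne : u ≠ v) :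
    TwoC (delE G u v) V := by
  have h2 := h3.twoC
  refine ⟨h2.card, ⟨h2.conn.1, ?_⟩, ?_⟩
  · intro a ha b hb
    obtain ⟨x, hx, hxu, hxv⟩ := h3.dcExists_third u v
    have h4 : Rch (delE G u v) V u v := (dc_rch_del_three h3 hu hv hne hx hxu hxv).mono (by
      intro z hz
      rcases mem_union.1 hz with h | h
      · exact (mem_sdiff.1 h).1
      · rw [mem_singleton.1 h]; exact hu)
    exact (dc_rch_del_iff_of_rch h4).2 (h2.conn.2 a ha b hb)
  · intro x hx
    have hc := h2.erase x hx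
    refine ⟨hc.1, fun a ha b hb => ?_⟩
    by_cases hxu : x = u
    · subst hxu
      exact (dc_rch_del_iff_of_not (by simp)).2 (hc.2 a ha b hb)
    by_cases hxv : x = v
    · subst hxv
      exact (dc_rch_del_iff_of_not (by simp)).2 (hc.2 a ha b hb)
    have h4 : Rch (delE G u v) (V.erase x) u v := (dc_rch_del_three h3 hu hv hne hx hxu hxv).mono (by
      intro z hz
      rcases mem_union.1 hz with h | h
      · simp only [mem_sdiff, mem_insert, mem_singleton, not_or] at h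
        exact mem_erase.2 ⟨h.2.2, h.1⟩
      · rw [mem_singleton.1 h]; exact mem_erase.2 ⟨fun e => hxu e.symm, hu⟩)
    exact (dc_rch_del_iff_of_rch h4).2 (hc.2 a ha b hb)

theorem dc_twoC_con (h3 : ThreeC G V) (hu : u ∈ V) (hv : v ∈ V) (huv : G.Adj u v) :
    TwoC (idn G {u, v} u) (V.erase v) := by
  have h2 := h3.twoC
  have h4 := h3.card
  have hne := huv.ne
  refine ⟨?_, ⟨⟨u, mem_erase.2 ⟨hne, hu⟩⟩, ?_⟩, ?_⟩
  · rw [card_erase_of_mem hv]; omega
  · intro a ha b hb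
    exact (dc_rch_con_iff hu hv huv (ne_of_mem_erase ha) (ne_of_mem_erase hb)).2
      (h2.conn.2 a (mem_of_mem_erase ha) b (mem_of_mem_erase hb))
  · intro z hz
    obtain ⟨hzv, hz⟩ := mem_erase.1 hz
    obtain ⟨x, hx, hxz, hxv⟩ := h3.dcExists_third z v
    refine ⟨⟨x, by simp [hx, hxz, hxv]⟩, fun a ha b hb => ?_⟩
    simp only [mem_erase] at ha hb
    by_cases hzu : z = u
    · subst hzu
      refine (dc_rch_con_iff_of_not (by simp)).2 ?_
      exact (h3.dcConn' hz hv ha.2.2 hb.2.2 ha.1 ha.2.1 hb.1 hb.2.1).mono (by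
        intro y hy; simp only [mem_sdiff, mem_insert, mem_singleton, not_or] at hy
        simp [hy])
    · rw [erase_right_comm]
      refine (dc_rch_con_iff (mem_erase.2 ⟨fun e => hzu e.symm, hu⟩)
        (mem_erase.2 ⟨fun e => hzv e.symm, hv⟩) huv ha.2.1 hb.2.1).2 ?_
      exact (h2.erase z hz).2 a (mem_erase.2 ⟨ha.1, ha.2.2⟩) b (mem_erase.2 ⟨hb.1, hb.2.2⟩)

end conn

/-! ### allowed sets -/

section allowed
variable {G : SimpleGraph α} {V S T M : Finset α} {u v : α} {F : Finset (Finset α)}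

theorem dc_cc_del_le_of_avoid (h3 : ThreeC G V) (hob : ∀ D, Free G V F D → u ∈ D ∨ v ∈ D)
    (hu : u ∈ V) (hv : v ∈ V) (huv : u ≠ v) (hT : T ⊆ V) (hTn : T.Nonempty) (hA : dc_Al G V F T)
    (h : ¬ (u ∈ T ∨ v ∈ T)) : cc (delE G u v) (V \ T) ≤ T.card := by
  by_contra hcon
  have h1 := dc_cc_del_le_succ (G := G) (u := u) (v := v) (W := V \ T)
  have h2 := hA.1.2 T subset_rfl hTn
  rcases Nat.lt_or_ge T.card 2 with h4 | h4
  · have h5 : T.card = 1 := by have := hTn.card_pos; omega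
    obtain ⟨t, rfl⟩ := card_eq_one.1 h5
    have htV : t ∈ V := hT (mem_singleton_self t)
    have h6 := cc_eq_one_iff.2 ((dc_twoC_del h3 hu hv huv).erase t htV)
    rw [sdiff_singleton_eq_erase] at hcon
    rw [h6] at hcon
    simp at hcon
  · exact h (hob T ⟨Tgt.dcOf_le hT hA.1 h4 (by omega), hA.2⟩)

theorem dc_not_both (h : u ∈ T ∨ v ∈ T) : ¬ (u ∈ V \ T ∧ v ∈ V \ T) := by
  rintro ⟨h1, h2⟩
  rcases h with h | h
  · exact (mem_sdiff.1 h1).2 h
  · exact (mem_sdiff.1 h2).2 h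

/-- (B1) -/
theorem al_del_iff (h3 : ThreeC G V) (hF : NCF G V F)
    (hob : ∀ D, Free G V F D → u ∈ D ∨ v ∈ D)
    (hu : u ∈ V) (hv : v ∈ V) (huv : G.Adj u v) (hS : S ⊆ V) :
    dc_Al G V F S ↔ dc_Al (delE G u v) V (delF G V F u v) S ∧ ¬ (u ∈ S ∧ v ∈ S) := by
  constructor
  · intro hA
    have hnb : ¬ (u ∈ S ∧ v ∈ S) := fun h => hA.1.1 u h.1 v h.2 huv
    refine ⟨⟨⟨(dc_stb_del_iff hnb).2 hA.1.1, fun T hT hn => ?_⟩, ?_⟩, hnb⟩
    · by_cases h : u ∈ T ∨ v ∈ T
      · rw [dc_cc_del_eq_of_not (dc_not_both h)]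
        exact hA.1.2 T hT hn
      · exact dc_cc_del_le_of_avoid h3 hob hu hv huv.ne (hT.trans hS) hn (hA.dcSub hT) h
    · rintro ⟨M, hM, hMS⟩
      obtain ⟨hMt, hME, -⟩ := dc_mem_mkF.1 hM
      rcases hME with h | h
      · exact hA.2 (h.dcMono hMS)
      · exact hnb ⟨hMS h.1, hMS h.2⟩
  · rintro ⟨hX, hnb⟩
    refine ⟨dc_adm_of_del hnb hX.1, ?_⟩
    rintro ⟨M, hM, hMS⟩
    apply hX.2
    have hMG := hF.tgt M hM
    have h4 : Tgt (delE G u v) V M :=
      Tgt.dcOf_le hMG.sub (hX.1.sub hMS) hMG.card (hMG.eq ▸ dc_cc_del_le)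
    exact (dc_up_mkF h4 (Or.inl ⟨M, hM, subset_rfl⟩)).dcMono hMS

theorem dc_erase_sdiff_eq : (V.erase v) \ T = (V \ T).erase v := by
  ext z; simp only [mem_sdiff, mem_erase]; tauto

theorem dc_erase_sdiff_insert : (V.erase v) \ T = V \ insert v T := by
  ext z; simp only [mem_sdiff, mem_erase, mem_insert]; tauto

theorem dc_cc_con_avoid (hu : u ∈ V) (hv : v ∈ V) (huv : G.Adj u v) (h1 : u ∉ T) (h2 : v ∉ T) :
    cc (idn G {u, v} u) (V.erase v \ T) = cc G (V \ T) := by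
  rw [dc_erase_sdiff_eq]
  exact dc_cc_con_eq (mem_sdiff.2 ⟨hu, h1⟩) (mem_sdiff.2 ⟨hv, h2⟩) huv

theorem dc_cc_con_mem (h1 : u ∈ T) :
    cc (idn G {u, v} u) (V.erase v \ T) = cc (delE G u v) (V \ insert v T) := by
  rw [dc_erase_sdiff_insert, dc_cc_con_eq_of_not (by simp [h1]), dc_cc_del_eq_of_not (by simp)]

/-- (B2), first form -/
theorem dc_al_con_iff (hF : NCF G V F) (hu : u ∈ V) (hv : v ∈ V) (huv : G.Adj u v)
    (hS : S ⊆ V.erase v) (huS : u ∉ S) :
    dc_Al (idn G {u, v} u) (V.erase v) (idnF G F {u, v} u (V.erase v)) S ↔ dc_Al G V F S := by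
  have hvS : v ∉ S := fun h => (mem_erase.1 (hS h)).1 rfl
  have hadm : ∀ T, T ⊆ S → (Adm (idn G {u, v} u) (V.erase v) T ↔ Adm G V T) := by
    intro T hT
    unfold Adm
    rw [dc_stb_con_of_not (fun h => huS (hT h))]
    refine and_congr_right (fun _ => ?_)
    refine forall₂_congr (fun R hR => ?_)
    rw [dc_cc_con_avoid hu hv huv (fun h => huS (hT (hR h))) (fun h => hvS (hT (hR h)))]
  constructor
  · rintro ⟨h1, h2⟩
    refine ⟨(hadm S subset_rfl).1 h1, ?_⟩
    rintro ⟨M, hM, hMS⟩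
    apply h2
    have hMG := hF.tgt M hM
    have huM : u ∉ M := fun h => huS (hMS h)
    have hvM : v ∉ M := fun h => hvS (hMS h)
    have h4 : Tgt (idn G {u, v} u) (V.erase v) M :=
      ⟨hMS.trans hS, h1.sub hMS, hMG.card, by rw [dc_cc_con_avoid hu hv huv huM hvM]; exact hMG.eq⟩
    refine (dc_up_mkF h4 ?_).dcMono hMS
    rw [if_neg huM]
    exact ⟨M, hM, subset_rfl⟩
  · rintro ⟨h1, h2⟩
    refine ⟨(hadm S subset_rfl).2 h1, ?_⟩
    rintro ⟨M, hM, hMS⟩
    obtain ⟨hMt, hME, -⟩ := dc_mem_mkF.1 hM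
    rw [if_neg (fun h => huS (hMS h))] at hME
    exact h2 (hME.dcMono hMS)

/-- (B2) -/
theorem al_con_iff_del (h3 : ThreeC G V) (hF : NCF G V F)
    (hob : ∀ D, Free G V F D → u ∈ D ∨ v ∈ D)
    (hu : u ∈ V) (hv : v ∈ V) (huv : G.Adj u v) (hS : S ⊆ V.erase v) (huS : u ∉ S) :
    dc_Al (idn G {u, v} u) (V.erase v) (idnF G F {u, v} u (V.erase v)) S ↔
      dc_Al (delE G u v) V (delF G V F u v) S := by
  rw [dc_al_con_iff hF hu hv huv hS huS, al_del_iff h3 hF hob hu hv huv (hS.trans (erase_subset _ _))]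
  exact ⟨fun h => h.1, fun h => ⟨h, fun h' => huS h'.1⟩⟩

/-- the representative in the contraction -/
def dc_bar (u v : α) (T : Finset α) : Finset α := (insert u T).erase v

theorem dc_card_bar_le (huv : u ≠ v) (h : u ∈ T ∨ v ∈ T) : (dc_bar u v T).card ≤ T.card := by
  unfold dc_bar
  by_cases hu : u ∈ T
  · rw [insert_eq_of_mem hu]; exact card_erase_le
  · have hv : v ∈ T := h.resolve_left hu
    rw [card_erase_of_mem (mem_insert_of_mem hv), card_insert_of_notMem hu]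
    omega

theorem dc_card_bar_lt (hu : u ∈ T) (hv : v ∈ T) : (dc_bar u v T).card < T.card := by
  unfold dc_bar
  rw [insert_eq_of_mem hu]; exact card_erase_lt_of_mem hv

theorem dc_mem_bar (huv : u ≠ v) : u ∈ dc_bar u v T := by
  unfold dc_bar; simp [huv]

theorem dc_bar_sub (hS : T ⊆ insert v S) (hu : u ∈ S) : dc_bar u v T ⊆ S := by
  intro z hz
  unfold dc_bar at hz
  obtain ⟨h1, h2⟩ := mem_erase.1 hz
  rcases mem_insert.1 h2 with rfl | h
  · exact hu
  · exact (mem_insert.1 (hS h)).resolve_left h1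

theorem dc_sub_bar : T ⊆ {u, v} ∪ dc_bar u v T := by
  intro z hz
  unfold dc_bar
  simp only [mem_union, mem_insert, mem_singleton, mem_erase]
  tauto

/-- (CY) -/
theorem dc_cc_del_le_con (h3 : ThreeC G V) (hu : u ∈ V) (hv : v ∈ V) (huv : G.Adj u v)
    (huS : u ∈ S) (hst : Stb (delE G u v) (insert v S)) (hT : T ⊆ insert v S) :
    cc (delE G u v) (V \ T) ≤ cc (idn G {u, v} u) (V.erase v \ dc_bar u v T) := by
  have hne := huv.ne
  rw [dc_cc_con_mem (dc_mem_bar hne)]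
  obtain ⟨x, hx, hxu, hxv⟩ := h3.dcExists_third u v
  have key : ∀ R, R ⊆ insert v S → ∀ p, (p = u ∨ p = v) →
      cc (delE G u v) (V \ R) ≤ cc (delE G u v) (V \ insert p R) := by
    intro R hR p hp
    have hpS : p ∈ insert v S := by
      rcases hp with rfl | rfl
      · exact mem_insert_of_mem huS
      · exact mem_insert_self _ _
    have hpV : p ∈ V := by rcases hp with rfl | rfl; exacts [hu, hv]
    by_cases hpR : p ∈ R
    · rw [insert_eq_of_mem hpR]
    have h4 : ∃ w ∈ V, (delE G u v).Adj p w := by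
      rcases hp with rfl | rfl
      · obtain ⟨w, hw, hwv, hwx, hwu, huw⟩ := h3.dcExists_nb hu hv hx hne hxu.symm
        exact ⟨w, hw, dc_delE_adj_iff.2 ⟨huw, fun e => hwv e.2, fun e => hwu e.2⟩⟩
      · obtain ⟨w, hw, hwv, hwx, hwu, huw⟩ := h3.dcExists_nb hv hu hx hne.symm hxv.symm
        exact ⟨w, hw, dc_delE_adj_iff.2 ⟨huw, fun e => hwu e.2, fun e => hwv e.2⟩⟩
    obtain ⟨w, hw, hpw⟩ := h4
    have hwR : w ∉ R := fun h => hst p hpS w (hR h) hpw
    have h5 := dc_cc_le_erase (mem_sdiff.2 ⟨hpV, hpR⟩) (mem_sdiff.2 ⟨hw, hwR⟩) hpw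
    have h6 : (V \ R).erase p = V \ insert p R := by
      ext z; simp only [mem_sdiff, mem_erase, mem_insert]; tauto
    rwa [h6] at h5
  have h7 := key T hT u (Or.inl rfl)
  have h8 := key (insert u T) (insert_subset (mem_insert_of_mem huS) hT) v (Or.inr rfl)
  have h9 : insert v (dc_bar u v T) = insert v (insert u T) := by
    ext z; unfold dc_bar; simp only [mem_insert, mem_erase]; tauto
  rw [h9]
  exact h7.trans h8

/-- (B3) -/
theorem al_con_iff_del' (h3 : ThreeC G V) (hF : NCF G V F)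
    (hob : ∀ D, Free G V F D → u ∈ D ∨ v ∈ D)
    (hu : u ∈ V) (hv : v ∈ V) (huv : G.Adj u v) (hS : S ⊆ V.erase v) (huS : u ∈ S) :
    dc_Al (idn G {u, v} u) (V.erase v) (idnF G F {u, v} u (V.erase v)) S ↔
      dc_Al (delE G u v) V (delF G V F u v) (insert v S) := by
  have hne := huv.ne
  have hvS : v ∉ S := fun h => (mem_erase.1 (hS h)).1 rfl
  have hSV : S ⊆ V := hS.trans (erase_subset _ _)
  have hiV : insert v S ⊆ V := insert_subset hv hSV
  constructor
  · intro hY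
    have hst : Stb (delE G u v) (insert v S) := (dc_stb_con_iff huS hvS).1 hY.1.1
    have hle : ∀ T, T ⊆ insert v S → (u ∈ T ∨ v ∈ T) →
        cc (delE G u v) (V \ T) ≤ (dc_bar u v T).card := by
      intro T hT _
      refine (dc_cc_del_le_con h3 hu hv huv huS hst hT).trans ?_
      exact hY.1.2 _ (dc_bar_sub hT huS) ⟨u, dc_mem_bar hne⟩
    have hsub : ∀ T, T ⊆ insert v S → ¬ (u ∈ T ∨ v ∈ T) → dc_Al G V F T := by
      intro T hT hn
      have hTS : T ⊆ S := fun z hz => (mem_insert.1 (hT hz)).resolve_left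
        (fun e => hn (Or.inr (e ▸ hz)))
      exact (dc_al_con_iff hF hu hv huv (hTS.trans hS) (fun h => hn (Or.inl h))).1 (hY.dcSub hTS)
    have hadm : Adm (delE G u v) V (insert v S) := by
      refine ⟨hst, fun T hT hn => ?_⟩
      by_cases h : u ∈ T ∨ v ∈ T
      · exact (hle T hT h).trans (dc_card_bar_le hne h)
      · exact dc_cc_del_le_of_avoid h3 hob hu hv hne (hT.trans hiV) hn (hsub T hT h) h
    refine ⟨hadm, ?_⟩
    rintro ⟨M', hM', hMS'⟩
    obtain ⟨hMt, hME, -⟩ := dc_mem_mkF.1 hM'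
    have hcase : ∀ M, M ∈ F → M ⊆ insert v S → False := by
      intro M hM hMS
      have hMG := hF.tgt M hM
      by_cases h : u ∈ M ∨ v ∈ M
      · have h4 := (dc_bar_sub hMS huS)
        have h5 : M.card ≤ cc (idn G {u, v} u) (V.erase v \ dc_bar u v M) := by
          refine le_trans ?_ (dc_cc_del_le_con h3 hu hv huv huS hst hMS)
          rw [← hMG.eq]; exact dc_cc_del_le
        have h6 := hY.1.2 _ h4 ⟨u, dc_mem_bar hne⟩
        have h7 := dc_card_bar_le hne h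
        have h8 := hMG.card
        have h9 : Tgt (idn G {u, v} u) (V.erase v) (dc_bar u v M) :=
          Tgt.dcOf_le (h4.trans hS) (hY.1.sub h4) (by omega) (by omega)
        refine hY.2 ((dc_up_mkF h9 ?_).dcMono h4)
        rw [if_pos (dc_mem_bar hne)]
        exact ⟨M, hM, dc_sub_bar⟩
      · exact (hsub M hMS h).2 ⟨M, hM, subset_rfl⟩
    rcases hME with ⟨M, hM, hMM⟩ | h
    · exact hcase M hM (hMM.trans hMS')
    · have h4 := hle M' hMS' (Or.inl h.1)
      have h5 := dc_card_bar_lt h.1 h.2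
      have h6 := hMt.eq
      omega
  · intro hX
    refine ⟨⟨(dc_stb_con_iff huS hvS).2 hX.1.1, fun T hT hn => ?_⟩, ?_⟩
    · by_cases huT : u ∈ T
      · rw [dc_cc_con_mem huT]
        have hvT : v ∉ T := fun h => hvS (hT h)
        have h4 : insert v T ⊆ insert v S := insert_subset_insert _ hT
        have h5 := hX.1.2 _ h4 ⟨v, mem_insert_self _ _⟩
        by_contra hcon
        have h6 : Tgt (delE G u v) V (insert v T) := by
          refine Tgt.dcOf_le (h4.trans hiV) (hX.1.sub h4) ?_ ?_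
          · rw [card_insert_of_notMem hvT]
            have := hn.card_pos
            omega
          · rw [card_insert_of_notMem hvT]; omega
        exact hX.2 ((dc_up_mkF h6 (Or.inr ⟨mem_insert_of_mem huT, mem_insert_self _ _⟩)).dcMono h4)
      · have hvT : v ∉ T := fun h => hvS (hT h)
        rw [dc_cc_con_avoid hu hv huv huT hvT]
        exact dc_cc_del_le.trans (hX.1.2 T (hT.trans (subset_insert _ _)) hn)
    · rintro ⟨T, hT, hTS⟩
      obtain ⟨hTt, hTE, -⟩ := dc_mem_mkF.1 hT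
      have h4 : Up F (insert v S) := by
        by_cases huT : u ∈ T
        · rw [if_pos huT] at hTE
          refine hTE.dcMono ?_
          intro z hz
          simp only [mem_union, mem_insert, mem_singleton] at hz ⊢
          rcases hz with (rfl | rfl) | h
          · exact Or.inr huS
          · exact Or.inl rfl
          · exact Or.inr (hTS h)
        · rw [if_neg huT] at hTE
          exact hTE.dcMono (hTS.trans (subset_insert _ _))
      obtain ⟨M, hM, hMS⟩ := h4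
      have hMG := hF.tgt M hM
      have h5 : Tgt (delE G u v) V M :=
        Tgt.dcOf_le hMG.sub (hX.1.sub hMS) hMG.card (hMG.eq ▸ dc_cc_del_le)
      exact hX.2 ((dc_up_mkF h5 (Or.inl ⟨M, hM, subset_rfl⟩)).dcMono hMS)

end allowed

/-! ### the two classes -/

section classes
variable {G : SimpleGraph α} {V S T M N : Finset α} {u v : α} {F : Finset (Finset α)}

theorem dc_mkF_anti {E : Finset α → Prop} (hM : M ∈ mkF G V E) (hN : N ∈ mkF G V E) (h : M ⊆ N) :
    M = N := by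
  obtain ⟨h1, h2, -⟩ := dc_mem_mkF.1 hM
  exact (dc_mem_mkF.1 hN).2.2 M h h1 h2

theorem dc_delF_cases (hF : NCF G V F) (hM : M ∈ delF G V F u v) :
    (u ∈ M ∧ v ∈ M) ∨ (M ∈ F ∧ cc (delE G u v) (V \ M) = cc G (V \ M)) := by
  obtain ⟨hMt, hME, hmin⟩ := dc_mem_mkF.1 hM
  rcases hME with ⟨N, hN, hNM⟩ | h
  · have hNG := hF.tgt N hN
    have h4 : Tgt (delE G u v) V N :=
      Tgt.dcOf_le hNG.sub (hMt.adm.sub hNM) hNG.card (hNG.eq ▸ dc_cc_del_le)
    have h5 := hmin N hNM h4 (Or.inl ⟨N, hN, subset_rfl⟩)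
    subst h5
    exact Or.inr ⟨hN, by rw [h4.eq, hNG.eq]⟩
  · exact Or.inl h

theorem dc_rch_del_iff_of_cc (hu : u ∈ V) (hv : v ∈ V) (huv : G.Adj u v)
    (h : cc (delE G u v) (V \ M) = cc G (V \ M)) {a b : α} :
    Rch (delE G u v) (V \ M) a b ↔ Rch G (V \ M) a b := by
  by_cases h1 : u ∈ M ∨ v ∈ M
  · exact dc_rch_del_iff_of_not (dc_not_both h1)
  · rw [not_or] at h1
    refine dc_rch_del_iff_of_rch ?_
    by_contra h2
    have := dc_cc_del_lt (mem_sdiff.2 ⟨hu, h1.1⟩) (mem_sdiff.2 ⟨hv, h1.2⟩) huv h2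
    omega

theorem del_clsE' (h3 : ThreeC G V) (hF : NCF G V F)
    (hob : ∀ D, Free G V F D → u ∈ D ∨ v ∈ D) (hu : u ∈ V) (hv : v ∈ V)
    (huv : G.Adj u v) : ClsE (delE G u v) V u v (delF G V F u v) := by
  have h2 := dc_twoC_del h3 hu hv huv.ne
  -- a member of `F` does not cross a member containing `u` and `v`
  have hno : ∀ M ∈ delF G V F u v, ∀ N ∈ delF G V F u v, u ∈ M → v ∈ M →
      ¬ Crs (delE G u v) V N M := by
    intro M hM N hN huM hvM hc
    obtain ⟨hd, x, hx, y, hy, hxy⟩ := hc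
    have huN : u ∉ N := fun h => disjoint_left.1 hd h huM
    have hvN : v ∉ N := fun h => disjoint_left.1 hd h hvM
    rcases dc_delF_cases hF hN with h | ⟨hNF, hNc⟩
    · exact huN h.1
    have huv' : Rch (delE G u v) (V \ N) u v :=
      (dc_rch_del_iff_of_cc hu hv huv hNc).2
        (Rch.of_adj (mem_sdiff.2 ⟨hu, huN⟩) (mem_sdiff.2 ⟨hv, hvN⟩) huv)
    obtain ⟨K, hK, huK, hvK⟩ := rch_iff_comp.1 huv'
    have hMt := dc_mem_mkF.1 hM
    have hNt := dc_mem_mkF.1 hN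
    have hcard : 2 ≤ (K ∩ M).card := by
      have : ({u, v} : Finset α) ⊆ K ∩ M := by
        intro z hz
        simp only [mem_insert, mem_singleton] at hz
        rcases hz with rfl | rfl
        · exact mem_inter.2 ⟨huK, huM⟩
        · exact mem_inter.2 ⟨hvK, hvM⟩
      have h5 := card_le_card this
      rwa [card_pair huv.ne] at h5
    have ht := cross_tgt h2.conn hNt.1 hMt.1 hd hK hcard
    have he := hMt.2.2 _ inter_subset_right ht
      (Or.inr ⟨mem_inter.2 ⟨huK, huM⟩, mem_inter.2 ⟨hvK, hvM⟩⟩)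
    have hMK : M ⊆ K := by rw [← he]; exact inter_subset_left
    exact hxy (rch_iff_comp.2 ⟨K, hK, hMK hx, hMK hy⟩)
  refine ⟨h2, hu, hv, ⟨fun M hM => (dc_mem_mkF.1 hM).1, fun M hM N hN h => dc_mkF_anti hM hN h, ?_⟩,
    ?_, ?_⟩
  · intro M hM N hN hc
    have hMt := dc_mem_mkF.1 hM
    have hNt := dc_mem_mkF.1 hN
    rcases dc_delF_cases hF hN with h | ⟨hNF, hNc⟩
    · exact hno N hN M hM h.1 h.2 hc
    rcases dc_delF_cases hF hM with h | ⟨hMF, hMc⟩
    · exact hno M hM N hN h.1 h.2 (Crs.symm h2.conn hMt.1 hNt.1 hc)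
    · apply hF.nc M hMF N hNF
      obtain ⟨hd, x, hx, y, hy, hxy⟩ := hc
      exact ⟨hd, x, hx, y, hy, fun h => hxy ((dc_rch_del_iff_of_cc hu hv huv hMc).2 h)⟩
  · intro S hS
    by_contra hsep
    unfold Sep at hsep
    push Not at hsep
    obtain ⟨huS, hvS, hr⟩ := hsep
    have hcc : cc (delE G u v) (V \ S) = cc G (V \ S) := dc_cc_del_eq_of_rch hr
    have hnb : ¬ (u ∈ S ∧ v ∈ S) := fun h => huS h.1
    have hSG : Tgt G V S := ⟨hS.tgt.sub, dc_adm_of_del hnb hS.tgt.adm, hS.tgt.card,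
      by rw [← hcc]; exact hS.tgt.eq⟩
    by_cases hup : Up F S
    · exact hS.nup (dc_up_mkF hS.tgt (Or.inl hup))
    · rcases hob S ⟨hSG, hup⟩ with h | h
      · exact huS h
      · exact hvS h
  · intro p q hc
    by_contra hsep
    unfold Sep at hsep
    push Not at hsep
    obtain ⟨huS, hvS, hr⟩ := hsep
    have h4 := cc_eq_one_iff.2 (h3.conn p hc.hp q hc.hq)
    have h5 := hc.two
    rw [dc_cc_del_eq_of_rch hr] at h5
    omega

theorem dc_conF_cases (h3 : ThreeC G V) (hF : NCF G V F) (hu : u ∈ V) (hv : v ∈ V)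
    (huv : G.Adj u v) (hT : T ∈ idnF G F {u, v} u (V.erase v)) :
    (u ∉ T ∧ T ∈ F) ∨ (u ∈ T ∧ ∃ M ∈ F, (u ∈ M ∨ v ∈ M) ∧ dc_bar u v M = T) := by
  have hne := huv.ne
  obtain ⟨hTt, hTE, hmin⟩ := dc_mem_mkF.1 hT
  have hvT : v ∉ T := fun h => (mem_erase.1 (hTt.sub h)).1 rfl
  have hmem : ∀ M ∈ F, M ⊆ T → u ∉ M → M = T := by
    intro M hM hMT huM
    have hvM : v ∉ M := fun h => hvT (hMT h)
    have hMG := hF.tgt M hM
    have h4 : Tgt (idn G {u, v} u) (V.erase v) M :=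
      ⟨hMT.trans hTt.sub, hTt.adm.sub hMT, hMG.card, by
        rw [dc_cc_con_avoid hu hv huv huM hvM]; exact hMG.eq⟩
    exact hmin M hMT h4 (by rw [if_neg huM]; exact ⟨M, hM, subset_rfl⟩)
  by_cases huT : u ∈ T
  · refine Or.inr ⟨huT, ?_⟩
    rw [if_pos huT] at hTE
    obtain ⟨M, hM, hMT⟩ := hTE
    have hMT' : M ⊆ insert v T := by
      intro z hz
      have := hMT hz
      simp only [mem_union, mem_insert, mem_singleton] at this ⊢
      rcases this with (rfl | rfl) | h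
      · exact Or.inr huT
      · exact Or.inl rfl
      · exact Or.inr h
    by_cases h : u ∈ M ∨ v ∈ M
    · refine ⟨M, hM, h, ?_⟩
      have hMG := hF.tgt M hM
      have hst : Stb (delE G u v) (insert v T) := (dc_stb_con_iff huT hvT).1 hTt.adm.1
      have h4 := (dc_bar_sub hMT' huT)
      have h5 : M.card ≤ cc (idn G {u, v} u) (V.erase v \ dc_bar u v M) := by
        refine le_trans ?_ (dc_cc_del_le_con h3 hu hv huv huT hst hMT')
        rw [← hMG.eq]; exact dc_cc_del_le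
      have h6 := hTt.adm.2 _ h4 ⟨u, dc_mem_bar hne⟩
      have h7 := dc_card_bar_le hne h
      have h8 := hMG.card
      have h9 : Tgt (idn G {u, v} u) (V.erase v) (dc_bar u v M) :=
        Tgt.dcOf_le (h4.trans hTt.sub) (hTt.adm.sub h4) (by omega) (by omega)
      refine hmin _ h4 h9 ?_
      rw [if_pos (dc_mem_bar hne)]
      exact ⟨M, hM, dc_sub_bar⟩
    · rw [not_or] at h
      have hMT2 : M ⊆ T := fun z hz => (mem_insert.1 (hMT' hz)).resolve_left
        (fun e => h.2 (e ▸ hz))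
      have := hmem M hM hMT2 h.1
      exact absurd (this ▸ huT) h.1
  · refine Or.inl ⟨huT, ?_⟩
    rw [if_neg huT] at hTE
    obtain ⟨M, hM, hMT⟩ := hTE
    rw [← hmem M hM hMT (fun h => huT (hMT h))]
    exact hM

theorem con_clsE' (h3 : ThreeC G V) (hF : NCF G V F)
    (hob : ∀ D, Free G V F D → u ∈ D ∨ v ∈ D) (hu : u ∈ V) (hv : v ∈ V)
    (huv : G.Adj u v) :
    ClsE (idn G {u, v} u) (V.erase v) u u (idnF G F {u, v} u (V.erase v)) := by
  have hne := huv.ne
  have h2 := dc_twoC_con h3 hu hv huv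
  have hno : ∀ T1 ∈ idnF G F {u, v} u (V.erase v), ∀ T2 ∈ idnF G F {u, v} u (V.erase v),
      u ∉ T1 → ¬ Crs (idn G {u, v} u) (V.erase v) T1 T2 := by
    intro T1 hT1 T2 hT2 huT hc
    have hvT : v ∉ T1 := fun h => (mem_erase.1 ((dc_mem_mkF.1 hT1).1.sub h)).1 rfl
    have hF1 : T1 ∈ F := by
      rcases dc_conF_cases h3 hF hu hv huv hT1 with h | h
      · exact h.2
      · exact absurd h.1 huT
    obtain ⟨hd, x, hx, y, hy, hxy⟩ := hc
    -- a member of `F` which projects onto `T2`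
    have hex : ∃ M ∈ F, Disjoint T1 M ∧ ∀ z ∈ T2, ∃ z' ∈ M, dc_pr u v z' = z := by
      have hv2 : v ∉ T2 := fun h => (mem_erase.1 ((dc_mem_mkF.1 hT2).1.sub h)).1 rfl
      rcases dc_conF_cases h3 hF hu hv huv hT2 with h | ⟨hu2, M, hM, hMuv, hb⟩
      · exact ⟨T2, h.2, hd, fun z hz => ⟨z, hz, dc_pr_ne (fun e => hv2 (e ▸ hz))⟩⟩
      · refine ⟨M, hM, ?_, ?_⟩
        · rw [disjoint_left]
          intro z hz1 hz2
          have := dc_sub_bar (u := u) (v := v) hz2
          rw [hb] at this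
          simp only [mem_union, mem_insert, mem_singleton] at this
          rcases this with (rfl | rfl) | h
          · exact huT hz1
          · exact hvT hz1
          · exact disjoint_left.1 hd hz1 h
        · intro z hz
          by_cases hzu : z = u
          · subst hzu
            rcases hMuv with h | h
            · exact ⟨z, h, dc_pr_ne hne⟩
            · exact ⟨v, h, dc_pr_self⟩
          · rw [← hb] at hz
            unfold dc_bar at hz
            obtain ⟨h1, h4⟩ := mem_erase.1 hz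
            exact ⟨z, (mem_insert.1 h4).resolve_left hzu, dc_pr_ne h1⟩
    obtain ⟨M, hM, hdM, hpr⟩ := hex
    obtain ⟨x', hx', rfl⟩ := hpr x hx
    obtain ⟨y', hy', rfl⟩ := hpr y hy
    refine hF.nc T1 hF1 M hM ⟨hdM, x', hx', y', hy', fun h => hxy ?_⟩
    rw [dc_erase_sdiff_eq]
    exact dc_rch_con_of (mem_sdiff.2 ⟨hu, huT⟩) hne h
  refine ⟨h2, mem_erase.2 ⟨hne, hu⟩, mem_erase.2 ⟨hne, hu⟩,
    ⟨fun M hM => (dc_mem_mkF.1 hM).1, fun M hM N hN h => dc_mkF_anti hM hN h, ?_⟩, ?_, ?_⟩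
  · intro T1 hT1 T2 hT2 hc
    by_cases h : u ∈ T1
    · have hu2 : u ∉ T2 := fun h' => disjoint_left.1 hc.1 h h'
      exact hno T2 hT2 T1 hT1 hu2
        (Crs.symm h2.conn (dc_mem_mkF.1 hT1).1 (dc_mem_mkF.1 hT2).1 hc)
    · exact hno T1 hT1 T2 hT2 h hc
  · intro S hS
    left
    by_contra huS
    have hvS : v ∉ S := fun h => (mem_erase.1 (hS.tgt.sub h)).1 rfl
    have hal := (dc_al_con_iff hF hu hv huv hS.tgt.sub huS).1 ⟨hS.tgt.adm, hS.nup⟩
    have hSG : Free G V F S := ⟨⟨hS.tgt.sub.trans (erase_subset _ _), hal.1, hS.tgt.card, by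
      rw [← dc_cc_con_avoid hu hv huv huS hvS]; exact hS.tgt.eq⟩, hal.2⟩
    rcases hob S hSG with h | h
    · exact huS h
    · exact hvS h
  · intro p q hc
    left
    by_contra hupq
    have hpV := mem_erase.1 hc.hp
    have hqV := mem_erase.1 hc.hq
    have h4 := cc_eq_one_iff.2 (h3.conn p hpV.2 q hqV.2)
    have h5 := hc.two
    rw [dc_cc_con_avoid hu hv huv hupq (by simp [hpV.1.symm, hqV.1.symm])] at h5
    omega

end classes

end Pool.Agent.TH
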