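import Pool.Agent.TH.Ops

/-!
# alpha-1-tough graphs: 2-connected, and no violating sets
-/

set_option autoImplicit false
set_option linter.unusedSectionVars false

namespace Pool.Agent.TH

open Finset
open scoped Classical

variable {α : Type*} [DecidableEq α] {G : SimpleGraph α}

theorem mem_comps_raw' {W K : Finset α} :
    K ∈ comps G W ↔ ∃ x ∈ W, W.filter (fun y => Rch G W x y) = K := by
  unfold comps
  rw [mem_image]

theorem rch_iff_reachable {W : Finset α} {s : Set α} (h : ∀ x, x ∈ s ↔ x ∈ W) (x y : s) :
    Rch G W x.1 y.1 ↔ (G.induce s).Reachable x y := by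
  constructor
  · intro hxy
    have key : ∀ z : α, Rch G W x.1 z → ∃ hz : z ∈ s, (G.induce s).Reachable x ⟨z, hz⟩ := by
      intro z hz
      obtain ⟨_, hzW, hz⟩ := hz
      clear hzW
      induction hz with
      | refl => exact ⟨x.2, SimpleGraph.Reachable.refl _⟩
      | @tail a b _ hab ih =>
        obtain ⟨ha, hr⟩ := ih
        refine ⟨(h b).2 hab.2.2, hr.trans ?_⟩
        exact SimpleGraph.Adj.reachable
          (show (G.induce s).Adj ⟨a, ha⟩ ⟨b, (h b).2 hab.2.2⟩ from hab.1)
    obtain ⟨_, hr⟩ := key _ hxy
    exact hr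
  · intro hxy
    obtain ⟨p⟩ := hxy
    induction p with
    | nil => exact Rch.refl ((h _).1 (Subtype.property _))
    | @cons a b c hadj p ih =>
      exact (Rch.of_adj ((h _).1 a.2) ((h _).1 b.2) hadj).trans ih

theorem cc_eq_card_induce {W : Finset α} {s : Set α} (h : ∀ x, x ∈ s ↔ x ∈ W) :
    cc G W = Nat.card ((G.induce s).ConnectedComponent) := by
  let g : s → {K // K ∈ comps G W} := fun x =>
    ⟨W.filter (fun y => Rch G W x.1 y), mem_comps_raw'.2 ⟨x.1, (h _).1 x.2, rfl⟩⟩
  have hg : ∀ x y : s, g x = g y ↔ (G.induce s).Reachable x y := by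
    intro x y
    rw [← rch_iff_reachable h x y]
    constructor
    · intro hxy
      have h1 : W.filter (fun z => Rch G W x.1 z) = W.filter (fun z => Rch G W y.1 z) :=
        congrArg Subtype.val hxy
      have h2 : y.1 ∈ W.filter (fun z => Rch G W y.1 z) :=
        mem_filter.2 ⟨(h _).1 y.2, Rch.refl ((h _).1 y.2)⟩
      rw [← h1] at h2
      exact (mem_filter.1 h2).2
    · intro hxy
      apply Subtype.ext
      show W.filter (fun z => Rch G W x.1 z) = W.filter (fun z => Rch G W y.1 z)
      ext z
      simp only [mem_filter]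
      exact ⟨fun hz => ⟨hz.1, hxy.symm.trans hz.2⟩, fun hz => ⟨hz.1, hxy.trans hz.2⟩⟩
  let f : (G.induce s).ConnectedComponent → {K // K ∈ comps G W} :=
    SimpleGraph.ConnectedComponent.lift g (fun v w p _ => (hg v w).2 ⟨p⟩)
  have hf : Function.Bijective f := by
    constructor
    · intro a b
      induction a using SimpleGraph.ConnectedComponent.ind with
      | h a =>
        induction b using SimpleGraph.ConnectedComponent.ind with
        | h b =>
          intro hab
          exact SimpleGraph.ConnectedComponent.sound ((hg a b).1 hab)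
    · rintro ⟨K, hK⟩
      obtain ⟨a, ha, hKa⟩ := mem_comps_raw'.1 hK
      refine ⟨(G.induce s).connectedComponentMk ⟨a, (h a).2 ha⟩, ?_⟩
      apply Subtype.ext
      exact hKa
  rw [Nat.card_congr (Equiv.ofBijective f hf), Nat.card_eq_fintype_card, Fintype.card_coe]
  rfl

variable [Fintype α]

theorem cc_compl_eq (S : Finset α) :
    cc G (univ \ S) = Nat.card ((G.induce ((S : Set α)ᶜ)).ConnectedComponent) := by
  apply cc_eq_card_induce
  intro x
  simp

/-- the hypothesis of the Dong and Koh conjecture -/
def ATough (G : SimpleGraph α) : Prop :=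
  ∀ S : Finset α, S.Nonempty → Stb G S → cc G (univ \ S) ≤ S.card

theorem aTough_of (h : ∀ S : Finset α, S.Nonempty → G.IsIndepSet (S : Set α) →
    Nat.card ((G.induce ((S : Set α)ᶜ)).ConnectedComponent) ≤ S.card) : ATough G := by
  intro S hS hst
  rw [cc_compl_eq]
  apply h S hS
  intro x hx y hy _
  exact hst x hx y hy

theorem ATough.bad (h : ATough G) {S : Finset α} (hS : S.Nonempty) :
    Bad G univ ∅ S ↔ ¬ Stb G S := by
  unfold Bad
  constructor
  · rintro (h2 | h2 | h2)
    · exact h2
    · intro h3
      have := h S hS h3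
      omega
    · simp at h2
  · intro h2; exact Or.inl h2

theorem ATough.erase (h : ATough G) (h2 : 2 ≤ Fintype.card α) (x : α) :
    Conn G (univ.erase x) := by
  rw [← cc_eq_one_iff]
  have h1 := h {x} (singleton_nonempty x) (by
    intro a ha b hb
    rw [mem_singleton] at ha hb
    rw [ha, hb]
    exact G.irrefl)
  rw [card_singleton, ← Finset.erase_eq] at h1
  have hne : ((univ : Finset α).erase x).Nonempty := by
    rw [← Finset.card_pos, card_erase_of_mem (mem_univ _), card_univ]; omega
  exact le_antisymm h1 (cc_pos hne)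

/-- an alpha-1-tough graph is 2-connected or has no edges and at most two vertices -/
theorem ATough.twoC (h : ATough G) : TwoC G univ ∨ (Fintype.card α ≤ 2 ∧ G = ⊥) := by
  rcases Nat.lt_or_ge (Fintype.card α) 2 with hlt | h2
  · right
    refine ⟨by omega, ?_⟩
    ext a b
    simp only [SimpleGraph.bot_adj, iff_false]
    intro hab
    have : Fintype.card α ≤ 1 := by omega
    rw [Fintype.card_le_one_iff] at this
    exact hab.ne (this a b)
  · by_cases hb : ∃ a b, G.Adj a b
    · left
      obtain ⟨a, b, hab⟩ := hb
      refine ⟨by rw [card_univ]; exact h2, ?_, fun x _ => h.erase h2 x⟩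
      -- connected
      have h3 := h.erase h2 a
      have h4 : (univ : Finset α) = {a} ∪ univ.erase a := by
        ext z
        simp only [mem_univ, mem_union, mem_singleton, mem_erase, true_iff]
        by_cases hz : z = a
        · exact Or.inl hz
        · exact Or.inr ⟨hz, trivial⟩
      rw [h4]
      refine conn_union conn_singleton h3 (Or.inl ⟨a, mem_singleton_self _, b, ?_, hab⟩)
      exact mem_erase.2 ⟨hab.ne.symm, mem_univ _⟩
    · have hbot : G = ⊥ := by
        ext a b
        simp only [SimpleGraph.bot_adj, iff_false]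
        intro hab
        exact hb ⟨a, b, hab⟩
      right
      refine ⟨?_, hbot⟩
      by_contra hcon
      push Not at hcon
      have : (univ : Finset α).Nonempty := by
        rw [← Finset.card_pos, card_univ]; omega
      obtain ⟨x, _⟩ := this
      have h3 := h.erase h2 x
      have h5 : 2 ≤ (univ.erase x).card := by
        rw [card_erase_of_mem (mem_univ _), card_univ]; omega
      obtain ⟨y, hy⟩ := h3.1
      have h6 := (conn_iff_cut.1 h3).2 {y} (by simpa using hy) (by simp) (by
        intro he; rw [← he] at h5; simp at h5)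
      obtain ⟨c, _, d, _, hcd⟩ := h6
      rw [hbot] at hcd
      exact hcd

end Pool.Agent.TH
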