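import Pool.Agent.TH.Main
import Pool.Agent.TH.Link
import Pool.Agent.TH.Ham
import Pool.Agent.TH.Tough

/-!
# The lower bound for the signed chromatic polynomial on (1,2)
-/

set_option autoImplicit false

namespace Pool.Agent.TH

open Finset
open scoped Classical

variable {V : Type} [Fintype V] [DecidableEq V]

theorem whitney_lower (G : SimpleGraph V) [DecidableRel G.Adj] (ht : TwoC G univ)
    (h : ∀ S : Finset V, S.Nonempty → Stb G S → cc G (univ \ S) ≤ S.card) {x : ℝ} (h1 : 1 < x)
    (h2 : x < 2) :
    x * (x - 1) * (2 - x) ^ (Fintype.card V - 2) ≤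
      (-1 : ℝ) ^ Fintype.card V * HamChrom.whitney G x := by
  have hx0 : 0 < x := by linarith
  have hxx : 0 < x * (x - 1) := mul_pos hx0 (by linarith)
  have hb := main_two h1 h2 G univ ht
  rw [link_whitney G h hx0.ne', card_univ, le_div_iff₀ hxx] at hb
  linarith

/-- Hamiltonian graphs, and more generally graphs on at least three vertices in which no
nonempty independent set `S` leaves more than `|S|` components -/
theorem whitney_lower_of (G : SimpleGraph V) [DecidableRel G.Adj]
    (h : (∃ v : V, ∃ p : G.Walk v v, p.IsHamiltonianCycle) ∨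
      (3 ≤ Fintype.card V ∧ ∀ S : Finset V, S.Nonempty → G.IsIndepSet (S : Set V) →
        Nat.card ((G.induce ((S : Set V)ᶜ)).ConnectedComponent) ≤ S.card)) {x : ℝ} (h1 : 1 < x)
    (h2 : x < 2) :
    x * (x - 1) * (2 - x) ^ (Fintype.card V - 2) ≤
      (-1 : ℝ) ^ Fintype.card V * HamChrom.whitney G x := by
  rcases h with h | ⟨h3, h⟩
  · refine whitney_lower G (ham_twoC h) ?_ h1 h2
    intro S hS hst
    by_contra hcon
    push Not at hcon
    exact (ham_bad h hS).1 (Or.inr (Or.inl hcon)) hst
  · have ha : ATough G := aTough_of h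
    rcases ha.twoC with ht | ⟨hc, _⟩
    · exact whitney_lower G ht ha h1 h2
    · omega

end Pool.Agent.TH
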