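import Pool.Agent.TH.Defs

/-!
Lemma W' of the proof: a vertex `w` of degree two whose neighbours form a tight pair which is not
a member of the maximal family `F` of class E.
-/

set_option autoImplicit false
set_option linter.unusedSectionVars false

namespace Pool.Agent.TH.WP

open Finset
open scoped Classical

variable {α : Type*} [DecidableEq α] {G : SimpleGraph α}

/-! ## Component calculus -/

theorem rch_refl {W : Finset α} {x : α} (hx : x ∈ W) : Rch G W x x :=
  ⟨hx, hx, Relation.ReflTransGen.refl⟩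

theorem rch_trans {W : Finset α} {x y z : α} (h1 : Rch G W x y) (h2 : Rch G W y z) :
    Rch G W x z := ⟨h1.1, h2.2.1, h1.2.2.trans h2.2.2⟩

theorem rch_adj {W : Finset α} {x y : α} (hx : x ∈ W) (hy : y ∈ W) (h : G.Adj x y) :
    Rch G W x y := ⟨hx, hy, Relation.ReflTransGen.single ⟨h, hx, hy⟩⟩

theorem rch_symm {W : Finset α} {x y : α} (h : Rch G W x y) : Rch G W y x := by
  refine ⟨h.2.1, h.1, ?_⟩
  have h3 := h.2.2
  induction h3 with
  | refl => exact Relation.ReflTransGen.refl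
  | tail h1 h2 ih =>
    exact (Relation.ReflTransGen.single ⟨h2.1.symm, h2.2.2, h2.2.1⟩).trans
      (ih ⟨h.1, h2.2.1, h1⟩)

theorem rch_mono {W W' : Finset α} (hW : W ⊆ W') {x y : α} (h : Rch G W x y) :
    Rch G W' x y := by
  refine ⟨hW h.1, hW h.2.1, ?_⟩
  have h3 := h.2.2
  clear h
  induction h3 with
  | refl => exact Relation.ReflTransGen.refl
  | tail h1 h2 ih => exact ih.tail ⟨h2.1, hW h2.2.1, hW h2.2.2⟩

/-- a set closed under neighbours in `W` is closed under reachability -/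
theorem rch_closed {W C : Finset α} (hC : ∀ y ∈ C, ∀ z ∈ W, G.Adj y z → z ∈ C) {x y : α}
    (hx : x ∈ C) (h : Rch G W x y) : y ∈ C := by
  have h3 := h.2.2
  clear h
  induction h3 with
  | refl => exact hx
  | tail h1 h2 ih => exact hC _ ih _ h2.2.2 h2.1

/-- a set closed under neighbours in `W`: reachability stays inside -/
theorem rch_closed_in {W C : Finset α} (hC : ∀ y ∈ C, ∀ z ∈ W, G.Adj y z → z ∈ C) {x y : α}
    (hx : x ∈ C) (h : Rch G W x y) : Rch G C x y := by
  refine ⟨hx, rch_closed hC hx h, ?_⟩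
  have h3 := h.2.2
  clear h
  have key : y ∈ C ∧ Relation.ReflTransGen (fun a b => G.Adj a b ∧ a ∈ C ∧ b ∈ C) x y := by
    induction h3 with
    | refl => exact ⟨hx, Relation.ReflTransGen.refl⟩
    | tail h1 h2 ih =>
      have hz := hC _ ih.1 _ h2.2.2 h2.1
      exact ⟨hz, ih.2.tail ⟨h2.1, ih.1, hz⟩⟩
  exact key.2

/-- working characterisation of components -/
theorem mem_comps {W C : Finset α} :
    C ∈ comps G W ↔ C ⊆ W ∧ Conn G C ∧ ∀ y ∈ C, ∀ z ∈ W, G.Adj y z → z ∈ C := by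
  constructor
  · intro h
    obtain ⟨x, hx, rfl⟩ := Finset.mem_image.1 h
    have hcl : ∀ y ∈ W.filter (fun y => Rch G W x y), ∀ z ∈ W, G.Adj y z →
        z ∈ W.filter (fun y => Rch G W x y) := by
      intro y hy z hz hyz
      rw [Finset.mem_filter] at hy ⊢
      exact ⟨hz, rch_trans hy.2 (rch_adj hy.1 hz hyz)⟩
    have hxx : x ∈ W.filter (fun y => Rch G W x y) := by
      rw [Finset.mem_filter]
      exact ⟨hx, rch_refl hx⟩
    refine ⟨Finset.filter_subset _ _, ⟨⟨x, hxx⟩, ?_⟩, hcl⟩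
    intro y hy z hz
    have h1 := rch_closed_in hcl hxx (Finset.mem_filter.1 hy).2
    have h2 := rch_closed_in hcl hxx (Finset.mem_filter.1 hz).2
    exact rch_trans (rch_symm h1) h2
  · rintro ⟨h1, ⟨⟨x, hx⟩, h2⟩, h3⟩
    refine Finset.mem_image.2 ⟨x, h1 hx, ?_⟩
    ext y
    rw [Finset.mem_filter]
    constructor
    · intro hy
      exact rch_closed h3 hx hy.2
    · intro hy
      exact ⟨h1 hy, rch_mono h1 (h2 x hx y hy)⟩

/-- the component of `x` -/
noncomputable def cp (G : SimpleGraph α) (W : Finset α) (x : α) : Finset α :=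
  W.filter (fun y => Rch G W x y)

theorem mem_cp {W : Finset α} {x y : α} : y ∈ cp G W x ↔ Rch G W x y := by
  unfold cp
  rw [Finset.mem_filter]
  exact ⟨fun h => h.2, fun h => ⟨h.2.1, h⟩⟩

theorem cp_mem {W : Finset α} {x : α} (hx : x ∈ W) : cp G W x ∈ comps G W :=
  Finset.mem_image.2 ⟨x, hx, rfl⟩

theorem self_mem_cp {W : Finset α} {x : α} (hx : x ∈ W) : x ∈ cp G W x :=
  mem_cp.2 (rch_refl hx)

theorem eq_cp {W C : Finset α} (hC : C ∈ comps G W) {x : α} (hx : x ∈ C) : C = cp G W x := by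
  obtain ⟨h1, h2, h3⟩ := mem_comps.1 hC
  ext y
  rw [mem_cp]
  exact ⟨fun hy => rch_mono h1 (h2.2 x hx y hy), fun hy => rch_closed h3 hx hy⟩

theorem comps_eq {W C D : Finset α} (hC : C ∈ comps G W) (hD : D ∈ comps G W) {x : α}
    (hx : x ∈ C) (hx' : x ∈ D) : C = D := by
  rw [eq_cp hC hx, eq_cp hD hx']

theorem comps_disj {W C D : Finset α} (hC : C ∈ comps G W) (hD : D ∈ comps G W)
    (h : C ≠ D) : Disjoint C D := by
  rw [Finset.disjoint_left]
  intro x hx hx'
  exact h (comps_eq hC hD hx hx')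

/-- a connected subset of `W` meeting a component lies in it -/
theorem conn_sub {W C Z : Finset α} (hC : C ∈ comps G W) (hZ : Conn G Z) (hZW : Z ⊆ W)
    {x : α} (hxZ : x ∈ Z) (hxC : x ∈ C) : Z ⊆ C := by
  intro y hy
  exact rch_closed (mem_comps.1 hC).2.2 hxC (rch_mono hZW (hZ.2 x hxZ y hy))

/-! ## The counting identity -/

/-- the components of `W` which meet `S` -/
noncomputable def mt (G : SimpleGraph α) (W S : Finset α) : Finset (Finset α) :=
  (comps G W).filter (fun C => ¬ Disjoint C S)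

theorem mem_mt {W S C : Finset α} : C ∈ mt G W S ↔ C ∈ comps G W ∧ ¬ Disjoint C S := by
  unfold mt
  rw [Finset.mem_filter]

theorem inner_comp {V S T K C : Finset α} (hK : K ∈ comps G (V \ S))
    (hC : C ∈ comps G (K \ T)) (hCS : ¬ Tch G C S) : C ∈ comps G (V \ T) := by
  obtain ⟨h1, h2, h3⟩ := mem_comps.1 hC
  obtain ⟨k1, k2, k3⟩ := mem_comps.1 hK
  refine mem_comps.2 ⟨?_, h2, ?_⟩
  · intro x hx
    have hx1 := h1 hx
    rw [Finset.mem_sdiff] at hx1 ⊢
    exact ⟨(Finset.mem_sdiff.1 (k1 hx1.1)).1, hx1.2⟩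
  · intro y hy z hz hyz
    rw [Finset.mem_sdiff] at hz
    have hzS : z ∉ S := fun hzS => hCS ⟨y, hy, z, hzS, hyz⟩
    have hyK : y ∈ K := (Finset.mem_sdiff.1 (h1 hy)).1
    have hzK : z ∈ K := k3 y hyK z (Finset.mem_sdiff.2 ⟨hz.1, hzS⟩) hyz
    exact h3 y hy z (Finset.mem_sdiff.2 ⟨hzK, hz.2⟩) hyz

theorem count_split {V S T : Finset α} (hV : Conn G V) (hS : S ⊆ V) (hS0 : S.Nonempty)
    (hd : Disjoint S T) :
    cc G (V \ T) = (mt G (V \ T) S).card + ∑ K ∈ mt G (V \ S) T, inn G S T K := by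
  have h1 : (comps G (V \ T)).filter (fun C => Disjoint C S)
      = (mt G (V \ S) T).biUnion (fun K => (comps G (K \ T)).filter (fun C => ¬ Tch G C S)) := by
    ext C
    rw [Finset.mem_filter, Finset.mem_biUnion]
    constructor
    · rintro ⟨hC, hCS⟩
      obtain ⟨c1, c2, c3⟩ := mem_comps.1 hC
      obtain ⟨x, hx⟩ := c2.1
      have hxV : x ∈ V := (Finset.mem_sdiff.1 (c1 hx)).1
      have hCsub : C ⊆ V \ S := by
        intro y hy
        rw [Finset.mem_sdiff]
        exact ⟨(Finset.mem_sdiff.1 (c1 hy)).1, Finset.disjoint_left.1 hCS hy⟩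
      have hK := cp_mem (G := G) (hCsub hx)
      have hCK : C ⊆ cp G (V \ S) x := conn_sub hK c2 hCsub hx (self_mem_cp (hCsub hx))
      obtain ⟨k1, k2, k3⟩ := mem_comps.1 hK
      have hnt : ¬ Tch G C S := by
        rintro ⟨y, hy, z, hz, hyz⟩
        have hzT : z ∉ T := Finset.disjoint_left.1 hd hz
        have := c3 y hy z (Finset.mem_sdiff.2 ⟨hS hz, hzT⟩) hyz
        exact Finset.disjoint_left.1 hCS this hz
      refine ⟨cp G (V \ S) x, ?_, ?_⟩
      · rw [mem_mt]
        refine ⟨hK, ?_⟩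
        intro hdis
        -- then the component is closed in V
        have hcl : ∀ y ∈ C, ∀ z ∈ V, G.Adj y z → z ∈ C := by
          intro y hy z hz hyz
          have hzS : z ∉ S := fun hzS => hnt ⟨y, hy, z, hzS, hyz⟩
          have hzK := k3 y (hCK hy) z (Finset.mem_sdiff.2 ⟨hz, hzS⟩) hyz
          have hzT : z ∉ T := Finset.disjoint_left.1 hdis hzK
          exact c3 y hy z (Finset.mem_sdiff.2 ⟨hz, hzT⟩) hyz
        obtain ⟨s, hs⟩ := hS0
        have := rch_closed hcl hx (hV.2 x hxV s (hS hs))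
        exact Finset.disjoint_left.1 hCS this hs
      · rw [Finset.mem_filter]
        refine ⟨mem_comps.2 ⟨?_, c2, ?_⟩, hnt⟩
        · intro y hy
          rw [Finset.mem_sdiff]
          exact ⟨hCK hy, (Finset.mem_sdiff.1 (c1 hy)).2⟩
        · intro y hy z hz hyz
          rw [Finset.mem_sdiff] at hz
          refine c3 y hy z (Finset.mem_sdiff.2 ⟨?_, hz.2⟩) hyz
          exact (Finset.mem_sdiff.1 (k1 hz.1)).1
    · rintro ⟨K, hK, hC⟩
      rw [mem_mt] at hK
      rw [Finset.mem_filter] at hC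
      refine ⟨inner_comp hK.1 hC.1 hC.2, ?_⟩
      obtain ⟨h1, h2, h3⟩ := mem_comps.1 hC.1
      obtain ⟨k1, k2, k3⟩ := mem_comps.1 hK.1
      rw [Finset.disjoint_left]
      intro y hy hyS
      exact (Finset.mem_sdiff.1 (k1 (Finset.mem_sdiff.1 (h1 hy)).1)).2 hyS
  have h2 : (comps G (V \ T)).card = ((comps G (V \ T)).filter (fun C => ¬ Disjoint C S)).card
      + ((comps G (V \ T)).filter (fun C => Disjoint C S)).card := by
    have := Finset.card_filter_add_card_filter_not (s := comps G (V \ T))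
      (fun C => Disjoint C S)
    omega
  unfold cc
  rw [h2, h1]
  unfold mt
  congr 1
  rw [Finset.card_biUnion]
  · rfl
  · intro K hK K' hK' hne
    show Disjoint _ _
    rw [Finset.disjoint_left]
    intro C hC hC'
    rw [Finset.mem_coe, Finset.mem_filter] at hK hK'
    rw [Finset.mem_filter] at hC hC'
    obtain ⟨x, hx⟩ := (mem_comps.1 hC.1).2.1.1
    have hx1 : x ∈ K := (Finset.mem_sdiff.1 ((mem_comps.1 hC.1).1 hx)).1
    have hx2 : x ∈ K' := (Finset.mem_sdiff.1 ((mem_comps.1 hC'.1).1 hx)).1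
    exact hne (comps_eq hK.1 hK'.1 hx1 hx2)

/-- the inner components are components of `V \ (T ∩ K)` -/
theorem inner_sub {V S T K : Finset α} (hK : K ∈ comps G (V \ S)) :
    (comps G (K \ T)).filter (fun C => ¬ Tch G C S) ⊆ comps G (V \ (T ∩ K)) := by
  intro C hC
  rw [Finset.mem_filter] at hC
  refine inner_comp hK ?_ hC.2
  have : K \ (T ∩ K) = K \ T := by
    ext y
    simp only [Finset.mem_sdiff, Finset.mem_inter]
    tauto
  rw [this]
  exact hC.1

theorem inn_add_one_le {V S T K : Finset α} (hS : S ⊆ V) (hS0 : S.Nonempty)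
    (hd : Disjoint S T) (hK : K ∈ comps G (V \ S)) :
    inn G S T K + 1 ≤ cc G (V \ (T ∩ K)) := by
  obtain ⟨s, hs⟩ := hS0
  have hs' : s ∈ V \ (T ∩ K) := by
    rw [Finset.mem_sdiff, Finset.mem_inter]
    exact ⟨hS hs, fun h => Finset.disjoint_left.1 hd hs h.1⟩
  have hins : cp G (V \ (T ∩ K)) s ∉ (comps G (K \ T)).filter (fun C => ¬ Tch G C S) := by
    intro h
    rw [Finset.mem_filter] at h
    have h1 := (mem_comps.1 h.1).1 (self_mem_cp hs')
    have h2 := (mem_comps.1 hK).1 (Finset.mem_sdiff.1 h1).1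
    exact (Finset.mem_sdiff.1 h2).2 hs
  have h := Finset.card_le_card (Finset.insert_subset (cp_mem (G := G) hs') (inner_sub (T := T) hK))
  rw [Finset.card_insert_of_notMem hins] at h
  exact h

theorem rch_outside {V S T K : Finset α} (hK : K ∈ comps G (V \ S))
    (heq : cc G (V \ (T ∩ K)) = inn G S T K + 1) {x y : α} (hx : x ∈ V) (hxK : x ∉ K)
    (hy : y ∈ V) (hyK : y ∉ K) : Rch G (V \ (T ∩ K)) x y := by
  by_contra hn
  have hx' : x ∈ V \ (T ∩ K) := by
    rw [Finset.mem_sdiff, Finset.mem_inter]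
    exact ⟨hx, fun h => hxK h.2⟩
  have hy' : y ∈ V \ (T ∩ K) := by
    rw [Finset.mem_sdiff, Finset.mem_inter]
    exact ⟨hy, fun h => hyK h.2⟩
  have hnot : ∀ z, z ∈ V \ (T ∩ K) → z ∉ K →
      cp G (V \ (T ∩ K)) z ∉ (comps G (K \ T)).filter (fun C => ¬ Tch G C S) := by
    intro z hz hzK h
    rw [Finset.mem_filter] at h
    exact hzK (Finset.mem_sdiff.1 ((mem_comps.1 h.1).1 (self_mem_cp hz))).1
  have hne : cp G (V \ (T ∩ K)) x ≠ cp G (V \ (T ∩ K)) y := by
    intro h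
    apply hn
    have := self_mem_cp (G := G) hy'
    rw [← h] at this
    exact mem_cp.1 this
  have hsub : insert (cp G (V \ (T ∩ K)) x) (insert (cp G (V \ (T ∩ K)) y)
      ((comps G (K \ T)).filter (fun C => ¬ Tch G C S))) ⊆ comps G (V \ (T ∩ K)) :=
    Finset.insert_subset (cp_mem hx') (Finset.insert_subset (cp_mem hy') (inner_sub hK))
  have h := Finset.card_le_card hsub
  rw [Finset.card_insert_of_notMem, Finset.card_insert_of_notMem (hnot y hy' hyK)] at h
  · unfold cc at heq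
    unfold inn at heq
    omega
  · rw [Finset.mem_insert]
    rintro (h1 | h1)
    · exact hne h1
    · exact hnot x hx' hxK h1

theorem sum_inter {V S T : Finset α} (hT : T ⊆ V) (hd : Disjoint S T) :
    ∑ K ∈ mt G (V \ S) T, (T ∩ K).card = T.card := by
  rw [← Finset.card_biUnion]
  · congr 1
    ext x
    rw [Finset.mem_biUnion]
    constructor
    · rintro ⟨K, _, hx⟩
      exact (Finset.mem_inter.1 hx).1
    · intro hx
      have hx' : x ∈ V \ S := Finset.mem_sdiff.2 ⟨hT hx, fun h => Finset.disjoint_left.1 hd h hx⟩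
      refine ⟨cp G (V \ S) x, mem_mt.2 ⟨cp_mem hx', ?_⟩,
        Finset.mem_inter.2 ⟨hx, self_mem_cp hx'⟩⟩
      intro h
      exact Finset.disjoint_left.1 h (self_mem_cp hx') hx
  · intro K hK K' hK' hne
    show Disjoint (T ∩ K) (T ∩ K')
    rw [Finset.disjoint_left]
    intro x hx hx'
    exact hne (comps_eq (mem_mt.1 hK).1 (mem_mt.1 hK').1 (Finset.mem_inter.1 hx).2
      (Finset.mem_inter.1 hx').2)

theorem tgt_nonempty {V S : Finset α} (h : Tgt G V S) : S.Nonempty := by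
  rw [← Finset.card_pos]
  have := h.card
  omega

theorem cross_le {V S T : Finset α} (hV : Conn G V) (hS : Tgt G V S) (hT : Tgt G V T)
    (hd : Disjoint S T) :
    T.card + (mt G (V \ S) T).card
      = (mt G (V \ T) S).card + ∑ K ∈ mt G (V \ S) T, (inn G S T K + 1) ∧
    ∀ K ∈ mt G (V \ S) T, inn G S T K + 1 ≤ (T ∩ K).card := by
  constructor
  · have h := count_split (G := G) hV hS.sub (tgt_nonempty hS) hd
    rw [hT.eq] at h
    rw [Finset.sum_add_distrib, Finset.sum_const, smul_eq_mul, mul_one]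
    omega
  · intro K hK
    rw [mem_mt] at hK
    refine (inn_add_one_le hS.sub (tgt_nonempty hS) hd hK.1).trans ?_
    refine hT.adm.2 _ Finset.inter_subset_left ?_
    rw [Finset.not_disjoint_iff] at hK
    obtain ⟨x, hx, hx'⟩ := hK.2
    exact ⟨x, Finset.mem_inter.2 ⟨hx', hx⟩⟩

/-- crossing lemma: equal numbers of parts -/
theorem cross_card {V S T : Finset α} (hV : Conn G V) (hS : Tgt G V S) (hT : Tgt G V T)
    (hd : Disjoint S T) : (mt G (V \ S) T).card = (mt G (V \ T) S).card := by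
  apply le_antisymm
  · obtain ⟨h1, h2⟩ := cross_le hV hS hT hd
    have h3 := Finset.sum_le_sum h2
    rw [sum_inter hT.sub hd] at h3
    omega
  · obtain ⟨h1, h2⟩ := cross_le hV hT hS hd.symm
    have h3 := Finset.sum_le_sum h2
    rw [sum_inter hS.sub hd.symm] at h3
    omega

theorem cross_inn {V S T : Finset α} (hV : Conn G V) (hS : Tgt G V S) (hT : Tgt G V T)
    (hd : Disjoint S T) : ∀ K ∈ mt G (V \ S) T, inn G S T K + 1 = (T ∩ K).card := by
  obtain ⟨h1, h2⟩ := cross_le hV hS hT hd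
  refine (Finset.sum_eq_sum_iff_of_le h2).1 ?_
  rw [sum_inter hT.sub hd]
  have := cross_card hV hS hT hd
  omega

/-- crossing lemma: the parts -/
theorem cross_part {V S T K : Finset α} (hV : Conn G V) (hS : Tgt G V S) (hT : Tgt G V T)
    (hd : Disjoint S T) (hK : K ∈ comps G (V \ S)) (hKT : ¬ Disjoint K T) :
    cc G (V \ (T ∩ K)) = (T ∩ K).card ∧
    ∀ x ∈ V, x ∉ K → ∀ y ∈ V, y ∉ K → Rch G (V \ (T ∩ K)) x y := by
  have h1 := cross_inn hV hS hT hd K (mem_mt.2 ⟨hK, hKT⟩)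
  have h2 := inn_add_one_le hS.sub (tgt_nonempty hS) hd hK
  have h3 : cc G (V \ (T ∩ K)) ≤ (T ∩ K).card := by
    refine hT.adm.2 _ Finset.inter_subset_left ?_
    rw [Finset.not_disjoint_iff] at hKT
    obtain ⟨x, hx, hx'⟩ := hKT
    exact ⟨x, Finset.mem_inter.2 ⟨hx', hx⟩⟩
  have h4 : cc G (V \ (T ∩ K)) = inn G S T K + 1 := by omega
  exact ⟨by omega, fun x hx hxK y hy hyK => rch_outside hK h4 hx hxK hy hyK⟩


/-! ## A vertex of degree two -/

section W

variable {V : Finset α} {F : Finset (Finset α)} {a b w r s : α}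

/-- `w` has exactly the neighbours `r` and `s` -/
structure D2 (G : SimpleGraph α) (V : Finset α) (w r s : α) : Prop where
  hw : w ∈ V
  hr : r ∈ V
  hs : s ∈ V
  hrs : r ≠ s
  adr : G.Adj w r
  ads : G.Adj w s
  hN : ∀ x ∈ V, G.Adj w x → x = r ∨ x = s

theorem D2.symm (h : D2 G V w r s) : D2 G V w s r :=
  ⟨h.hw, h.hs, h.hr, h.hrs.symm, h.ads, h.adr, fun x hx hxw => (h.hN x hx hxw).symm⟩

theorem erase_tgt {M : Finset α} (hd : D2 G V w r s) (hM : Tgt G V M) (hwM : w ∈ M)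
    (h3 : 3 ≤ M.card) : Tgt G V (M.erase w) ∧ ¬ Rch G (V \ M) r s := by
  have hrM : r ∉ M := fun h => hM.adm.1 w hwM r h hd.adr
  have hsM : s ∉ M := fun h => hM.adm.1 w hwM s h hd.ads
  have hr' : r ∈ V \ M := Finset.mem_sdiff.2 ⟨hd.hr, hrM⟩
  have hs' : s ∈ V \ M := Finset.mem_sdiff.2 ⟨hd.hs, hsM⟩
  have hw' : w ∈ V \ (M.erase w) := by
    rw [Finset.mem_sdiff, Finset.mem_erase]
    exact ⟨hd.hw, fun h => h.1 rfl⟩
  have hne : (M.erase w).Nonempty := by
    rw [← Finset.card_pos, Finset.card_erase_of_mem hwM]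
    omega
  have hle : cc G (V \ (M.erase w)) ≤ (M.erase w).card :=
    hM.adm.2 _ (Finset.erase_subset _ _) hne
  have hcard : (M.erase w).card = M.card - 1 := Finset.card_erase_of_mem hwM
  have heq := hM.eq
  have hsub : insert (cp G (V \ (M.erase w)) w)
      (((comps G (V \ M)).erase (cp G (V \ M) r)).erase (cp G (V \ M) s))
      ⊆ comps G (V \ (M.erase w)) := by
    refine Finset.insert_subset (cp_mem hw') ?_
    intro C hC
    rw [Finset.mem_erase, Finset.mem_erase] at hC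
    obtain ⟨hCs, hCr, hC⟩ := hC
    have hrC : r ∉ C := fun h => hCr (eq_cp hC h)
    have hsC : s ∉ C := fun h => hCs (eq_cp hC h)
    obtain ⟨c1, c2, c3⟩ := mem_comps.1 hC
    refine mem_comps.2 ⟨?_, c2, ?_⟩
    · intro y hy
      have hy1 := c1 hy
      rw [Finset.mem_sdiff] at hy1 ⊢
      exact ⟨hy1.1, fun h => hy1.2 (Finset.mem_of_mem_erase h)⟩
    · intro y hy z hz hyz
      rw [Finset.mem_sdiff, Finset.mem_erase] at hz
      have hyV := (Finset.mem_sdiff.1 (c1 hy)).1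
      by_cases hzw : z = w
      · subst hzw
        rcases hd.hN y hyV hyz.symm with h | h
        · exact absurd (h ▸ hy) hrC
        · exact absurd (h ▸ hy) hsC
      · exact c3 y hy z (Finset.mem_sdiff.2 ⟨hz.1, fun h => hz.2 ⟨hzw, h⟩⟩) hyz
  have hnot : cp G (V \ (M.erase w)) w ∉
      (((comps G (V \ M)).erase (cp G (V \ M) r)).erase (cp G (V \ M) s)) := by
    intro h
    have h1 := Finset.mem_of_mem_erase (Finset.mem_of_mem_erase h)
    have h2 := (mem_comps.1 h1).1 (self_mem_cp hw')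
    exact (Finset.mem_sdiff.1 h2).2 hwM
  have hc := Finset.card_le_card hsub
  rw [Finset.card_insert_of_notMem hnot] at hc
  have hR := Finset.card_erase_of_mem (cp_mem (G := G) hr')
  unfold cc at heq hle
  have hnr : ¬ Rch G (V \ M) r s := by
    intro h
    have hRQ : cp G (V \ M) r = cp G (V \ M) s := by
      refine comps_eq (cp_mem hr') (cp_mem hs') (mem_cp.2 h) (self_mem_cp hs')
    rw [← hRQ, Finset.erase_idem, hR] at hc
    omega
  refine ⟨⟨(Finset.erase_subset _ _).trans hM.sub, ⟨?_, ?_⟩, by omega, ?_⟩, hnr⟩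
  · intro x hx y hy
    exact hM.adm.1 x (Finset.mem_of_mem_erase hx) y (Finset.mem_of_mem_erase hy)
  · intro T hT hT0
    exact hM.adm.2 T (hT.trans (Finset.erase_subset _ _)) hT0
  · have h2 := Finset.pred_card_le_card_erase (s := (comps G (V \ M)).erase (cp G (V \ M) r))
      (a := cp G (V \ M) s)
    unfold cc
    omega

/-- the components of `V \ M` containing neither `r` nor `s` and meeting `X` -/
noncomputable def JJ (G : SimpleGraph α) (V M X : Finset α) (r s : α) : Finset (Finset α) :=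
  (comps G (V \ M)).filter (fun C => r ∉ C ∧ s ∉ C ∧ ¬ Disjoint C X)

theorem cnt1 {M X : Finset α} (hr : r ∈ V \ M) (hs : s ∈ V \ M) (hn : ¬ Rch G (V \ M) r s) :
    (if Disjoint (cp G (V \ M) r) X then 0 else 1) + (if Disjoint (cp G (V \ M) s) X then 0 else 1)
      + (JJ G V M X r s).card ≤ (mt G (V \ M) X).card := by
  have h1 := Finset.card_filter_add_card_filter_not (s := mt G (V \ M) X) (fun C => r ∈ C)
  have h2 := Finset.card_filter_add_card_filter_not
    (s := (mt G (V \ M) X).filter (fun C => ¬ r ∈ C)) (fun C => s ∈ C)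
  have h3 : (((mt G (V \ M) X).filter (fun C => ¬ r ∈ C)).filter (fun C => ¬ s ∈ C))
      = JJ G V M X r s := by
    ext C
    unfold JJ mt
    simp only [Finset.mem_filter]
    tauto
  have h4 : (if Disjoint (cp G (V \ M) r) X then 0 else 1)
      ≤ ((mt G (V \ M) X).filter (fun C => r ∈ C)).card := by
    split_ifs with h
    · exact Nat.zero_le _
    · rw [Nat.succ_le_iff, Finset.card_pos]
      exact ⟨cp G (V \ M) r, Finset.mem_filter.2 ⟨mem_mt.2 ⟨cp_mem hr, h⟩, self_mem_cp hr⟩⟩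
  have h5 : (if Disjoint (cp G (V \ M) s) X then 0 else 1)
      ≤ ((((mt G (V \ M) X).filter (fun C => ¬ r ∈ C))).filter (fun C => s ∈ C)).card := by
    split_ifs with h
    · exact Nat.zero_le _
    · rw [Nat.succ_le_iff, Finset.card_pos]
      refine ⟨cp G (V \ M) s, Finset.mem_filter.2 ⟨Finset.mem_filter.2
        ⟨mem_mt.2 ⟨cp_mem hs, h⟩, ?_⟩, self_mem_cp hs⟩⟩
      intro hr'
      exact hn (rch_symm (mem_cp.1 hr'))
  rw [h3] at h2
  omega

theorem cnt2 {M X : Finset α} (hd : D2 G V w r s) :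
    (mt G (V \ (M.erase w)) X).card ≤ 1 + (JJ G V M (X.erase w) r s).card := by
  have hw' : w ∈ V \ (M.erase w) := by
    rw [Finset.mem_sdiff, Finset.mem_erase]
    exact ⟨hd.hw, fun h => h.1 rfl⟩
  have hsub : mt G (V \ (M.erase w)) X ⊆ insert (cp G (V \ (M.erase w)) w)
      (JJ G V M (X.erase w) r s) := by
    intro C hC
    rw [mem_mt] at hC
    obtain ⟨hC, hCX⟩ := hC
    obtain ⟨c1, c2, c3⟩ := mem_comps.1 hC
    rw [Finset.mem_insert]
    by_cases hwC : w ∈ C
    · left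
      exact eq_cp hC hwC
    · right
      unfold JJ
      rw [Finset.mem_filter]
      refine ⟨mem_comps.2 ⟨?_, c2, ?_⟩, ?_, ?_, ?_⟩
      · intro y hy
        have hy1 := c1 hy
        rw [Finset.mem_sdiff, Finset.mem_erase] at hy1
        rw [Finset.mem_sdiff]
        exact ⟨hy1.1, fun h => hy1.2 ⟨fun h' => hwC (h' ▸ hy), h⟩⟩
      · intro y hy z hz hyz
        rw [Finset.mem_sdiff] at hz
        refine c3 y hy z (Finset.mem_sdiff.2 ⟨hz.1, fun h => hz.2 (Finset.mem_of_mem_erase h)⟩) hyz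
      · intro h
        exact hwC (c3 r h w hw' hd.adr.symm)
      · intro h
        exact hwC (c3 s h w hw' hd.ads.symm)
      · rw [Finset.not_disjoint_iff] at hCX ⊢
        obtain ⟨y, hy, hyX⟩ := hCX
        exact ⟨y, hy, Finset.mem_erase.2 ⟨fun h => hwC (h ▸ hy), hyX⟩⟩
  have h := Finset.card_le_card hsub
  have h2 := Finset.card_insert_le (cp G (V \ (M.erase w)) w) (JJ G V M (X.erase w) r s)
  omega

/-- at each end at least one part -/
theorem end_ge {M M' : Finset α} (h2 : TwoC G V) (hd : D2 G V w r s) (hM : Tgt G V M)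
    (hwM : w ∈ M) (hwM' : w ∈ M') (hM' : Tgt G V M')
    (hdis : ∀ x ∈ M, x ∈ M' → x = w) (hn : ¬ Rch G (V \ M) r s) :
    ¬ (Disjoint (cp G (V \ M) r) (M'.erase w) ∧ Disjoint (cp G (V \ M') r) (M.erase w)) := by
  rintro ⟨h1, h1'⟩
  have hrM : r ∉ M := fun h => hM.adm.1 w hwM r h hd.adr
  have hrM' : r ∉ M' := fun h => hM'.adm.1 w hwM' r h hd.adr
  have hr1 : r ∈ V \ M := Finset.mem_sdiff.2 ⟨hd.hr, hrM⟩
  have hr2 : r ∈ V \ M' := Finset.mem_sdiff.2 ⟨hd.hr, hrM'⟩
  have hR1 := cp_mem (G := G) hr1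
  have hR2 := cp_mem (G := G) hr2
  obtain ⟨p1, p2, p3⟩ := mem_comps.1 hR1
  obtain ⟨q1, q2, q3⟩ := mem_comps.1 hR2
  have hs1 : cp G (V \ M) r ⊆ V \ M' := by
    intro y hy
    have hy1 := p1 hy
    rw [Finset.mem_sdiff] at hy1 ⊢
    refine ⟨hy1.1, fun h => ?_⟩
    exact Finset.disjoint_left.1 h1 hy (Finset.mem_erase.2 ⟨fun h' => hy1.2 (h' ▸ hwM), h⟩)
  have hs2 : cp G (V \ M) r ⊆ cp G (V \ M') r :=
    conn_sub hR2 p2 hs1 (self_mem_cp hr1) (self_mem_cp hr2)
  have hs3 : cp G (V \ M') r ⊆ V \ M := by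
    intro y hy
    have hy1 := q1 hy
    rw [Finset.mem_sdiff] at hy1 ⊢
    refine ⟨hy1.1, fun h => ?_⟩
    exact Finset.disjoint_left.1 h1' hy (Finset.mem_erase.2 ⟨fun h' => hy1.2 (h' ▸ hwM'), h⟩)
  have hs4 : cp G (V \ M') r ⊆ cp G (V \ M) r :=
    conn_sub hR1 q2 hs3 (self_mem_cp hr2) (self_mem_cp hr1)
  have hcl : ∀ y ∈ cp G (V \ M) r, ∀ z ∈ V.erase w, G.Adj y z → z ∈ cp G (V \ M) r := by
    intro y hy z hz hyz
    rw [Finset.mem_erase] at hz
    by_cases hzM : z ∈ M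
    · have hzM' : z ∉ M' := fun h => hz.1 (hdis z hzM h)
      exact hs4 (q3 y (hs2 hy) z (Finset.mem_sdiff.2 ⟨hz.2, hzM'⟩) hyz)
    · exact p3 y hy z (Finset.mem_sdiff.2 ⟨hz.2, hzM⟩) hyz
  have hconn := h2.erase w hd.hw
  have hrw : r ≠ w := fun h => hrM (h ▸ hwM)
  have hsw : s ≠ w := fun h => (hM.adm.1 w hwM w hwM) (h ▸ hd.ads)
  have := rch_closed hcl (self_mem_cp hr1)
    (hconn.2 r (Finset.mem_erase.2 ⟨hrw, hd.hr⟩) s (Finset.mem_erase.2 ⟨hsw, hd.hs⟩))
  exact hn (mem_cp.1 this)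

/-- the data at one end `e` (the other end is `e'`) -/
structure EndD (G : SimpleGraph α) (V : Finset α) (F : Finset (Finset α)) (w e e' : α)
    (K T C A B : Finset α) : Prop where
  hA : A ∈ F
  hB : B ∈ F
  wA : w ∈ A
  wB : w ∈ B
  cA : 3 ≤ A.card
  cB : 3 ≤ B.card
  T0 : T.Nonempty
  TB : T ⊆ B.erase w
  TK : T ⊆ K
  CK : C ⊆ K
  CT : Disjoint C T
  eC : e ∈ C
  e'K : e' ∉ K
  wK : w ∉ K
  KV : K ∈ comps G (V \ A)
  Cc : Conn G C
  Ccl : ∀ y ∈ C, ∀ z ∈ V, G.Adj y z → z ∈ C ∨ z ∈ T ∨ z = w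
  tT : cc G (V \ T) = T.card
  out : ∀ x ∈ V, x ∉ K → ∀ y ∈ V, y ∉ K → Rch G (V \ T) x y

theorem end_one {A B : Finset α} (h2 : TwoC G V) (hF : NCF G V F) (hd : D2 G V w r s)
    (hA : A ∈ F) (hB : B ∈ F) (wA : w ∈ A) (wB : w ∈ B) (cA : 3 ≤ A.card) (cB : 3 ≤ B.card)
    (hdis : ∀ x ∈ A, x ∈ B → x = w)
    (h1 : ¬ Disjoint (cp G (V \ A) r) (B.erase w))
    (h0 : Disjoint (cp G (V \ B) r) (A.erase w)) :
    EndD G V F w r s (cp G (V \ A) r) (B.erase w ∩ cp G (V \ A) r) (cp G (V \ B) r) A B := by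
  have tA := hF.tgt A hA
  have tB := hF.tgt B hB
  have hrA : r ∉ A := fun h => tA.adm.1 w wA r h hd.adr
  have hrB : r ∉ B := fun h => tB.adm.1 w wB r h hd.adr
  have hr1 : r ∈ V \ A := Finset.mem_sdiff.2 ⟨hd.hr, hrA⟩
  have hr2 : r ∈ V \ B := Finset.mem_sdiff.2 ⟨hd.hr, hrB⟩
  have hR1 := cp_mem (G := G) hr1
  have hR2 := cp_mem (G := G) hr2
  obtain ⟨p1, p2, p3⟩ := mem_comps.1 hR1
  obtain ⟨q1, q2, q3⟩ := mem_comps.1 hR2
  obtain ⟨tA', nA⟩ := erase_tgt hd tA wA cA
  obtain ⟨tB', nB⟩ := erase_tgt hd tB wB cB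
  have hdAB : Disjoint A (B.erase w) := by
    rw [Finset.disjoint_left]
    intro x hx hx'
    rw [Finset.mem_erase] at hx'
    exact hx'.1 (hdis x hx hx'.2)
  have hs3 : cp G (V \ B) r ⊆ V \ A := by
    intro y hy
    have hy1 := q1 hy
    rw [Finset.mem_sdiff] at hy1 ⊢
    refine ⟨hy1.1, fun h => ?_⟩
    exact Finset.disjoint_left.1 h0 hy (Finset.mem_erase.2 ⟨fun h' => hy1.2 (h' ▸ wB), h⟩)
  have hCK : cp G (V \ B) r ⊆ cp G (V \ A) r :=
    conn_sub hR1 q2 hs3 (self_mem_cp hr2) (self_mem_cp hr1)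
  obtain ⟨x1, x2⟩ := cross_part h2.conn tA tB' hdAB hR1 h1
  refine ⟨hA, hB, wA, wB, cA, cB, ?_, Finset.inter_subset_left, Finset.inter_subset_right, hCK,
    ?_, self_mem_cp hr2, ?_, ?_, hR1, q2, ?_, x1, x2⟩
  · rw [Finset.not_disjoint_iff] at h1
    obtain ⟨y, hy, hy'⟩ := h1
    exact ⟨y, Finset.mem_inter.2 ⟨hy', hy⟩⟩
  · rw [Finset.disjoint_left]
    intro y hy hy'
    exact (Finset.mem_sdiff.1 (q1 hy)).2 (Finset.mem_of_mem_erase (Finset.mem_inter.1 hy').1)
  · intro h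
    exact nA (mem_cp.1 h)
  · intro h
    exact (Finset.mem_sdiff.1 (p1 h)).2 wA
  · intro y hy z hz hyz
    by_cases hzB : z ∈ B
    · by_cases hzw : z = w
      · exact Or.inr (Or.inr hzw)
      · right
        left
        have hzA : z ∉ A := fun h => hzw (hdis z h hzB)
        exact Finset.mem_inter.2 ⟨Finset.mem_erase.2 ⟨hzw, hzB⟩,
          p3 y (hCK hy) z (Finset.mem_sdiff.2 ⟨hz, hzA⟩) hyz⟩
    · left
      exact q3 y hy z (Finset.mem_sdiff.2 ⟨hz, hzB⟩) hyz

/-- data at the end `r` -/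
theorem end_data {M M' : Finset α} (h2 : TwoC G V) (hF : NCF G V F) (hd : D2 G V w r s)
    (hM : M ∈ F) (hM' : M' ∈ F) (wM : w ∈ M) (wM' : w ∈ M') (cM : 3 ≤ M.card)
    (cM' : 3 ≤ M'.card) (hdis : ∀ x ∈ M, x ∈ M' → x = w) :
    ∃ K T C A B, EndD G V F w r s K T C A B := by
  have tM := hF.tgt M hM
  have tM' := hF.tgt M' hM'
  have hrM : r ∉ M := fun h => tM.adm.1 w wM r h hd.adr
  have hrM' : r ∉ M' := fun h => tM'.adm.1 w wM' r h hd.adr
  have hsM : s ∉ M := fun h => tM.adm.1 w wM s h hd.ads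
  have hsM' : s ∉ M' := fun h => tM'.adm.1 w wM' s h hd.ads
  have hr1 : r ∈ V \ M := Finset.mem_sdiff.2 ⟨hd.hr, hrM⟩
  have hr2 : r ∈ V \ M' := Finset.mem_sdiff.2 ⟨hd.hr, hrM'⟩
  have hs1 : s ∈ V \ M := Finset.mem_sdiff.2 ⟨hd.hs, hsM⟩
  have hs2 : s ∈ V \ M' := Finset.mem_sdiff.2 ⟨hd.hs, hsM'⟩
  obtain ⟨tS, nM⟩ := erase_tgt hd tM wM cM
  obtain ⟨tS', nM'⟩ := erase_tgt hd tM' wM' cM'
  have hd1 : Disjoint M (M'.erase w) := by
    rw [Finset.disjoint_left]
    intro x hx hx'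
    rw [Finset.mem_erase] at hx'
    exact hx'.1 (hdis x hx hx'.2)
  have hd2 : Disjoint M' (M.erase w) := by
    rw [Finset.disjoint_left]
    intro x hx hx'
    rw [Finset.mem_erase] at hx'
    exact hx'.1 (hdis x hx'.2 hx)
  have e1 := cross_card h2.conn tM tS' hd1
  have e2 := cross_card h2.conn tM' tS hd2
  have c1 := cnt1 (X := M'.erase w) hr1 hs1 nM
  have c2 := cnt1 (X := M.erase w) hr2 hs2 nM'
  have d1 := cnt2 (M := M') (X := M) hd
  have d2 := cnt2 (M := M) (X := M') hd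
  have g1 := end_ge h2 hd tM wM wM' tM' hdis nM
  have g2 := end_ge h2 hd.symm tM wM wM' tM' hdis (fun h => nM (rch_symm h))
  by_cases k1 : Disjoint (cp G (V \ M) r) (M'.erase w)
  · have k2 : ¬ Disjoint (cp G (V \ M') r) (M.erase w) := fun h => g1 ⟨k1, h⟩
    exact ⟨_, _, _, _, _, end_one h2 hF hd hM' hM wM' wM cM' cM
      (fun x hx hx' => hdis x hx' hx) k2 k1⟩
  · by_cases k2 : Disjoint (cp G (V \ M') r) (M.erase w)
    · exact ⟨_, _, _, _, _, end_one h2 hF hd hM hM' wM wM' cM cM' hdis k1 k2⟩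
    · exfalso
      rw [if_neg k1] at c1
      rw [if_neg k2] at c2
      by_cases k3 : Disjoint (cp G (V \ M) s) (M'.erase w)
      · have k4 : ¬ Disjoint (cp G (V \ M') s) (M.erase w) := fun h => g2 ⟨k3, h⟩
        rw [if_neg k4] at c2
        omega
      · rw [if_neg k3] at c1
        omega

/-! ### The members through `w` -/

theorem sub_not_mem (hF : NCF G V F) {M : Finset α} (hM : M ∈ F) {S : Finset α} (hS : S ⊆ M)
    {x : α} (hx : x ∈ M) (hxS : x ∉ S) : ¬ Up F S := by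
  rintro ⟨N, hN, hNS⟩
  have h := hF.anti N hN M hM (hNS.trans hS)
  rw [h] at hNS
  exact hxS (hNS hx)

theorem two_members (hE : ClsE G V a b F) (hmax : Maxl G V F) (hd : D2 G V w r s)
    (hrs : Tgt G V {r, s}) (hnF : ({r, s} : Finset α) ∉ F)
    (hno : ∀ x, x ≠ w → ({w, x} : Finset α) ∉ F) :
    ∃ M ∈ F, ∃ M' ∈ F, w ∈ M ∧ w ∈ M' ∧ 3 ≤ M.card ∧ 3 ≤ M'.card ∧
      ∀ x ∈ M, x ∈ M' → x = w := by
  have hF := hE.ncf
  have hbig : ∀ M ∈ F, w ∈ M → 3 ≤ M.card := by
    intro M hM hwM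
    by_contra hlt
    have h2 : M.card = 2 := by
      have := (hF.tgt M hM).card
      omega
    obtain ⟨x, y, hxy, rfl⟩ := Finset.card_eq_two.1 h2
    rw [Finset.mem_insert, Finset.mem_singleton] at hwM
    rcases hwM with h | h
    · subst h
      exact hno y hxy.symm hM
    · subst h
      rw [Finset.pair_comm] at hM
      exact hno x hxy hM
  have hfree : Free G V F {r, s} := by
    refine ⟨hrs, ?_⟩
    rintro ⟨N, hN, hNS⟩
    have h2 := (hF.tgt N hN).card
    have h3 : ({r, s} : Finset α).card ≤ N.card := by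
      rw [Finset.card_pair hd.hrs]
      exact h2
    rw [Finset.eq_of_subset_of_card_le hNS h3] at hN
    exact hnF hN
  obtain ⟨M, hM, hdM, x, hx, y, hy, hxy⟩ := hmax _ hfree
  have hrV : r ∈ V \ M := Finset.mem_sdiff.2 ⟨hd.hr, fun h =>
    Finset.disjoint_left.1 hdM h (Finset.mem_insert_self _ _)⟩
  have hsV : s ∈ V \ M := Finset.mem_sdiff.2 ⟨hd.hs, fun h =>
    Finset.disjoint_left.1 hdM h (Finset.mem_insert_of_mem (Finset.mem_singleton_self _))⟩
  have hn : ¬ Rch G (V \ M) r s := by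
    rw [Finset.mem_insert, Finset.mem_singleton] at hx hy
    rcases hx with hx | hx <;> rcases hy with hy | hy <;> subst hx <;> subst hy
    · exact absurd (rch_refl hrV) hxy
    · exact hxy
    · exact fun h => hxy (rch_symm h)
    · exact absurd (rch_refl hsV) hxy
  have hwM : w ∈ M := by
    by_contra h
    have hwV : w ∈ V \ M := Finset.mem_sdiff.2 ⟨hd.hw, h⟩
    exact hn (rch_trans (rch_adj hrV hwV hd.adr.symm) (rch_adj hwV hsV hd.ads))
  have hM3 := hbig M hM hwM
  obtain ⟨tS, _⟩ := erase_tgt hd (hF.tgt M hM) hwM hM3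
  have hfS : Free G V F (M.erase w) :=
    ⟨tS, sub_not_mem hF hM (Finset.erase_subset _ _) hwM (fun h => (Finset.mem_erase.1 h).1 rfl)⟩
  obtain ⟨M', hM', hdM', x, hx, y, hy, hxy⟩ := hmax _ hfS
  have hwM' : w ∈ M' := by
    by_contra h
    refine hF.nc M' hM' M hM ⟨?_, x, Finset.mem_of_mem_erase hx, y, Finset.mem_of_mem_erase hy, hxy⟩
    rw [Finset.disjoint_left] at hdM' ⊢
    intro z hz hz'
    exact hdM' hz (Finset.mem_erase.2 ⟨fun h' => h (h' ▸ hz), hz'⟩)
  refine ⟨M, hM, M', hM', hwM, hwM', hM3, hbig M' hM' hwM', ?_⟩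
  intro z hz hz'
  by_contra hzw
  exact Finset.disjoint_left.1 hdM' hz' (Finset.mem_erase.2 ⟨hzw, hz⟩)

/-- both terminals outside `K`: the part is a single vertex -/
theorem single_part (hE : ClsE G V a b F) {K T C A B : Finset α}
    (h : EndD G V F w r s K T C A B) (haK : a ∉ K) (hbK : b ∉ K) : ∃ x, T = {x} := by
  have hF := hE.ncf
  rw [← Finset.card_eq_one]
  by_contra hne
  have h2 : 2 ≤ T.card := by
    have := Finset.card_pos.2 h.T0
    omega
  have hTB : T ⊆ B := h.TB.trans (Finset.erase_subset _ _)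
  have tB := hF.tgt B h.hB
  have hfree : Free G V F T := by
    refine ⟨⟨hTB.trans tB.sub, ⟨?_, ?_⟩, h2, h.tT⟩, ?_⟩
    · intro x hx y hy
      exact tB.adm.1 x (hTB hx) y (hTB hy)
    · intro X hX hX0
      exact tB.adm.2 X (hX.trans hTB) hX0
    · exact sub_not_mem hF h.hB hTB h.wB (fun h' => h.wK (h.TK h'))
  rcases hE.e1 T hfree with h' | h' | h'
  · exact haK (h.TK h')
  · exact hbK (h.TK h')
  · exact h' (h.out a hE.ha haK b hE.hb hbK)

/-- the component of `b` in `V - w - x` contains the other end and not `e` -/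
theorem other_end (h2 : TwoC G V) (hd : D2 G V w r s) {K C A B : Finset α} {x : α}
    (h : EndD G V F w r s K {x} C A B) (hb : b ∈ V) (hbK : b ∉ K) (hbw : b ≠ w) :
    Rch G (V \ {w, x}) b s ∧ ∀ y ∈ C, ¬ Rch G (V \ {w, x}) b y := by
  have hxK : x ∈ K := h.TK (Finset.mem_singleton_self x)
  have hxw : x ≠ w := fun h' => h.wK (h' ▸ hxK)
  have hxV : x ∈ V := (Finset.mem_sdiff.1 ((mem_comps.1 h.KV).1 hxK)).1
  have hbx : b ≠ x := fun h' => hbK (h' ▸ hxK)
  have hbV : b ∈ V \ {w, x} := by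
    rw [Finset.mem_sdiff, Finset.mem_insert, Finset.mem_singleton]
    exact ⟨hb, fun h' => h'.elim hbw hbx⟩
  have hCcl : ∀ y ∈ C, ∀ z ∈ V \ {w, x}, G.Adj y z → z ∈ C := by
    intro y hy z hz hyz
    rw [Finset.mem_sdiff, Finset.mem_insert, Finset.mem_singleton] at hz
    rcases h.Ccl y hy z hz.1 hyz with h' | h' | h'
    · exact h'
    · exact absurd (Or.inr (Finset.mem_singleton.1 h')) hz.2
    · exact absurd (Or.inl h') hz.2
  have hnC : ∀ y ∈ C, ¬ Rch G (V \ {w, x}) b y := by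
    intro y hy hby
    exact hbK (h.CK (rch_closed hCcl hy (rch_symm hby)))
  refine ⟨?_, hnC⟩
  by_contra hbs
  have hcl : ∀ y ∈ cp G (V \ {w, x}) b, ∀ z ∈ V.erase x, G.Adj y z →
      z ∈ cp G (V \ {w, x}) b := by
    intro y hy z hz hyz
    rw [Finset.mem_erase] at hz
    have hyb := mem_cp.1 hy
    have hyV := Finset.mem_sdiff.1 hyb.2.1
    by_cases hzw : z = w
    · subst hzw
      exfalso
      rcases hd.hN y hyV.1 hyz.symm with h' | h'
      · rw [h'] at hyb
        exact hnC r h.eC hyb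
      · rw [h'] at hyb
        exact hbs hyb
    · have hzV : z ∈ V \ {w, x} := by
        rw [Finset.mem_sdiff, Finset.mem_insert, Finset.mem_singleton]
        exact ⟨hz.2, fun h' => h'.elim hzw hz.1⟩
      exact mem_cp.2 (rch_trans hyb (rch_adj hyb.2.1 hzV hyz))
  have h3 := rch_closed hcl (self_mem_cp hbV) ((h2.erase x hxV).2 b
    (Finset.mem_erase.2 ⟨hbx, hb⟩) w (Finset.mem_erase.2 ⟨hxw.symm, hd.hw⟩))
  have h4 := (Finset.mem_sdiff.1 (mem_cp.1 h3).2.1).2
  exact h4 (Finset.mem_insert_self _ _)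

theorem cut2_of {p q x y : α} (hp : p ∈ V) (hq : q ∈ V) (hpq : p ≠ q) (hx : x ∈ V \ {p, q})
    (hy : y ∈ V \ {p, q}) (hxy : ¬ Rch G (V \ {p, q}) x y) : Cut2 G V p q := by
  refine ⟨hp, hq, hpq, ?_⟩
  have hne : cp G (V \ {p, q}) x ≠ cp G (V \ {p, q}) y := by
    intro h
    have := self_mem_cp (G := G) hy
    rw [← h] at this
    exact hxy (mem_cp.1 this)
  have hsub : ({cp G (V \ {p, q}) x, cp G (V \ {p, q}) y} : Finset (Finset α))
      ⊆ comps G (V \ {p, q}) := by
    intro C hC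
    rw [Finset.mem_insert, Finset.mem_singleton] at hC
    rcases hC with h | h
    · rw [h]
      exact cp_mem hx
    · rw [h]
      exact cp_mem hy
  have h := Finset.card_le_card hsub
  rw [Finset.card_pair hne] at h
  exact h

/-- the far terminal is not in `K` -/
theorem far_K {K T C A B : Finset α} (hd : D2 G V w r s) (h : EndD G V F w r s K T C A B)
    (hA : ¬ Rch G (V \ (A.erase w)) w b) : b ∉ K := by
  intro hbK
  apply hA
  obtain ⟨k1, k2, k3⟩ := mem_comps.1 h.KV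
  have hsub : K ⊆ V \ (A.erase w) := by
    intro y hy
    have := k1 hy
    rw [Finset.mem_sdiff] at this ⊢
    exact ⟨this.1, fun h' => this.2 (Finset.mem_of_mem_erase h')⟩
  have hw' : w ∈ V \ (A.erase w) := by
    rw [Finset.mem_sdiff, Finset.mem_erase]
    exact ⟨hd.hw, fun h => h.1 rfl⟩
  exact rch_trans (rch_adj hw' (hsub (h.CK h.eC)) hd.adr)
    (rch_mono hsub (k2.2 r (h.CK h.eC) b hbK))

theorem ClsE_symm (hE : ClsE G V a b F) : ClsE G V b a F := by
  refine ⟨hE.two, hE.hb, hE.ha, hE.ncf, ?_, ?_⟩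
  · intro S hS
    rcases hE.e1 S hS with h | h | h
    · exact Or.inr (Or.inl h)
    · exact Or.inl h
    · exact Or.inr (Or.inr (fun h' => h (rch_symm h')))
  · intro p q hc
    rcases hE.e3 p q hc with h | h | h
    · exact Or.inr (Or.inl h)
    · exact Or.inl h
    · exact Or.inr (Or.inr (fun h' => h (rch_symm h')))

/-- the core of case A: the terminal `a` is the neighbour `s` -/
theorem caseA0 (hE : ClsE G V s b F) (hmax : Maxl G V F) (hd : D2 G V w r s)
    (hrs : Tgt G V {r, s}) (hnF : ({r, s} : Finset α) ∉ F) (hbw : b ≠ w) :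
    ∃ x, x ≠ w ∧ ({w, x} : Finset α) ∈ F := by
  by_contra hno
  push Not at hno
  have hF := hE.ncf
  obtain ⟨M, hM, M', hM', wM, wM', cM, cM', hdis⟩ := two_members hE hmax hd hrs hnF hno
  obtain ⟨K, T, C, A, B, h⟩ := end_data hE.two hF hd hM hM' wM wM' cM cM' hdis
  -- the far terminal
  have tA := hF.tgt A h.hA
  have hsA : s ∉ A := fun h' => tA.adm.1 w h.wA s h' hd.ads
  obtain ⟨tS, _⟩ := erase_tgt hd tA h.wA h.cA
  have hfS : Free G V F (A.erase w) :=
    ⟨tS, sub_not_mem hF h.hA (Finset.erase_subset _ _) h.wA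
      (fun h => (Finset.mem_erase.1 h).1 rfl)⟩
  have hw' : w ∈ V \ (A.erase w) := by
    rw [Finset.mem_sdiff, Finset.mem_erase]
    exact ⟨hd.hw, fun h => h.1 rfl⟩
  have hs' : s ∈ V \ (A.erase w) := by
    rw [Finset.mem_sdiff, Finset.mem_erase]
    exact ⟨hd.hs, fun h => hsA h.2⟩
  have hnw : ¬ Rch G (V \ (A.erase w)) w b := by
    intro h'
    rcases hE.e1 _ hfS with h1 | h1 | h1
    · exact hsA (Finset.mem_of_mem_erase h1)
    · exact (Finset.mem_sdiff.1 h'.2.1).2 h1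
    · exact h1 (rch_trans (rch_adj hs' hw' hd.ads.symm) h')
  have hbK : b ∉ K := far_K hd h hnw
  have haK : s ∉ K := h.e'K
  obtain ⟨x, rfl⟩ := single_part hE h haK hbK
  obtain ⟨h3, h4⟩ := other_end hE.two hd h hE.hb hbK hbw
  have hxK : x ∈ K := h.TK (Finset.mem_singleton_self x)
  have hxw : w ≠ x := fun h' => h.wK (h' ▸ hxK)
  have hxV : x ∈ V := (Finset.mem_sdiff.1 ((mem_comps.1 h.KV).1 hxK)).1
  have hrw : r ≠ w := fun h' => h.wK (h' ▸ h.CK h.eC)
  have hrx : r ≠ x := fun h' => Finset.disjoint_left.1 h.CT h.eC (h' ▸ Finset.mem_singleton_self x)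
  have hr : r ∈ V \ {w, x} := by
    rw [Finset.mem_sdiff, Finset.mem_insert, Finset.mem_singleton]
    exact ⟨hd.hr, fun h' => h'.elim hrw hrx⟩
  have hcut : Cut2 G V w x := cut2_of hd.hw hxV hxw h3.1 hr (h4 r h.eC)
  rcases hE.e3 w x hcut with h5 | h5 | h5
  · exact (Finset.mem_sdiff.1 h3.2.1).2 h5
  · exact (Finset.mem_sdiff.1 h3.1).2 h5
  · exact h5 (rch_symm h3)

/-- case A -/
theorem caseA (hE : ClsE G V a b F) (hmax : Maxl G V F) (hd : D2 G V w r s)
    (hrs : Tgt G V {r, s}) (hnF : ({r, s} : Finset α) ∉ F) (haw : a ≠ w) (hbw : b ≠ w) :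
    ∃ x, x ≠ w ∧ ({w, x} : Finset α) ∈ F := by
  -- one of the terminals is r or s
  have hrw : r ≠ w := fun h' => hd.adr.ne h'.symm
  have hsw : s ≠ w := fun h' => hd.ads.ne h'.symm
  have hwV : w ∈ V \ {r, s} := by
    rw [Finset.mem_sdiff, Finset.mem_insert, Finset.mem_singleton]
    exact ⟨hd.hw, fun h' => h'.elim (fun h => hrw h.symm) (fun h => hsw h.symm)⟩
  have hcut : Cut2 G V r s := ⟨hd.hr, hd.hs, hd.hrs, by
    have := hrs.eq
    rw [Finset.card_pair hd.hrs] at this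
    omega⟩
  have key : a ∈ ({r, s} : Finset α) ∨ b ∈ ({r, s} : Finset α) := by
    by_contra hcon
    push Not at hcon
    obtain ⟨ha, hb⟩ := hcon
    rcases hE.e3 r s hcut with h | h | h
    · exact ha h
    · exact hb h
    · -- two components, one of which is {w}
      have h2 := hrs.eq
      rw [Finset.card_pair hd.hrs] at h2
      have haV : a ∈ V \ {r, s} := Finset.mem_sdiff.2 ⟨hE.ha, ha⟩
      have hbV : b ∈ V \ {r, s} := Finset.mem_sdiff.2 ⟨hE.hb, hb⟩
      have hcl : ∀ y ∈ ({w} : Finset α), ∀ z ∈ V \ {r, s}, G.Adj y z → z ∈ ({w} : Finset α) := by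
        intro y hy z hz hyz
        rw [Finset.mem_singleton] at hy
        subst hy
        rw [Finset.mem_sdiff, Finset.mem_insert, Finset.mem_singleton] at hz
        exact absurd (hd.hN z hz.1 hyz) hz.2
      have hwa : ¬ Rch G (V \ {r, s}) w a := by
        intro h'
        exact haw (Finset.mem_singleton.1 (rch_closed hcl (Finset.mem_singleton_self w) h'))
      have hwb : ¬ Rch G (V \ {r, s}) w b := by
        intro h'
        exact hbw (Finset.mem_singleton.1 (rch_closed hcl (Finset.mem_singleton_self w) h'))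
      have hsub : ({cp G (V \ {r, s}) w, cp G (V \ {r, s}) a, cp G (V \ {r, s}) b}
          : Finset (Finset α)) ⊆ comps G (V \ {r, s}) := by
        intro C hC
        rw [Finset.mem_insert, Finset.mem_insert, Finset.mem_singleton] at hC
        rcases hC with h | h | h
        · rw [h]
          exact cp_mem hwV
        · rw [h]
          exact cp_mem haV
        · rw [h]
          exact cp_mem hbV
      have hcard := Finset.card_le_card hsub
      have hne1 : cp G (V \ {r, s}) w ∉ ({cp G (V \ {r, s}) a, cp G (V \ {r, s}) b}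
          : Finset (Finset α)) := by
        rw [Finset.mem_insert, Finset.mem_singleton]
        rintro (h' | h')
        · have := self_mem_cp (G := G) haV
          rw [← h'] at this
          exact hwa (mem_cp.1 this)
        · have := self_mem_cp (G := G) hbV
          rw [← h'] at this
          exact hwb (mem_cp.1 this)
      have hne2 : cp G (V \ {r, s}) a ∉ ({cp G (V \ {r, s}) b} : Finset (Finset α)) := by
        rw [Finset.mem_singleton]
        intro h'
        have := self_mem_cp (G := G) hbV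
        rw [← h'] at this
        exact h (mem_cp.1 this)
      rw [Finset.card_insert_of_notMem hne1, Finset.card_insert_of_notMem hne2,
        Finset.card_singleton] at hcard
      unfold cc at h2
      omega
  have hrs' : Tgt G V {s, r} := by
    rw [Finset.pair_comm]
    exact hrs
  have hnF' : ({s, r} : Finset α) ∉ F := by
    rw [Finset.pair_comm]
    exact hnF
  rw [Finset.mem_insert, Finset.mem_singleton, Finset.mem_insert, Finset.mem_singleton] at key
  rcases key with (h | h) | (h | h)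
  · subst h
    exact caseA0 hE hmax hd.symm hrs' hnF' hbw
  · subst h
    exact caseA0 hE hmax hd hrs hnF hbw
  · subst h
    exact caseA0 (ClsE_symm hE) hmax hd.symm hrs' hnF' haw
  · subst h
    exact caseA0 (ClsE_symm hE) hmax hd hrs hnF haw

theorem D2_of_nb {w r s : α} (hrs : r ≠ s) (hw : w ∈ V)
    (hn : nb G {w} V = {r, s}) : D2 G V w r s := by
  have h : ∀ x, x ∈ V ∧ G.Adj w x ↔ x = r ∨ x = s := by
    intro x
    have := Finset.ext_iff.1 hn x
    unfold nb at this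
    rw [Finset.mem_filter, Finset.mem_insert, Finset.mem_singleton] at this
    rw [← this]
    constructor
    · rintro ⟨h1, h2⟩
      exact ⟨h1, w, Finset.mem_singleton_self w, h2⟩
    · rintro ⟨h1, y, hy, h2⟩
      rw [Finset.mem_singleton] at hy
      subst hy
      exact ⟨h1, h2⟩
  exact ⟨hw, ((h r).2 (Or.inl rfl)).1, ((h s).2 (Or.inr rfl)).1, hrs, ((h r).2 (Or.inl rfl)).2,
    ((h s).2 (Or.inr rfl)).2, fun x hx hxw => (h x).1 ⟨hx, hxw⟩⟩

/-- case B, one end -/
theorem caseB0 (hE : ClsE G V w b F) (hmax : Maxl G V F) (hd : D2 G V w r s)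
    {M M' : Finset α} (hM : M ∈ F) (hM' : M' ∈ F) (wM : w ∈ M) (wM' : w ∈ M') (cM : 3 ≤ M.card)
    (cM' : 3 ≤ M'.card) (hdis : ∀ x ∈ M, x ∈ M' → x = w) :
    ∃ y, y ≠ r ∧ ({r, y} : Finset α) ∈ F := by
  have hF := hE.ncf
  obtain ⟨K, T, C, A, B, h⟩ := end_data hE.two hF hd hM hM' wM wM' cM cM' hdis
  have tA := hF.tgt A h.hA
  have tB := hF.tgt B h.hB
  obtain ⟨tS, _⟩ := erase_tgt hd tA h.wA h.cA
  have hfS : Free G V F (A.erase w) :=
    ⟨tS, sub_not_mem hF h.hA (Finset.erase_subset _ _) h.wA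
      (fun h => (Finset.mem_erase.1 h).1 rfl)⟩
  have hw' : w ∈ V \ (A.erase w) := by
    rw [Finset.mem_sdiff, Finset.mem_erase]
    exact ⟨hd.hw, fun h => h.1 rfl⟩
  have hnw : ¬ Rch G (V \ (A.erase w)) w b := by
    intro h'
    rcases hE.e1 _ hfS with h1 | h1 | h1
    · exact (Finset.mem_erase.1 h1).1 rfl
    · exact (Finset.mem_sdiff.1 h'.2.1).2 h1
    · exact h1 h'
  have hbw : b ≠ w := by
    intro h'
    rw [h'] at hnw
    exact hnw (rch_refl hw')
  have hbK : b ∉ K := far_K hd h hnw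
  obtain ⟨x, rfl⟩ := single_part hE h h.wK hbK
  obtain ⟨h3, h4⟩ := other_end hE.two hd h hE.hb hbK hbw
  have hxK : x ∈ K := h.TK (Finset.mem_singleton_self x)
  have hxw : w ≠ x := fun h' => h.wK (h' ▸ hxK)
  have hxV : x ∈ V := (Finset.mem_sdiff.1 ((mem_comps.1 h.KV).1 hxK)).1
  have hrK : r ∈ K := h.CK h.eC
  have hrw : r ≠ w := fun h' => h.wK (h' ▸ hrK)
  have hrx : r ≠ x := fun h' => Finset.disjoint_left.1 h.CT h.eC (h' ▸ Finset.mem_singleton_self x)
  have hsw : s ≠ w := fun h' => hd.ads.ne h'.symm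
  have hbx : b ≠ x := fun h' => hbK (h' ▸ hxK)
  have hbr : b ≠ r := fun h' => hbK (h' ▸ hrK)
  -- b and w are joined avoiding r and x
  have hwV : w ∈ V \ {r, x} := by
    rw [Finset.mem_sdiff, Finset.mem_insert, Finset.mem_singleton]
    exact ⟨hd.hw, fun h' => h'.elim (fun h => hrw h.symm) hxw⟩
  have hsV : s ∈ V \ {r, x} := by
    rw [Finset.mem_sdiff, Finset.mem_insert, Finset.mem_singleton]
    exact ⟨hd.hs, fun h' => h'.elim (fun h => hd.hrs h.symm) (fun h' => h.e'K (h' ▸ hxK))⟩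
  have hDsub : cp G (V \ {w, x}) b ⊆ V \ {r, x} := by
    intro y hy
    have hy1 := mem_cp.1 hy
    have hy2 := Finset.mem_sdiff.1 hy1.2.1
    rw [Finset.mem_sdiff, Finset.mem_insert, Finset.mem_singleton]
    refine ⟨hy2.1, fun h' => ?_⟩
    rcases h' with h' | h'
    · rw [h'] at hy1
      exact h4 r h.eC hy1
    · exact hy2.2 (Finset.mem_insert_of_mem (Finset.mem_singleton.2 h'))
  have hbs : Rch G (V \ {r, x}) b s := by
    have hD := mem_comps.1 (cp_mem (G := G) h3.1)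
    exact rch_mono hDsub (hD.2.1.2 b (self_mem_cp h3.1) s (mem_cp.2 h3))
  have hwb : Rch G (V \ {r, x}) w b :=
    rch_trans (rch_adj hwV hsV hd.ads) (rch_symm hbs)
  -- C = {r}
  have hC : ∀ y ∈ C, y = r := by
    intro y hy
    by_contra hyr
    have hyx : y ≠ x := fun h' => Finset.disjoint_left.1 h.CT hy (h' ▸ Finset.mem_singleton_self x)
    have hyV : y ∈ V := (Finset.mem_sdiff.1 ((mem_comps.1 h.KV).1 (h.CK hy))).1
    have hcl : ∀ y ∈ C.erase r, ∀ z ∈ V \ {r, x}, G.Adj y z → z ∈ C.erase r := by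
      intro y hy z hz hyz
      rw [Finset.mem_erase] at hy
      rw [Finset.mem_sdiff, Finset.mem_insert, Finset.mem_singleton] at hz
      rcases h.Ccl y hy.2 z hz.1 hyz with h' | h' | h'
      · exact Finset.mem_erase.2 ⟨fun h'' => hz.2 (Or.inl h''), h'⟩
      · exact absurd (Or.inr (Finset.mem_singleton.1 h')) hz.2
      · exfalso
        subst h'
        have hyV : y ∈ V := (Finset.mem_sdiff.1 ((mem_comps.1 h.KV).1 (h.CK hy.2))).1
        rcases hd.hN y hyV hyz.symm with h5 | h5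
        · exact hy.1 h5
        · exact h.e'K (h5 ▸ h.CK hy.2)
    have hn : ¬ Rch G (V \ {r, x}) y w := by
      intro h'
      have := rch_closed hcl (Finset.mem_erase.2 ⟨hyr, hy⟩) h'
      exact h.wK (h.CK (Finset.mem_of_mem_erase this))
    have hy' : y ∈ V \ {r, x} := by
      rw [Finset.mem_sdiff, Finset.mem_insert, Finset.mem_singleton]
      exact ⟨hyV, fun h' => h'.elim hyr hyx⟩
    have hcut : Cut2 G V r x := cut2_of hd.hr hxV hrx hy' hwV hn
    rcases hE.e3 r x hcut with h5 | h5 | h5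
    · exact (Finset.mem_sdiff.1 hwb.1).2 h5
    · exact (Finset.mem_sdiff.1 hwb.2.1).2 h5
    · exact h5 hwb
  -- the neighbours of r
  have hrN : ∀ z ∈ V, G.Adj r z → z = w ∨ z = x := by
    intro z hz hrz
    rcases h.Ccl r h.eC z hz hrz with h' | h' | h'
    · exact absurd (hC z h').symm hrz.ne
    · exact Or.inr (Finset.mem_singleton.1 h')
    · exact Or.inl h'
  have hrxa : G.Adj r x := by
    by_contra hn
    -- r is isolated in V - w
    have hcl : ∀ y ∈ ({r} : Finset α), ∀ z ∈ V.erase w, G.Adj y z → z ∈ ({r} : Finset α) := by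
      intro y hy z hz hyz
      rw [Finset.mem_singleton] at hy
      rw [hy] at hyz
      rw [Finset.mem_erase] at hz
      rcases hrN z hz.2 hyz with h' | h'
      · exact absurd h' hz.1
      · rw [h'] at hyz
        exact absurd hyz hn
    have := rch_closed hcl (Finset.mem_singleton_self r) ((hE.two.erase w hd.hw).2 r
      (Finset.mem_erase.2 ⟨hrw, hd.hr⟩) s (Finset.mem_erase.2 ⟨hsw, hd.hs⟩))
    exact hd.hrs (Finset.mem_singleton.1 this).symm
  have hd' : D2 G V r w x := ⟨hd.hr, hd.hw, hxV, hxw, hd.adr.symm, hrxa, hrN⟩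
  have hxB : x ∈ B := Finset.mem_of_mem_erase (h.TB (Finset.mem_singleton_self x))
  have hsubB : ({w, x} : Finset α) ⊆ B := by
    intro y hy
    rw [Finset.mem_insert, Finset.mem_singleton] at hy
    rcases hy with hy | hy
    · rw [hy]
      exact h.wB
    · rw [hy]
      exact hxB
  have hc2 : ({w, x} : Finset α).card = 2 := Finset.card_pair hxw
  have hrV' : r ∈ V \ {w, x} := by
    rw [Finset.mem_sdiff, Finset.mem_insert, Finset.mem_singleton]
    exact ⟨hd.hr, fun h' => h'.elim hrw hrx⟩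
  have htw : Tgt G V {w, x} := by
    refine ⟨hsubB.trans tB.sub, ⟨?_, ?_⟩, by omega, ?_⟩
    · intro y hy z hz
      exact tB.adm.1 y (hsubB hy) z (hsubB hz)
    · intro X hX hX0
      exact tB.adm.2 X (hX.trans hsubB) hX0
    · apply le_antisymm
      · exact tB.adm.2 _ hsubB (Finset.insert_nonempty _ _)
      · rw [hc2]
        exact (cut2_of hd.hw hxV hxw h3.1 hrV' (h4 r h.eC)).two
  have hnF' : ({w, x} : Finset α) ∉ F := by
    intro h'
    have := hF.anti _ h' B h.hB hsubB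
    have h5 := h.cB
    rw [← this, hc2] at h5
    omega
  exact caseA hE hmax hd' htw hnF' hrw.symm hbr

/-- Lemma W' -/
theorem lemW' (hE : ClsE G V a b F) (hmax : Maxl G V F) (hw : w ∈ V)
    (hn : nb G {w} V = {r, s}) (hrs : Tgt G V {r, s}) (hnF : ({r, s} : Finset α) ∉ F) :
    (∃ x, x ≠ w ∧ ({w, x} : Finset α) ∈ F) ∨
      ((∃ y, y ≠ r ∧ ({r, y} : Finset α) ∈ F) ∧ (∃ y, y ≠ s ∧ ({s, y} : Finset α) ∈ F)) := by
  have hne : r ≠ s := by
    intro h
    have := hrs.card
    rw [h, Finset.pair_eq_singleton, Finset.card_singleton] at this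
    omega
  have hd := D2_of_nb hne hw hn
  by_cases hno : ∃ x, x ≠ w ∧ ({w, x} : Finset α) ∈ F
  · exact Or.inl hno
  · have hno' : ∀ x, x ≠ w → ({w, x} : Finset α) ∉ F := by
      intro x hx hxF
      exact hno ⟨x, hx, hxF⟩
    obtain ⟨M, hM, M', hM', wM, wM', cM, cM', hdis⟩ := two_members hE hmax hd hrs hnF hno'
    by_cases haw : a = w
    · subst haw
      exact Or.inr ⟨caseB0 hE hmax hd hM hM' wM wM' cM cM' hdis,
        caseB0 hE hmax hd.symm hM hM' wM wM' cM cM' hdis⟩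
    · by_cases hbw : b = w
      · subst hbw
        exact Or.inr ⟨caseB0 (ClsE_symm hE) hmax hd hM hM' wM wM' cM cM' hdis,
          caseB0 (ClsE_symm hE) hmax hd.symm hM hM' wM wM' cM cM' hdis⟩
      · exact Or.inl (caseA hE hmax hd hrs hnF haw hbw)

end W

end Pool.Agent.TH.WP

namespace Pool.Agent.TH

open Finset
open scoped Classical

variable {α : Type*} [DecidableEq α]

theorem lemW {G : SimpleGraph α} {V : Finset α} {F : Finset (Finset α)} {a b w r s : α}
    (hE : ClsE G V a b F) (hmax : Maxl G V F) (hw : w ∈ V)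
    (hn : nb G {w} V = {r, s}) (hrs : Tgt G V {r, s}) (hnF : ({r, s} : Finset α) ∉ F) :
    (∃ x, x ≠ w ∧ ({w, x} : Finset α) ∈ F) ∨
      ((∃ y, y ≠ r ∧ ({r, y} : Finset α) ∈ F) ∧ (∃ y, y ≠ s ∧ ({s, y} : Finset α) ∈ F)) :=
  WP.lemW' hE hmax hw hn hrs hnF

end Pool.Agent.TH
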