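import Pool.Agent.HamChrom.Whitney

/-!
Partition functionals: for a weight `Φ` on the partitions (setoids) of a finite type `α`,
`I x Φ = ∑_r Φ r · (x)_{#classes r}`; at a natural number `q` it is the sum of `Φ (ker f)` over all
colourings `f : α → Fin q`.  `E x Φ = I x Φ / x ^ |α|` is the expectation.
-/

set_option autoImplicit false
set_option linter.unusedSectionVars false

namespace Pool.Agent.TH

open Finset
open Pool.Agent.HamChrom (IsPoly)

variable {α : Type*} [Fintype α] [DecidableEq α]

instance finiteSetoid : Finite (Setoid α) := by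
  classical
  apply Finite.of_injective (fun r : Setoid α => (fun a b => r a b : α → α → Prop))
  intro r s h
  apply Setoid.ext
  intro a b
  have := congrFun (congrFun h a) b
  exact iff_of_eq this

noncomputable instance fintypeSetoid : Fintype (Setoid α) := Fintype.ofFinite _

/-- the number of classes -/
noncomputable def ncl (r : Setoid α) : ℕ := Nat.card (Quotient r)

/-- the functional -/
noncomputable def I (x : ℝ) (Φ : Setoid α → ℝ) : ℝ :=
  ∑ r : Setoid α, Φ r * (descPochhammer ℝ (ncl r)).eval x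

/-- colourings with kernel `r` are the embeddings of the quotient -/
def kerEquiv {β : Type} (r : Setoid α) : {f : α → β // Setoid.ker f = r} ≃ (Quotient r ↪ β) where
  toFun f := ⟨Quotient.lift f.1 (by
      intro a b h
      have h1 : r a b := h
      rw [← f.2] at h1
      exact h1), by
      intro a b
      induction a using Quotient.inductionOn with
      | h a =>
        induction b using Quotient.inductionOn with
        | h b =>
          intro h
          apply Quotient.sound
          show r a b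
          rw [← f.2]
          exact h⟩
  invFun g := ⟨fun a => g (Quotient.mk r a), by
      apply Setoid.ext
      intro a b
      rw [Setoid.ker_def]
      constructor
      · intro h
        exact Quotient.exact (g.injective h)
      · intro h
        exact congrArg g (Quotient.sound h)⟩
  left_inv := by
    intro f
    apply Subtype.ext
    funext a
    rfl
  right_inv := by
    intro g
    ext a
    induction a using Quotient.inductionOn with
    | h a => rfl

theorem card_ker_eq (r : Setoid α) (q : ℕ) :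
    Nat.card {f : α → Fin q // Setoid.ker f = r} = q.descFactorial (ncl r) := by
  classical
  have : Fintype (Quotient r) := Fintype.ofFinite _
  rw [Nat.card_congr (kerEquiv r), Nat.card_eq_fintype_card, Fintype.card_embedding_eq,
    Fintype.card_fin, ncl, Nat.card_eq_fintype_card]

theorem I_nat (q : ℕ) (Φ : Setoid α → ℝ) :
    I (q : ℝ) Φ = ∑ f : α → Fin q, Φ (Setoid.ker f) := by
  classical
  unfold I
  rw [← Finset.sum_fiberwise (s := (Finset.univ : Finset (α → Fin q)))
    (g := fun f => Setoid.ker f) (f := fun f => Φ (Setoid.ker f))]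
  apply Finset.sum_congr rfl
  intro r _
  have h1 : ∑ f ∈ (Finset.univ : Finset (α → Fin q)).filter (fun f => Setoid.ker f = r),
      Φ (Setoid.ker f) = ∑ f ∈ (Finset.univ : Finset (α → Fin q)).filter
        (fun f => Setoid.ker f = r), Φ r := by
    apply Finset.sum_congr rfl
    intro f hf
    rw [(Finset.mem_filter.1 hf).2]
  rw [h1, Finset.sum_const, nsmul_eq_mul, mul_comm, ← Fintype.card_subtype,
    ← Nat.card_eq_fintype_card, card_ker_eq, descPochhammer_eval_eq_descFactorial]

theorem I_isPoly (Φ : Setoid α → ℝ) : IsPoly (fun x => I x Φ) := by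
  unfold I
  refine HamChrom.IsPoly.sum _ _ (fun r _ => HamChrom.IsPoly.mul (HamChrom.IsPoly.const _) ?_)
  exact ⟨descPochhammer ℝ (ncl r), fun _ => rfl⟩

theorem I_add (x : ℝ) (Φ Ψ : Setoid α → ℝ) : I x (fun r => Φ r + Ψ r) = I x Φ + I x Ψ := by
  unfold I
  rw [← Finset.sum_add_distrib]
  exact Finset.sum_congr rfl (fun r _ => by ring)

theorem I_smul (x c : ℝ) (Φ : Setoid α → ℝ) : I x (fun r => c * Φ r) = c * I x Φ := by
  unfold I
  rw [Finset.mul_sum]
  exact Finset.sum_congr rfl (fun r _ => by ring)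

theorem I_sum {ι : Type*} (x : ℝ) (s : Finset ι) (Φ : ι → Setoid α → ℝ) :
    I x (fun r => ∑ i ∈ s, Φ i r) = ∑ i ∈ s, I x (Φ i) := by
  unfold I
  rw [Finset.sum_comm]
  exact Finset.sum_congr rfl (fun r _ => by rw [Finset.sum_mul])

theorem I_one (x : ℝ) : I x (fun _ : Setoid α => (1 : ℝ)) = x ^ (Fintype.card α) := by
  refine HamChrom.IsPoly.eq_of_nat (f := fun x => I x (fun _ : Setoid α => (1 : ℝ)))
    (g := fun x => x ^ (Fintype.card α)) (I_isPoly _) (HamChrom.IsPoly.pow HamChrom.IsPoly.id _) ?_ x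
  intro q
  classical
  show I (q : ℝ) _ = _
  rw [I_nat]
  simp

/-! ### conditional independence -/

/-- `Φ` depends only on the restriction to `V` -/
def Dep (V : Finset α) (Φ : Setoid α → ℝ) : Prop :=
  ∀ r s : Setoid α, (∀ a ∈ V, ∀ b ∈ V, (r a b ↔ s a b)) → Φ r = Φ s

theorem Dep.mono {V W : Finset α} {Φ : Setoid α → ℝ} (h : Dep V Φ) (hVW : V ⊆ W) : Dep W Φ :=
  fun r s hrs => h r s (fun a ha b hb => hrs a (hVW ha) b (hVW hb))

theorem Dep.mul {V : Finset α} {Φ Ψ : Setoid α → ℝ} (h : Dep V Φ) (h' : Dep V Ψ) :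
    Dep V (fun r => Φ r * Ψ r) := by
  intro r s hrs
  show Φ r * Ψ r = Φ s * Ψ s
  rw [h r s hrs, h' r s hrs]

/-- two colourings with the same kernel on `C` differ by a permutation of the colours on `C` -/
theorem exists_perm {β : Type} [Fintype β] [DecidableEq β] (C : Finset α) (f g : α → β)
    (h : ∀ a ∈ C, ∀ b ∈ C, (f a = f b ↔ g a = g b)) :
    ∃ σ : Equiv.Perm β, ∀ a ∈ C, σ (g a) = f a := by
  classical
  -- the bijection between the images
  have hex : ∀ y : {y : β // y ∈ C.image g}, ∃ a ∈ C, g a = y.1 := by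
    intro y
    obtain ⟨a, ha, hy⟩ := Finset.mem_image.1 y.2
    exact ⟨a, ha, hy⟩
  choose u huC hug using hex
  have hex' : ∀ y : {y : β // y ∈ C.image f}, ∃ a ∈ C, f a = y.1 := by
    intro y
    obtain ⟨a, ha, hy⟩ := Finset.mem_image.1 y.2
    exact ⟨a, ha, hy⟩
  choose v hvC hvf using hex'
  let e : {y : β // y ∈ C.image g} ≃ {y : β // y ∈ C.image f} :=
    { toFun := fun y => ⟨f (u y), Finset.mem_image_of_mem f (huC y)⟩
      invFun := fun y => ⟨g (v y), Finset.mem_image_of_mem g (hvC y)⟩
      left_inv := by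
        intro y
        apply Subtype.ext
        show g (v _) = y.1
        rw [← hug y]
        apply (h _ (hvC _) _ (huC _)).1
        exact hvf _
      right_inv := by
        intro y
        apply Subtype.ext
        show f (u _) = y.1
        rw [← hvf y]
        apply (h _ (huC _) _ (hvC _)).2
        exact hug _ }
  refine ⟨e.extendSubtype, ?_⟩
  intro a ha
  have hm : g a ∈ C.image g := Finset.mem_image_of_mem g ha
  rw [Equiv.extendSubtype_apply_of_mem e (g a) hm]
  show f (u _) = f a
  apply (h _ (huC _) _ ha).2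
  exact hug _

/-- Conditional independence at natural numbers. `P` is a pattern on `C ⊇ V₁ ∩ V₂`, `C ⊆ V₁`. -/
theorem indep_nat (q : ℕ) (C V₁ V₂ : Finset α) (hC : V₁ ∩ V₂ ⊆ C) (hC1 : C ⊆ V₁)
    (P : Setoid α → ℝ) (hP : Dep C P)
    (hPP : ∀ r s, P r ≠ 0 → P s ≠ 0 → ∀ a ∈ C, ∀ b ∈ C, (r a b ↔ s a b))
    (Φ₁ Φ₂ : Setoid α → ℝ) (h₁ : Dep V₁ Φ₁) (h₂ : Dep V₂ Φ₂) :
    (∑ f : α → Fin q, P (Setoid.ker f) * Φ₁ (Setoid.ker f)) *
      (∑ f : α → Fin q, P (Setoid.ker f) * Φ₂ (Setoid.ker f)) =
    (∑ f : α → Fin q, P (Setoid.ker f)) *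
      (∑ f : α → Fin q, P (Setoid.ker f) * (Φ₁ (Setoid.ker f) * Φ₂ (Setoid.ker f))) := by
  classical
  -- the permutation, chosen as a function of the restrictions to `C`
  have hσ : ∃ σ : ({a // a ∈ C} → Fin q) → ({a // a ∈ C} → Fin q) → Equiv.Perm (Fin q),
      ∀ f g : {a // a ∈ C} → Fin q, (∀ a b, f a = f b ↔ g a = g b) →
        ∀ a, σ f g (g a) = f a := by
    have : ∀ f g : {a // a ∈ C} → Fin q, ∃ σ : Equiv.Perm (Fin q),
        (∀ a b, f a = f b ↔ g a = g b) → ∀ a, σ (g a) = f a := by
      intro f g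
      by_cases h : ∀ a b, f a = f b ↔ g a = g b
      · obtain ⟨σ, hσ⟩ := exists_perm (Finset.univ : Finset {a // a ∈ C}) f g
          (fun a _ b _ => h a b)
        exact ⟨σ, fun _ a => hσ a (Finset.mem_univ a)⟩
      · exact ⟨1, fun h' => absurd h' h⟩
    choose σ hσ using this
    exact ⟨σ, hσ⟩
  obtain ⟨σ, hσ⟩ := hσ
  rw [Finset.sum_mul_sum, Finset.sum_mul_sum, ← Finset.sum_product', ← Finset.sum_product']
  -- the bijection
  let res : (α → Fin q) → ({a // a ∈ C} → Fin q) := fun f a => f a.1
  let T : (α → Fin q) × (α → Fin q) ≃ (α → Fin q) × (α → Fin q) :=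
    { toFun := fun p => (fun a => if a ∈ V₁ then p.2 a else p.1 a,
        fun a => if a ∈ V₁ then p.1 a else σ (res p.1) (res p.2) (p.2 a))
      invFun := fun p => (fun a => if a ∈ V₁ then p.2 a else p.1 a,
        fun a => if a ∈ V₁ then p.1 a else (σ (res p.2) (res p.1)).symm (p.2 a))
      left_inv := by
        intro p
        have e1 : (fun a => if a ∈ V₁ then (if a ∈ V₁ then p.1 a else
            σ (res p.1) (res p.2) (p.2 a)) else (if a ∈ V₁ then p.2 a else p.1 a)) = p.1 := by
          funext a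
          by_cases ha : a ∈ V₁ <;> simp [ha]
        have e2 : res (fun a => if a ∈ V₁ then p.1 a else σ (res p.1) (res p.2) (p.2 a))
            = res p.1 := by
          funext a
          show (if a.1 ∈ V₁ then _ else _) = p.1 a.1
          rw [if_pos (hC1 a.2)]
        have e3 : res (fun a => if a ∈ V₁ then p.2 a else p.1 a) = res p.2 := by
          funext a
          show (if a.1 ∈ V₁ then _ else _) = p.2 a.1
          rw [if_pos (hC1 a.2)]
        apply Prod.ext
        · exact e1
        · funext a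
          show (if a ∈ V₁ then (if a ∈ V₁ then p.2 a else p.1 a) else
            (σ (res (fun a => if a ∈ V₁ then p.1 a else σ (res p.1) (res p.2) (p.2 a)))
              (res (fun a => if a ∈ V₁ then p.2 a else p.1 a))).symm
              (if a ∈ V₁ then p.1 a else σ (res p.1) (res p.2) (p.2 a))) = p.2 a
          rw [e2, e3]
          by_cases ha : a ∈ V₁ <;> simp [ha]
      right_inv := by
        intro p
        have e1 : (fun a => if a ∈ V₁ then (if a ∈ V₁ then p.1 a else
            (σ (res p.2) (res p.1)).symm (p.2 a)) else (if a ∈ V₁ then p.2 a else p.1 a))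
              = p.1 := by
          funext a
          by_cases ha : a ∈ V₁ <;> simp [ha]
        have e2 : res (fun a => if a ∈ V₁ then p.1 a else (σ (res p.2) (res p.1)).symm (p.2 a))
            = res p.1 := by
          funext a
          show (if a.1 ∈ V₁ then _ else _) = p.1 a.1
          rw [if_pos (hC1 a.2)]
        have e3 : res (fun a => if a ∈ V₁ then p.2 a else p.1 a) = res p.2 := by
          funext a
          show (if a.1 ∈ V₁ then _ else _) = p.2 a.1
          rw [if_pos (hC1 a.2)]
        apply Prod.ext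
        · exact e1
        · funext a
          show (if a ∈ V₁ then (if a ∈ V₁ then p.2 a else p.1 a) else
            (σ (res (fun a => if a ∈ V₁ then p.2 a else p.1 a))
              (res (fun a => if a ∈ V₁ then p.1 a else (σ (res p.2) (res p.1)).symm (p.2 a))))
              (if a ∈ V₁ then p.1 a else (σ (res p.2) (res p.1)).symm (p.2 a))) = p.2 a
          rw [e2, e3]
          by_cases ha : a ∈ V₁ <;> simp [ha] }
  apply Fintype.sum_equiv T
  rintro ⟨f, g⟩
  show P (Setoid.ker f) * Φ₁ (Setoid.ker f) * (P (Setoid.ker g) * Φ₂ (Setoid.ker g)) =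
    P (Setoid.ker (fun a => if a ∈ V₁ then g a else f a)) *
      (P (Setoid.ker (fun a => if a ∈ V₁ then f a else σ (res f) (res g) (g a))) *
      (Φ₁ (Setoid.ker (fun a => if a ∈ V₁ then f a else σ (res f) (res g) (g a))) *
      Φ₂ (Setoid.ker (fun a => if a ∈ V₁ then f a else σ (res f) (res g) (g a)))))
  have hk : P (Setoid.ker (fun a => if a ∈ V₁ then g a else f a)) = P (Setoid.ker g) := by
    apply hP
    intro a ha b hb
    rw [Setoid.ker_def, Setoid.ker_def, if_pos (hC1 ha), if_pos (hC1 hb)]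
  have hh : P (Setoid.ker (fun a => if a ∈ V₁ then f a else σ (res f) (res g) (g a)))
      = P (Setoid.ker f) := by
    apply hP
    intro a ha b hb
    rw [Setoid.ker_def, Setoid.ker_def, if_pos (hC1 ha), if_pos (hC1 hb)]
  have h1 : Φ₁ (Setoid.ker (fun a => if a ∈ V₁ then f a else σ (res f) (res g) (g a)))
      = Φ₁ (Setoid.ker f) := by
    apply h₁
    intro a ha b hb
    rw [Setoid.ker_def, Setoid.ker_def, if_pos ha, if_pos hb]
  rw [hk, hh, h1]
  by_cases hPf : P (Setoid.ker f) = 0
  · rw [hPf]; ring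
  by_cases hPg : P (Setoid.ker g) = 0
  · rw [hPg]; ring
  have hker : ∀ a b, res f a = res f b ↔ res g a = res g b := by
    intro a b
    exact hPP _ _ hPf hPg a.1 a.2 b.1 b.2
  have hs := hσ (res f) (res g) hker
  have h2 : Φ₂ (Setoid.ker (fun a => if a ∈ V₁ then f a else σ (res f) (res g) (g a)))
      = Φ₂ (Setoid.ker g) := by
    apply h₂
    have key : ∀ a ∈ V₂, (if a ∈ V₁ then f a else σ (res f) (res g) (g a))
        = σ (res f) (res g) (g a) := by
      intro a ha
      by_cases ha1 : a ∈ V₁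
      · rw [if_pos ha1]
        exact (hs ⟨a, hC (Finset.mem_inter.2 ⟨ha1, ha⟩)⟩).symm
      · rw [if_neg ha1]
    intro a ha b hb
    rw [Setoid.ker_def, Setoid.ker_def, key a ha, key b hb]
    exact (σ (res f) (res g)).injective.eq_iff
  rw [h2]
  ring

theorem indep (x : ℝ) (C V₁ V₂ : Finset α) (hC : V₁ ∩ V₂ ⊆ C) (hC1 : C ⊆ V₁)
    (P : Setoid α → ℝ) (hP : Dep C P)
    (hPP : ∀ r s, P r ≠ 0 → P s ≠ 0 → ∀ a ∈ C, ∀ b ∈ C, (r a b ↔ s a b))
    (Φ₁ Φ₂ : Setoid α → ℝ) (h₁ : Dep V₁ Φ₁) (h₂ : Dep V₂ Φ₂) :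
    I x (fun r => P r * Φ₁ r) * I x (fun r => P r * Φ₂ r) =
      I x P * I x (fun r => P r * (Φ₁ r * Φ₂ r)) := by
  refine HamChrom.IsPoly.eq_of_nat
    (f := fun x => I x (fun r => P r * Φ₁ r) * I x (fun r => P r * Φ₂ r))
    (g := fun x => I x P * I x (fun r => P r * (Φ₁ r * Φ₂ r)))
    ((I_isPoly _).mul (I_isPoly _)) ((I_isPoly _).mul (I_isPoly _)) ?_ x
  intro q
  show I (q : ℝ) _ * I (q : ℝ) _ = I (q : ℝ) _ * I (q : ℝ) _
  rw [I_nat, I_nat, I_nat, I_nat]
  exact indep_nat q C V₁ V₂ hC hC1 P hP hPP Φ₁ Φ₂ h₁ h₂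

end Pool.Agent.TH
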