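import Pool.Agent.TH.Comp

set_option autoImplicit false
set_option linter.unusedSectionVars false
set_option linter.unusedVariables false

namespace Pool.Agent.TH

open Finset
open scoped Classical

variable {α : Type*} [DecidableEq α]

section Ops
variable {G H : SimpleGraph α} {W W' A B C D S T V K M : Finset α} {a b c x y z p q u v t : α}

/-! ### adjacency in the minors -/

theorem addE_adj : (addE G p q).Adj a b ↔
    a ≠ b ∧ (G.Adj a b ∨ (a = p ∧ b = q) ∨ (a = q ∧ b = p)) := by
  unfold addE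
  rw [SimpleGraph.fromRel_adj]
  constructor
  · rintro ⟨h, (h1 | h1) | (h1 | h1)⟩
    · exact ⟨h, Or.inl h1⟩
    · exact ⟨h, Or.inr (Or.inl h1)⟩
    · exact ⟨h, Or.inl h1.symm⟩
    · exact ⟨h, Or.inr (Or.inr ⟨h1.2, h1.1⟩)⟩
  · rintro ⟨h, h1 | h1 | h1⟩
    · exact ⟨h, Or.inl (Or.inl h1)⟩
    · exact ⟨h, Or.inl (Or.inr h1)⟩
    · exact ⟨h, Or.inr (Or.inr ⟨h1.2, h1.1⟩)⟩

theorem addE_of_adj (h : G.Adj a b) : (addE G p q).Adj a b := addE_adj.2 ⟨h.ne, Or.inl h⟩

theorem addE_self_adj (h : p ≠ q) : (addE G p q).Adj p q :=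
  addE_adj.2 ⟨h, Or.inr (Or.inl ⟨rfl, rfl⟩)⟩

theorem delE_adj : (delE G u v).Adj a b ↔
    G.Adj a b ∧ ¬ (a = u ∧ b = v) ∧ ¬ (a = v ∧ b = u) := by
  unfold delE
  rw [SimpleGraph.fromRel_adj]
  constructor
  · rintro ⟨h, h1 | h1⟩
    · exact h1
    · exact ⟨h1.1.symm, fun h2 => h1.2.2 ⟨h2.2, h2.1⟩, fun h2 => h1.2.1 ⟨h2.2, h2.1⟩⟩
  · intro h
    exact ⟨h.1.ne, Or.inl h⟩

theorem delE_le (h : (delE G u v).Adj a b) : G.Adj a b := (delE_adj.1 h).1

theorem idn_adj : (idn G B t).Adj a b ↔
    a ≠ b ∧ (G.Adj a b ∨ (a = t ∧ ∃ c ∈ B, G.Adj c b) ∨ (b = t ∧ ∃ c ∈ B, G.Adj c a)) := by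
  unfold idn
  rw [SimpleGraph.fromRel_adj]
  constructor
  · rintro ⟨h, (h1 | h1) | (h1 | h1)⟩
    · exact ⟨h, Or.inl h1⟩
    · exact ⟨h, Or.inr (Or.inl h1)⟩
    · exact ⟨h, Or.inl h1.symm⟩
    · exact ⟨h, Or.inr (Or.inr h1)⟩
  · rintro ⟨h, h1 | h1 | h1⟩
    · exact ⟨h, Or.inl (Or.inl h1)⟩
    · exact ⟨h, Or.inl (Or.inr h1)⟩
    · exact ⟨h, Or.inr (Or.inr h1)⟩

theorem idn_adj_of_ne (ha : a ≠ t) (hb : b ≠ t) : (idn G B t).Adj a b ↔ G.Adj a b := by
  rw [idn_adj]
  constructor
  · rintro ⟨h, h1 | h1 | h1⟩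
    · exact h1
    · exact absurd h1.1 ha
    · exact absurd h1.1 hb
  · intro h
    exact ⟨h.ne, Or.inl h⟩

theorem idn_adj_left (ht : t ∈ B) : (idn G B t).Adj t b ↔ b ≠ t ∧ ∃ c ∈ B, G.Adj c b := by
  rw [idn_adj]
  constructor
  · rintro ⟨h, h1 | h1 | h1⟩
    · exact ⟨h.symm, t, ht, h1⟩
    · exact ⟨h.symm, h1.2⟩
    · exact absurd h1.1.symm h
  · rintro ⟨h, h1⟩
    exact ⟨h.symm, Or.inr (Or.inl ⟨rfl, h1⟩)⟩

theorem idn_adj_right (ht : t ∈ B) : (idn G B t).Adj a t ↔ a ≠ t ∧ ∃ c ∈ B, G.Adj c a := by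
  rw [SimpleGraph.adj_comm]
  exact idn_adj_left ht

/-! ### congruence -/

theorem Rch.change (h : Rch G W x y) (hGH : ∀ a ∈ W, ∀ b ∈ W, G.Adj a b → Rch H W' a b)
    (hx : x ∈ W') : Rch H W' x y := by
  obtain ⟨hxW, hyW, hr⟩ := h
  clear hyW
  induction hr with
  | refl => exact Rch.refl hx
  | tail _ hbc ih => exact ih.trans (hGH _ hbc.2.1 _ hbc.2.2 hbc.1)

theorem rch_congr (h : ∀ a ∈ W, ∀ b ∈ W, (G.Adj a b ↔ H.Adj a b)) :
    Rch G W x y ↔ Rch H W x y := by
  constructor
  · intro h1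
    exact h1.change (fun a ha b hb hab => Rch.of_adj ha hb ((h a ha b hb).1 hab)) h1.1
  · intro h1
    exact h1.change (fun a ha b hb hab => Rch.of_adj ha hb ((h a ha b hb).2 hab)) h1.1

theorem comps_congr_rch (h : ∀ a ∈ W, ∀ b ∈ W, (Rch G W a b ↔ Rch H W a b)) :
    comps G W = comps H W := by
  unfold comps
  apply Finset.image_congr
  intro x hx
  apply Finset.filter_congr
  intro y hy
  exact h x hx y hy

theorem comps_congr (h : ∀ a ∈ W, ∀ b ∈ W, (G.Adj a b ↔ H.Adj a b)) :
    comps G W = comps H W :=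
  comps_congr_rch (fun _ _ _ _ => rch_congr h)

theorem cc_congr (h : ∀ a ∈ W, ∀ b ∈ W, (G.Adj a b ↔ H.Adj a b)) : cc G W = cc H W := by
  unfold cc
  rw [comps_congr h]

theorem conn_congr (h : ∀ a ∈ W, ∀ b ∈ W, (G.Adj a b ↔ H.Adj a b)) :
    Conn G W ↔ Conn H W := by
  rw [← cc_eq_one_iff, ← cc_eq_one_iff, cc_congr h]

theorem stb_congr (h : ∀ a ∈ W, ∀ b ∈ W, (G.Adj a b ↔ H.Adj a b)) : Stb G W ↔ Stb H W := by
  unfold Stb
  constructor
  · intro h1 x hx y hy hxy
    exact h1 x hx y hy ((h x hx y hy).2 hxy)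
  · intro h1 x hx y hy hxy
    exact h1 x hx y hy ((h x hx y hy).1 hxy)

theorem tch_congr (h : ∀ a ∈ A, ∀ b ∈ B, (G.Adj a b ↔ H.Adj a b)) :
    Tch G A B ↔ Tch H A B := by
  constructor
  · rintro ⟨x, hx, y, hy, hxy⟩
    exact ⟨x, hx, y, hy, (h x hx y hy).1 hxy⟩
  · rintro ⟨x, hx, y, hy, hxy⟩
    exact ⟨x, hx, y, hy, (h x hx y hy).2 hxy⟩

theorem Stb.mono (h : Stb G S) (hT : T ⊆ S) : Stb G T :=
  fun x hx y hy => h x (hT hx) y (hT hy)

theorem Conn.mono_graph (h : Conn G W) (hGH : ∀ a ∈ W, ∀ b ∈ W, G.Adj a b → H.Adj a b) :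
    Conn H W := by
  refine ⟨h.1, fun x hx y hy => ?_⟩
  exact (h.2 x hx y hy).change (fun a ha b hb hab => Rch.of_adj ha hb (hGH a ha b hb hab)) hx

theorem conn_singleton : Conn G {x} := by
  refine ⟨Finset.singleton_nonempty x, ?_⟩
  intro a ha b hb
  rw [Finset.mem_singleton] at ha hb
  subst ha
  subst hb
  exact Rch.refl (Finset.mem_singleton_self _)

/-! ### adding a connected set -/

/-- the component which arises when the connected set `A` is added to `W` -/
noncomputable def joinC (G : SimpleGraph α) (W A : Finset α) : Finset α :=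
  A ∪ ((comps G W).filter (fun C => Tch G C A)).biUnion id

theorem mem_joinC : x ∈ joinC G W A ↔ x ∈ A ∨ ∃ C ∈ comps G W, Tch G C A ∧ x ∈ C := by
  unfold joinC
  rw [Finset.mem_union, Finset.mem_biUnion]
  constructor
  · rintro (h | ⟨C, hC, hx⟩)
    · exact Or.inl h
    · rw [Finset.mem_filter] at hC
      exact Or.inr ⟨C, hC.1, hC.2, hx⟩
  · rintro (h | ⟨C, hC, hT, hx⟩)
    · exact Or.inl h
    · exact Or.inr ⟨C, Finset.mem_filter.2 ⟨hC, hT⟩, hx⟩

theorem joinC_mem (hA : Conn G A) : joinC G W A ∈ comps G (W ∪ A) := by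
  have hAW : A ⊆ joinC G W A := fun x hx => mem_joinC.2 (Or.inl hx)
  obtain ⟨⟨a0, ha0⟩, hAc⟩ := hA
  have hreach : ∀ x ∈ joinC G W A, Rch G (joinC G W A) a0 x := by
    intro x hx
    rcases mem_joinC.1 hx with h | ⟨C, hC, ⟨c, hc, a, ha, hca⟩, hxC⟩
    · exact Rch.mono hAW (hAc a0 ha0 x h)
    · have hCJ : C ⊆ joinC G W A :=
        fun y hy => mem_joinC.2 (Or.inr ⟨C, hC, ⟨c, hc, a, ha, hca⟩, hy⟩)
      have h1 : Rch G (joinC G W A) a0 a := Rch.mono hAW (hAc a0 ha0 a ha)
      have h2 : Rch G (joinC G W A) a c := Rch.of_adj (hAW ha) (hCJ hc) hca.symm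
      have h3 : Rch G (joinC G W A) c x := Rch.mono hCJ ((comps_conn hC).2 c hc x hxC)
      exact (h1.trans h2).trans h3
  refine mem_comps.2 ⟨?_, ⟨⟨a0, hAW ha0⟩, ?_⟩, ?_⟩
  · intro x hx
    rcases mem_joinC.1 hx with h | ⟨C, hC, _, hxC⟩
    · exact Finset.mem_union_right _ h
    · exact Finset.mem_union_left _ (comps_sub hC hxC)
  · intro x hx y hy
    exact (hreach x hx).symm.trans (hreach y hy)
  · intro x hx y hy hxy
    rcases Finset.mem_union.1 hy with hyW | hyA
    · rcases mem_joinC.1 hx with h | ⟨C, hC, hT, hxC⟩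
      · obtain ⟨D, hD, hyD⟩ := exists_comp (G := G) hyW
        exact mem_joinC.2 (Or.inr ⟨D, hD, ⟨y, hyD, x, h, hxy.symm⟩, hyD⟩)
      · exact mem_joinC.2 (Or.inr ⟨C, hC, hT, comps_closed hC hxC hyW hxy⟩)
    · exact hAW hyA

theorem comps_union_conn (hA : Conn G A) (hd : Disjoint W A) :
    comps G (W ∪ A) = insert (joinC G W A) ((comps G W).filter (fun C => ¬ Tch G C A)) := by
  ext D
  rw [Finset.mem_insert, Finset.mem_filter]
  constructor
  · intro hD
    by_cases hDA : ∃ x ∈ D, x ∈ joinC G W A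
    · left
      obtain ⟨x, hx, hx'⟩ := hDA
      exact comp_unique hD (joinC_mem hA) hx hx'
    · right
      push Not at hDA
      have hDW : D ⊆ W := by
        intro x hx
        rcases Finset.mem_union.1 (comps_sub hD hx) with h | h
        · exact h
        · exact absurd (mem_joinC.2 (Or.inl h)) (hDA x hx)
      refine ⟨comp_down hD Finset.subset_union_left hDW, ?_⟩
      rintro ⟨c, hc, a, ha, hca⟩
      exact hDA a (comps_closed hD hc (Finset.mem_union_right _ ha) hca)
        (mem_joinC.2 (Or.inl ha))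
  · rintro (rfl | ⟨hD, hT⟩)
    · exact joinC_mem hA
    · refine comp_up hD Finset.subset_union_left ?_
      intro h
      apply hT
      refine tch_mono h (Finset.Subset.refl _) ?_
      intro x hx
      rw [Finset.mem_sdiff, Finset.mem_union] at hx
      exact hx.1.resolve_left hx.2

/-- adding a connected set: the touched components merge into one -/
theorem cc_union_conn (hA : Conn G A) (hd : Disjoint W A) :
    cc G (W ∪ A) = ((comps G W).filter (fun C => ¬ Tch G C A)).card + 1 := by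
  unfold cc
  rw [comps_union_conn hA hd, Finset.card_insert_of_notMem]
  intro h
  obtain ⟨⟨a0, ha0⟩, _⟩ := hA
  have h1 := comps_sub (Finset.mem_filter.1 h).1 (mem_joinC.2 (Or.inl ha0))
  exact (Finset.disjoint_left.1 hd) h1 ha0

theorem cc_union_conn' (hA : Conn G A) (hd : Disjoint W A) :
    cc G (W ∪ A) + ((comps G W).filter (fun C => Tch G C A)).card = cc G W + 1 := by
  have h1 := cc_union_conn hA hd
  have h2 : ((comps G W).filter (fun C => Tch G C A)).card
      + ((comps G W).filter (fun C => ¬ Tch G C A)).card = (comps G W).card :=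
    Finset.card_filter_add_card_filter_not _
  have h3 : cc G W = (comps G W).card := rfl
  omega

theorem cc_insert (hv : v ∉ W) :
    cc G (insert v W) = ((comps G W).filter (fun C => ¬ Tch G C {v})).card + 1 := by
  have h := cc_union_conn (G := G) (W := W) (A := {v}) conn_singleton
    (Finset.disjoint_singleton_right.2 hv)
  rwa [show W ∪ {v} = insert v W by
    rw [Finset.insert_eq, Finset.union_comm]] at h

theorem cc_insert' (hv : v ∉ W) :
    cc G (insert v W) + ((comps G W).filter (fun C => Tch G C {v})).card = cc G W + 1 := by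
  have h := cc_union_conn' (G := G) (W := W) (A := {v}) conn_singleton
    (Finset.disjoint_singleton_right.2 hv)
  rwa [show W ∪ {v} = insert v W by
    rw [Finset.insert_eq, Finset.union_comm]] at h

/-- deleting a vertex which is not isolated does not decrease the number of components -/
theorem cc_insert_le (hv : v ∉ W) (hn : Tch G W {v}) : cc G (insert v W) ≤ cc G W := by
  have h := cc_insert' (G := G) hv
  obtain ⟨x, hx, y, hy, hxy⟩ := hn
  obtain ⟨C, hC, hxC⟩ := exists_comp (G := G) hx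
  have : 0 < ((comps G W).filter (fun C => Tch G C {v})).card :=
    Finset.card_pos.2 ⟨C, Finset.mem_filter.2 ⟨hC, ⟨x, hxC, y, hy, hxy⟩⟩⟩
  omega

theorem cc_insert_le_succ (hv : v ∉ W) : cc G (insert v W) ≤ cc G W + 1 := by
  have h := cc_insert' (G := G) hv
  omega

/-! ### components inside components -/

theorem comps_sdiff_biUnion : comps G (W \ S) =
    (comps G W).biUnion (fun K => comps G (K \ S)) := by
  ext C
  rw [Finset.mem_biUnion]
  constructor
  · intro hC
    obtain ⟨K, hK, hCK⟩ := conn_sub_comp (comps_conn hC) ((comps_sub hC).trans Finset.sdiff_subset)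
    refine ⟨K, hK, ?_⟩
    refine comp_down hC (Finset.sdiff_subset_sdiff (comps_sub hK) (Finset.Subset.refl _)) ?_
    intro x hx
    exact Finset.mem_sdiff.2 ⟨hCK hx, (Finset.mem_sdiff.1 (comps_sub hC hx)).2⟩
  · rintro ⟨K, hK, hC⟩
    refine comp_up hC (Finset.sdiff_subset_sdiff (comps_sub hK) (Finset.Subset.refl _)) ?_
    rintro ⟨x, hx, y, hy, hxy⟩
    rw [Finset.mem_sdiff, Finset.mem_sdiff, Finset.mem_sdiff] at hy
    have hxK := (Finset.mem_sdiff.1 (comps_sub hC hx)).1
    exact hy.2 ⟨comps_closed hK hxK hy.1.1 hxy, hy.1.2⟩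

theorem cc_sdiff_sum : cc G (W \ S) = ∑ K ∈ comps G W, cc G (K \ S) := by
  unfold cc
  rw [comps_sdiff_biUnion, Finset.card_biUnion]
  intro K hK K' hK' hne
  rw [Function.onFun, Finset.disjoint_left]
  intro C hC hC'
  obtain ⟨x, hx⟩ := comps_nonempty hC
  have h1 := (Finset.mem_sdiff.1 (comps_sub hC hx)).1
  have h2 := (Finset.mem_sdiff.1 (comps_sub hC' hx)).1
  exact hne (comp_unique hK hK' h1 h2)

theorem cc_sdiff_union_sum : cc G (V \ (B ∪ S)) = ∑ K ∈ comps G (V \ B), cc G (K \ S) := by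
  rw [← cc_sdiff_sum]
  congr 1
  ext x
  simp only [Finset.mem_sdiff, Finset.mem_union]
  tauto

/-! ### adding and deleting an edge -/

theorem rch_addE (h : Rch G W x y) : Rch (addE G p q) W x y :=
  h.change (fun _ ha _ hb hab => Rch.of_adj ha hb (addE_of_adj hab)) h.1

theorem comps_addE_of_notMem (h : p ∉ W ∨ q ∉ W) : comps (addE G p q) W = comps G W := by
  apply comps_congr
  intro a ha b hb
  rw [addE_adj]
  constructor
  · rintro ⟨h1, h2 | ⟨rfl, rfl⟩ | ⟨rfl, rfl⟩⟩
    · exact h2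
    · rcases h with h | h
      · exact absurd ha h
      · exact absurd hb h
    · rcases h with h | h
      · exact absurd hb h
      · exact absurd ha h
  · intro h1
    exact ⟨h1.ne, Or.inl h1⟩

theorem comps_addE_of_rch (h : Rch G W p q) : comps (addE G p q) W = comps G W := by
  apply comps_congr_rch
  intro a ha b hb
  constructor
  · intro h1
    refine h1.change ?_ ha
    intro c hc d hd hcd
    rcases (addE_adj.1 hcd).2 with h2 | ⟨rfl, rfl⟩ | ⟨rfl, rfl⟩
    · exact Rch.of_adj hc hd h2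
    · exact h
    · exact h.symm
  · exact rch_addE

theorem cc_addE_of_notMem (h : p ∉ W ∨ q ∉ W) : cc (addE G p q) W = cc G W := by
  unfold cc
  rw [comps_addE_of_notMem h]

theorem cc_addE_of_rch (h : Rch G W p q) : cc (addE G p q) W = cc G W := by
  unfold cc
  rw [comps_addE_of_rch h]

theorem comps_addE_of_not (hC : C ∈ comps G W) (hp : p ∈ C) (hD : D ∈ comps G W) (hq : q ∈ D)
    (hne : C ≠ D) : comps (addE G p q) W = insert (C ∪ D) (((comps G W).erase C).erase D) := by
  have hpq : p ≠ q := by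
    rintro rfl
    exact hne (comp_unique hC hD hp hq)
  have hCD : C ∪ D ∈ comps (addE G p q) W := by
    refine mem_comps.2 ⟨Finset.union_subset (comps_sub hC) (comps_sub hD), ?_, ?_⟩
    · apply conn_union
      · exact (comps_conn hC).mono_graph (fun _ _ _ _ hab => addE_of_adj hab)
      · exact (comps_conn hD).mono_graph (fun _ _ _ _ hab => addE_of_adj hab)
      · left
        exact ⟨p, hp, q, hq, addE_self_adj hpq⟩
    · intro x hx y hy hxy
      rcases (addE_adj.1 hxy).2 with h1 | ⟨rfl, rfl⟩ | ⟨rfl, rfl⟩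
      · rcases Finset.mem_union.1 hx with hx | hx
        · exact Finset.mem_union_left _ (comps_closed hC hx hy h1)
        · exact Finset.mem_union_right _ (comps_closed hD hx hy h1)
      · exact Finset.mem_union_right _ hq
      · exact Finset.mem_union_left _ hp
  ext E
  rw [Finset.mem_insert, Finset.mem_erase, Finset.mem_erase]
  constructor
  · intro hE
    by_cases hEC : ∃ x ∈ E, x ∈ C ∪ D
    · left
      obtain ⟨x, hx, hx'⟩ := hEC
      exact comp_unique hE hCD hx hx'
    · right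
      push Not at hEC
      have hED : E ≠ D := by
        rintro rfl
        exact hEC q hq (Finset.mem_union_right _ hq)
      have hEC' : E ≠ C := by
        rintro rfl
        exact hEC p hp (Finset.mem_union_left _ hp)
      refine ⟨hED, hEC', ?_⟩
      have hEq : comps G E = comps (addE G p q) E := by
        rw [comps_addE_of_notMem]
        left
        intro h
        exact hEC p h (Finset.mem_union_left _ hp)
      refine mem_comps.2 ⟨comps_sub hE, ?_, ?_⟩
      · have h1 := comps_conn hE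
        rw [← cc_eq_one_iff] at h1 ⊢
        unfold cc at h1 ⊢
        rw [hEq]
        exact h1
      · intro x hx y hy hxy
        exact comps_closed hE hx hy (addE_of_adj hxy)
  · rintro (rfl | ⟨hED, hEC, hE⟩)
    · exact hCD
    · refine mem_comps.2 ⟨comps_sub hE, ?_, ?_⟩
      · exact (comps_conn hE).mono_graph (fun _ _ _ _ hab => addE_of_adj hab)
      · intro x hx y hy hxy
        rcases (addE_adj.1 hxy).2 with h1 | ⟨rfl, rfl⟩ | ⟨rfl, rfl⟩
        · exact comps_closed hE hx hy h1
        · exact absurd (comp_unique hE hC hx hp) hEC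
        · exact absurd (comp_unique hE hD hx hq) hED

theorem cc_addE_of_not (hp : p ∈ W) (hq : q ∈ W) (h : ¬ Rch G W p q) :
    cc (addE G p q) W + 1 = cc G W := by
  obtain ⟨C, hC, hpC⟩ := exists_comp (G := G) hp
  obtain ⟨D, hD, hqD⟩ := exists_comp (G := G) hq
  have hne : C ≠ D := by
    rintro rfl
    exact h (rch_iff_comp.2 ⟨C, hC, hpC, hqD⟩)
  unfold cc
  rw [comps_addE_of_not hC hpC hD hqD hne, Finset.card_insert_of_notMem]
  · have h1 : D ∈ (comps G W).erase C := Finset.mem_erase.2 ⟨hne.symm, hD⟩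
    rw [Finset.card_erase_of_mem h1, Finset.card_erase_of_mem hC]
    have h2 : 0 < ((comps G W).erase C).card := Finset.card_pos.2 ⟨D, h1⟩
    rw [Finset.card_erase_of_mem hC] at h2
    omega
  · intro h1
    rw [Finset.mem_erase, Finset.mem_erase] at h1
    exact h1.2.1 (comp_unique h1.2.2 hC (Finset.mem_union_left _ hpC) hpC)

theorem cc_addE_le : cc (addE G p q) W ≤ cc G W := by
  by_cases hp : p ∈ W
  · by_cases hq : q ∈ W
    · by_cases h : Rch G W p q
      · rw [cc_addE_of_rch h]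
      · have := cc_addE_of_not hp hq h
        omega
    · rw [cc_addE_of_notMem (Or.inr hq)]
  · rw [cc_addE_of_notMem (Or.inl hp)]

theorem le_cc_addE : cc G W ≤ cc (addE G p q) W + 1 := by
  by_cases hp : p ∈ W
  · by_cases hq : q ∈ W
    · by_cases h : Rch G W p q
      · rw [cc_addE_of_rch h]
        omega
      · have := cc_addE_of_not hp hq h
        omega
    · rw [cc_addE_of_notMem (Or.inr hq)]
      omega
  · rw [cc_addE_of_notMem (Or.inl hp)]
    omega

theorem addE_delE (h : G.Adj u v) : addE (delE G u v) u v = G := by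
  ext a b
  rw [addE_adj, delE_adj]
  constructor
  · rintro ⟨h1, h2 | ⟨rfl, rfl⟩ | ⟨rfl, rfl⟩⟩
    · exact h2.1
    · exact h
    · exact h.symm
  · intro h1
    refine ⟨h1.ne, ?_⟩
    by_cases h2 : a = u ∧ b = v
    · right; left; exact h2
    · by_cases h3 : a = v ∧ b = u
      · right; right; exact h3
      · left
        exact ⟨h1, h2, h3⟩

theorem comps_delE_of_notMem (h : u ∉ W ∨ v ∉ W) : comps (delE G u v) W = comps G W := by
  apply comps_congr
  intro a ha b hb
  rw [delE_adj]
  constructor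
  · intro h1
    exact h1.1
  · intro h1
    refine ⟨h1, ?_, ?_⟩
    · rintro ⟨rfl, rfl⟩
      rcases h with h | h
      · exact h ha
      · exact h hb
    · rintro ⟨rfl, rfl⟩
      rcases h with h | h
      · exact h hb
      · exact h ha

theorem cc_delE_of_notMem (h : u ∉ W ∨ v ∉ W) : cc (delE G u v) W = cc G W := by
  unfold cc
  rw [comps_delE_of_notMem h]

theorem comps_delE_of_rch (huv : G.Adj u v) (h : Rch (delE G u v) W u v) :
    comps (delE G u v) W = comps G W := by
  have h1 := comps_addE_of_rch h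
  rw [addE_delE huv] at h1
  exact h1.symm

theorem cc_delE_of_rch (huv : G.Adj u v) (h : Rch (delE G u v) W u v) :
    cc (delE G u v) W = cc G W := by
  unfold cc
  rw [comps_delE_of_rch huv h]

theorem cc_delE_of_not (huv : G.Adj u v) (hu : u ∈ W) (hv : v ∈ W)
    (h : ¬ Rch (delE G u v) W u v) : cc (delE G u v) W = cc G W + 1 := by
  have h1 := cc_addE_of_not hu hv h
  rw [addE_delE huv] at h1
  omega

theorem le_cc_delE (huv : G.Adj u v) : cc G W ≤ cc (delE G u v) W := by
  have := cc_addE_le (G := delE G u v) (p := u) (q := v) (W := W)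
  rwa [addE_delE huv] at this

theorem cc_delE_le (huv : G.Adj u v) : cc (delE G u v) W ≤ cc G W + 1 := by
  have := le_cc_addE (G := delE G u v) (p := u) (q := v) (W := W)
  rwa [addE_delE huv] at this

theorem rch_delE (huv : G.Adj u v) (h : Rch (delE G u v) W x y) : Rch G W x y := by
  have := rch_addE (p := u) (q := v) h
  rwa [addE_delE huv] at this

/-! ### pieces -/

theorem comps_idn_of_notMem (h : t ∉ W) : comps (idn G B t) W = comps G W := by
  apply comps_congr
  intro a ha b hb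
  apply idn_adj_of_ne
  · rintro rfl
    exact h ha
  · rintro rfl
    exact h hb

theorem cc_idn_of_notMem (h : t ∉ W) : cc (idn G B t) W = cc G W := by
  unfold cc
  rw [comps_idn_of_notMem h]

theorem conn_idn_of_notMem (h : t ∉ W) : Conn (idn G B t) W ↔ Conn G W := by
  rw [← cc_eq_one_iff, ← cc_eq_one_iff, cc_idn_of_notMem h]

theorem stb_idn_of_notMem (h : t ∉ W) : Stb (idn G B t) W ↔ Stb G W := by
  apply stb_congr
  intro a ha b hb
  apply idn_adj_of_ne
  · rintro rfl
    exact h ha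
  · rintro rfl
    exact h hb

theorem tch_idn (ht : t ∈ B) (h : t ∉ C) : Tch (idn G B t) C {t} ↔ Tch G C B := by
  constructor
  · rintro ⟨x, hx, y, hy, hxy⟩
    rw [Finset.mem_singleton] at hy
    subst hy
    obtain ⟨_, c, hc, hcx⟩ := (idn_adj_right ht).1 hxy
    exact ⟨x, hx, c, hc, hcx.symm⟩
  · rintro ⟨x, hx, c, hc, hxc⟩
    refine ⟨x, hx, t, Finset.mem_singleton_self t, (idn_adj_right ht).2 ⟨?_, c, hc, hxc.symm⟩⟩
    rintro rfl
    exact h hx

/-- number of components of a piece minus a set avoiding the root -/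
theorem cc_idn_piece (ht : t ∈ B) (htK : t ∉ K) (htS : t ∉ S) :
    cc (idn G B t) (insert t K \ S) = inn G B S K + 1 := by
  have h1 : insert t K \ S = insert t (K \ S) := by
    ext x
    simp only [Finset.mem_sdiff, Finset.mem_insert]
    constructor
    · rintro ⟨rfl | h, h2⟩
      · exact Or.inl rfl
      · exact Or.inr ⟨h, h2⟩
    · rintro (rfl | h)
      · exact ⟨Or.inl rfl, htS⟩
      · exact ⟨Or.inr h.1, h.2⟩
  have htW : t ∉ K \ S := fun h => htK (Finset.mem_sdiff.1 h).1
  rw [h1, cc_insert htW, comps_idn_of_notMem htW]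
  unfold inn
  congr 2
  apply Finset.filter_congr
  intro C hC
  rw [tch_idn ht]
  intro h
  exact htW (comps_sub hC h)

/-- number of components of a piece minus a set containing the root -/
theorem cc_idn_root (htK : t ∉ K) (htS : t ∈ S) :
    cc (idn G B t) (insert t K \ S) = cc G (K \ S) := by
  have h1 : insert t K \ S = K \ S := by
    ext x
    simp only [Finset.mem_sdiff, Finset.mem_insert]
    constructor
    · rintro ⟨rfl | h, h2⟩
      · exact absurd htS h2
      · exact ⟨h, h2⟩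
    · rintro h
      exact ⟨Or.inr h.1, h.2⟩
  rw [h1]
  apply cc_idn_of_notMem
  intro h
  exact htK (Finset.mem_sdiff.1 h).1

/-! ### contraction of an edge -/

theorem conn_pair (h : G.Adj u v) : Conn G {u, v} := by
  have h1 : Conn G ({u} ∪ {v}) := by
    apply conn_union conn_singleton conn_singleton
    left
    exact ⟨u, Finset.mem_singleton_self u, v, Finset.mem_singleton_self v, h⟩
  rwa [show ({u} ∪ {v} : Finset α) = {u, v} from rfl] at h1

/-- contraction, the set avoids the new vertex -/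
theorem cc_con_of_notMem (huv : G.Adj u v) (hu : u ∈ V) (hv : v ∈ V) (huS : u ∉ S) (hvS : v ∉ S) :
    cc (idn G {u, v} u) (V.erase v \ S) = cc G (V \ S) := by
  have hne : u ≠ v := huv.ne
  have h1 : V.erase v \ S = insert u ((V \ {u, v}) \ S) := by
    ext x
    simp only [Finset.mem_sdiff, Finset.mem_erase, Finset.mem_insert, Finset.mem_singleton]
    constructor
    · rintro ⟨⟨hxv, hxV⟩, hxS⟩
      by_cases hxu : x = u
      · exact Or.inl hxu
      · exact Or.inr ⟨⟨hxV, by tauto⟩, hxS⟩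
    · rintro (rfl | ⟨⟨hxV, hx⟩, hxS⟩)
      · exact ⟨⟨hne, hu⟩, huS⟩
      · exact ⟨⟨by tauto, hxV⟩, hxS⟩
  have h2 : V \ S = ((V \ {u, v}) \ S) ∪ {u, v} := by
    ext x
    simp only [Finset.mem_sdiff, Finset.mem_union, Finset.mem_insert, Finset.mem_singleton]
    constructor
    · rintro ⟨hxV, hxS⟩
      by_cases hx : x = u ∨ x = v
      · exact Or.inr hx
      · exact Or.inl ⟨⟨hxV, hx⟩, hxS⟩
    · rintro (⟨⟨hxV, _⟩, hxS⟩ | rfl | rfl)
      · exact ⟨hxV, hxS⟩
      · exact ⟨hu, huS⟩
      · exact ⟨hv, hvS⟩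
  have huW : u ∉ (V \ {u, v}) \ S := by
    simp
  have hd : Disjoint ((V \ {u, v}) \ S) ({u, v} : Finset α) := by
    rw [Finset.disjoint_left]
    intro x hx hx'
    rw [Finset.mem_sdiff, Finset.mem_sdiff] at hx
    exact hx.1.2 hx'
  rw [h1, cc_insert huW, comps_idn_of_notMem huW, h2, cc_union_conn (conn_pair huv) hd]
  congr 2
  apply Finset.filter_congr
  intro C hC
  rw [tch_idn (Finset.mem_insert_self u {v})]
  intro h
  exact huW (comps_sub hC h)

/-- contraction, the set contains the new vertex -/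
theorem cc_con_of_mem (hu : u ∈ S) :
    cc (idn G {u, v} u) (V.erase v \ S) = cc G (V \ insert v S) := by
  have h1 : V.erase v \ S = V \ insert v S := by
    ext x
    simp only [Finset.mem_sdiff, Finset.mem_erase, Finset.mem_insert]
    tauto
  rw [h1]
  apply cc_idn_of_notMem
  intro h
  rw [Finset.mem_sdiff, Finset.mem_insert] at h
  exact h.2 (Or.inr hu)

end Ops

end Pool.Agent.TH
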