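import Pool.Agent.TH.Meas

/-!
The normalised functional `Rc x V D` of a predicate `D` on finsets (the allowed monochromatic sets),
and its three recursions:
(A) `Rc_add`: adding a set `B` (product over the pieces),
(B) `Rc_delcon`: deletion-contraction,
(C) `Rc_two`: gluing at two differently coloured vertices.
-/

set_option autoImplicit false
set_option linter.unusedSectionVars false

namespace Pool.Agent.TH

open Finset
open Pool.Agent.HamChrom (IsPoly)

variable {α : Type*} [Fintype α] [DecidableEq α]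

/-- `B` is monochromatic -/
def Mn (B : Finset α) (r : Setoid α) : Prop := ∀ a ∈ B, ∀ b ∈ B, r a b

open Classical in
/-- indicator of: `B` is monochromatic -/
noncomputable def PB (B : Finset α) (r : Setoid α) : ℝ := if Mn B r then 1 else 0

theorem PB_pos {B : Finset α} {r : Setoid α} (h : Mn B r) : PB B r = 1 := if_pos h

theorem PB_neg {B : Finset α} {r : Setoid α} (h : ¬ Mn B r) : PB B r = 0 := if_neg h

theorem PB_dep (B : Finset α) : Dep B (PB B) := by
  intro r s h
  have : Mn B r ↔ Mn B s := by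
    constructor
    · intro H a ha b hb
      exact (h a ha b hb).1 (H a ha b hb)
    · intro H a ha b hb
      exact (h a ha b hb).2 (H a ha b hb)
  by_cases h1 : Mn B r
  · rw [PB_pos h1, PB_pos (this.1 h1)]
  · rw [PB_neg h1, PB_neg (fun h2 => h1 (this.2 h2))]

theorem PB_pattern (B : Finset α) (r s : Setoid α) (hr : PB B r ≠ 0) (hs : PB B s ≠ 0) :
    ∀ a ∈ B, ∀ b ∈ B, (r a b ↔ s a b) := by
  have h1 : Mn B r := by
    by_contra h
    exact hr (PB_neg h)
  have h2 : Mn B s := by
    by_contra h
    exact hs (PB_neg h)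
  intro a ha b hb
  exact ⟨fun _ => h2 a ha b hb, fun _ => h1 a ha b hb⟩

/-- colourings constant on `B` -/
def monoEquiv {β : Type} (B : Finset α) (t : α) (ht : t ∈ B) :
    {f : α → β // ∀ a ∈ B, ∀ b ∈ B, f a = f b} ≃ ({a : α // a ∉ B.erase t} → β) where
  toFun f a := f.1 a.1
  invFun g := ⟨fun a => if h : a ∉ B.erase t then g ⟨a, h⟩ else g ⟨t, Finset.notMem_erase t B⟩, by
    have key : ∀ a ∈ B, (if h : a ∉ B.erase t then g ⟨a, h⟩ else
        g ⟨t, Finset.notMem_erase t B⟩) = g ⟨t, Finset.notMem_erase t B⟩ := by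
      intro a ha
      by_cases hat : a = t
      · subst hat
        rw [dif_pos (Finset.notMem_erase _ _)]
      · rw [dif_neg]
        rw [not_not]
        exact Finset.mem_erase.2 ⟨hat, ha⟩
    intro a ha b hb
    beta_reduce
    rw [key a ha, key b hb]⟩
  left_inv := by
    intro f
    apply Subtype.ext
    funext a
    show (if h : a ∉ B.erase t then f.1 a else f.1 t) = f.1 a
    by_cases h : a ∉ B.erase t
    · rw [dif_pos h]
    · rw [dif_neg h]
      rw [not_not] at h
      exact f.2 t ht a (Finset.mem_of_mem_erase h)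
  right_inv := by
    intro g
    funext a
    show (if h : a.1 ∉ B.erase t then g ⟨a.1, h⟩ else g ⟨t, _⟩) = g a
    rw [dif_pos a.2]

theorem I_PB_nat (B : Finset α) (t : α) (ht : t ∈ B) (q : ℕ) :
    I (q : ℝ) (PB B) = (q : ℝ) ^ (Fintype.card α - (B.card - 1)) := by
  classical
  rw [I_nat]
  have h1 : ∀ f : α → Fin q, PB B (Setoid.ker f) =
      if (∀ a ∈ B, ∀ b ∈ B, f a = f b) then 1 else 0 := by
    intro f
    unfold PB Mn
    simp only [Setoid.ker_def]
  rw [Finset.sum_congr rfl (fun f _ => h1 f), Finset.sum_ite, Finset.sum_const_zero, add_zero,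
    Finset.sum_const, nsmul_eq_mul, mul_one, ← Fintype.card_subtype,
    Fintype.card_congr (monoEquiv B t ht), Fintype.card_fun, Fintype.card_fin,
    Fintype.card_subtype_compl]
  rw [Nat.cast_pow]
  congr 2
  rw [Fintype.card_coe, Finset.card_erase_of_mem ht]

theorem I_PB (x : ℝ) (B : Finset α) (t : α) (ht : t ∈ B) :
    I x (PB B) = x ^ (Fintype.card α - (B.card - 1)) :=
  HamChrom.IsPoly.eq_of_nat (f := fun x => I x (PB B))
    (g := fun x => x ^ (Fintype.card α - (B.card - 1))) (I_isPoly _)
    (HamChrom.IsPoly.pow HamChrom.IsPoly.id _) (fun q => I_PB_nat B t ht q) x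

theorem I_PB_mul (x : ℝ) (B : Finset α) (t : α) (ht : t ∈ B) :
    I x (PB B) * x ^ (B.card - 1) = x ^ (Fintype.card α) := by
  rw [I_PB x B t ht, ← pow_add]
  congr 1
  have : B.card ≤ Fintype.card α := Finset.card_le_univ B
  omega

theorem I_PB_ne (x : ℝ) (hx : x ≠ 0) (B : Finset α) (t : α) (ht : t ∈ B) : I x (PB B) ≠ 0 := by
  rw [I_PB x B t ht]
  exact pow_ne_zero _ hx

/-- the contraction map -/
def pj (B : Finset α) (t a : α) : α := if a ∈ B then t else a

theorem pj_mem {B : Finset α} {t a : α} (h : a ∈ B) : pj B t a = t := if_pos h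

theorem pj_notMem {B : Finset α} {t a : α} (h : a ∉ B) : pj B t a = a := if_neg h

/-- contraction lemma -/
theorem I_contract (x : ℝ) (B : Finset α) (t : α) (ht : t ∈ B)
    (Φ : Setoid α → ℝ) :
    I x (fun r => PB B r * Φ r) * x ^ (Fintype.card α) =
      I x (PB B) * I x (fun r => Φ (Setoid.comap (pj B t) r)) := by
  classical
  set Ψ : Setoid α → ℝ := fun r => Φ (Setoid.comap (pj B t) r) with hΨ
  have hdep : Dep (insert t (Finset.univ \ B)) Ψ := by
    intro r s h
    show Φ _ = Φ _
    congr 1
    apply Setoid.ext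
    intro a b
    rw [Setoid.comap_rel, Setoid.comap_rel]
    have hm : ∀ a, pj B t a ∈ insert t (Finset.univ \ B) := by
      intro a
      by_cases ha : a ∈ B
      · rw [pj_mem ha]; exact Finset.mem_insert_self _ _
      · rw [pj_notMem ha]
        exact Finset.mem_insert_of_mem (Finset.mem_sdiff.2 ⟨Finset.mem_univ _, ha⟩)
    exact h _ (hm a) _ (hm b)
  have key := indep x {t} (insert t (Finset.univ \ B)) B
    (by
      intro a ha
      rw [Finset.mem_inter, Finset.mem_insert, Finset.mem_sdiff] at ha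
      rcases ha.1 with h | h
      · exact Finset.mem_singleton.2 h
      · exact absurd ha.2 h.2)
    (by
      intro a ha
      rw [Finset.mem_singleton] at ha
      rw [ha]
      exact Finset.mem_insert_self _ _)
    (fun _ => 1) (fun r s _ => rfl)
    (by
      intro r s _ _ a ha b hb
      rw [Finset.mem_singleton] at ha hb
      rw [ha, hb]
      exact ⟨fun _ => s.refl' t, fun _ => r.refl' t⟩)
    Ψ (PB B) hdep (PB_dep B)
  have e1 : (fun r : Setoid α => (1 : ℝ) * Ψ r) = Ψ := by funext r; ring
  have e2 : (fun r : Setoid α => (1 : ℝ) * PB B r) = PB B := by funext r; ring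
  have e3 : (fun r : Setoid α => (1 : ℝ) * (Ψ r * PB B r)) = fun r => PB B r * Φ r := by
    funext r
    by_cases h : Mn B r
    · have : Setoid.comap (pj B t) r = r := by
        have hr : ∀ a, r (pj B t a) a := by
          intro a
          by_cases ha : a ∈ B
          · rw [pj_mem ha]; exact h t ht a ha
          · rw [pj_notMem ha]
        apply Setoid.ext
        intro a b
        rw [Setoid.comap_rel]
        exact ⟨fun H => r.trans' (r.symm' (hr a)) (r.trans' H (hr b)),
          fun H => r.trans' (hr a) (r.trans' H (r.symm' (hr b)))⟩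
      rw [hΨ]
      show (1 : ℝ) * (Φ (Setoid.comap (pj B t) r) * PB B r) = _
      rw [this]; ring
    · rw [PB_neg h]; ring
  rw [e1, e2, e3, I_one] at key
  rw [mul_comm, ← key, mul_comm]

/-! ### weights -/

open Classical in
/-- all nonempty monochromatic subsets of `V` satisfy `D` -/
noncomputable def Wt (V : Finset α) (D : Finset α → Prop) (r : Setoid α) : ℝ :=
  if ∀ S ⊆ V, S.Nonempty → Mn S r → D S then 1 else 0

theorem Wt_pos {V : Finset α} {D : Finset α → Prop} {r : Setoid α}
    (h : ∀ S ⊆ V, S.Nonempty → Mn S r → D S) : Wt V D r = 1 := if_pos h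

theorem Wt_neg {V : Finset α} {D : Finset α → Prop} {r : Setoid α}
    (h : ¬ ∀ S ⊆ V, S.Nonempty → Mn S r → D S) : Wt V D r = 0 := if_neg h

theorem Wt_congr {V V' : Finset α} {D D' : Finset α → Prop} {r r' : Setoid α}
    (h : (∀ S ⊆ V, S.Nonempty → Mn S r → D S) ↔ (∀ S ⊆ V', S.Nonempty → Mn S r' → D' S)) :
    Wt V D r = Wt V' D' r' := by
  by_cases h1 : ∀ S ⊆ V, S.Nonempty → Mn S r → D S
  · rw [Wt_pos h1, Wt_pos (h.1 h1)]
  · rw [Wt_neg h1, Wt_neg (fun h2 => h1 (h.2 h2))]

theorem Wt_dep (V : Finset α) (D : Finset α → Prop) : Dep V (Wt V D) := by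
  intro r s h
  apply Wt_congr
  constructor
  · intro H S hS hne hm
    exact H S hS hne (fun a ha b hb => (h a (hS ha) b (hS hb)).2 (hm a ha b hb))
  · intro H S hS hne hm
    exact H S hS hne (fun a ha b hb => (h a (hS ha) b (hS hb)).1 (hm a ha b hb))

/-- the normalised functional -/
noncomputable def Rc (x : ℝ) (V : Finset α) (D : Finset α → Prop) : ℝ :=
  (-1) ^ V.card * (x ^ V.card * (I x (Wt V D) / x ^ (Fintype.card α))) / (x * (x - 1))

theorem Rc_congr {x : ℝ} {V : Finset α} {D D' : Finset α → Prop}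
    (h : ∀ S ⊆ V, S.Nonempty → (D S ↔ D' S)) : Rc x V D = Rc x V D' := by
  unfold Rc
  have : Wt V D = Wt V D' := by
    funext r
    apply Wt_congr
    constructor
    · intro H S hS hne hm
      exact (h S hS hne).1 (H S hS hne hm)
    · intro H S hS hne hm
      exact (h S hS hne).2 (H S hS hne hm)
  rw [this]

/-- down-closed on the nonempty subsets of `V` -/
def DC (V : Finset α) (D : Finset α → Prop) : Prop :=
  ∀ S ⊆ V, ∀ T ⊆ S, T.Nonempty → D S → D T

/-- the predicate after contraction of `B` to `t` -/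
def Dc (B : Finset α) (t : α) (D : Finset α → Prop) (S : Finset α) : Prop :=
  (t ∈ S → D (B ∪ S)) ∧ (t ∉ S → D S)

theorem Wt_comap (B K : Finset α) (t : α) (ht : t ∈ B) (hBK : Disjoint B K)
    (D : Finset α → Prop) (hD : DC (B ∪ K) D) (r : Setoid α) :
    Wt (B ∪ K) D (Setoid.comap (pj B t) r) = Wt (insert t K) (Dc B t D) r := by
  apply Wt_congr
  constructor
  · intro H S hS hne hm
    constructor
    · intro htS
      apply H
      · intro a ha
        rcases Finset.mem_union.1 ha with h | h
        · exact Finset.mem_union_left _ h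
        · rcases Finset.mem_insert.1 (hS h) with h1 | h1
          · rw [h1]; exact Finset.mem_union_left _ ht
          · exact Finset.mem_union_right _ h1
      · exact ⟨t, Finset.mem_union_left _ ht⟩
      · have key : ∀ a ∈ B ∪ S, pj B t a ∈ S := by
          intro a ha
          by_cases haB : a ∈ B
          · rw [pj_mem haB]; exact htS
          · rw [pj_notMem haB]
            rcases Finset.mem_union.1 ha with h | h
            · exact absurd h haB
            · exact h
        intro a ha b hb
        rw [Setoid.comap_rel]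
        exact hm _ (key a ha) _ (key b hb)
    · intro htS
      have hSK : S ⊆ K := by
        intro a ha
        rcases Finset.mem_insert.1 (hS ha) with h1 | h1
        · exact absurd (h1 ▸ ha) htS
        · exact h1
      apply H
      · exact hSK.trans Finset.subset_union_right
      · exact hne
      · intro a ha b hb
        rw [Setoid.comap_rel, pj_notMem (fun h => Finset.disjoint_left.1 hBK h (hSK ha)),
          pj_notMem (fun h => Finset.disjoint_left.1 hBK h (hSK hb))]
        exact hm a ha b hb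
  · intro H S hS hne hm
    by_cases hSB : (S ∩ B).Nonempty
    · obtain ⟨c, hc⟩ := hSB
      rw [Finset.mem_inter] at hc
      have h1 : insert t (S \ B) ⊆ insert t K := by
        intro a ha
        rcases Finset.mem_insert.1 ha with h | h
        · rw [h]; exact Finset.mem_insert_self _ _
        · rw [Finset.mem_sdiff] at h
          rcases Finset.mem_union.1 (hS h.1) with h2 | h2
          · exact absurd h2 h.2
          · exact Finset.mem_insert_of_mem h2
      have h2 : Mn (insert t (S \ B)) r := by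
        have key : ∀ a ∈ insert t (S \ B), ∃ a' ∈ S, pj B t a' = a := by
          intro a ha
          rcases Finset.mem_insert.1 ha with h | h
          · exact ⟨c, hc.1, by rw [pj_mem hc.2, h]⟩
          · rw [Finset.mem_sdiff] at h
            exact ⟨a, h.1, pj_notMem h.2⟩
        intro a ha b hb
        obtain ⟨a', ha', rfl⟩ := key a ha
        obtain ⟨b', hb', rfl⟩ := key b hb
        have := hm a' ha' b' hb'
        rwa [Setoid.comap_rel] at this
      have h3 := (H _ h1 ⟨t, Finset.mem_insert_self _ _⟩ h2).1 (Finset.mem_insert_self _ _)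
      refine hD (B ∪ insert t (S \ B)) ?_ S ?_ hne h3
      · intro a ha
        rcases Finset.mem_union.1 ha with h | h
        · exact Finset.mem_union_left _ h
        · rcases Finset.mem_insert.1 h with h' | h'
          · rw [h']; exact Finset.mem_union_left _ ht
          · exact hS (Finset.mem_sdiff.1 h').1
      · intro a ha
        by_cases haB : a ∈ B
        · exact Finset.mem_union_left _ haB
        · exact Finset.mem_union_right _ (Finset.mem_insert_of_mem (Finset.mem_sdiff.2 ⟨ha, haB⟩))
    · have hdis : ∀ a ∈ S, a ∉ B := by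
        intro a ha haB
        exact hSB ⟨a, Finset.mem_inter.2 ⟨ha, haB⟩⟩
      have h1 : S ⊆ insert t K := by
        intro a ha
        rcases Finset.mem_union.1 (hS ha) with h2 | h2
        · exact absurd h2 (hdis a ha)
        · exact Finset.mem_insert_of_mem h2
      have h2 : Mn S r := by
        intro a ha b hb
        have := hm a ha b hb
        rwa [Setoid.comap_rel, pj_notMem (hdis a ha), pj_notMem (hdis b hb)] at this
      exact (H S h1 hne h2).2 (fun h => hdis t h ht)

/-- splitting of the allowed sets along the pieces `𝒦` of `V - B` -/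
def Split (B : Finset α) (𝒦 : Finset (Finset α)) (V : Finset α) (D : Finset α → Prop) : Prop :=
  (∀ S ⊆ V, Disjoint B S → S.Nonempty → (∀ K ∈ 𝒦, (S ∩ K).Nonempty → D (S ∩ K)) → D S) ∧
  (∀ S ⊆ V, B ⊆ S → (∀ K ∈ 𝒦, D (B ∪ (S ∩ K))) → D S)

theorem Wt_split (B : Finset α) (t : α) (ht : t ∈ B) (𝒦 : Finset (Finset α)) (V : Finset α)
    (hBV : B ⊆ V) (hKV : ∀ K ∈ 𝒦, K ⊆ V) (D : Finset α → Prop) (hD : DC V D)
    (hs : Split B 𝒦 V D) (r : Setoid α) :
    PB B r * Wt V D r = PB B r * ∏ K ∈ 𝒦, Wt (B ∪ K) D r := by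
  by_cases hm : Mn B r
  · congr 1
    by_cases h : ∀ K ∈ 𝒦, ∀ S ⊆ B ∪ K, S.Nonempty → Mn S r → D S
    · have e1 : ∏ K ∈ 𝒦, Wt (B ∪ K) D r = 1 :=
        Finset.prod_eq_one (fun K hK => Wt_pos (h K hK))
      rw [e1]
      apply Wt_pos
      intro S hS hne hmS
      by_cases hSB : (S ∩ B).Nonempty
      · obtain ⟨c, hc⟩ := hSB
        rw [Finset.mem_inter] at hc
        have hmu : Mn (B ∪ S) r := by
          have key : ∀ a ∈ B ∪ S, r a c := by
            intro a ha
            rcases Finset.mem_union.1 ha with h | h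
            · exact hm a h c hc.2
            · exact hmS a h c hc.1
          intro a ha b hb
          exact r.trans' (key a ha) (r.symm' (key b hb))
        have h1 : D (B ∪ S) := by
          apply hs.2 (B ∪ S) (Finset.union_subset hBV hS) Finset.subset_union_left
          intro K hK
          apply h K hK
          · apply Finset.union_subset Finset.subset_union_left
            exact Finset.inter_subset_right.trans Finset.subset_union_right
          · exact ⟨t, Finset.mem_union_left _ ht⟩
          · intro a ha b hb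
            apply hmu
            · rcases Finset.mem_union.1 ha with h | h
              · exact Finset.mem_union_left _ h
              · exact (Finset.mem_inter.1 h).1
            · rcases Finset.mem_union.1 hb with h | h
              · exact Finset.mem_union_left _ h
              · exact (Finset.mem_inter.1 h).1
        exact hD _ (Finset.union_subset hBV hS) S Finset.subset_union_right hne h1
      · have hdis : Disjoint B S := by
          rw [Finset.disjoint_left]
          intro a haB haS
          exact hSB ⟨a, Finset.mem_inter.2 ⟨haS, haB⟩⟩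
        apply hs.1 S hS hdis hne
        intro K hK hneK
        apply h K hK _ (Finset.inter_subset_right.trans Finset.subset_union_right) hneK
        intro a ha b hb
        exact hmS a (Finset.mem_inter.1 ha).1 b (Finset.mem_inter.1 hb).1
    · have h' := h
      push Not at h'
      obtain ⟨K, hK, S, hS, hne, hmS, hDS⟩ := h'
      have e1 : ∏ K ∈ 𝒦, Wt (B ∪ K) D r = 0 :=
        Finset.prod_eq_zero hK (Wt_neg (fun H => hDS (H S hS hne hmS)))
      rw [e1]
      apply Wt_neg
      intro H
      exact hDS (H S (hS.trans (Finset.union_subset hBV (hKV K hK))) hne hmS)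
  · rw [PB_neg hm]; ring

/-- product formula given a monochromatic set -/
theorem I_prod (x : ℝ) (hx : x ≠ 0) (B : Finset α) (t : α) (ht : t ∈ B)
    (Φ : Finset α → Setoid α → ℝ) :
    ∀ 𝒦 : Finset (Finset α), (∀ K ∈ 𝒦, Disjoint B K) →
      (∀ K ∈ 𝒦, ∀ K' ∈ 𝒦, K ≠ K' → Disjoint K K') →
      (∀ K ∈ 𝒦, Dep (B ∪ K) (Φ K)) →
      I x (fun r => PB B r * ∏ K ∈ 𝒦, Φ K r) / I x (PB B) =
        ∏ K ∈ 𝒦, (I x (fun r => PB B r * Φ K r) / I x (PB B)) := by
  intro 𝒦
  have hne := I_PB_ne x hx B t ht
  induction 𝒦 using Finset.induction_on with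
  | empty =>
    intro _ _ _
    simp only [Finset.prod_empty, mul_one]
    exact div_self hne
  | insert K 𝒦 hK ih =>
    intro h1 h2 h3
    have ih' := ih (fun K' hK' => h1 K' (Finset.mem_insert_of_mem hK'))
      (fun K₁ hK₁ K₂ hK₂ => h2 K₁ (Finset.mem_insert_of_mem hK₁) K₂ (Finset.mem_insert_of_mem hK₂))
      (fun K' hK' => h3 K' (Finset.mem_insert_of_mem hK'))
    rw [Finset.prod_insert hK, ← ih']
    have hdep : Dep (B ∪ 𝒦.biUnion id) (fun r => ∏ K ∈ 𝒦, Φ K r) := by
      intro r s hrs
      apply Finset.prod_congr rfl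
      intro K' hK'
      apply h3 K' (Finset.mem_insert_of_mem hK')
      have hsub : B ∪ K' ⊆ B ∪ 𝒦.biUnion id := by
        apply Finset.union_subset Finset.subset_union_left
        intro a ha
        exact Finset.mem_union_right _ (Finset.mem_biUnion.2 ⟨K', hK', ha⟩)
      intro a ha b hb
      exact hrs a (hsub ha) b (hsub hb)
    have key := indep x B (B ∪ K) (B ∪ 𝒦.biUnion id)
      (by
        intro a ha
        rw [Finset.mem_inter, Finset.mem_union, Finset.mem_union] at ha
        rcases ha.1 with h | h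
        · exact h
        · rcases ha.2 with h' | h'
          · exact h'
          · obtain ⟨K', hK', haK'⟩ := Finset.mem_biUnion.1 h'
            have hne' : K ≠ K' := fun h => hK (h ▸ hK')
            exact absurd haK' (Finset.disjoint_left.1 (h2 K (Finset.mem_insert_self _ _) K'
              (Finset.mem_insert_of_mem hK') hne') h))
      Finset.subset_union_left (PB B) (PB_dep B) (PB_pattern B) (Φ K)
      (fun r => ∏ K ∈ 𝒦, Φ K r) (h3 K (Finset.mem_insert_self _ _)) hdep
    have e1 : (fun r : Setoid α => PB B r * ∏ K' ∈ insert K 𝒦, Φ K' r) =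
        fun r => PB B r * (Φ K r * ∏ K' ∈ 𝒦, Φ K' r) := by
      funext r
      rw [Finset.prod_insert hK]
    rw [e1, div_mul_div_comm, key, mul_div_mul_left _ _ hne]

/-- (A) adding a set `B`: the pieces are `𝒦` -/
theorem Rc_add (x : ℝ) (hx : x ≠ 0) (hx1 : x ≠ 1) (B : Finset α) (t : α) (ht : t ∈ B)
    (𝒦 : Finset (Finset α)) (V : Finset α) (hV : V = B ∪ 𝒦.biUnion id)
    (hne : 𝒦.Nonempty)
    (hBK : ∀ K ∈ 𝒦, Disjoint B K)
    (hKK : ∀ K ∈ 𝒦, ∀ K' ∈ 𝒦, K ≠ K' → Disjoint K K')
    (D : Finset α → Prop) (hD : DC V D) (hs : Split B 𝒦 V D) :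
    Rc x V D = Rc x V (fun S => D S ∧ ¬ B ⊆ S) +
      (-1) ^ (B.card + 𝒦.card) * (x - 1) ^ (𝒦.card - 1) *
        ∏ K ∈ 𝒦, Rc x (insert t K) (Dc B t D) := by
  classical
  have hx1' : x - 1 ≠ 0 := sub_ne_zero.2 hx1
  have hBV : B ⊆ V := by rw [hV]; exact Finset.subset_union_left
  have hKV : ∀ K ∈ 𝒦, K ⊆ V := by
    intro K hK a ha
    rw [hV]
    exact Finset.mem_union_right _ (Finset.mem_biUnion.2 ⟨K, hK, ha⟩)
  have hB1 : 1 ≤ B.card := Finset.card_pos.2 ⟨t, ht⟩
  have hk1 : 1 ≤ 𝒦.card := Finset.card_pos.2 hne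
  -- decomposition of the weight
  have hdec : ∀ r : Setoid α, Wt V D r = Wt V (fun S => D S ∧ ¬ B ⊆ S) r + PB B r * Wt V D r := by
    intro r
    by_cases hm : Mn B r
    · have : Wt V (fun S => D S ∧ ¬ B ⊆ S) r = 0 := by
        apply Wt_neg
        intro H
        exact (H B hBV ⟨t, ht⟩ hm).2 (Finset.Subset.refl B)
      rw [this, PB_pos hm]; ring
    · rw [PB_neg hm, zero_mul, add_zero]
      apply Wt_congr
      constructor
      · intro H S hS hne' hmS
        refine ⟨H S hS hne' hmS, fun hBS => hm ?_⟩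
        intro a ha b hb
        exact hmS a (hBS ha) b (hBS hb)
      · intro H S hS hne' hmS
        exact (H S hS hne' hmS).1
  have hI : I x (Wt V D) = I x (Wt V (fun S => D S ∧ ¬ B ⊆ S)) +
      I x (fun r => PB B r * Wt V D r) := by
    rw [← I_add]
    congr 1
    funext r
    exact hdec r
  -- the product
  have hP : I x (fun r => PB B r * Wt V D r) / I x (PB B) =
      ∏ K ∈ 𝒦, (I x (Wt (insert t K) (Dc B t D)) / x ^ (Fintype.card α)) := by
    have e1 : (fun r => PB B r * Wt V D r) = fun r => PB B r * ∏ K ∈ 𝒦, Wt (B ∪ K) D r := by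
      funext r
      exact Wt_split B t ht 𝒦 V hBV hKV D hD hs r
    rw [e1, I_prod x hx B t ht (fun K => Wt (B ∪ K) D) 𝒦 hBK hKK (fun K _ => Wt_dep _ _)]
    apply Finset.prod_congr rfl
    intro K hK
    have hcon := I_contract x B t ht (Wt (B ∪ K) D)
    have e2 : (fun r => Wt (B ∪ K) D (Setoid.comap (pj B t) r)) =
        Wt (insert t K) (Dc B t D) := by
      funext r
      apply Wt_comap B K t ht (hBK K hK) D
      intro S hS T hT hneT hDS
      exact hD S (hS.trans (Finset.union_subset hBV (hKV K hK))) T hT hneT hDS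
    rw [e2] at hcon
    have hne' := I_PB_ne x hx B t ht
    have hxp : x ^ (Fintype.card α) ≠ 0 := pow_ne_zero _ hx
    rw [div_eq_div_iff hne' hxp]
    rw [hcon]; ring
  have hPB := I_PB_mul x B t ht
  have hPBne := I_PB_ne x hx B t ht
  have hP' : I x (fun r => PB B r * Wt V D r) = I x (PB B) *
      ∏ K ∈ 𝒦, (I x (Wt (insert t K) (Dc B t D)) / x ^ (Fintype.card α)) := by
    rw [← hP]
    field_simp
  -- cardinalities
  have hcard : V.card = B.card + ∑ K ∈ 𝒦, K.card := by
    rw [hV, Finset.card_union_of_disjoint, Finset.card_biUnion]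
    · rfl
    · intro K hK K' hK' hne'
      exact hKK K hK K' hK' hne'
    · rw [Finset.disjoint_biUnion_right]
      exact hBK
  have hcardK : ∀ K ∈ 𝒦, (insert t K).card = K.card + 1 := by
    intro K hK
    rw [Finset.card_insert_of_notMem]
    exact Finset.disjoint_left.1 (hBK K hK) ht
  unfold Rc
  rw [hI, hP']
  have hxN : x ^ (Fintype.card α) ≠ 0 := pow_ne_zero _ hx
  -- right-hand product
  have hprod : ∏ K ∈ 𝒦, ((-1) ^ (insert t K).card * (x ^ (insert t K).card *
      (I x (Wt (insert t K) (Dc B t D)) / x ^ (Fintype.card α))) / (x * (x - 1))) =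
      ((-1) ^ (∑ K ∈ 𝒦, (K.card + 1)) * x ^ (∑ K ∈ 𝒦, (K.card + 1)) / (x * (x - 1)) ^ 𝒦.card) *
      ∏ K ∈ 𝒦, (I x (Wt (insert t K) (Dc B t D)) / x ^ (Fintype.card α)) := by
    have : ∀ K ∈ 𝒦, ((-1) ^ (insert t K).card * (x ^ (insert t K).card *
      (I x (Wt (insert t K) (Dc B t D)) / x ^ (Fintype.card α))) / (x * (x - 1))) =
      (((-1) ^ (K.card + 1)) * (x ^ (K.card + 1)) / (x * (x - 1))) *
      (I x (Wt (insert t K) (Dc B t D)) / x ^ (Fintype.card α)) := by
      intro K hK
      rw [hcardK K hK]; ring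
    rw [Finset.prod_congr rfl this, Finset.prod_mul_distrib, Finset.prod_div_distrib,
      Finset.prod_mul_distrib, Finset.prod_pow_eq_pow_sum, Finset.prod_pow_eq_pow_sum,
      Finset.prod_const]
  rw [hprod, Finset.sum_add_distrib, Finset.sum_const, smul_eq_mul, mul_one, hcard]
  set Q := ∏ K ∈ 𝒦, (I x (Wt (insert t K) (Dc B t D)) / x ^ (Fintype.card α)) with hQ
  set s := ∑ K ∈ 𝒦, K.card with hs'
  have hbk : I x (PB B) = x ^ (Fintype.card α) / x ^ (B.card - 1) := by
    rw [eq_div_iff (pow_ne_zero _ hx)]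
    exact hPB
  rw [hbk]
  obtain ⟨b, hb⟩ : ∃ b, B.card = b + 1 := ⟨B.card - 1, by omega⟩
  obtain ⟨k, hk⟩ : ∃ k, 𝒦.card = k + 1 := ⟨𝒦.card - 1, by omega⟩
  rw [hb, hk]
  simp only [Nat.add_sub_cancel]
  have h1 : ((-1 : ℝ)) ^ (b + 1 + (k + 1)) * (x - 1) ^ k *
      ((-1) ^ (s + (k + 1)) * x ^ (s + (k + 1)) / (x * (x - 1)) ^ (k + 1) * Q) =
      (-1) ^ (b + 1 + s) * (x ^ s) * Q / (x - 1) := by
    have e : ((-1 : ℝ)) ^ (b + 1 + (k + 1)) * (-1) ^ (s + (k + 1)) = (-1) ^ (b + 1 + s) := by
      rw [← pow_add]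
      have : b + 1 + (k + 1) + (s + (k + 1)) = (b + 1 + s) + 2 * (k + 1) := by ring
      rw [this, pow_add, pow_mul]
      norm_num
    rw [← e, mul_pow]
    field_simp
    ring
  rw [h1]
  have h2 : ((-1 : ℝ)) ^ (b + 1 + s) * (x ^ (b + 1 + s) * ((I x (Wt V fun S => D S ∧ ¬B ⊆ S) +
      x ^ (Fintype.card α) / x ^ b * Q) / x ^ (Fintype.card α))) / (x * (x - 1)) =
      (-1) ^ (b + 1 + s) * (x ^ (b + 1 + s) * (I x (Wt V fun S => D S ∧ ¬B ⊆ S) /
        x ^ (Fintype.card α))) / (x * (x - 1)) +
      (-1) ^ (b + 1 + s) * (x ^ (b + 1 + s) * (1 / x ^ b * Q)) / (x * (x - 1)) := by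
    field_simp
  rw [h2]
  congr 1
  have h3 : x ^ (b + 1 + s) = x ^ b * x * x ^ s := by ring
  rw [h3]
  field_simp

end Pool.Agent.TH
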