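import Pool.Agent.TH.PieceB
import Pool.Agent.TH.Ops

/-!
# The combinatorial half of the adding step

`Al G V F S`: the set `S` may be (a part of) a colour class.
Main results: `al_split_disj`, `al_split_union` (a colour class is allowed as soon as its parts
in the pieces are), `al_addF`, `al_piece` (the allowed sets of a piece).
-/

set_option autoImplicit false
set_option linter.unusedSectionVars false

namespace Pool.Agent.TH

open Finset
open scoped Classical

variable {α : Type*} [DecidableEq α]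

/-- allowed colour sets -/
def Al (G : SimpleGraph α) (V : Finset α) (F : Finset (Finset α)) (S : Finset α) : Prop :=
  Adm G V S ∧ ¬ Up F S

section basic
variable {G : SimpleGraph α} {V W S T B K : Finset α} {F : Finset (Finset α)}

lemma Up.samono (h : Up F S) (hT : S ⊆ T) : Up F T := by
  obtain ⟨M, hM, hMS⟩ := h
  exact ⟨M, hM, hMS.trans hT⟩

lemma Al.samono (h : Al G V F S) (hT : T ⊆ S) : Al G V F T :=
  ⟨h.1.mono' hT, fun hU => h.2 (hU.samono hT)⟩

lemma al_iff_bad (hF : ∀ M ∈ F, M.Nonempty) :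
    Al G V F S ↔ ∀ T, T ⊆ S → T.Nonempty → ¬ Bad G V F T := by
  constructor
  · rintro ⟨⟨h1, h2⟩, h3⟩ T hT hn hb
    rcases hb with hb | hb | hb
    · exact hb (h1.mono hT)
    · exact absurd (h2 T hT hn) (not_le.2 hb)
    · exact h3 ⟨T, hb, hT⟩
  · intro h
    refine ⟨⟨?_, ?_⟩, ?_⟩
    · intro x hx y hy hxy
      refine h S (Subset.refl _) ⟨x, hx⟩ (Or.inl ?_)
      intro hst
      exact hst x hx y hy hxy
    · intro T hT hn
      by_contra hlt
      exact h T hT hn (Or.inr (Or.inl (not_le.1 hlt)))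
    · rintro ⟨M, hM, hMS⟩
      exact h M hMS (hF M hM) (Or.inr (Or.inr hM))

lemma NCF.sanonempty (hF : NCF G V F) : ∀ M ∈ F, M.Nonempty := fun M hM =>
  card_pos.1 (by have := (hF.tgt M hM).card; omega)

/-- the parts of `T ⊆ W` in the components of `W` add up to `T` -/
lemma sa_card_parts (hT : T ⊆ W) : T.card = ∑ K ∈ comps G W, (K ∩ T).card := by
  have h : T = (comps G W).biUnion (fun K => K ∩ T) := by
    ext x
    rw [mem_biUnion]
    constructor
    · intro hx
      obtain ⟨K, hK, hxK⟩ := exists_comp (G := G) (hT hx)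
      exact ⟨K, hK, mem_inter.2 ⟨hxK, hx⟩⟩
    · rintro ⟨K, -, hx⟩
      exact (mem_inter.1 hx).2
  conv_lhs => rw [h]
  rw [card_biUnion]
  intro K hK K' hK' hne
  exact Disjoint.mono inter_subset_left inter_subset_left (comps_disjoint hK hK' hne)

lemma sa_card_parts' (hT : T ⊆ W) :
    T.card = ∑ K ∈ (comps G W).filter (fun K => (K ∩ T).Nonempty), (K ∩ T).card := by
  rw [sa_card_parts (G := G) hT, sum_filter]
  apply sum_congr rfl
  intro K _
  split_ifs with h
  · rfl
  · rw [not_nonempty_iff_eq_empty.1 h, card_empty]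

end basic

section split
variable {G : SimpleGraph α} {V S T B K : Finset α} {F : Finset (Finset α)} {t : α}

/-- the parts of an admissible set: an inequality for the numbers of parts -/
lemma parts_le (hV : Conn G V) (hB : Tgt G V B) (hT : T ⊆ V) (hn : T.Nonempty)
    (hd : Disjoint B T) :
    ((comps G (V \ T)).filter (fun L => (L ∩ B).Nonempty)).card ≤
      ((comps G (V \ B)).filter (fun K => (K ∩ T).Nonempty)).card := by
  have h1 := cc_cross hV hT hB.sub hd.symm hn
  have hBT : B ⊆ V \ T := fun x hx =>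
    mem_sdiff.2 ⟨hB.sub hx, Finset.disjoint_left.1 hd hx⟩
  have h2 := sa_card_parts' (G := G) hBT
  have h3 : ∀ L ∈ (comps G (V \ T)).filter (fun L => (L ∩ B).Nonempty),
      inn G T B L + 1 ≤ (L ∩ B).card := by
    intro L hL
    obtain ⟨hL1, hL2⟩ := mem_filter.1 hL
    exact (inn_add_one_le hV hT hn hB.sub hd.symm hL1).trans
      (hB.adm.2 _ inter_subset_right hL2)
  have h4 := sum_le_sum h3
  rw [sum_add_distrib, ← h2, sum_const, smul_eq_mul, mul_one] at h4
  rw [hB.eq] at h1
  omega

theorem adm_of_parts (hV : Conn G V) (hB : Tgt G V B) (hS : S ⊆ V) (hd : Disjoint S B)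
    (h : ∀ K ∈ comps G (V \ B), Adm G V (S ∩ K)) : Adm G V S := by
  refine ⟨?_, ?_⟩
  · intro x hx y hy hxy
    have hxB : x ∈ V \ B := mem_sdiff.2 ⟨hS hx, Finset.disjoint_left.1 hd hx⟩
    have hyB : y ∈ V \ B := mem_sdiff.2 ⟨hS hy, Finset.disjoint_left.1 hd hy⟩
    obtain ⟨K, hK, hxK⟩ := exists_comp (G := G) hxB
    have hyK := comps_closed hK hxK hyB hxy
    exact (h K hK).1 x (mem_inter.2 ⟨hx, hxK⟩) y (mem_inter.2 ⟨hy, hyK⟩) hxy
  · intro T hT hn
    have hTV := hT.trans hS
    have hdT : Disjoint B T := (Disjoint.mono_left hT hd).symm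
    have hBn : B.Nonempty := card_pos.1 (by have := hB.card; omega)
    have h1 := cc_cross hV hB.sub hTV hdT hBn
    have h2 := parts_le hV hB hTV hn hdT
    have hTB : T ⊆ V \ B := fun x hx =>
      mem_sdiff.2 ⟨hTV hx, Finset.disjoint_right.1 hdT hx⟩
    have h3 := sa_card_parts' (G := G) hTB
    have h4 : ∀ K ∈ (comps G (V \ B)).filter (fun K => (K ∩ T).Nonempty),
        inn G B T K + 1 ≤ (K ∩ T).card := by
      intro K hK
      obtain ⟨hK1, hK2⟩ := mem_filter.1 hK
      refine (inn_add_one_le hV hB.sub hBn hTV hdT hK1).trans ((h K hK1).2 _ ?_ hK2)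
      rw [inter_comm]
      exact inter_subset_inter hT (Subset.refl _)
    have h5 := sum_le_sum h4
    rw [sum_add_distrib, ← h3, sum_const, smul_eq_mul, mul_one] at h5
    omega

/-- the complement of `B ∪ X`, `X ⊆ K` -/
lemma cc_union_part (hB : Tgt G V B) (hK : K ∈ comps G (V \ B)) {X : Finset α} (hX : X ⊆ K) :
    cc G (V \ (B ∪ X)) + 1 = B.card + cc G (K \ X) := by
  rw [cc_sdiff_union_sum, ← add_sum_erase _ _ hK]
  have e5 : ∀ K' ∈ (comps G (V \ B)).erase K, cc G (K' \ X) = 1 := by
    intro K' hK'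
    obtain ⟨hne, hK'⟩ := mem_erase.1 hK'
    have : K' \ X = K' := by
      rw [Finset.sdiff_eq_self_iff_disjoint]
      exact Disjoint.mono_right hX (comps_disjoint hK' hK hne)
    rw [this]
    exact cc_eq_one_iff.2 (comps_conn hK')
  rw [sum_congr rfl e5, sum_const, smul_eq_mul, mul_one, card_erase_of_mem hK]
  have e8 : (comps G (V \ B)).card = B.card := hB.eq
  have e9 := hB.card
  omega

/-- a set which contains `B`: subsets meeting `B` are fine if the unions with `B` are -/
lemma card_le_of_union (hB : Tgt G V B) (hT : T ⊆ V) (hst : Stb G (T ∪ B))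
    (hTB : (T ∩ B).Nonempty) (h : cc G (V \ (T ∪ B)) ≤ (T ∪ B).card) : cc G (V \ T) ≤ T.card := by
  have h1 := cc_supermod (G := G) hT hB.sub hst
  have h3 := hB.adm.2 (T ∩ B) inter_subset_right hTB
  have h4 := card_union_add_card_inter T B
  have h5 := hB.eq
  omega

theorem adm_of_parts' (hV : Conn G V) (hB : Tgt G V B) (hS : S ⊆ V) (hBS : B ⊆ S)
    (h : ∀ K ∈ comps G (V \ B), Adm G V (B ∪ (S ∩ K))) : Adm G V S := by
  have hBn : B.Nonempty := card_pos.1 (by have := hB.card; omega)
  have hst : Stb G S := by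
    intro x hx y hy hxy
    by_cases hxB : x ∈ B
    · by_cases hyB : y ∈ B
      · exact hB.adm.1 x hxB y hyB hxy
      · obtain ⟨K, hK, hyK⟩ := exists_comp (G := G) (mem_sdiff.2 ⟨hS hy, hyB⟩)
        exact (h K hK).1 x (mem_union_left _ hxB) y
          (mem_union_right _ (mem_inter.2 ⟨hy, hyK⟩)) hxy
    · obtain ⟨K, hK, hxK⟩ := exists_comp (G := G) (mem_sdiff.2 ⟨hS hx, hxB⟩)
      by_cases hyB : y ∈ B
      · exact (h K hK).1 x (mem_union_right _ (mem_inter.2 ⟨hx, hxK⟩)) y
          (mem_union_left _ hyB) hxy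
      · have hyK := comps_closed hK hxK (mem_sdiff.2 ⟨hS hy, hyB⟩) hxy
        exact (h K hK).1 x (mem_union_right _ (mem_inter.2 ⟨hx, hxK⟩)) y
          (mem_union_right _ (mem_inter.2 ⟨hy, hyK⟩)) hxy
  refine ⟨hst, ?_⟩
  intro T hT hn
  by_cases hTB : (T ∩ B).Nonempty
  · refine card_le_of_union hB (hT.trans hS) (hst.mono (union_subset hT hBS)) hTB ?_
    have e1 : V \ (T ∪ B) = V \ (B ∪ (T \ B)) := by
      rw [union_sdiff_self_eq_union, union_comm]
    rw [e1, cc_sdiff_union_sum]
    have hTBs : T \ B ⊆ V \ B := sdiff_subset_sdiff (hT.trans hS) (Subset.refl _)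
    have e2 := sa_card_parts (G := G) hTBs
    have e3 : (T ∪ B).card = ∑ K ∈ comps G (V \ B), (1 + (K ∩ (T \ B)).card) := by
      rw [sum_add_distrib, ← e2, sum_const, smul_eq_mul, mul_one]
      have : (T ∪ B).card = B.card + (T \ B).card := by
        rw [← card_union_of_disjoint (disjoint_sdiff), union_sdiff_self_eq_union, union_comm]
      rw [this, ← hB.eq]; rfl
    rw [e3]
    apply sum_le_sum
    intro K hK
    have hadm := h K hK
    have hsub : B ∪ (K ∩ (T \ B)) ⊆ B ∪ (S ∩ K) := by
      apply union_subset_union (Subset.refl _)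
      intro x hx
      simp only [mem_inter, mem_sdiff] at hx ⊢
      exact ⟨hT hx.2.1, hx.1⟩
    have h3 := hadm.2 _ hsub (hBn.mono subset_union_left)
    have h4 := cc_union_part hB hK (X := K ∩ (T \ B)) inter_subset_left
    have e6 : K \ (K ∩ (T \ B)) = K \ (T \ B) := sdiff_inter_self_left _ _
    rw [e6] at h4
    have e7 : (B ∪ (K ∩ (T \ B))).card = B.card + (K ∩ (T \ B)).card := by
      apply card_union_of_disjoint
      rw [Finset.disjoint_left]
      intro x hx hx'
      exact (mem_sdiff.1 (mem_inter.1 hx').2).2 hx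
    omega
  · have hd : Disjoint T B := by
      rw [disjoint_iff_inter_eq_empty]
      exact not_nonempty_iff_eq_empty.1 hTB
    have hA : Adm G V T := by
      refine adm_of_parts hV hB (hT.trans hS) hd ?_
      intro K hK
      refine (h K hK).mono' ?_
      intro x hx
      obtain ⟨hx1, hx2⟩ := mem_inter.1 hx
      exact mem_union_right _ (mem_inter.2 ⟨hT hx1, hx2⟩)
    exact hA.2 T (Subset.refl _) hn

/-- members disjoint from an addable set lie in one component -/
lemma member_in_comp (hV : Conn G V) (hF : NCF G V F) (hB : Addb G V F B) {M : Finset α}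
    (hM : M ∈ F) (hd : Disjoint M B) : ∃ K ∈ comps G (V \ B), M ⊆ K := by
  have hMt := hF.tgt M hM
  have hMn : M.Nonempty := card_pos.1 (by have := hMt.card; omega)
  refine (not_crs_iff hMt.sub hMn hd.symm).1 ?_
  intro hc
  exact hB.nc M hM (Crs.symm hV hB.free.tgt hMt hc)

theorem al_split_disj (h2 : TwoC G V) (hF : NCF G V F) (hB : Addb G V F B) (hS : S ⊆ V)
    (hd : Disjoint B S) (h : ∀ K ∈ comps G (V \ B), (S ∩ K).Nonempty → Al G V F (S ∩ K)) :
    Al G V F S := by
  refine ⟨adm_of_parts h2.conn hB.free.tgt hS hd.symm ?_, ?_⟩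
  · intro K hK
    by_cases hn : (S ∩ K).Nonempty
    · exact (h K hK hn).1
    · rw [not_nonempty_iff_eq_empty.1 hn]
      exact hB.free.tgt.adm.mono' (empty_subset _)
  · rintro ⟨M, hM, hMS⟩
    obtain ⟨K, hK, hMK⟩ := member_in_comp h2.conn hF hB hM (Disjoint.mono_left hMS hd.symm)
    exact (h K hK ((hF.sanonempty M hM).mono (subset_inter hMS hMK))).2
      ⟨M, hM, subset_inter hMS hMK⟩

theorem al_split_union (h2 : TwoC G V) (hF : NCF G V F) (hB : Addb G V F B)
    (hc : NoComp G V F B) (hS : S ⊆ V) (hBS : B ⊆ S)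
    (h : ∀ K ∈ comps G (V \ B), Al G V F (B ∪ (S ∩ K))) : Al G V F S := by
  have hadm := adm_of_parts' h2.conn hB.free.tgt hS hBS (fun K hK => (h K hK).1)
  refine ⟨hadm, ?_⟩
  rintro ⟨M, hM, hMS⟩
  by_cases hMB : (M ∩ B).Nonempty
  · obtain ⟨K, hK, M', hM', hn', hsub, hsub'⟩ :=
      hc M hM hMB (hadm.mono' (union_subset hMS hBS))
    refine (h K hK).2 ⟨M', hM', ?_⟩
    intro x hx
    rcases mem_union.1 (hsub hx) with hxB | hxK
    · exact mem_union_left _ hxB
    · have hxS : x ∈ S := union_subset hMS hBS (hsub' hx)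
      exact mem_union_right _ (mem_inter.2 ⟨hxS, hxK⟩)
  · have hd : Disjoint M B := by
      rw [disjoint_iff_inter_eq_empty]
      exact not_nonempty_iff_eq_empty.1 hMB
    obtain ⟨K, hK, hMK⟩ := member_in_comp h2.conn hF hB hM hd
    exact (h K hK).2 ⟨M, hM, (subset_inter hMS hMK).trans subset_union_right⟩

theorem al_addF : Al G V (addF F B) S ↔ Al G V F S ∧ ¬ B ⊆ S := by
  unfold Al
  have : Up (addF F B) S ↔ Up F S ∨ B ⊆ S := by
    constructor
    · rintro ⟨M, hM, hMS⟩
      rcases mem_insert.1 hM with rfl | hM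
      · exact Or.inr hMS
      · exact Or.inl ⟨M, (mem_filter.1 hM).1, hMS⟩
    · rintro (⟨M, hM, hMS⟩ | h)
      · by_cases hBM : B ⊆ M
        · exact ⟨B, mem_insert_self _ _, hBM.trans hMS⟩
        · exact ⟨M, mem_insert_of_mem (mem_filter.2 ⟨hM, hBM⟩), hMS⟩
      · exact ⟨B, mem_insert_self _ _, h⟩
  rw [this]
  tauto

end split

section piece
variable {G : SimpleGraph α} {V S T B K : Finset α} {F : Finset (Finset α)} {t : α}

/-- `mkF` has the same up-closure as the property (on sets whose subsets are considered) -/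
lemma sa_up_mkF {E : Finset α → Prop} :
    Up (mkF G V E) S ↔ ∃ T ⊆ S, Tgt G V T ∧ E T := by
  constructor
  · rintro ⟨M, hM, hMS⟩
    obtain ⟨h1, h2, h3, h4⟩ := mem_filter.1 hM
    exact ⟨M, hMS, h2, h3⟩
  · rintro ⟨T, hT, h1, h2⟩
    -- take a minimal one
    have hex : ∃ n, ∃ U ⊆ T, Tgt G V U ∧ E U ∧ U.card = n := ⟨T.card, T, Subset.refl _, h1, h2, rfl⟩
    obtain ⟨U, hUT, hU1, hU2, hU3⟩ := Nat.find_spec hex
    have hmin := fun m (hm : m < Nat.find hex) => Nat.find_min hex hm
    refine ⟨U, ?_, hUT.trans hT⟩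
    unfold mkF
    rw [mem_filter, mem_powerset]
    refine ⟨hU1.sub, hU1, hU2, ?_⟩
    intro W hW hW1 hW2
    by_contra hne
    have hlt : W.card < Nat.find hex := by
      rw [← hU3]
      exact card_lt_card (Finset.ssubset_iff_subset_ne.2 ⟨hW, hne⟩)
    exact hmin _ hlt ⟨W, hW.trans hUT, hW1, hW2, rfl⟩

variable (hV : Conn G V) (hB : Tgt G V B) (ht : t ∈ B) (hK : K ∈ comps G (V \ B))
include hV hB ht hK

lemma pc_notMem : t ∉ K := fun h => (mem_sdiff.1 (comps_sub hK h)).2 ht

/-- component count, the set avoids the root -/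
lemma pc_cc (hT : T ⊆ K) : cc (idn G B t) (insert t K \ T) = cc G (V \ T) := by
  have htK : t ∉ K := pc_notMem hV hB ht hK
  rw [cc_idn_piece ht htK (fun h => htK (hT h))]
  have hKV : K ⊆ V := (comps_sub hK).trans sdiff_subset
  have e1 : V \ T = (K \ T) ∪ (V \ K) := by
    ext x
    simp only [mem_sdiff, mem_union]
    constructor
    · rintro ⟨h1, h2⟩
      by_cases hx : x ∈ K
      · exact Or.inl ⟨hx, h2⟩
      · exact Or.inr ⟨h1, hx⟩
    · rintro (⟨h1, h2⟩ | ⟨h1, h2⟩)
      · exact ⟨hKV h1, h2⟩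
      · exact ⟨h1, fun h => h2 (hT h)⟩
  have hcon := conn_compl hV hB hK
  have hd : Disjoint (K \ T) (V \ K) := by
    rw [Finset.disjoint_left]
    intro x hx hx'
    exact (mem_sdiff.1 hx').2 (mem_sdiff.1 hx).1
  rw [e1, cc_union_conn hcon hd]
  unfold inn
  congr 2
  apply filter_congr
  intro C hC
  constructor
  · intro h hT'
    apply h
    obtain ⟨x, hx, y, hy, hxy⟩ := hT'
    obtain ⟨hyV, hyK⟩ := mem_sdiff.1 hy
    refine ⟨x, hx, y, ?_, hxy⟩
    by_contra hyB
    exact hyK (comps_closed hK (mem_sdiff.1 (comps_sub hC hx)).1 (mem_sdiff.2 ⟨hyV, hyB⟩) hxy)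
  · intro h hT'
    apply h
    obtain ⟨x, hx, y, hy, hxy⟩ := hT'
    exact ⟨x, hx, y, mem_sdiff.2 ⟨hB.sub hy, fun h => (mem_sdiff.1 (comps_sub hK h)).2 hy⟩, hxy⟩

/-- component count, the set contains the root -/
lemma pc_cc' (hT : T ⊆ K) :
    cc (idn G B t) (insert t K \ insert t T) + B.card = cc G (V \ (B ∪ T)) + 1 := by
  have htK : t ∉ K := pc_notMem hV hB ht hK
  rw [cc_idn_root htK (mem_insert_self _ _), cc_union_part hB hK hT]
  have : K \ insert t T = K \ T := by
    ext x
    simp only [mem_sdiff, mem_insert]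
    constructor
    · rintro ⟨h1, h2⟩
      exact ⟨h1, fun h => h2 (Or.inr h)⟩
    · rintro ⟨h1, h2⟩
      refine ⟨h1, ?_⟩
      rintro (rfl | h)
      · exact htK h1
      · exact h2 h
  rw [this, add_comm]

lemma pc_stb (hT : T ⊆ K) : Stb (idn G B t) T ↔ Stb G T :=
  stb_idn_of_notMem (fun h => pc_notMem hV hB ht hK (hT h))

lemma pc_stb' (hT : T ⊆ K) : Stb (idn G B t) (insert t T) ↔ Stb G (B ∪ T) := by
  have htK : t ∉ K := pc_notMem hV hB ht hK
  have hne : ∀ x ∈ T, x ≠ t := by
    rintro x hx rfl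
    exact htK (hT hx)
  constructor
  · intro h x hx y hy hxy
    rcases mem_union.1 hx with hx | hx
    · rcases mem_union.1 hy with hy | hy
      · exact hB.adm.1 x hx y hy hxy
      · exact h t (mem_insert_self _ _) y (mem_insert_of_mem hy)
          ((idn_adj_left ht).2 ⟨hne y hy, x, hx, hxy⟩)
    · rcases mem_union.1 hy with hy | hy
      · exact h t (mem_insert_self _ _) x (mem_insert_of_mem hx)
          ((idn_adj_left ht).2 ⟨hne x hx, y, hy, hxy.symm⟩)
      · exact h x (mem_insert_of_mem hx) y (mem_insert_of_mem hy)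
          ((idn_adj_of_ne (hne x hx) (hne y hy)).2 hxy)
  · intro h x hx y hy hxy
    rcases mem_insert.1 hx with hxt | hx
    · rcases mem_insert.1 hy with hyt | hy
      · exact hxy.ne (hxt.trans hyt.symm)
      · rw [hxt] at hxy
        obtain ⟨-, c, hc, hcy⟩ := (idn_adj_left ht).1 hxy
        exact h c (mem_union_left _ hc) y (mem_union_right _ hy) hcy
    · rcases mem_insert.1 hy with hyt | hy
      · rw [hyt] at hxy
        obtain ⟨-, c, hc, hcx⟩ := (idn_adj_left ht).1 hxy.symm
        exact h c (mem_union_left _ hc) x (mem_union_right _ hx) hcx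
      · exact h x (mem_union_right _ hx) y (mem_union_right _ hy)
          ((idn_adj_of_ne (hne x hx) (hne y hy)).1 hxy)

lemma pc_adm (hS : S ⊆ K) : Adm (idn G B t) (insert t K) S ↔ Adm G V S := by
  unfold Adm
  rw [pc_stb hV hB ht hK hS]
  constructor
  · rintro ⟨h1, h2⟩
    refine ⟨h1, fun T hT hn => ?_⟩
    rw [← pc_cc hV hB ht hK (hT.trans hS)]
    exact h2 T hT hn
  · rintro ⟨h1, h2⟩
    refine ⟨h1, fun T hT hn => ?_⟩
    rw [pc_cc hV hB ht hK (hT.trans hS)]
    exact h2 T hT hn

lemma pc_card_union (hT : T ⊆ K) : (B ∪ T).card = B.card + T.card := by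
  apply card_union_of_disjoint
  rw [Finset.disjoint_left]
  intro x hx hx'
  exact (mem_sdiff.1 (comps_sub hK (hT hx'))).2 hx

lemma pc_adm' (hS : S ⊆ K) : Adm (idn G B t) (insert t K) (insert t S) ↔ Adm G V (B ∪ S) := by
  have htK : t ∉ K := pc_notMem hV hB ht hK
  constructor
  · rintro ⟨h1, h2⟩
    have hst := (pc_stb' hV hB ht hK hS).1 h1
    refine ⟨hst, fun T hT hn => ?_⟩
    have hSV : S ⊆ V := hS.trans ((comps_sub hK).trans sdiff_subset)
    have hTV : T ⊆ V := hT.trans (union_subset hB.sub hSV)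
    by_cases hTB : (T ∩ B).Nonempty
    · refine card_le_of_union hB hTV (hst.mono (union_subset hT subset_union_left)) hTB ?_
      have e1 : T ∪ B = B ∪ (T \ B) := by rw [union_sdiff_self_eq_union, union_comm]
      have hTK : T \ B ⊆ S := by
        intro x hx
        obtain ⟨hx1, hx2⟩ := mem_sdiff.1 hx
        rcases mem_union.1 (hT hx1) with h | h
        · exact absurd h hx2
        · exact h
      have h3 := h2 (insert t (T \ B)) (insert_subset_insert _ hTK) (insert_nonempty _ _)
      have h4 := pc_cc' hV hB ht hK (hTK.trans hS)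
      rw [e1, pc_card_union hV hB ht hK (hTK.trans hS)]
      rw [card_insert_of_notMem (fun h => htK (hS (hTK h)))] at h3
      omega
    · have hTS : T ⊆ S := by
        intro x hx
        rcases mem_union.1 (hT hx) with h | h
        · exact absurd ⟨x, mem_inter.2 ⟨hx, h⟩⟩ hTB
        · exact h
      rw [← pc_cc hV hB ht hK (hTS.trans hS)]
      exact h2 T (hTS.trans (subset_insert _ _)) hn
  · rintro ⟨h1, h2⟩
    refine ⟨(pc_stb' hV hB ht hK hS).2 h1, fun T hT hn => ?_⟩
    by_cases htT : t ∈ T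
    · have hTS : T.erase t ⊆ S := by
        intro x hx
        obtain ⟨hx1, hx2⟩ := mem_erase.1 hx
        exact (mem_insert.1 (hT hx2)).resolve_left hx1
      have h3 := h2 (B ∪ T.erase t) (union_subset_union (Subset.refl _) hTS)
        (⟨t, mem_union_left _ ht⟩)
      have h4 := pc_cc' hV hB ht hK (hTS.trans hS)
      rw [insert_erase htT] at h4
      rw [pc_card_union hV hB ht hK (hTS.trans hS)] at h3
      have h5 := card_erase_add_one htT
      omega
    · have hTS : T ⊆ S := by
        intro x hx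
        refine (mem_insert.1 (hT hx)).resolve_left ?_
        rintro rfl
        exact htT hx
      rw [pc_cc hV hB ht hK (hTS.trans hS)]
      exact h2 T (hTS.trans subset_union_right) hn

lemma pc_tgt (hS : S ⊆ K) : Tgt (idn G B t) (insert t K) S ↔ Tgt G V S := by
  constructor
  · rintro ⟨h1, h2, h3, h4⟩
    refine ⟨hS.trans ((comps_sub hK).trans sdiff_subset), (pc_adm hV hB ht hK hS).1 h2, h3, ?_⟩
    rw [← pc_cc hV hB ht hK hS]; exact h4
  · rintro ⟨h1, h2, h3, h4⟩
    refine ⟨hS.trans (subset_insert _ _), (pc_adm hV hB ht hK hS).2 h2, h3, ?_⟩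
    rw [pc_cc hV hB ht hK hS]; exact h4

lemma pc_tgt' (hS : S ⊆ K) (hn : S.Nonempty) :
    Tgt (idn G B t) (insert t K) (insert t S) ↔ Tgt G V (B ∪ S) := by
  have htK : t ∉ K := pc_notMem hV hB ht hK
  have hSV : S ⊆ V := hS.trans ((comps_sub hK).trans sdiff_subset)
  have h4 := pc_cc' hV hB ht hK hS
  have hc1 := pc_card_union hV hB ht hK hS
  have hc2 : (insert t S).card = S.card + 1 := card_insert_of_notMem (fun h => htK (hS h))
  have hn' := hn.card_pos
  have hB2 := hB.card
  constructor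
  · rintro ⟨h1, h2, h3, h5⟩
    refine ⟨union_subset hB.sub hSV, (pc_adm' hV hB ht hK hS).1 h2, by omega, by omega⟩
  · rintro ⟨h1, h2, h3, h5⟩
    refine ⟨insert_subset_insert _ hS, (pc_adm' hV hB ht hK hS).2 h2, by omega, by omega⟩

/-- the allowed sets of a piece, root not in the set -/
theorem al_piece_notMem (hF : NCF G V F) (hS : S ⊆ K) :
    Al (idn G B t) (insert t K) (idnF G F B t (insert t K)) S ↔ Al G V F S := by
  have htK : t ∉ K := pc_notMem hV hB ht hK
  unfold Al
  rw [pc_adm hV hB ht hK hS]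
  apply and_congr_right
  intro hadm
  apply not_congr
  unfold idnF
  rw [sa_up_mkF]
  constructor
  · rintro ⟨T, hT, h1, h2⟩
    rw [if_neg (fun h => htK (hS (hT h)))] at h2
    exact h2.samono hT
  · rintro ⟨M, hM, hMS⟩
    refine ⟨M, hMS, (pc_tgt hV hB ht hK (hMS.trans hS)).2 (hF.tgt M hM), ?_⟩
    rw [if_neg (fun h => htK (hS (hMS h)))]
    exact ⟨M, hM, Subset.refl _⟩

/-- the allowed sets of a piece, root in the set -/
theorem al_piece_mem (hF : NCF G V F) (hfree : ¬ Up F B) (hS : S ⊆ K) :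
    Al (idn G B t) (insert t K) (idnF G F B t (insert t K)) (insert t S) ↔ Al G V F (B ∪ S) := by
  have htK : t ∉ K := pc_notMem hV hB ht hK
  unfold Al
  rw [pc_adm' hV hB ht hK hS]
  apply and_congr_right
  intro hadm
  apply not_congr
  unfold idnF
  rw [sa_up_mkF]
  constructor
  · rintro ⟨T, hT, h1, h2⟩
    split_ifs at h2 with htT
    · refine h2.samono (union_subset subset_union_left ?_)
      intro x hx
      rcases mem_insert.1 (hT hx) with h | h
      · rw [h]; exact mem_union_left _ ht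
      · exact mem_union_right _ h
    · refine h2.samono ?_
      intro x hx
      rcases mem_insert.1 (hT hx) with h | h
      · exact absurd (h ▸ hx) htT
      · exact mem_union_right _ h
  · rintro ⟨M, hM, hMS⟩
    by_cases hMB : (M ∩ B).Nonempty
    · have hMK : M ∩ K ⊆ S := by
        intro x hx
        obtain ⟨hx1, hx2⟩ := mem_inter.1 hx
        rcases mem_union.1 (hMS hx1) with h | h
        · exact absurd h (mem_sdiff.1 (comps_sub hK hx2)).2
        · exact h
      have hMKn : (M ∩ K).Nonempty := by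
        by_contra hcon
        apply hfree
        refine ⟨M, hM, ?_⟩
        intro x hx
        rcases mem_union.1 (hMS hx) with h | h
        · exact h
        · exact absurd ⟨x, mem_inter.2 ⟨hx, hS h⟩⟩ hcon
      have e1 : M ∪ B = B ∪ (M ∩ K) := by
        ext x
        simp only [mem_union, mem_inter]
        constructor
        · rintro (h | h)
          · rcases mem_union.1 (hMS h) with h' | h'
            · exact Or.inl h'
            · exact Or.inr ⟨h, hS h'⟩
          · exact Or.inl h
        · rintro (h | h)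
          · exact Or.inr h
          · exact Or.inl h.1
      have htg : Tgt G V (M ∪ B) :=
        (hF.tgt M hM).union hB (hadm.mono' (union_subset hMS subset_union_left)) hMB
      rw [e1] at htg
      refine ⟨insert t (M ∩ K), insert_subset_insert _ hMK,
        (pc_tgt' hV hB ht hK inter_subset_right hMKn).2 htg, ?_⟩
      rw [if_pos (mem_insert_self _ _)]
      refine ⟨M, hM, ?_⟩
      intro x hx
      rcases mem_union.1 (hMS hx) with h | h
      · exact mem_union_left _ h
      · exact mem_union_right _ (mem_insert_of_mem (mem_inter.2 ⟨hx, hS h⟩))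
    · have hMS' : M ⊆ S := by
        intro x hx
        rcases mem_union.1 (hMS hx) with h | h
        · exact absurd ⟨x, mem_inter.2 ⟨hx, h⟩⟩ hMB
        · exact h
      have htM : t ∉ M := fun h => hMB ⟨t, mem_inter.2 ⟨h, ht⟩⟩
      refine ⟨M, hMS'.trans (subset_insert _ _),
        (pc_tgt hV hB ht hK (hMS'.trans hS)).2 (hF.tgt M hM), ?_⟩
      rw [if_neg htM]
      exact ⟨M, hM, Subset.refl _⟩

end piece

end Pool.Agent.TH
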